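import Pool.Agent.Lib.MP_438f30_pr.U.St

/-! Measurability and equality in law. -/

namespace Pool.Agent.GU

open MeasureTheory ProbabilityTheory Real Finset Pool.Agent.Lib.MP_a0a493_pr Pool.Agent.GL
open scoped InnerProductSpace

namespace Ml

theorem tr {Ω : Type} (m : MeasurableSpace Ω) (F : Ω → Z2 → ℝ) (D : Set Z2) (p q : Z2) (x : ℝ)
    (h : ∀ v ∈ D, Measurable[m] fun ω => F ω v) : MeasurableSet[m] {ω | Tr (F ω) D p q x} := by
  simp only [Tr, Set.ofPred_exists]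
  refine MeasurableSet.iUnion fun S => ?_
  by_cases hS : ↑S ⊆ D
  · exact (MeasurableSet.const _).inter ((MeasurableSet.const _).inter
      (measurableSet_le (Finset.measurable_sum _ fun v hv => (h v (hS hv)).exp) measurable_const))
  · simp [hS]

theorem le {Ω : Type} (m : MeasurableSpace Ω) (F : Ω → Z2 → ℝ) (v w : Z2) (ρ D : ℤ) (x : ℝ)
    (h : ∀ y ∈ Q v (D + 1), Measurable[m] fun ω => F ω y) :
    MeasurableSet[m] {ω | Le (F ω) v ρ D w x} := by
  simp only [Le, Set.ofPred_exists]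
  exact MeasurableSet.iUnion fun u => MeasurableSet.iUnion fun u' =>
    (MeasurableSet.const _).inter ((MeasurableSet.const _).inter (tr m F _ u u' x h))

theorem meas_ex {R : (Z2 → ℝ) → ℕ → (ℕ → Z2) → Prop}
    (hc : ∀ f T x x', (∀ i ≤ T, x i = x' i) → R f T x → R f T x')
    (hm : ∀ T x, MeasurableSet {f | R f T x}) : MeasurableSet {f | ∃ T x, R f T x} := by
  have e : {f | ∃ T x, R f T x} = ⋃ T, ⋃ l : List Z2, {f | R f T fun i => l.getD i 0} := by
    ext f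
    simp only [Set.mem_ofPred_eq, Set.mem_iUnion]
    refine ⟨fun ⟨T, x, h⟩ => ⟨T, (List.range (T + 1)).map x, hc f T x _ (fun i hi => ?_) h⟩,
      fun ⟨T, l, h⟩ => ⟨T, _, h⟩⟩
    simp [List.getD_eq_getElem?_getD, List.getElem?_range (Nat.lt_succ_of_le hi)]
  rw [e]
  exact MeasurableSet.iUnion fun T => MeasurableSet.iUnion fun l => hm T _

theorem walk_congr {n T : ℕ} {x x' : ℕ → Z2} (e : ∀ i ≤ T, x i = x' i) (h : IsWalk n T x) :
    IsWalk n T x' :=
  ⟨e 0 T.zero_le ▸ h.1, e T le_rfl ▸ h.2.1, fun i hi => by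
    rw [← e i hi.le, ← e (i + 1) hi]
    exact h.2.2 i hi⟩

theorem cost_congr {T : ℕ} {x x' : ℕ → Z2} (e : ∀ i ≤ T, x i = x' i) (f : Z2 → ℝ) :
    cost f T x = cost f T x' :=
  sum_congr rfl fun i hi => by rw [e i (Nat.lt_succ_iff.1 (mem_range.1 hi))]

theorem geo_congr {n T : ℕ} {x x' : ℕ → Z2} (e : ∀ i ≤ T, x i = x' i) {f : Z2 → ℝ}
    (h : Geo n f T x) : Geo n f T x' := ⟨walk_congr e h.1, cost_congr e f ▸ h.2⟩

theorem meas_cost (T : ℕ) (x : ℕ → Z2) : Measurable fun f : Z2 → ℝ => cost f T x :=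
  Finset.measurable_sum _ fun _ _ => (measurable_pi_apply _).exp

theorem meas_geo (n T : ℕ) (x : ℕ → Z2) : MeasurableSet {f | Geo n f T x} := by
  have h := (meas_ex (R := fun f T' x' => IsWalk n T' x' ∧ cost f T' x' < cost f T x)
    (fun f T' y y' e h => ⟨walk_congr e h.1, cost_congr e f ▸ h.2⟩) fun T' x' =>
      (MeasurableSet.const _).inter (measurableSet_lt (meas_cost _ _) (meas_cost _ _))).compl
  convert (MeasurableSet.const (IsWalk n T x)).inter h using 1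
  ext f
  simp [Geo]

theorem sh (n : ℕ) (b : ℝ) : MeasurableSet {f : Z2 → ℝ | Sh n b f} := by
  have h1 := meas_ex (R := fun f T x => Geo n f T x) (fun f T y y' e h => geo_congr e h)
    (meas_geo n)
  have h2 := (meas_ex (R := fun f T x => Geo n f T x ∧ b < T)
    (fun f T y y' e h => ⟨geo_congr e h.1, h.2⟩) fun T x =>
      (meas_geo n T x).inter (MeasurableSet.const _)).compl
  convert h1.inter h2 using 1
  ext f
  simp [Sh]

theorem add (n : ℕ) (b c : ℝ) (f : Z2 → ℝ) (h : Sh n b f) : Sh n b fun v => f v + c := by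
  have e : ∀ T x, cost (fun v => f v + c) T x = cost f T x * exp c := fun T x => by
    simp only [cost, exp_add, sum_mul]
  have k : ∀ T x, Geo n (fun v => f v + c) T x ↔ Geo n f T x := fun T x => by
    simp only [Geo, e, mul_le_mul_iff_left₀ (exp_pos c)]
  simpa only [Sh, k] using h

theorem law {Ω Ω' : Type} [MeasurableSpace Ω] [MeasurableSpace Ω'] {P : Measure Ω}
    {P' : Measure Ω'} [IsProbabilityMeasure P] [IsProbabilityMeasure P'] {H : Type}
    [NormedAddCommGroup H] [InnerProductSpace ℝ H] (X : Z2 → Ω → ℝ) (X' : Z2 → Ω' → ℝ)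
    (g g' : Z2 → H) (h : ∀ I : Finset Z2, GF P (fun j : I => X j) fun j => g j)
    (h' : ∀ I : Finset Z2, GF P' (fun j : I => X' j) fun j => g' j)
    (hg : ∀ v w, ⟪g v, g w⟫_ℝ = ⟪g' v, g' w⟫_ℝ) (B : Set (Z2 → ℝ)) (hB : MeasurableSet B) :
    P {ω | (fun v => X v ω) ∈ B} = P' {ω | (fun v => X' v ω) ∈ B} := by
  have m1 : AEMeasurable (fun ω t => X t ω) P :=
    aemeasurable_pi_lambda _ fun t => (h {t}).meas ⟨t, Finset.mem_singleton_self t⟩
  have m2 : AEMeasurable (fun ω t => X' t ω) P' :=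
    aemeasurable_pi_lambda _ fun t => (h' {t}).meas ⟨t, Finset.mem_singleton_self t⟩
  have l1 := isProjectiveLimit_map (X := X) m1
  have l2 := isProjectiveLimit_map (X := X') m2
  have e : ∀ I : Finset Z2, P.map (fun ω => I.restrict (X · ω))
      = P'.map (fun ω => I.restrict (X' · ω)) := fun I =>
    (h I).map_eq (h' I) fun i j => hg i j
  simp_rw [e] at l1
  have e2 := congrArg (fun μ : Measure (Z2 → ℝ) => μ B) (l1.unique l2)
  simp only [Measure.map_apply_of_aemeasurable m1 hB, Measure.map_apply_of_aemeasurable m2 hB] at e2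
  exact e2

/-- symmetries of the lattice -/
def Ok (ψ : Z2 → Z2) : Prop :=
  ∃ σ : Equiv.Perm (Fin 2), ∀ x y i, |ψ x i - ψ y i| = |x (σ i) - y (σ i)|

variable {ψ : Z2 → Z2}

theorem Ok.inj (h : Ok ψ) : Function.Injective ψ := fun x y e => funext fun i => by
  obtain ⟨σ, h⟩ := h
  have := h x y (σ.symm i)
  rwa [e, sub_self, abs_zero, σ.apply_symm_apply, eq_comm, abs_eq_zero, sub_eq_zero] at this

theorem Ok.adj (h : Ok ψ) {x y : Z2} (a : Adj x y) : Adj (ψ x) (ψ y) := by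
  obtain ⟨σ, h⟩ := h
  simp only [Adj, h]
  exact (Equiv.sum_comp σ fun j => |y j - x j|).trans a

theorem Ok.near (h : Ok ψ) {r : ℤ} {x y : Z2} : Near r (ψ x) (ψ y) ↔ Near r x y := by
  obtain ⟨σ, h⟩ := h
  simp only [Near, h]
  exact σ.forall_congr_right (q := fun j => |x j - y j| ≤ r)

theorem Ok.nrm (h : Ok ψ) (x y : Z2) : ‖pt (ψ x) - pt (ψ y)‖ = ‖pt x - pt y‖ := by
  obtain ⟨σ, h⟩ := h
  simp only [EuclideanSpace.norm_eq, PiLp.sub_apply, pt_apply, Real.norm_eq_abs]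
  rw [← Equiv.sum_comp σ fun j => |(x j : ℝ) - y j| ^ 2]
  congr 1
  refine sum_congr rfl fun i _ => ?_
  have := congrArg (Int.cast (R := ℝ)) (h x y i)
  push_cast at this
  rw [this]

theorem Ok.tr (h : Ok ψ) {f : Z2 → ℝ} {D D' : Set Z2} (hD : ∀ y ∈ D, ψ y ∈ D') {p q : Z2} {x : ℝ}
    (a : Tr (fun y => f (ψ y)) D p q x) : Tr f D' (ψ p) (ψ q) x := by
  obtain ⟨S, a, b, c⟩ := a
  have m : ∀ y ∈ (S : Set Z2), ψ y ∈ (S.image ψ : Set Z2) := fun y hy =>
    mem_coe.2 (mem_image_of_mem ψ hy)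
  refine ⟨S.image ψ, fun y hy => ?_, b.induct (R := fun y => Cn (S.image ψ) (ψ p) (ψ y))
    (.refl (m p b.1)) fun _ y _ ih hy hn => ih.tail (m y hy) (h.adj hn), ?_⟩
  · obtain ⟨z, hz, rfl⟩ := mem_image.1 (mem_coe.1 hy)
    exact hD z (a hz)
  · rwa [cs, sum_image h.inj.injOn]

theorem Ok.le (h : Ok ψ) {f : Z2 → ℝ} {v w : Z2} {ρ D : ℤ} {x : ℝ}
    (a : Le (fun y => f (ψ y)) v ρ D w x) : Le f (ψ v) ρ D (ψ w) x := by
  obtain ⟨u, u', a, b, c⟩ := a
  exact ⟨ψ u, ψ u', h.near.2 a, b.imp (congrArg ψ) (mt h.near.1),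
    h.tr (fun y hy => h.near.2 hy) c⟩

section

variable {Ω : Type} [MeasurableSpace Ω] {P : Measure Ω} [IsProbabilityMeasure P] {H : Type}
  [NormedAddCommGroup H] [InnerProductSpace ℝ H] {W : H →ₗ[ℝ] (Ω → ℝ)} (hW : Iso P W) {g : Z2 → H}
  (hg : ∀ v w v' w', ‖pt v - pt w‖ = ‖pt v' - pt w'‖ → ⟪g v, g w⟫_ℝ = ⟪g v', g w'⟫_ℝ)

include hW hg

theorem Ok.mono (h : Ok ψ) {R R' : (Z2 → ℝ) → Prop} (hR : MeasurableSet {f | R f})
    (k : ∀ f, R (fun y => f (ψ y)) → R' f) :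
    P.real {ω | R fun y => W (g y) ω} ≤ P.real {ω | R' fun y => W (g y) ω} := by
  have e := law (fun v => W (g v)) (fun v => W (g (ψ v))) g (fun v => g (ψ v))
    (fun I => hW.gf _) (fun I => hW.gf _) (fun v w => hg _ _ _ _ (h.nrm v w).symm) _ hR
  refine (congrArg ENNReal.toReal e).trans_le ?_
  exact measureReal_mono (fun ω hω => k (fun y => W (g y) ω) hω)

theorem ll_le (j : ℕ) (v v' : Z2) (x : ℝ) : P.real {ω | LL (fun y => W (g y) ω) j v x} ≤
    P.real {ω | LL (fun y => W (g y) ω) j v' x} := by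
  have h : Ok fun y => y + (v' - v) := ⟨1, fun x y i => by simp⟩
  refine h.mono hW hg (R := fun f => LL f j v x) (R' := fun f => LL f j v' x)
    (le _ (fun f => f) _ _ _ _ _ fun y _ => measurable_pi_apply y) fun f k => ?_
  have := h.le k
  rwa [add_sub_cancel, add_right_comm, add_sub_cancel] at this

theorem tr_le {p q p' q' : Z2} (σ : Equiv.Perm (Fin 2))
    (e : ∀ i, |q' i - p' i| = |q (σ i) - p (σ i)|) (x : ℝ) :
    P.real {ω | Tr (fun y => W (g y) ω) Set.univ p q x} ≤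
      P.real {ω | Tr (fun y => W (g y) ω) Set.univ p' q' x} := by
  have : ∀ i, ∃ ε : ℤ, |ε| = 1 ∧ q' i - p' i = ε * (q (σ i) - p (σ i)) := fun i =>
    (abs_eq_abs.1 (e i)).elim (fun k => ⟨1, rfl, by rw [k, one_mul]⟩)
      fun k => ⟨-1, rfl, by rw [k, neg_one_mul]⟩
  choose ε e1 e2 using this
  have h : Ok fun y i => p' i + ε i * (y (σ i) - p (σ i)) := ⟨σ, fun x y i => by
    rw [add_sub_add_left_eq_sub, ← mul_sub, abs_mul, e1, one_mul, sub_sub_sub_cancel_right]⟩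
  refine h.mono hW hg (R := fun f => Tr f Set.univ p q x) (R' := fun f => Tr f Set.univ p' q' x)
    (tr _ (fun f => f) _ _ _ _ fun y _ => measurable_pi_apply y) fun f k => ?_
  have := h.tr (D' := Set.univ) (fun _ _ => trivial) k
  simpa [← e2] using this

theorem tr_eq {p q p' q' : Z2} (σ : Equiv.Perm (Fin 2))
    (e : ∀ i, |q' i - p' i| = |q (σ i) - p (σ i)|) (x : ℝ) :
    P.real {ω | Tr (fun y => W (g y) ω) Set.univ p q x} =
      P.real {ω | Tr (fun y => W (g y) ω) Set.univ p' q' x} :=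
  (tr_le hW hg σ e x).antisymm
    (tr_le hW hg σ.symm (fun i => by rw [e, σ.apply_symm_apply]) x)

end

end Ml

theorem ml : ML where
  tr := Ml.tr
  le := Ml.le
  sh := Ml.sh
  add := Ml.add
  law := Ml.law
  ll := fun hW g hg => by
    refine ⟨fun j v x => (Ml.ll_le hW hg j v 0 x).antisymm (Ml.ll_le hW hg j 0 v x),
      fun p q v x => ?_⟩
    have two : ∀ i a b : Fin 2, a ≠ b → i = a ∨ i = b := by decide
    have sw : ∀ d d' a b : Fin 2, d ≠ d' → a ≠ b → Equiv.swap d a d' = b := by decide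
    obtain ⟨i₀, i₁, n, h⟩ : ∃ i₀ i₁ : Fin 2, i₀ ≠ i₁ ∧ |q i₁ - p i₁| ≤ |q i₀ - p i₀| :=
      (le_total |q 1 - p 1| |q 0 - p 0|).elim (fun k => ⟨0, 1, by decide, k⟩)
        fun k => ⟨1, 0, by decide, k⟩
    refine ⟨|q i₀ - p i₀|, q i₁ - p i₁, abs_nonneg _, h, fun i => ?_, fun k => ?_,
      fun c k => (dvd_abs _ _).2 (k i₀), fun s d d' hs hd =>
        Ml.tr_eq hW hg (Equiv.swap d i₀) (fun i => ?_) x⟩
    · rw [abs_sub_comm]
      rcases two i i₀ i₁ n with rfl | rfl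
      exacts [le_rfl, h]
    · have := k i₀
      rw [abs_sub_comm] at this
      omega
    · rcases two i d d' hd with rfl | rfl
      · simp [Pi.single_eq_of_ne hd]
      · rw [sw d i i₀ i₁ hd n]
        rcases hs with rfl | rfl <;> simp [Pi.single_eq_of_ne hd.symm, abs_sub_comm]

end Pool.Agent.GU
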