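import Pool.Agent.Lib.MP_438f30_pr.U.St

/-! Concentration of the least cost by the rotation argument of Maurey and Pisier. -/

namespace Pool.Agent.GU

open MeasureTheory ProbabilityTheory Real Finset Pool.Agent.Lib.MP_a0a493_pr Pool.Agent.GL Filter
open scoped InnerProductSpace ENNReal Topology

theorem mp_le {f h : ℝ → ℝ} {d e θ : ℝ} (hf : HasDerivWithinAt f d (Set.Ioi θ) θ)
    (hh : HasDerivWithinAt h e (Set.Ioi θ) θ) (hle : ∀ u, f u ≤ h u) (he : f θ = h θ) : d ≤ e := by
  rw [hasDerivWithinAt_iff_tendsto_slope' (by simp)] at hf hh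
  refine le_of_tendsto_of_tendsto hf hh ?_
  filter_upwards [self_mem_nhdsWithin] with u hu
  rw [slope_def_field, slope_def_field, he]
  exact div_le_div_of_nonneg_right (by linarith [hle u]) (sub_pos.2 hu).le

theorem mp_min {f h : ℝ → ℝ} {d e θ : ℝ} (hf : HasDerivWithinAt f d (Set.Ioi θ) θ)
    (hh : HasDerivWithinAt h e (Set.Ioi θ) θ) :
    ∃ k, HasDerivWithinAt (fun u => min (f u) (h u)) k (Set.Ioi θ) θ := by
  rcases lt_trichotomy (f θ) (h θ) with a | a | a
  · refine ⟨d, hf.congr_of_eventuallyEq ?_ (min_eq_left a.le)⟩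
    filter_upwards [hf.continuousWithinAt.eventually_lt hh.continuousWithinAt a] with u hu
    exact min_eq_left hu.le
  · refine ⟨min d e, ?_⟩
    rw [hasDerivWithinAt_iff_tendsto_slope' (by simp)] at hf hh ⊢
    refine (hf.min hh).congr' ?_
    filter_upwards [self_mem_nhdsWithin] with u hu
    simp only [slope_def_field]
    rw [← a, min_self, min_div_div_right (sub_pos.2 hu).le, min_sub_sub_right]
  · refine ⟨e, hh.congr_of_eventuallyEq ?_ (min_eq_right a.le)⟩
    filter_upwards [hh.continuousWithinAt.eventually_lt hf.continuousWithinAt a] with u hu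
    exact min_eq_right hu.le

theorem mp_inf {ι : Type*} (φ φ' : ι → ℝ → ℝ) (θ : ℝ) {Γ : Finset ι} (hΓ : Γ.Nonempty)
    (hd : ∀ S ∈ Γ, HasDerivAt (φ S) (φ' S θ) θ) :
    ∃ k, HasDerivWithinAt (fun u => Γ.inf' hΓ fun S => φ S u) k (Set.Ioi θ) θ := by
  induction hΓ using Finset.Nonempty.cons_induction with
  | singleton a => exact ⟨_, by simpa using (hd a (by simp)).hasDerivWithinAt⟩
  | cons a s ha hs ih =>
    obtain ⟨k, hk⟩ := ih fun S hS => hd S (mem_cons_of_mem hS)
    simp only [inf'_cons hs]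
    exact mp_min (hd a (mem_cons_self _ _)).hasDerivWithinAt hk

/-- the fundamental theorem of calculus for a minimum, in exponential form -/
theorem mp_ftc {ι : Type*} (φ φ' : ι → ℝ → ℝ) {Γ : Finset ι} (hΓ : Γ.Nonempty)
    (hd : ∀ S ∈ Γ, ∀ θ, HasDerivAt (φ S) (φ' S θ) θ) {L M t : ℝ} (hL : 0 ≤ L) (hM : 0 ≤ M)
    {Ψ : ℝ → ℝ≥0∞} (hΨ : Measurable Ψ)
    (h : ∀ θ, ∃ S ∈ Γ, (∀ S' ∈ Γ, φ S θ ≤ φ S' θ) ∧
      Ψ θ = ENNReal.ofReal (exp (L * M * φ' S θ - M * t)))
    (ht : ∃ S ∈ Γ, ∀ S' ∈ Γ, φ S 0 + t ≤ φ S' L) :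
    ENNReal.ofReal L ≤ ∫⁻ θ in Set.Ioc 0 L, Ψ θ := by
  by_cases hT : ∫⁻ θ in Set.Ioc 0 L, Ψ θ = ⊤
  · rw [hT]; exact le_top
  choose k hk using fun θ => mp_inf φ φ' θ hΓ fun S hS => hd S hS θ
  set F : ℝ → ℝ := fun u => Γ.inf' hΓ fun S => φ S u with hF
  have cF : Continuous F := Continuous.finset_inf'_apply hΓ fun S hS =>
    continuous_iff_continuousAt.2 fun θ => (hd S hS θ).continuousAt
  have hi : IntegrableOn (fun θ => (Ψ θ).toReal) (Set.Icc 0 L) := by
    rw [integrableOn_Icc_iff_integrableOn_Ioc]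
    exact integrable_toReal_of_lintegral_ne_top hΨ.aemeasurable hT
  have key := intervalIntegral.sub_le_integral_of_hasDeriv_right_of_le
    (g := fun u => u * (1 - M * t) + L * M * F u) (g' := fun u => 1 * (1 - M * t) + L * M * k u)
    hL (by fun_prop) (fun θ _ => ((hasDerivWithinAt_id θ _).mul_const _).add
      ((hk θ).const_mul _)) hi fun θ _ => by
      obtain ⟨S, hS, hm, e⟩ := h θ
      have a := mp_le (hk θ) (hd S hS θ).hasDerivWithinAt (fun u => inf'_le _ hS)
        (le_antisymm (inf'_le _ hS) (le_inf' _ _ hm))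
      rw [e, ENNReal.toReal_ofReal (exp_pos _).le]
      have := add_one_le_exp (L * M * φ' S θ - M * t)
      nlinarith [mul_le_mul_of_nonneg_left a (mul_nonneg hL hM)]
  rw [intervalIntegral.integral_of_le hL, integral_toReal hΨ.aemeasurable
    (ae_lt_top hΨ hT)] at key
  refine (ENNReal.ofReal_le_iff_le_toReal hT).2 (le_trans ?_ key)
  obtain ⟨S, hS, hm⟩ := ht
  have a : F 0 ≤ φ S 0 := inf'_le _ hS
  have b : φ S 0 + t ≤ F L := le_inf' _ _ hm
  nlinarith [mul_le_mul_of_nonneg_left (by linarith : F 0 + t ≤ F L) (mul_nonneg hL hM)]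

variable {Ω : Type} [MeasurableSpace Ω] {P : Measure Ω} [IsProbabilityMeasure P] {H : Type}
  [NormedAddCommGroup H] [InnerProductSpace ℝ H] {W : H →ₗ[ℝ] (Ω → ℝ)}

/-- two independent copies -/
def W2 (W : H →ₗ[ℝ] (Ω → ℝ)) : WithLp 2 (H × H) →ₗ[ℝ] (Ω × Ω → ℝ) where
  toFun h p := W h.fst p.1 + W h.snd p.2
  map_add' a b := by
    funext p
    simp only [WithLp.add_fst, WithLp.add_snd, map_add, Pi.add_apply]
    ring
  map_smul' c a := by
    funext p
    simp only [WithLp.smul_fst, WithLp.smul_snd, map_smul, Pi.smul_apply, smul_eq_mul,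
      RingHom.id_apply]
    ring

theorem iso_W2 (hW : Iso P W) : Iso (P.prod P) (W2 W) := by
  refine ⟨fun h => ((hW.meas _).comp measurable_fst).add ((hW.meas _).comp measurable_snd),
    fun h => ?_⟩
  show ∫ p : Ω × Ω, ch (W h.fst p.1 + W h.snd p.2) ∂P.prod P = _
  simp only [ch_add]
  rw [integral_prod_mul (fun ω => ch (W h.fst ω)) fun ω => ch (W h.snd ω), hW.law, hW.law,
    ← gc_add, WithLp.prod_norm_sq_eq_of_L2]

theorem mp_law (hW : Iso P W) {T : Type} [Countable T] (v v' : T → H)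
    (hg : ∀ i j, ⟪v i, v j⟫_ℝ = ⟪v' i, v' j⟫_ℝ) :
    (P.map fun ω t => W (v t) ω) = P.map fun ω t => W (v' t) ω := by
  have m : ∀ v : T → H, AEMeasurable (fun ω t => W (v t) ω) P := fun v =>
    (measurable_pi_lambda _ fun t => hW.meas _).aemeasurable
  have l1 := isProjectiveLimit_map (X := fun t => W (v t)) (m v)
  have l2 := isProjectiveLimit_map (X := fun t => W (v' t)) (m v')
  have e : ∀ I : Finset T, P.map (fun ω => I.restrict fun t => W (v t) ω)
      = P.map (fun ω => I.restrict fun t => W (v' t) ω) := fun I =>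
    (hW.gf fun j : I => v j).map_eq (hW.gf fun j : I => v' j) fun i j => hg i j
  simp_rw [e] at l1
  exact l1.unique l2

theorem mp_rot (hW : Iso P W) (g : Z2 → H) {Ψ : (Z2 → ℝ) × (Z2 → ℝ) → ℝ≥0∞} (hΨ : Measurable Ψ)
    (θ : ℝ) : ∫⁻ p : Ω × Ω, Ψ (fun v => cos θ * W (g v) p.1 + sin θ * W (g v) p.2,
      fun v => -sin θ * W (g v) p.1 + cos θ * W (g v) p.2) ∂P.prod P =
      ∫⁻ p : Ω × Ω, Ψ (fun v => W (g v) p.1, fun v => W (g v) p.2) ∂P.prod P := by
  let v : ℝ → Z2 ⊕ Z2 → WithLp 2 (H × H) := fun θ => Sum.elim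
    (fun a => WithLp.toLp 2 (cos θ • g a, sin θ • g a))
    fun a => WithLp.toLp 2 (-sin θ • g a, cos θ • g a)
  have hΨ' : Measurable fun y : Z2 ⊕ Z2 → ℝ => Ψ (fun a => y (.inl a), fun a => y (.inr a)) :=
    hΨ.comp (by fun_prop)
  have m : ∀ θ, Measurable fun p t => W2 W (v θ t) p := fun θ =>
    measurable_pi_lambda _ fun t => (iso_W2 hW).meas _
  have e := congrArg (fun μ => ∫⁻ y, Ψ (fun a => y (.inl a), fun a => y (.inr a)) ∂μ)
    (mp_law (iso_W2 hW) (v θ) (v 0) fun i j => by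
      have := sin_sq_add_cos_sq θ
      rcases i with a | a <;> rcases j with b | b <;>
        simp only [v, Sum.elim_inl, Sum.elim_inr, WithLp.prod_inner_apply, real_inner_smul_left,
          real_inner_smul_right, sin_zero, cos_zero]
      · linear_combination ⟪g a, g b⟫_ℝ * this
      · ring
      · ring
      · linear_combination ⟪g a, g b⟫_ℝ * this)
  simp only [lintegral_map hΨ' (m _)] at e
  simpa [v, W2] using e

theorem mp_mgf (hW : Iso P W) (h : H) (c b : ℝ) :
    ∫⁻ ω, ENNReal.ofReal (exp (c * W h ω - b)) ∂P =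
      ENNReal.ofReal (exp (‖h‖ ^ 2 * c ^ 2 / 2 - b)) := by
  have hi : Integrable (fun ω => exp (c * W h ω)) P := by
    have := integrable_exp_mul_gaussianReal (μ := 0) (v := ‖h‖₊ ^ 2) c
    rw [← hW.map_eq h] at this
    exact (integrable_map_measure this.aestronglyMeasurable (hW.meas h).aemeasurable).1 this
  simp only [exp_sub]
  rw [← ofReal_integral_eq_lintegral_ofReal (hi.div_const _) (ae_of_all _ fun _ => by positivity),
    integral_div]
  have := mgf_gaussianReal (hW.map_eq h) c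
  rw [mgf] at this
  rw [this]
  simp

theorem mp_layer (E : ℕ → Set Ω) {a B η : ℝ} (ha : 0 ≤ a) (hB : 0 ≤ B) (hη : a + 1 ≤ η)
    (hE : ∀ i, P.real (E i) ≤ B * exp (-(η * i))) {f : Ω → ℝ≥0∞}
    (hf : ∀ ω (i : ℕ), ω ∉ E i → f ω ≤ ENNReal.ofReal (exp (a * (i + 1)))) :
    ∫⁻ ω, f ω ∂P ≤ ENNReal.ofReal ((1 + 2 * B) * exp (2 * a)) := by
  let c : ℕ → ℝ≥0∞ := fun i => ENNReal.ofReal (exp (a * (i + 2)))
  have h1 : ∀ ω, f ω ≤ c 0 + ∑' i, (toMeasurable P (E i)).indicator (fun _ => c i) ω := fun ω => by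
    have hc : ∀ i, ω ∈ E i → (toMeasurable P (E i)).indicator (fun _ => c i) ω = c i :=
      fun i hi => Set.indicator_of_mem (subset_toMeasurable _ _ hi) _
    by_cases h : ∃ i, ω ∉ E i
    · classical
      have h0 := hf ω _ (Nat.find_spec h)
      rcases hn : Nat.find h with _ | n
      · rw [hn] at h0
        refine (h0.trans (ENNReal.ofReal_le_ofReal (exp_le_exp.2 ?_))).trans le_self_add
        push_cast
        linarith
      · rw [hn] at h0
        have := Nat.find_min h (m := n) (by omega)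
        refine le_add_left (le_trans ?_ (ENNReal.le_tsum n))
        rw [hc n (not_not.1 this)]
        refine h0.trans (le_of_eq ?_)
        simp only [c]
        push_cast
        ring_nf
    · push Not at h
      refine le_add_left (le_top.trans ?_)
      rw [← ENNReal.tsum_const_eq_top_of_ne_zero (α := ℕ) (c := 1) one_ne_zero]
      refine ENNReal.tsum_le_tsum fun i => ?_
      rw [hc i (h i)]
      exact ENNReal.one_le_ofReal.2 (one_le_exp (by positivity))
  refine (lintegral_mono h1).trans ?_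
  rw [lintegral_add_left measurable_const, lintegral_const, measure_univ, mul_one,
    lintegral_tsum fun i => (measurable_const.indicator (measurableSet_toMeasurable _ _)).aemeasurable]
  have h2 : ∀ i : ℕ, ∫⁻ ω, (toMeasurable P (E i)).indicator (fun _ => c i) ω ∂P ≤
      ENNReal.ofReal (B * exp (2 * a) * (1 / 2) ^ i) := fun i => by
    rw [lintegral_indicator_const (measurableSet_toMeasurable _ _), measure_toMeasurable,
      ← ofReal_measureReal, ← ENNReal.ofReal_mul (exp_pos _).le]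
    refine ENNReal.ofReal_le_ofReal ((mul_le_mul_of_nonneg_left (hE i) (exp_pos _).le).trans ?_)
    have e1 : exp (-1) ≤ 1 / 2 := by
      rw [exp_neg, one_div]
      exact inv_anti₀ two_pos (by linarith [add_one_le_exp 1])
    have e2 := pow_le_pow_left₀ (exp_pos _).le e1 i
    rw [← exp_nat_mul] at e2
    rw [mul_left_comm, ← exp_add, mul_assoc]
    refine mul_le_mul_of_nonneg_left (le_trans ?_ (mul_le_mul_of_nonneg_left e2 (exp_pos _).le)) hB
    rw [← exp_add]
    refine exp_le_exp.2 ?_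
    nlinarith [mul_le_mul_of_nonneg_right hη (Nat.cast_nonneg (α := ℝ) i)]
  refine (add_le_add_right (ENNReal.tsum_le_tsum h2) _).trans ?_
  rw [← ENNReal.ofReal_tsum_of_nonneg (fun i => by positivity)
    (summable_geometric_two.mul_left _), tsum_mul_left, tsum_geometric_two,
    ← ENNReal.ofReal_add (exp_pos _).le (by positivity)]
  refine le_of_eq (congrArg _ ?_)
  push_cast
  ring_nf

theorem cs_pos (y : Z2 → ℝ) {S : Finset Z2} (h : S.Nonempty) : 0 < cs y S :=
  sum_pos (fun _ _ => exp_pos _) h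

theorem mp : sMP := by
  intro Ω _ P _ H _ _ W hW g Γ σ B η M x t hne hσ hB hM hx hη hE
  classical
  rcases Γ.eq_empty_or_nonempty with rfl | hΓ
  · simp only [notMem_empty, false_and, exists_false, Set.ofPred_false, measureReal_empty, mul_zero]
    positivity
  let D : Finset Z2 → (Z2 → ℝ) × (Z2 → ℝ) → ℝ := fun S q =>
    ∑ v ∈ S, exp (q.1 v) / cs q.1 S * q.2 v
  let Φ : Γ → (Z2 → ℝ) × (Z2 → ℝ) → ℝ≥0∞ := fun S q => if ∀ S' ∈ Γ, cs q.1 S ≤ cs q.1 S' then
    ENNReal.ofReal (exp (π / 2 * M * D S q - M * t)) else ⊤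
  let Ψ : (Z2 → ℝ) × (Z2 → ℝ) → ℝ≥0∞ := fun q => ⨅ S, Φ S q
  have mc : ∀ S, Measurable fun q : (Z2 → ℝ) × (Z2 → ℝ) => cs q.1 S := fun S => by
    unfold cs
    fun_prop
  have mΨ : Measurable Ψ := by
    refine Measurable.iInf fun S => Measurable.ite ?_ ?_ measurable_const
    · simp only [Set.ofPred_forall]
      exact MeasurableSet.iInter fun S' => MeasurableSet.iInter fun _ =>
        measurableSet_le (mc _) (mc _)
    · have := mc S
      simp only [D]
      fun_prop
  have hΦ : ∀ q S (hS : S ∈ Γ), (∀ S' ∈ Γ, cs q.1 S ≤ cs q.1 S') →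
      Ψ q ≤ ENNReal.ofReal (exp (π / 2 * M * D S q - M * t)) := fun q S hS h =>
    (iInf_le _ ⟨S, hS⟩).trans (if_pos h).le
  have hΨ : ∀ q, ∃ S ∈ Γ, (∀ S' ∈ Γ, cs q.1 S ≤ cs q.1 S') ∧
      Ψ q = ENNReal.ofReal (exp (π / 2 * M * D S q - M * t)) := fun q => by
    have : Nonempty Γ := hΓ.to_subtype
    obtain ⟨S, hS⟩ := exists_eq_ciInf_of_finite (f := fun S => Φ S q)
    obtain ⟨S₀, h₀, hm⟩ := Γ.exists_min_image (cs q.1) hΓ
    by_cases h : ∀ S' ∈ Γ, cs q.1 S ≤ cs q.1 S'
    · exact ⟨S, S.2, h, hS.symm.trans (if_pos h)⟩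
    · have := hΦ q S₀ h₀ hm
      rw [show Ψ q = ⊤ from hS.symm.trans (if_neg h)] at this
      exact absurd this (by simp)
  let R : Ω × Ω → ℝ → (Z2 → ℝ) × (Z2 → ℝ) := fun p θ =>
    (fun v => cos θ * W (g v) p.1 + sin θ * W (g v) p.2,
      fun v => -sin θ * W (g v) p.1 + cos θ * W (g v) p.2)
  have mR : Measurable (Function.uncurry fun p θ => Ψ (R p θ)) := by
    have := fun v => hW.meas (g v)
    refine mΨ.comp ?_
    simp only [R]
    fun_prop
  have hπ : 0 < π / 2 := by positivity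
  have h1 : ∀ p : Ω × Ω, p ∈ {ω | ∃ S ∈ Γ, cs (fun v => W (g v) ω) S ≤ x} ×ˢ
      {ω | ∀ S ∈ Γ, x * exp t < cs (fun v => W (g v) ω) S} →
      ENNReal.ofReal (π / 2) ≤ ∫⁻ θ in Set.Ioc 0 (π / 2), Ψ (R p θ) := by
    rintro p ⟨⟨S, hS, h⟩, h'⟩
    refine mp_ftc (fun S θ => log (cs (R p θ).1 S)) (fun S θ => D S (R p θ)) hΓ
      (fun S hS θ => ?_) hπ.le hM (t := t) mR.of_uncurry_left (fun θ => ?_)
      ⟨S, hS, fun S' hS' => ?_⟩
    · refine ((HasDerivAt.fun_sum fun v _ => (((hasDerivAt_cos θ).mul_const (W (g v) p.1)).add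
        ((hasDerivAt_sin θ).mul_const (W (g v) p.2))).exp).log (cs_pos _ (hne S hS)).ne').congr_deriv ?_
      simp only [D, sum_div]
      exact sum_congr rfl fun v _ => (div_mul_eq_mul_div _ _ _).symm
    · obtain ⟨S, hS, h, e⟩ := hΨ (R p θ)
      exact ⟨S, hS, fun S' hS' => log_le_log (cs_pos _ (hne S hS)) (h S' hS'), e⟩
    · have a := log_le_log (cs_pos _ (hne S hS)) h
      have b := log_le_log (by positivity) (h' S' hS').le
      rw [log_mul hx.ne' (exp_pos _).ne', log_exp] at b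
      simp only [R, cos_zero, sin_zero, cos_pi_div_two, sin_pi_div_two, one_mul, zero_mul,
        add_zero, zero_add]
      linarith
  have h2 := (mul_le_mul_right (measure_mono h1) _).trans
    (mul_meas_ge_le_lintegral₀ (μ := P.prod P) mR.lintegral_prod_right.aemeasurable _)
  rw [lintegral_lintegral_swap mR.aemeasurable, Measure.prod_prod] at h2
  simp only [R, mp_rot hW g mΨ, lintegral_const, Measure.restrict_apply_univ, Real.volume_Ioc,
    sub_zero] at h2
  rw [mul_comm _ (ENNReal.ofReal _), ENNReal.mul_le_mul_iff_right (by simpa using pi_pos)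
    ENNReal.ofReal_ne_top] at h2
  have h3 := mp_layer (P := P) _ (a := 2 * M ^ 2 * σ) (by positivity) hB hη hE
    (f := fun ω => ENNReal.ofReal (exp (M * t)) *
      ∫⁻ ω', Ψ (fun v => W (g v) ω, fun v => W (g v) ω') ∂P) fun ω i hi => by
    obtain ⟨S, hS, hm⟩ := Γ.exists_min_image (cs fun v => W (g v) ω) hΓ
    have hZ := not_lt.1 fun h => hi ⟨S, hS, hm, h⟩
    have a := mp_mgf hW (∑ v ∈ S, (exp (W (g v) ω) / cs (fun v => W (g v) ω) S) • g v)
      (π / 2 * M) (M * t)
    have b := lintegral_mono (μ := P) fun ω' =>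
      hΦ (fun v => W (g v) ω, fun v => W (g v) ω') S hS hm
    simp only [map_sum, map_smul, Finset.sum_apply, Pi.smul_apply, smul_eq_mul] at a
    refine (mul_le_mul_right (b.trans a.le) _).trans ?_
    rw [← ENNReal.ofReal_mul (exp_pos _).le, ← exp_add]
    refine ENNReal.ofReal_le_ofReal (exp_le_exp.2 ?_)
    have c : (π / 2 * M) ^ 2 ≤ (2 * M) ^ 2 := pow_le_pow_left₀ (by positivity)
      (mul_le_mul_of_nonneg_right (by linarith [pi_le_four]) hM) 2
    have := mul_le_mul hZ c (sq_nonneg _) (by positivity)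
    nlinarith
  rw [lintegral_const_mul' _ _ ENNReal.ofReal_ne_top] at h3
  have h4 := (mul_le_mul_right (h2.trans (lintegral_prod_le _)) _).trans h3
  rw [← ofReal_measureReal, ← ofReal_measureReal, ← ENNReal.ofReal_mul measureReal_nonneg,
    ← ENNReal.ofReal_mul (exp_pos _).le, ENNReal.ofReal_le_ofReal_iff (by positivity)] at h4
  rw [exp_sub, ← mul_div_assoc, le_div_iff₀ (exp_pos _), show 4 * M ^ 2 * σ = 2 * (2 * M ^ 2 * σ) by
    ring]
  linarith

end Pool.Agent.GU
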