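import Pool.Agent.Lib.MP_438f30_pr.U.St

/-! Chaining for Lipschitz families. -/

namespace Pool.Agent.GU

open MeasureTheory ProbabilityTheory Real Finset Pool.Agent.Lib.MP_a0a493_pr Pool.Agent.GL

namespace Osc

variable {Ω : Type} [MeasurableSpace Ω] {P : Measure Ω} [IsProbabilityMeasure P] {H : Type}
  [NormedAddCommGroup H] [InnerProductSpace ℝ H] {W : H →ₗ[ℝ] (Ω → ℝ)}

theorem tail (h : Iso P W) {v : H} {ρ y : ℝ} (hv : ‖v‖ ≤ ρ) (hy : 0 ≤ y) :
    P.real {ω | 2 * ρ * y < |W v ω|} ≤ 2 * exp (-(2 * y ^ 2)) := by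
  rcases ((norm_nonneg v).trans hv).eq_or_lt with e | e
  · obtain rfl : v = 0 := norm_le_zero_iff.1 (e ▸ hv)
    simp [← e, (exp_pos _).le]
  · have k : ∀ u : H, ‖u‖ ≤ ρ → P.real {ω | 2 * ρ * y ≤ W u ω} ≤ exp (-(2 * y ^ 2)) := fun u hu =>
      (h.tail (V := ρ ^ 2) (t := 2 * y / ρ) (pow_le_pow_left₀ (norm_nonneg _) hu 2)
        (by positivity) _).trans_eq (by congr 1; field_simp; ring)
    refine (sub_le2 (k v hv) (k (-v) (by rwa [norm_neg])) fun ω a b => ?_).trans_eq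
      (two_mul _).symm
    simp only [Set.mem_ofPred_eq, map_neg, Pi.neg_apply, not_le] at a b ⊢
    rcases lt_abs.1 a with c | c <;> linarith

theorem lev (h : Iso P W) (u : Z2 → H) {ρ s : ℝ} (hs : 0 ≤ s) (n : ℕ)
    (hu : ∀ x ∈ box 2 (2 ^ n), ‖u x‖ ≤ ρ) :
    P.real {ω | ∃ x ∈ box 2 (2 ^ n), 2 * ρ * (s + 2 + n) < |W (u x) ω|} ≤
      exp (-s ^ 2) * (1 / 2) ^ (n + 1) := by
  refine (union_le _ (fun x => {ω | _ < |W (u x) ω|}) fun x hx =>
    tail h (hu x hx) (by positivity)).trans ?_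
  have a : ((box 2 (2 ^ n)).card : ℝ) ≤ 25 * 4 ^ n := by
    have : (1 : ℝ) ≤ 2 ^ n := one_le_pow₀ one_le_two
    rw [card_box, show (4 : ℝ) ^ n = 2 ^ n * 2 ^ n by rw [← mul_pow]; norm_num]
    push_cast
    nlinarith
  have c : exp (-8 : ℝ) ≤ 1 / 2 * (1 / 128) := by
    have : (2 : ℝ) ^ 8 ≤ exp 1 ^ 8 :=
      pow_le_pow_left₀ two_pos.le (by linarith [add_one_le_exp (1 : ℝ)]) 8
    rw [← exp_nat_mul] at this
    rw [exp_neg]
    exact (inv_anti₀ (b := 2 ^ 8) (by norm_num) (by simpa using this)).trans_eq (by norm_num)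
  have b : exp (-(2 * (s + 2 + n) ^ 2)) ≤ exp (-s ^ 2) * (1 / 2 * (1 / 128)) ^ (n + 1) := by
    refine le_trans ?_ (mul_le_mul_of_nonneg_left (pow_le_pow_left₀ (exp_pos _).le c _)
      (exp_pos _).le)
    rw [← exp_nat_mul, ← exp_add, exp_le_exp]
    push_cast
    nlinarith [mul_nonneg hs (Nat.cast_nonneg n), sq_nonneg (n : ℝ)]
  have d : (4 * (1 / 128) : ℝ) ^ n ≤ 1 := pow_le_one₀ (by norm_num) (by norm_num)
  have e : 0 < exp (-s ^ 2) * (1 / 2) ^ (n + 1) := by positivity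
  refine (mul_le_mul a (mul_le_mul_of_nonneg_left b two_pos.le) (by positivity)
    (by positivity)).trans ?_
  rw [mul_pow, pow_succ (1 / 128 : ℝ)]
  rw [mul_pow] at d
  nlinarith

theorem aux (h : Iso P W) {σ s : ℝ} (hσ : 0 ≤ σ) (hs : 0 ≤ s) (n : ℕ) : ∀ Z : Z2 → H,
    (∀ v w, ‖Z v - Z w‖ ≤ σ / 2 ^ n * ‖pt v - pt w‖) →
    P.real {ω | ∃ x ∈ box 2 (2 ^ n), σ * (12 * s + 32 - 4 / 2 ^ n * (s + 4 + n)) <
      |W (Z x) ω - W (Z 0) ω|} ≤ exp (-s ^ 2) * (1 - (1 / 2) ^ (n + 1)) := by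
  induction n with
  | zero =>
    intro Z hZ
    refine (sub_le (lev h (fun x => Z x - Z 0) (ρ := 4 * σ) hs 0 fun x hx => ?_) ?_).trans_eq
      (by norm_num)
    · have := dist_pt (x := x) (y := 0) (r := 2) fun i => by simpa using mem_box.1 hx i
      rw [dist_eq_norm] at this
      refine (hZ x 0).trans ((mul_le_mul_of_nonneg_left this (by positivity)).trans_eq ?_)
      push_cast
      ring
    · rintro ω ⟨x, hx, hω⟩
      refine ⟨x, hx, ?_⟩
      rw [map_sub, Pi.sub_apply]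
      refine lt_of_eq_of_lt ?_ hω
      push_cast
      ring
  | succ n ih =>
    intro Z hZ
    have h1 := ih (fun x => Z ((2 : ℤ) • x)) fun v w => (hZ _ _).trans_eq (by
      rw [pt_zsmul, pt_zsmul, ← smul_sub, norm_smul, pow_succ]
      simp
      field_simp)
    have h2 := lev h (fun x => Z x - Z ((2 : ℤ) • cen 2 x)) (ρ := 2 * σ / 2 ^ (n + 1)) hs (n + 1)
      fun x _ => by
        have := dist_pt (x := x) (y := (2 : ℤ) • cen 2 x) (r := 1) fun i => by
          have := cen_near two_pos x i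
          simp only [Pi.smul_apply, smul_eq_mul]
          push_cast at this ⊢
          rw [abs_le]
          omega
        rw [dist_eq_norm] at this
        refine (hZ _ _).trans ((mul_le_mul_of_nonneg_left this (by positivity)).trans_eq ?_)
        push_cast
        ring
    refine (sub_le2 h1 h2 ?_).trans_eq (by ring)
    rintro ω ⟨x, hx, hω⟩ hn
    refine ⟨x, hx, ?_⟩
    have a := not_lt.1 fun k => hn ⟨_, cen_mem two_pos (by rwa [pow_succ'] at hx), k⟩
    have b := abs_sub_le (W (Z x) ω) (W (Z ((2 : ℤ) • cen 2 x)) ω) (W (Z 0) ω)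
    simp only [smul_zero] at a
    rw [map_sub, Pi.sub_apply]
    have e : σ * (12 * s + 32 - 4 / 2 ^ (n + 1) * (s + 4 + (n + 1 : ℕ))) =
        σ * (12 * s + 32 - 4 / 2 ^ n * (s + 4 + n)) +
          2 * (2 * σ / 2 ^ (n + 1)) * (s + 2 + (n + 1 : ℕ)) := by
      push_cast
      field_simp
      ring
    linarith

end Osc

theorem osc : sOsc := by
  intro Ω _ P _ H _ _ W h g L s t z hL hs hg
  have k := Osc.aux h (σ := L * 2 ^ t) (by positivity) hs t (fun x => g (z + x)) fun v w =>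
    (hg _ _).trans_eq (by
      rw [pt_add, pt_add, add_sub_add_left_eq_sub, mul_div_cancel_right₀ _ (by positivity)])
  refine (sub_le k ?_).trans (mul_le_of_le_one_right (exp_pos _).le (sub_le_self _ (by positivity)))
  rintro ω ⟨v, hv, hω⟩
  refine ⟨v - z, mem_box.2 fun i => ?_, ?_⟩
  · have a := hv.symm i
    have b : (0 : ℤ) ≤ 2 ^ t := by positivity
    push_cast
    rw [Pi.sub_apply]
    linarith
  · rw [add_sub_cancel, add_zero]
    refine lt_of_le_of_lt ?_ hω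
    have a : (0 : ℝ) ≤ 4 / 2 ^ t * (s + 4 + t) := by positivity
    have b : 0 ≤ L * 2 ^ t := by positivity
    nlinarith

end Pool.Agent.GU
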