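import Pool.Agent.Lib.MP_438f30_pr.U.St

/-! A route round a hole. -/

namespace Pool.Agent.GU

open Finset Pool.Agent.Lib.MP_a0a493_pr

namespace Rt

/-- a straight segment -/
def seg (q : Z2) (d : Fin 2) (m : ℕ) : Finset Z2 :=
  (range m).image fun i : ℕ => q + Pi.single d (i : ℤ)

theorem mem_seg {q : Z2} {d : Fin 2} {m i : ℕ} (h : i < m) :
    q + Pi.single d (i : ℤ) ∈ seg q d m := mem_image.2 ⟨i, mem_range.2 h, rfl⟩

theorem mem0 {a b : ℤ} {m : ℕ} {x : Z2} :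
    x ∈ seg ![a, b] 0 m ↔ x 1 = b ∧ a ≤ x 0 ∧ x 0 < a + m := by
  rw [seg, mem_image]
  constructor
  · rintro ⟨i, hi, rfl⟩
    have := mem_range.1 hi
    simp
    omega
  · rintro ⟨h1, h2, h3⟩
    refine ⟨(x 0 - a).toNat, mem_range.2 (by omega), funext fun j => ?_⟩
    fin_cases j
    · simp
      omega
    · simp [h1]

theorem mem1 {a b : ℤ} {m : ℕ} {x : Z2} :
    x ∈ seg ![a, b] 1 m ↔ x 0 = a ∧ b ≤ x 1 ∧ x 1 < b + m := by
  rw [seg, mem_image]
  constructor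
  · rintro ⟨i, hi, rfl⟩
    have := mem_range.1 hi
    simp
    omega
  · rintro ⟨h1, h2, h3⟩
    refine ⟨(x 1 - b).toNat, mem_range.2 (by omega), funext fun j => ?_⟩
    fin_cases j
    · simp [h1]
    · simp
      omega

theorem mem0' {a b c : ℤ} {m : ℕ} (h : a ≤ c) (h' : c < a + m) : ![c, b] ∈ seg ![a, b] 0 m :=
  mem0.2 ⟨rfl, h, h'⟩

theorem mem1' {a b c : ℤ} {m : ℕ} (h : b ≤ c) (h' : c < b + m) : ![a, c] ∈ seg ![a, b] 1 m :=
  mem1.2 ⟨rfl, h, h'⟩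

theorem near_iff {r : ℤ} {x y : Z2} : Near r x y ↔
    (-r ≤ x 0 - y 0 ∧ x 0 - y 0 ≤ r) ∧ -r ≤ x 1 - y 1 ∧ x 1 - y 1 ≤ r := by
  simp only [Near, Fin.forall_fin_two, abs_le]

theorem cn_seg {S : Set Z2} {q : Z2} {d : Fin 2} {m : ℕ} (hS : ∀ x ∈ seg q d m, x ∈ S)
    {x y : Z2} (hx : x ∈ seg q d m) (hy : y ∈ seg q d m) : Cn S x y := by
  have key : ∀ i : ℕ, i < m → Cn S q (q + Pi.single d (i : ℤ)) := by
    intro i
    induction i with
    | zero =>
      intro h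
      have := hS _ (mem_seg h)
      simp only [Nat.cast_zero, Pi.single_zero, add_zero] at this ⊢
      exact Cn.refl this
    | succ i ih =>
      intro h
      refine (ih (by omega)).tail (hS _ (mem_seg h)) ?_
      rw [Nat.cast_succ, Pi.single_add, ← add_assoc]
      exact adj_single _ _
  obtain ⟨i, hi, rfl⟩ := mem_image.1 hx
  obtain ⟨j, hj, rfl⟩ := mem_image.1 hy
  exact (key i (mem_range.1 hi)).symm.trans (key j (mem_range.1 hj))

theorem sum_union {F : Z2 → ℝ} (hF : ∀ q, 0 ≤ F q) (A B : Finset Z2) :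
    ∑ q ∈ A ∪ B, F q ≤ ∑ q ∈ A, F q + ∑ q ∈ B, F q := by
  rw [← sum_union_inter]
  exact le_add_of_nonneg_right (sum_nonneg fun q _ => hF q)

theorem sum_seg {F : Z2 → ℝ} (hF : ∀ q, 0 ≤ F q) {x : ℝ} {M : ℤ} {P : Z2 → Prop}
    (h : ∀ (q : Z2) (d : Fin 2) (m : ℕ), (m : ℤ) ≤ M → (∀ i < m, P (q + Pi.single d (i : ℤ))) →
      ∑ i ∈ range m, F (q + Pi.single d (i : ℤ)) ≤ x) (q : Z2) (d : Fin 2) (m : ℕ)
    (hm : (m : ℤ) ≤ M) (hP : ∀ y ∈ seg q d m, P y) : ∑ y ∈ seg q d m, F y ≤ x :=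
  (sum_image_le_of_nonneg fun y _ => hF y).trans (h q d m hm fun _ hi => hP _ (mem_seg hi))

end Rt

open Rt in
theorem rt : sRT := by
  classical
  intro p p' z ρ D R hρ hR hD hp hp' hz hz'
  obtain ⟨m1, e1⟩ : ∃ m : ℕ, (m : ℤ) = max (p 0) (p' 0) - min (p 0) (p' 0) + 1 :=
    ⟨_, Int.toNat_of_nonneg (by omega)⟩
  obtain ⟨m2, e2⟩ : ∃ m : ℕ, (m : ℤ) = max (p 1) (p' 1) - min (p 1) (p' 1) + 1 :=
    ⟨_, Int.toNat_of_nonneg (by omega)⟩
  obtain ⟨m, e⟩ : ∃ m : ℕ, (m : ℤ) = 2 * ρ + 3 := ⟨_, Int.toNat_of_nonneg (by omega)⟩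
  set L1 := seg ![min (p 0) (p' 0), p 1] 0 m1 with hL1
  set L2 := seg ![p' 0, min (p 1) (p' 1)] 1 m2 with hL2
  have nD := near_iff.1 hD
  have nz := near_iff.1 hz
  have nz' := near_iff.1 hz'
  have a1 : ∀ y ∈ L1, Near R z y ∧ Near D p y := fun y hy => by
    have := mem0.1 hy
    simp only [near_iff]
    omega
  have a2 : ∀ y ∈ L2, Near R z y ∧ Near D p y := fun y hy => by
    have := mem1.1 hy
    simp only [near_iff]
    omega
  have up : ∀ y, Near R z y ∧ Near D p y → Near R z y ∧ Near (D + 2 * ρ + 2) p y := fun y hy =>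
    ⟨hy.1, fun i => (hy.2 i).trans (by omega)⟩
  have cL : Cn ↑(L1 ∪ L2) p p' :=
    (cn_seg (y := ![p' 0, p 1]) (fun x hx => mem_coe.2 (mem_union_left _ hx))
      (mem0.2 (by omega)) (mem0' (by omega) (by omega))).trans
    (cn_seg (fun x hx => mem_coe.2 (mem_union_right _ hx))
      (mem1' (by omega) (by omega)) (mem1.2 (by omega)))
  by_cases hh : ∀ y ∈ L1 ∪ L2, ¬ Near ρ z y
  · refine ⟨L1 ∪ L2, cL, fun q hq => ⟨hh q hq, up q ((mem_union.1 hq).elim (a1 q) (a2 q))⟩,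
      fun F x hF h => ?_⟩
    have s0 := h 0 0 0 (by omega) (by simp)
    have s1 := sum_seg hF h _ _ m1 (by omega) fun y hy => up y (a1 y hy)
    have s2 := sum_seg hF h _ _ m2 (by omega) fun y hy => up y (a2 y hy)
    have := sum_union hF L1 L2
    rw [range_zero, sum_empty] at s0
    linarith
  push Not at hh
  obtain ⟨y0, hy0, n0⟩ := hh
  have n1 := near_iff.1 ((mem_union.1 hy0).elim (a1 y0) (a2 y0)).2
  rw [near_iff] at n0
  set T1 := seg ![z 0 - ρ - 1, z 1 - ρ - 1] 0 m with hT1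
  set T2 := seg ![z 0 - ρ - 1, z 1 + ρ + 1] 0 m with hT2
  set T3 := seg ![z 0 - ρ - 1, z 1 - ρ - 1] 1 m with hT3
  set T4 := seg ![z 0 + ρ + 1, z 1 - ρ - 1] 1 m with hT4
  have b1 : ∀ y ∈ T1, ¬ Near ρ z y ∧ Near R z y ∧ Near (D + 2 * ρ + 2) p y := fun y hy => by
    have := mem0.1 hy
    simp only [near_iff]
    omega
  have b2 : ∀ y ∈ T2, ¬ Near ρ z y ∧ Near R z y ∧ Near (D + 2 * ρ + 2) p y := fun y hy => by
    have := mem0.1 hy
    simp only [near_iff]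
    omega
  have b3 : ∀ y ∈ T3, ¬ Near ρ z y ∧ Near R z y ∧ Near (D + 2 * ρ + 2) p y := fun y hy => by
    have := mem1.1 hy
    simp only [near_iff]
    omega
  have b4 : ∀ y ∈ T4, ¬ Near ρ z y ∧ Near R z y ∧ Near (D + 2 * ρ + 2) p y := fun y hy => by
    have := mem1.1 hy
    simp only [near_iff]
    omega
  set S := (L1 ∪ L2).filter (fun y => ¬ Near ρ z y) ∪ (T1 ∪ T2 ∪ (T3 ∪ T4)) with hS
  have i0 : ∀ y ∈ L1 ∪ L2, ¬ Near ρ z y → y ∈ (S : Set Z2) := fun y hy h =>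
    mem_coe.2 (mem_union_left _ (mem_filter.2 ⟨hy, h⟩))
  have i1 : ∀ y ∈ T1, y ∈ (S : Set Z2) := fun y hy =>
    mem_coe.2 (mem_union_right _ (mem_union_left _ (mem_union_left _ hy)))
  have i2 : ∀ y ∈ T2, y ∈ (S : Set Z2) := fun y hy =>
    mem_coe.2 (mem_union_right _ (mem_union_left _ (mem_union_right _ hy)))
  have i3 : ∀ y ∈ T3, y ∈ (S : Set Z2) := fun y hy =>
    mem_coe.2 (mem_union_right _ (mem_union_right _ (mem_union_left _ hy)))
  have i4 : ∀ y ∈ T4, y ∈ (S : Set Z2) := fun y hy =>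
    mem_coe.2 (mem_union_right _ (mem_union_right _ (mem_union_right _ hy)))
  have c1 : ∀ y ∈ T1, Cn (S : Set Z2) y ![z 0 - ρ - 1, z 1 - ρ - 1] := fun y hy =>
    cn_seg i1 hy (mem0' (by omega) (by omega))
  have c3 : ∀ y ∈ T3, Cn (S : Set Z2) y ![z 0 - ρ - 1, z 1 - ρ - 1] := fun y hy =>
    cn_seg i3 hy (mem1' (by omega) (by omega))
  have ring : ∀ x y, Adj x y → ¬ Near ρ z x → Near ρ z y →
      Cn (S : Set Z2) x ![z 0 - ρ - 1, z 1 - ρ - 1] := fun x y hxy hx hy => by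
    have h1 := near_iff.1 hxy.near
    rw [near_iff] at hx hy
    by_cases k1 : x 1 = z 1 - ρ - 1
    · exact c1 x (mem0.2 (by omega))
    by_cases k2 : x 1 = z 1 + ρ + 1
    · exact (cn_seg (y := ![z 0 - ρ - 1, z 1 + ρ + 1]) i2 (mem0.2 (by omega))
        (mem0' (by omega) (by omega))).trans
        (c3 _ (mem1' (by omega) (by omega)))
    by_cases k3 : x 0 = z 0 - ρ - 1
    · exact c3 x (mem1.2 (by omega))
    · exact (cn_seg (y := ![z 0 + ρ + 1, z 1 - ρ - 1]) i4 (mem1.2 (by omega))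
        (mem1' (by omega) (by omega))).trans
        (c1 _ (mem0' (by omega) (by omega)))
  have main := cL.induct (R := fun x => (¬ Near ρ z x → Cn (S : Set Z2) p x) ∧
      (Near ρ z x → Cn (S : Set Z2) p ![z 0 - ρ - 1, z 1 - ρ - 1]))
    ⟨fun h => Cn.refl (i0 p (mem_coe.1 cL.1) h), fun h => absurd h hp⟩ fun x y _ ih hy hxy => by
      by_cases hx : Near ρ z x
      · exact ⟨fun h => (ih.2 hx).trans (ring y x hxy.symm h hx).symm, fun _ => ih.2 hx⟩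
      · exact ⟨fun h => (ih.1 hx).tail (i0 y (mem_coe.1 hy) h) hxy,
          fun h => (ih.1 hx).trans (ring x y hxy hx h)⟩
  refine ⟨S, main.1 hp', fun q hq => ?_, fun F x hF h => ?_⟩
  · rcases mem_union.1 hq with hq | hq
    · obtain ⟨h1, h2⟩ := mem_filter.1 hq
      exact ⟨h2, up q ((mem_union.1 h1).elim (a1 q) (a2 q))⟩
    · exact (mem_union.1 hq).elim (fun k => (mem_union.1 k).elim (b1 q) (b2 q))
        fun k => (mem_union.1 k).elim (b3 q) (b4 q)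
  · have s1 := sum_seg hF h _ _ m1 (by omega) fun y hy => up y (a1 y hy)
    have s2 := sum_seg hF h _ _ m2 (by omega) fun y hy => up y (a2 y hy)
    have t1 := sum_seg hF h _ _ m (by omega) fun y hy => (b1 y hy).2
    have t2 := sum_seg hF h _ _ m (by omega) fun y hy => (b2 y hy).2
    have t3 := sum_seg hF h _ _ m (by omega) fun y hy => (b3 y hy).2
    have t4 := sum_seg hF h _ _ m (by omega) fun y hy => (b4 y hy).2
    have u0 := sum_union hF ((L1 ∪ L2).filter fun y => ¬ Near ρ z y) (T1 ∪ T2 ∪ (T3 ∪ T4))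
    have u1 : ∑ q ∈ (L1 ∪ L2).filter (fun y => ¬ Near ρ z y), F q ≤ ∑ q ∈ L1 ∪ L2, F q :=
      sum_le_sum_of_subset_of_nonneg (filter_subset _ _) fun q _ _ => hF q
    have u2 := sum_union hF L1 L2
    have u3 := sum_union hF (T1 ∪ T2) (T3 ∪ T4)
    have u4 := sum_union hF T1 T2
    have u5 := sum_union hF T3 T4
    linarith

end Pool.Agent.GU
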