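import Pool.Agent.Lib.MP_438f30_pr.U.St

/-! Walks and sets of sites. -/

namespace Pool.Agent.GU

open Real Finset Pool.Agent.Lib.MP_a0a493_pr Pool.Agent.GL

namespace Ws

theorem cn_le {T : ℕ} {x : ℕ → Z2} (h : ∀ i < T, Adj (x i) (x (i + 1))) {a b s s' : ℕ}
    (hb : b ≤ T + 1) (ha : a ≤ s) (hs : s ≤ s') (hs' : s' < b) :
    Cn ↑((Ico a b).image x) (x s) (x s') := by
  have m : ∀ i, a ≤ i → i < b → x i ∈ (↑((Ico a b).image x) : Set Z2) := fun i h1 h2 =>
    mem_coe.2 (mem_image_of_mem x (mem_Ico.2 ⟨h1, h2⟩))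
  induction s', hs using Nat.le_induction with
  | base => exact .refl (m s ha hs')
  | succ k hk ih => exact (ih (by omega)).tail (m _ (by omega) hs') (h k (by omega))

theorem cn {T : ℕ} {x : ℕ → Z2} (h : ∀ i < T, Adj (x i) (x (i + 1))) {a b s s' : ℕ}
    (hb : b ≤ T + 1) (hs : s ∈ Ico a b) (hs' : s' ∈ Ico a b) :
    Cn ↑((Ico a b).image x) (x s) (x s') := by
  rw [mem_Ico] at hs hs'
  rcases le_total s s' with e | e
  · exact cn_le h hb hs.1 e hs'.2
  · exact (cn_le h hb hs'.1 e hs.2).symm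

/-- a self-avoiding path inside a connected set -/
theorem path {S : Set Z2} {p q : Z2} (h : Cn S p q) : ∃ (T : ℕ) (x : ℕ → Z2), x 0 = p ∧ x T = q ∧
    (∀ i < T, Adj (x i) (x (i + 1))) ∧ (∀ i ≤ T, ∀ j ≤ T, x i = x j → i = j) ∧
      ∀ i ≤ T, x i ∈ S := by
  refine h.induct (R := fun q => ∃ (T : ℕ) (x : ℕ → Z2), x 0 = p ∧ x T = q ∧
    (∀ i < T, Adj (x i) (x (i + 1))) ∧ (∀ i ≤ T, ∀ j ≤ T, x i = x j → i = j) ∧
      ∀ i ≤ T, x i ∈ S) ⟨0, fun _ => p, rfl, rfl, by omega, by omega, fun _ _ => h.1⟩ ?_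
  rintro u y - ⟨T, x, h0, hT, ha, hi, hm⟩ hy hn
  by_cases e : ∃ k ≤ T, x k = y
  · obtain ⟨k, hk, e⟩ := e
    exact ⟨k, x, h0, e, fun i a => ha i (by omega),
      fun i a j b => hi i (by omega) j (by omega), fun i a => hm i (by omega)⟩
  · refine ⟨T + 1, fun i => if i ≤ T then x i else y, by simpa using h0, by simp, fun i a => ?_,
      fun i a j b => ?_, fun i a => ?_⟩
    · by_cases c : i + 1 ≤ T
      · simp only [if_pos c, if_pos (show i ≤ T by omega)]
        exact ha i c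
      · obtain rfl : i = T := by omega
        simp only [if_neg c, le_refl, if_true, hT]
        exact hn
    · by_cases c : i ≤ T <;> by_cases c' : j ≤ T <;> simp only [c, c', if_true, if_false]
      · exact hi i c j c'
      · exact fun k => absurd ⟨i, c, k⟩ e
      · exact fun k => absurd ⟨j, c', k.symm⟩ e
      · omega
    · by_cases c : i ≤ T <;> simp only [c, if_true, if_false]
      exacts [hm i c, hy]

theorem cs_mono (f : Z2 → ℝ) {S S' : Finset Z2} (h : S ⊆ S') : cs f S ≤ cs f S' :=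
  sum_le_sum_of_subset_of_nonneg h fun _ _ _ => (exp_pos _).le

theorem cs_union (f : Z2 → ℝ) (S S' : Finset Z2) : cs f (S ∪ S') ≤ cs f S + cs f S' := by
  have h := sum_union_inter (s₁ := S) (s₂ := S') (f := fun v => exp (f v))
  have h' : 0 ≤ ∑ v ∈ S ∩ S', exp (f v) := sum_nonneg fun _ _ => (exp_pos _).le
  unfold cs
  linarith

theorem cs_image (f : Z2 → ℝ) (x : ℕ → Z2) (I : Finset ℕ) :
    cs f (I.image x) ≤ ∑ i ∈ I, exp (f (x i)) :=
  sum_image_le_of_nonneg (f := fun v => exp (f v)) fun _ _ => (exp_pos _).le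

theorem walk {n : ℕ} (f : Z2 → ℝ) {S : Finset Z2} (h : Cn ↑S 0 ![2 ^ n, 0]) :
    ∃ T x, IsWalk n T x ∧ cost f T x ≤ cs f S := by
  obtain ⟨T, x, h0, hT, ha, hi, hm⟩ := path h
  refine ⟨T, x, ⟨h0, hT, ha⟩, ?_⟩
  have e : cost f T x = cs f ((range (T + 1)).image x) :=
    (sum_image (f := fun v => exp (f v)) fun i a j b =>
      hi i (Nat.lt_succ_iff.1 (mem_range.1 a)) j (Nat.lt_succ_iff.1 (mem_range.1 b))).symm
  rw [e]
  exact cs_mono f (image_subset_iff.2 fun i a => hm i (Nat.lt_succ_iff.1 (mem_range.1 a)))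

theorem near_succ {v x y : Z2} {D : ℤ} (h : Near D v x) (hn : Adj x y) : Near (D + 1) v y :=
  fun i => by
    have a := abs_le.1 (h i)
    have b := abs_le.1 (hn.near i)
    rw [abs_le]
    omega

/-- truncation at the first exit -/
theorem trunc {S : Set Z2} {u u' v : Z2} {D : ℤ} (h : Cn S u u') (hu : Near D v u) :
    Cn (S ∩ Q v D) u u' ∨ ∃ w, ¬ Near D v w ∧ Cn (S ∩ Q v (D + 1)) u w := by
  refine h.induct (R := fun x => Cn (S ∩ Q v D) u x ∨
    ∃ w, ¬ Near D v w ∧ Cn (S ∩ Q v (D + 1)) u w) (Or.inl (.refl ⟨h.1, hu⟩)) ?_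
  rintro x y - (ih | ih) hy hn
  · by_cases c : Near D v y
    · exact Or.inl (ih.tail ⟨hy, c⟩ hn)
    · have k : Cn (S ∩ Q v (D + 1)) u x := ih.mono fun z hz => ⟨hz.1, fun i => by
        have := hz.2 i
        omega⟩
      exact Or.inr ⟨y, c, k.tail ⟨hy, near_succ ih.mem.2 hn⟩ hn⟩
  · exact Or.inr ih

theorem geo {n T : ℕ} {f : Z2 → ℝ} {x : ℕ → Z2} (hG : Geo n f T x) {a b : ℕ} {y : ℝ}
    (hab : a ≤ b) (hb : b ≤ T) (h : Tr f Set.univ (x a) (x b) y) :
    ∑ s ∈ Icc a b, exp (f (x s)) ≤ y := by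
  obtain ⟨S, -, hS, hy⟩ := h
  obtain ⟨⟨h0, hT, ha⟩, hm⟩ := hG
  have c1 := cn_le (a := 0) (b := a + 1) (s := 0) (s' := a) ha (by omega) le_rfl (by omega)
    (by omega)
  have c2 := cn_le (a := b) (b := T + 1) (s := b) (s' := T) ha le_rfl le_rfl hb (by omega)
  have c : Cn ↑((Ico 0 a).image x ∪ S ∪ (Ico (b + 1) (T + 1)).image x) 0 ![2 ^ n, 0] := by
    rw [← h0, ← hT]
    refine ((c1.mono fun z hz => ?_).trans (hS.mono fun z hz => ?_)).trans (c2.mono fun z hz => ?_)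
    · obtain ⟨i, hi, rfl⟩ := mem_image.1 (mem_coe.1 hz)
      rw [mem_Ico] at hi
      refine mem_coe.2 (mem_union_left _ ?_)
      rcases eq_or_ne i a with rfl | e
      · exact mem_union_right _ hS.1
      · exact mem_union_left _ (mem_image_of_mem x (mem_Ico.2 (by omega)))
    · exact mem_coe.2 (mem_union_left _ (mem_union_right _ hz))
    · obtain ⟨i, hi, rfl⟩ := mem_image.1 (mem_coe.1 hz)
      rw [mem_Ico] at hi
      refine mem_coe.2 ?_
      rcases eq_or_ne i b with rfl | e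
      · exact mem_union_left _ (mem_union_right _ hS.mem)
      · exact mem_union_right _ (mem_image_of_mem x (mem_Ico.2 (by omega)))
  obtain ⟨T', x', hw, hc⟩ := walk f c
  have k1 := hm T' x' hw
  have k2 := cs_union f ((Ico 0 a).image x ∪ S) ((Ico (b + 1) (T + 1)).image x)
  have k3 := cs_union f ((Ico 0 a).image x) S
  have k4 := cs_image f x (Ico 0 a)
  have k5 := cs_image f x (Ico (b + 1) (T + 1))
  have k6 := sum_Ico_consecutive (fun i => exp (f (x i))) (Nat.zero_le a) (show a ≤ b + 1 by omega)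
  have k7 := sum_Ico_consecutive (fun i => exp (f (x i))) (Nat.zero_le (b + 1))
    (show b + 1 ≤ T + 1 by omega)
  have k8 : cost f T x = ∑ i ∈ Ico 0 (T + 1), exp (f (x i)) := by rw [cost, range_eq_Ico]
  have k9 : Icc a b = Ico a (b + 1) := by ext i; simp only [mem_Icc, mem_Ico]; omega
  rw [k9]
  linarith

theorem root {n : ℕ} {f : Z2 → ℝ} {R : ℤ} {y : ℝ} (hR : 2 ^ n ≤ R)
    (h : Tr f Set.univ 0 ![2 ^ n, 0] y) (hx : ∀ u, ¬ Near R 0 u → ¬ Tr f (Q 0 (R + 1)) 0 u y) :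
    (∃ T x, Geo n f T x) ∧ ∀ T x, Geo n f T x → ∀ s ≤ T, Near R 0 (x s) := by
  classical
  have R0 : 0 ≤ R := le_trans (by positivity) hR
  have conf : ∀ (S : Finset Z2) (v : Z2), cs f S ≤ y → Cn ↑S 0 v →
      Cn ↑(S.filter (Near R 0)) 0 v := fun S v hy hS => by
    rcases trunc (v := 0) (D := R) hS (fun i => by simpa using R0) with c | ⟨w, hw, c⟩
    · exact c.mono fun z hz => mem_coe.2 (mem_filter.2 hz)
    · exact absurd ⟨S.filter (Near (R + 1) 0), fun z hz => (mem_filter.1 (mem_coe.1 hz)).2,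
        c.mono fun z hz => mem_coe.2 (mem_filter.2 hz),
        (cs_mono f (filter_subset _ _)).trans hy⟩ (hx w hw)
  have img : ∀ T x, IsWalk n T x → cs f ((Ico 0 (T + 1)).image x) ≤ cost f T x ∧
      ∀ s ≤ T, Cn ↑((Ico 0 (T + 1)).image x) 0 (x s) := fun T x hw =>
    ⟨by rw [cost, range_eq_Ico]; exact cs_image f x _, fun s hs => by
      have := cn_le (a := 0) (b := T + 1) (s := 0) (s' := s) hw.2.2 le_rfl le_rfl (by omega)
        (by omega)
      rwa [hw.1] at this⟩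
  obtain ⟨S, -, hS, hy⟩ := h
  refine ⟨?_, fun T x hG s hs => ?_⟩
  · let B : Finset Z2 := Fintype.piFinset fun _ => Icc (-R) R
    have mem : ∀ S : Finset Z2, cs f S ≤ y → Cn ↑S 0 ![2 ^ n, 0] → S.filter (Near R 0) ∈
        B.powerset.filter fun S : Finset Z2 => Cn ↑S 0 ![2 ^ n, 0] := fun S hy hS =>
      mem_filter.2 ⟨mem_powerset.2 fun z hz => Fintype.mem_piFinset.2 fun i => by
        have := abs_le.1 ((mem_filter.1 hz).2 i)
        simp only [Pi.zero_apply] at this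
        rw [mem_Icc]
        omega, conf S _ hy hS⟩
    obtain ⟨S0, h0, hm⟩ := exists_min_image _ (cs f) ⟨_, mem S hy hS⟩
    obtain ⟨T, x, hw, hc⟩ := walk f (mem_filter.1 h0).2
    have le : ∀ S : Finset Z2, cs f S ≤ y → Cn ↑S 0 ![2 ^ n, 0] → cs f S0 ≤ cs f S :=
      fun S hy hS => (hm _ (mem S hy hS)).trans (cs_mono f (filter_subset _ _))
    refine ⟨T, x, hw, fun T' x' hw' => hc.trans ?_⟩
    obtain ⟨i1, i2⟩ := img T' x' hw'
    rcases le_total (cs f ((Ico 0 (T' + 1)).image x')) y with e | e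
    · exact (le _ e (hw'.2.1 ▸ i2 T' le_rfl)).trans i1
    · exact (le S hy hS).trans (hy.trans (e.trans i1))
  · obtain ⟨T', x', hw, hc⟩ := walk f hS
    obtain ⟨i1, i2⟩ := img T x hG.1
    exact (mem_filter.1 (mem_coe.1 (conf _ _ (i1.trans ((hG.2 T' x' hw).trans (hc.trans hy)))
      (i2 s hs)).mem)).2

end Ws

theorem ws : WS :=
  ⟨fun _ _ h _ _ _ _ hb hs hs' => Ws.cn h hb hs hs',
    fun _ _ _ _ hG _ _ _ hab hb h => Ws.geo hG hab hb h, fun _ _ _ _ hR h hx => Ws.root hR h hx⟩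

end Pool.Agent.GU
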