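import Pool.Agent.Lib.MP_438f30_pr.U.St2
import Pool.Agent.Lib.MP_438f30_pr.U.Ws

/-! Greedy pieces of a geodesic. -/

namespace Pool.Agent.GU

open Real Finset Pool.Agent.Lib.MP_a0a493_pr Pool.Agent.GL

namespace Bl

theorem greedy (x : ℕ → Z2) {r : ℤ} (hr : 0 ≤ r) (b d : ℕ) : ∀ a, b - a ≤ d →
    ∃ (m : ℕ) (τ : ℕ → ℕ), Cv x a b (2 * r) (m + 1) ∧ τ 0 = a ∧ ∀ l < m, τ l < τ (l + 1) ∧
      τ (l + 1) < b ∧ ¬ Near r (x (τ l)) (x (τ (l + 1))) ∧
        ∀ s ∈ Ico (τ l) (τ (l + 1)), Near r (x (τ l)) (x s) := by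
  classical
  have dm : ∀ a a', (∀ s ∈ Ico a a', Near r (x a) (x s)) → Dm x a a' (2 * r) :=
    fun a a' h s hs s' hs' => near_tri (h s hs).symm (h s' hs') (by omega)
  have base : ∀ a, (∀ s ∈ Ico a b, Near r (x a) (x s)) → Cv x a b (2 * r) ((0 : ℕ) + 1) :=
    fun a h F hF => by simpa using hF a b le_rfl le_rfl (dm a b h)
  induction d with
  | zero =>
    exact fun a ha => ⟨0, fun _ => a, base a fun s hs => by rw [mem_Ico] at hs; omega, rfl, by omega⟩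
  | succ d ih =>
    intro a ha
    by_cases h : ∃ s, s ∈ Ico a b ∧ ¬ Near r (x a) (x s)
    · have h1 := Nat.find_spec h
      have h2 := fun s => @Nat.find_min _ _ h s
      generalize Nat.find h = a' at h1 h2
      obtain ⟨h0, h1⟩ := h1
      rw [mem_Ico] at h0
      have h3 : a < a' := h0.1.lt_of_ne fun e => h1 (e ▸ near_refl hr _)
      have h4 : ∀ s ∈ Ico a a', Near r (x a) (x s) := fun s hs => by
        rw [mem_Ico] at hs
        exact not_not.1 fun k => h2 s hs.2 ⟨mem_Ico.2 ⟨hs.1, by omega⟩, k⟩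
      obtain ⟨m, τ, c, t0, t⟩ := ih a' (by omega)
      refine ⟨m + 1, fun l => Nat.rec a (fun l _ => τ l) l, fun F hF => ?_, rfl, fun l hl => ?_⟩
      · have e1 := hF a a' le_rfl h0.2.le (dm a a' h4)
        have e2 := c F fun a'' b' k1 k2 => hF a'' b' (by omega) k2
        rw [← sum_Ico_consecutive F h3.le h0.2.le]
        push_cast
        linarith
      · cases l with
        | zero =>
          show a < τ 0 ∧ τ 0 < b ∧ ¬ Near r (x a) (x (τ 0)) ∧ ∀ s ∈ Ico a (τ 0), Near r (x a) (x s)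
          rw [t0]
          exact ⟨h3, h0.2, h1, h4⟩
        | succ l => exact t l (by omega)
    · exact ⟨0, fun _ => a, base a fun s hs => not_not.1 fun k => h ⟨s, hs, k⟩, rfl, by omega⟩

theorem glue {τ : ℕ → ℕ} {m i i' : ℕ} (h : ∀ l < m, τ l < τ (l + 1)) (G : ℕ → ℝ) (hi : i ≤ i')
    (hm : i' ≤ m) : τ i ≤ τ i' ∧
      ∑ l ∈ Ico i i', ∑ s ∈ Ico (τ l) (τ (l + 1)), G s = ∑ s ∈ Ico (τ i) (τ i'), G s := by
  induction i', hi using Nat.le_induction with
  | base => simp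
  | succ k hk ih =>
    obtain ⟨a, b⟩ := ih (by omega)
    have c := h k hm
    exact ⟨by omega, by rw [sum_Ico_succ_top hk, b, sum_Ico_consecutive G a c.le]⟩

theorem cn_up (j : ℕ) (q : Z2) : cn j (up j q) = q := by
  funext i
  simp only [cn, up_apply]
  exact Int.mul_ediv_cancel_left _ (p2 j).ne'

theorem pw (b k : ℕ) (hk : 20 ≤ k) : (0 : ℤ) < 2 ^ b ∧ (2 : ℤ) ^ (b + 17) = 131072 * 2 ^ b ∧
    (2 : ℤ) ^ (b + 18) = 262144 * 2 ^ b ∧ (2 : ℤ) ^ (b + 19) = 524288 * 2 ^ b ∧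
    (2 : ℤ) ^ (b + 20) = 1048576 * 2 ^ b ∧ (2 : ℤ) ^ (b + 21) = 2097152 * 2 ^ b ∧
    1048576 * (2 : ℤ) ^ b ≤ 2 ^ (b + k) := by
  refine ⟨p2 b, by ring, by ring, by ring, by ring, by ring, ?_⟩
  exact le_trans (le_of_eq (by ring)) (p2_le (show b + 20 ≤ b + k by omega))

theorem ann {z u : Z2} {b k : ℕ} (hk : 20 ≤ k) (h1 : Near (2 ^ (b + k)) z u)
    (h2 : ¬ Near (2 ^ (b + 18) - 1) z u) {R : ℤ} (hR : R ≤ 7 * 2 ^ b) : Q u R ⊆ Ann z b k := by
  obtain ⟨a0, a1, a2, -, -, -, a3⟩ := pw b k hk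
  exact fun y hy => ⟨near_tri h1 hy (by linarith), fun h => h2 (near_tri h (Near.symm hy) (by linarith))⟩

variable {f F : Z2 → ℝ} {μ : ℕ → ℝ} {j n k : ℕ} {z u u' : Z2} {o : ℝ}

theorem piece (hk : 20 ≤ k) (μ0 : 0 < μ j) (hN : NC F μ (j + n) j (Ann z (j + n) k))
    (ho : ∀ q v, Near (4 * 2 ^ (j + n + k)) z (up j q) → Near (2 ^ (j + n + 18)) (up j q) v →
      |f v - F v - (f (up j q) - F (up j q))| ≤ o) {S : Finset Z2} (hS : Cn ↑S u u')
    (h1 : Near (2 ^ (j + n + k)) z u) (h2 : ¬ Near (2 ^ (j + n + 18) - 1) z u)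
    (h3 : ¬ Near (2 ^ (j + n + 19) - 1) u u') :
    exp (f (up j (cn j u)) - F (up j (cn j u))) * (6 * 2 ^ n * μ j / (33 * (10 / 9) ^ n)) ≤
      exp o * cs f S := by
  obtain ⟨a0, -, a2, a3, -, -, a4⟩ := pw (j + n) k hk
  have a5 := p2_le (show j ≤ j + n by omega)
  have a6 : (2 : ℤ) ^ j * ((6 * 2 ^ n : ℕ) : ℤ) = 6 * 2 ^ (j + n) := by push_cast; ring
  obtain ⟨t, t1, t2⟩ : ∃ t, ¬ Near (6 * 2 ^ (j + n) - 1) u t ∧
      Cn ↑(cut S u (6 * 2 ^ (j + n))) u t := by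
    have := hS.trunc (near_refl (a := 6 * 2 ^ (j + n) - 1) (by linarith) u)
    rw [sub_add_cancel, ← coe_cut] at this
    exact this.elim (fun h => ⟨u', fun e => h3 (near_mono e (by linarith)), h⟩) id
  have e1 := cross hN μ0 t2 (l := 6 * 2 ^ n) (by have := Nat.one_le_two_pow (n := n); omega)
    (by rwa [a6]) (ann hk h1 h2 (by rw [mul_add, a6]; linarith))
  have e2 := cs_le (f := F) (f' := f) (S := cut S u (6 * 2 ^ (j + n)))
    (c := o - (f (up j (cn j u)) - F (up j (cn j u)))) fun v hv => by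
      have := abs_le.1 (ho (cn j u) v (near_tri h1 (near_cn j u) (by linarith))
        (near_tri (near_cn j u).symm (mem_cut.1 hv).2 (by linarith)))
      linarith [this.1]
  have e3 := cs_mono (f := f) (cut_sub S u (6 * 2 ^ (j + n)))
  rw [Nat.add_sub_cancel_left] at e1
  push_cast at e1
  refine (mul_le_mul_of_nonneg_left (e1.trans e2) (exp_pos _).le).trans ?_
  rw [← mul_assoc, ← exp_add, add_sub_cancel]
  exact mul_le_mul_of_nonneg_left e3 (exp_pos _).le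

theorem link (hrt : sRT) (hk : 20 ≤ k) (hG : GR μ j) (hN : NC F μ (j + n) j (Ann z (j + n) k))
    (ho : ∀ q v, Near (4 * 2 ^ (j + n + k)) z (up j q) → Near (2 ^ (j + n + 18)) (up j q) v →
      |f v - F v - (f (up j q) - F (up j q))| ≤ o)
    (h1 : Near (2 ^ (j + n + k)) z u) (h2 : ¬ Near (2 ^ (j + n + 18) - 1) z u)
    (h1' : Near (2 ^ (j + n + k)) z u') (h2' : ¬ Near (2 ^ (j + n + 18) - 1) z u') {D : ℤ} {y : ℝ}
    (hD : Near D (cn j u) (cn j u'))
    (hy : ∀ (q : Z2) (d : Fin 2) (r : ℕ), (r : ℤ) ≤ D + 2 ^ (n + 20) →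
      (∀ s < r, Near (3 * 2 ^ (n + k)) (cn j z) (q + Pi.single d (s : ℤ)) ∧
        Near (D + 2 ^ (n + 20)) (cn j u) (q + Pi.single d (s : ℤ))) →
      ∑ s ∈ range r, exp (f (up j (q + Pi.single d (s : ℤ))) - F (up j (q + Pi.single d (s : ℤ)))) ≤ y) :
    Tr f Set.univ u u' (100 * (900 * μ j * (10 / 9) ^ n) * (exp o * y)) := by
  obtain ⟨a0, a1, a2, -, -, -, a4⟩ := pw (j + n) k hk
  obtain ⟨b0, b1, -, -, b2, -, b4⟩ := pw n k hk
  have a5 := p2_le (show j ≤ j + n by omega)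
  have c1 : (2 : ℤ) ^ j * 2 ^ (n + k) = 2 ^ (j + n + k) := by ring
  have c2 : (2 : ℤ) ^ j * 2 ^ (n + 17) = 2 ^ (j + n + 17) := by ring
  have k1 : ∀ w, ¬ Near (2 ^ (j + n + 18) - 1) z w → ¬ Near (2 ^ (n + 17) + 1) (cn j z) (cn j w) :=
    fun w hw e => hw (near_tri (near_tri (near_cn j z) (up_near e) le_rfl) (near_cn j w).symm
      (by rw [mul_add, c2]; linarith))
  have k2 : ∀ w, Near (2 ^ (j + n + k)) z w → Near (3 * 2 ^ (n + k)) (cn j z) (cn j w) :=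
    fun w hw => near_mono (cn_near (a := 2 ^ (n + k)) (by rw [c1]; exact hw)) (by linarith)
  have k3 : ∀ q, Near (3 * 2 ^ (n + k)) (cn j z) q → Near (4 * 2 ^ (j + n + k)) z (up j q) :=
    fun q hq => near_tri (near_cn j z) (up_near hq) (by rw [mul_left_comm, c1]; linarith)
  have := conn (f' := f) hrt hN (by omega) hG (ann hk h1 h2 (by linarith))
    (ann hk h1' h2' (by linarith)) (z := cn j z) (ρ := 2 ^ (n + 17) + 1) (R := 3 * 2 ^ (n + k))
    (by linarith) (by linarith) hD (k1 u h2) (k1 u' h2') (k2 u h1) (k2 u' h1')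
    (fun q e hq => ⟨k3 q hq, fun e' => e (by
      have := cn_near (j := j) (a := 2 ^ (n + 17)) (u := z) (u' := up j q) (by rw [c2]; exact e')
      rwa [cn_up] at this)⟩)
    (G := fun q => f (up j q) - F (up j q) + o)
    (fun q v hq hv => by linarith [(abs_le.1 (ho q v (k3 q hq) hv)).2]) (x := exp o * y)
    fun q d m hm hq => by
      simp only [exp_add]
      rw [← sum_mul, mul_comm]
      exact mul_le_mul_of_nonneg_left (hy q d m (by linarith) fun s hs =>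
        ⟨(hq s hs).1, near_mono (hq s hs).2 (by linarith)⟩) (exp_pos _).le
  rwa [Nat.add_sub_cancel_left] at this

theorem num {m A y : ℝ} (n : ℕ) (m0 : 0 < m) (y0 : 0 ≤ y)
    (h : A * (6 * 2 ^ n * m / (33 * (10 / 9) ^ n)) ≤
      exp o * (100 * (900 * m * (10 / 9) ^ n) * (exp o * y))) : A ≤ 10 ^ 6 * exp (2 * o) * y := by
  have a : (10 / 9 : ℝ) ^ n * (10 / 9) ^ n ≤ 2 ^ n := by
    rw [← mul_pow]
    exact pow_le_pow_left₀ (by norm_num) (by norm_num) n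
  have p : (0 : ℝ) < 6 * 2 ^ n * m / (33 * (10 / 9) ^ n) := by positivity
  refine le_of_mul_le_mul_right (h.trans ?_) p
  have e : 0 ≤ exp o * exp o * y * m := by positivity
  rw [two_mul, exp_add, ← mul_div_assoc, le_div_iff₀ (by positivity)]
  have b := mul_le_mul_of_nonneg_left a e
  have c : 0 ≤ exp o * exp o * y * m * 2 ^ n := by positivity
  linarith

end Bl

theorem bl (hrt : sRT) : sBL := by
  intro f F μ j n k T a b x z o hg hb hk hG hN hz ho
  obtain ⟨a0, -, a2, a3, a4, -, -⟩ := Bl.pw (j + n) k hk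
  obtain ⟨b0, -, -, b3, -, b5, -⟩ := Bl.pw n k hk
  have μ0 := (hG j le_rfl).1
  obtain ⟨m, τ, cv, t0, t⟩ := Bl.greedy x (r := 2 ^ (j + n + 19)) (by linarith) b _ a le_rfl
  have mono : ∀ i i', i ≤ i' → i' ≤ m → τ i ≤ τ i' := fun i i' h h' =>
    (Bl.glue (fun l hl => (t l hl).1) 0 h h').1
  have ex : ∀ l < m, ∃ s ∈ Ico (τ l) (τ (l + 1)), ¬ Near (2 ^ (j + n + 18) - 1) z (x s) ∧
      ∃ s' ∈ Ico (τ l) (τ (l + 1)), ¬ Near (2 ^ (j + n + 19) - 1) (x s) (x s') := fun l hl => by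
    obtain ⟨t1, t2, t3, -⟩ := t l hl
    obtain ⟨c, hc⟩ : ∃ c, τ (l + 1) = c + 1 := ⟨τ (l + 1) - 1, by omega⟩
    rw [hc] at t1 t2 t3 ⊢
    have m1 : τ l ∈ Ico (τ l) (c + 1) := mem_Ico.2 ⟨le_rfl, t1⟩
    have m2 : c ∈ Ico (τ l) (c + 1) := mem_Ico.2 ⟨by omega, by omega⟩
    have e : ¬ Near (2 ^ (j + n + 19) - 1) (x (τ l)) (x c) := fun e =>
      t3 (near_tri e (hg.1 c (by omega)).near (by linarith))
    by_cases h : Near (2 ^ (j + n + 18) - 1) z (x (τ l))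
    · exact ⟨c, m2, fun h' => e (near_tri h.symm h' (by linarith)), _, m1, fun h' => e h'.symm⟩
    · exact ⟨_, m1, h, c, m2, e⟩
  choose! s s1 s2 s' s3 s4 using ex
  have nz : ∀ l < m, Near (2 ^ (j + n + k)) z (x (s l)) := fun l hl => by
    have e1 := mem_Ico.1 (s1 l hl)
    have e2 := mono 0 l (by omega) hl.le
    have e3 := (t l hl).2.1
    exact hz _ (mem_Ico.2 ⟨by omega, by omega⟩)
  refine ⟨m, fun l => cn j (x (s l)), by rwa [a4, show (1048576 : ℤ) * 2 ^ (j + n) =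
    2 * 2 ^ (j + n + 19) by linarith], fun l hl => cn_near ?_, fun l hl => ?_, ?_⟩
  · rw [← pow_add, ← add_assoc]
    exact nz l hl
  · obtain ⟨t1, t2, -, t4⟩ := t l (by omega)
    obtain ⟨c, hc⟩ : ∃ c, τ (l + 1) = c + 1 := ⟨τ (l + 1) - 1, by omega⟩
    have e1 := t4 c (mem_Ico.2 ⟨by omega, by omega⟩)
    have e2 := (hg.1 c (by omega)).near
    rw [← hc] at e2
    have e3 := near_tri (near_tri (near_tri (t4 _ (s1 l (by omega))).symm e1 le_rfl) e2 le_rfl)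
      ((t _ hl).2.2.2 _ (s1 _ hl)) (c := 2 ^ j * (3 * 2 ^ (n + 19) + 1)) (by
        have := p2 j
        rw [mul_add, mul_left_comm, ← pow_add, ← add_assoc]
        linarith)
    exact near_mono (cn_near e3) (by linarith)
  · intro i i' hi hi' D y hD hy
    have y0 : 0 ≤ y := by
      simpa using hy 0 0 0 (by have := near_nonneg hD; push_cast; positivity) (by omega)
    have e1 := mem_Ico.1 (s1 i (by omega))
    have e2 := mem_Ico.1 (s1 i' hi')
    have e3 := (t i' hi').2.1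
    obtain ⟨e4, e5⟩ := Bl.glue (fun l hl => (t l hl).1) (fun s => exp (f (x s)))
      (show i + 1 ≤ i' from hi) hi'.le
    have e6 := hg.2 (s i) (s i') _ (by omega) (by omega) (Bl.link hrt hk hG hN ho (nz i (by omega))
      (s2 i (by omega)) (nz i' hi') (s2 i' hi') hD hy)
    have e7 : ∑ s ∈ Ico (τ (i + 1)) (τ i'), exp (f (x s)) ≤ ∑ s ∈ Icc (s i) (s i'), exp (f (x s)) :=
      sum_le_sum_of_subset_of_nonneg (fun s hs => by
        rw [mem_Ico] at hs
        exact mem_Icc.2 ⟨by omega, by omega⟩) fun _ _ _ => (exp_pos _).le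
    refine Bl.num n μ0 y0 (le_trans ?_ (mul_le_mul_of_nonneg_left (e5.le.trans (e7.trans e6))
      (exp_pos o).le))
    rw [sum_mul, mul_sum, show Ioo i i' = Ico (i + 1) i' from (Ico_add_one_left_eq_Ioo i i').symm]
    refine sum_le_sum fun l hl => ?_
    have hl' : l < m := (mem_Ico.1 hl).2.trans hi'
    have e8 := (t l hl').2.1
    exact (Bl.piece hk μ0 hN ho (Ws.cn hg.1 (by omega) (s1 l hl') (s3 l hl')) (nz l hl') (s2 l hl')
      (s4 l hl')).trans (mul_le_mul_of_nonneg_left (Ws.cs_image ..) (exp_pos _).le)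

end Pool.Agent.GU
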