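import Pool.Agent.Lib.MP_438f30_pr.U.St

/-! Lattice lemmas: truncation, crossings, shortcuts, chains. -/

namespace Pool.Agent.GU

open MeasureTheory Real Finset Pool.Agent.Lib.MP_a0a493_pr Pool.Agent.GL

variable {f f' : Z2 → ℝ} {D D' : Set Z2} {p q r u u' v w : Z2} {x y : ℝ}

theorem near_refl {a : ℤ} (h : 0 ≤ a) (x : Z2) : Near a x x := fun i => by simpa using h

theorem near_tri {a b c : ℤ} (h : Near a p q) (h' : Near b q r) (hc : a + b ≤ c) : Near c p r :=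
  fun i => ((abs_sub_le _ _ _).trans (add_le_add (h i) (h' i))).trans hc

theorem near_mono {a b : ℤ} (h : Near a p q) (hb : a ≤ b) : Near b p q := fun i => (h i).trans hb

theorem near_nonneg {a : ℤ} (h : Near a p q) : 0 ≤ a := (abs_nonneg _).trans (h 0)

theorem p2 (j : ℕ) : (0 : ℤ) < 2 ^ j := by positivity

theorem p2_le {j k : ℕ} (h : j ≤ k) : (2 : ℤ) ^ j ≤ 2 ^ k := pow_le_pow_right₀ one_le_two h

theorem cs_nonneg (f : Z2 → ℝ) (S : Finset Z2) : 0 ≤ cs f S := sum_nonneg fun _ _ => (exp_pos _).le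

theorem cs_mono {S T : Finset Z2} (h : S ⊆ T) : cs f S ≤ cs f T :=
  sum_le_sum_of_subset_of_nonneg h fun _ _ _ => (exp_pos _).le

theorem cs_union (S T : Finset Z2) : cs f (S ∪ T) ≤ cs f S + cs f T := by
  have := sum_union_inter (s₁ := S) (s₂ := T) (f := fun v => exp (f v))
  linarith [cs_nonneg f (S ∩ T), show cs f (S ∪ T) + cs f (S ∩ T) = cs f S + cs f T from this]

theorem cs_biUnion {ι : Type*} (I : Finset ι) (S : ι → Finset Z2) :
    cs f (I.biUnion S) ≤ ∑ i ∈ I, cs f (S i) := by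
  classical
  induction I using Finset.induction_on with
  | empty => simp [cs]
  | insert a I ha ih => rw [biUnion_insert, sum_insert ha]; linarith [cs_union (f := f) (S a) (I.biUnion S)]

theorem cs_le {S : Finset Z2} {c : ℝ} (h : ∀ v ∈ S, f v ≤ f' v + c) : cs f S ≤ exp c * cs f' S := by
  unfold cs
  rw [mul_sum]
  exact sum_le_sum fun v hv => by rw [← exp_add]; exact exp_le_exp.2 (by linarith [h v hv])

theorem le_cs {S : Finset Z2} (h : p ∈ S) : exp (f p) ≤ cs f S :=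
  single_le_sum (f := fun v => exp (f v)) (fun _ _ => (exp_pos _).le) h

theorem Tr.mono (h : Tr f D p q x) (hD : D ⊆ D') (hx : x ≤ y) : Tr f D' p q y :=
  let ⟨S, a, b, c⟩ := h; ⟨S, a.trans hD, b, c.trans hx⟩

theorem Tr.symm (h : Tr f D p q x) : Tr f D q p x := let ⟨S, a, b, c⟩ := h; ⟨S, a, b.symm, c⟩

theorem Tr.left (h : Tr f D p q x) : Tr f D p p x := let ⟨S, a, b, c⟩ := h; ⟨S, a, .refl b.1, c⟩

theorem Tr.trans (h : Tr f D p q x) (h' : Tr f D q r y) : Tr f D p r (x + y) := by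
  obtain ⟨S, a, b, c⟩ := h
  obtain ⟨T, a', b', c'⟩ := h'
  refine ⟨S ∪ T, ?_, ?_, (cs_union S T).trans (add_le_add c c')⟩
  · rw [coe_union]; exact Set.union_subset a a'
  · rw [coe_union]; exact (b.mono Set.subset_union_left).trans (b'.mono Set.subset_union_right)

theorem Tr.cmp {c : ℝ} (h : Tr f' D p q x) (hc : ∀ v ∈ D, f v ≤ f' v + c) :
    Tr f D p q (exp c * x) :=
  let ⟨S, a, b, d⟩ := h
  ⟨S, a, b, (cs_le fun v hv => hc v (a hv)).trans (mul_le_mul_of_nonneg_left d (exp_pos _).le)⟩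

theorem Tr.nonneg (h : Tr f D p q x) : 0 ≤ x := let ⟨S, _, _, c⟩ := h; (cs_nonneg f S).trans c

theorem Cn.trunc {S : Set Z2} {R : ℤ} (h : Cn S u u') (hu : Near R v u) :
    Cn (S ∩ Q v (R + 1)) u u' ∨ ∃ t, ¬ Near R v t ∧ Cn (S ∩ Q v (R + 1)) u t := by
  have key := h.induct (R := fun x => (Cn (S ∩ Q v (R + 1)) u x ∧ Near R v x) ∨
      ∃ t, ¬ Near R v t ∧ Cn (S ∩ Q v (R + 1)) u t)
    (Or.inl ⟨.refl ⟨h.1, near_mono hu (by omega)⟩, hu⟩) ?_
  · exact key.imp And.left id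
  · rintro x y - (⟨ih, hx⟩ | ih) hy hn
    · have h1 := ih.tail ⟨hy, near_tri hx hn.near le_rfl⟩ hn
      by_cases h2 : Near R v y
      · exact Or.inl ⟨h1, h2⟩
      · exact Or.inr ⟨y, h2, h1⟩
    · exact Or.inr ih

open Classical in
/-- the part of `S` in a square -/
noncomputable def cut (S : Finset Z2) (v : Z2) (R : ℤ) : Finset Z2 := S.filter (Near R v)

theorem mem_cut {S : Finset Z2} {R : ℤ} : p ∈ cut S v R ↔ p ∈ S ∧ Near R v p := by
  classical
  exact mem_filter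

theorem coe_cut (S : Finset Z2) (v : Z2) (R : ℤ) : (↑(cut S v R) : Set Z2) = ↑S ∩ Q v R :=
  Set.ext fun _ => mem_cut

theorem cut_sub (S : Finset Z2) (v : Z2) (R : ℤ) : cut S v R ⊆ S := fun _ h => (mem_cut.1 h).1

theorem Cn.le {S : Finset Z2} {ρ R : ℤ} (h : Cn ↑S u u') (hu : Near ρ v u) (hR : ρ ≤ R)
    (hw : u' = w ∨ ¬ Near R v u') : Le f v ρ R w (cs f (cut S v (R + 1))) := by
  have s : (↑(cut S v (R + 1)) : Set Z2) ⊆ Q v (R + 1) := fun _ h => (mem_cut.1 h).2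
  rcases h.trunc (near_mono hu hR) with k | ⟨t, ht, k⟩
  · exact ⟨u, u', hu, hw, _, s, by rwa [coe_cut], le_rfl⟩
  · exact ⟨u, t, hu, Or.inr ht, _, s, by rwa [coe_cut], le_rfl⟩

theorem Le.mono {ρ R : ℤ} (h : Le f v ρ R w x) (hx : x ≤ y) : Le f v ρ R w y :=
  let ⟨u, u', a, b, c⟩ := h; ⟨u, u', a, b, c.mono subset_rfl hx⟩

theorem Le.cmp {ρ R : ℤ} {c : ℝ} (h : Le f' v ρ R w x) (hc : ∀ y, Near (R + 1) v y → f y ≤ f' y + c) :
    Le f v ρ R w (exp c * x) :=
  let ⟨u, u', a, b, d⟩ := h; ⟨u, u', a, b, d.cmp hc⟩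

theorem Tr.le {ρ R : ℤ} (h : Tr f D u u' x) (hu : Near ρ v u) (hR : ρ ≤ R)
    (hw : u' = w ∨ ¬ Near R v u') : Le f v ρ R w x :=
  let ⟨S, _, b, c⟩ := h; (b.le hu hR hw).mono ((cs_mono (cut_sub ..)).trans c)

theorem Cn.ivt {S : Set Z2} {n : ℤ} (h : Cn S u u') (hn : 0 ≤ n) (hu : ¬ Near (n - 1) u u') :
    ∃ t, Cn S u t ∧ Near n u t ∧ ¬ Near (n - 1) u t := by
  rcases hn.eq_or_lt with rfl | hn
  · exact ⟨u, .refl h.1, near_refl le_rfl u, fun k => by simpa using near_nonneg k⟩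
  · have := h.trunc (near_refl (a := n - 1) (by omega) u)
    rw [sub_add_cancel] at this
    rcases this with k | ⟨t, ht, k⟩
    · exact ⟨u', h, k.mem.2, hu⟩
    · exact ⟨t, k.mono Set.inter_subset_left, k.mem.2, ht⟩

/-- the points of the grid of scale `j` -/
def up (j : ℕ) (q : Z2) : Z2 := (2 : ℤ) ^ j • q

theorem up_apply (j : ℕ) (q : Z2) (i : Fin 2) : up j q i = 2 ^ j * q i := rfl

theorem up_zero (q : Z2) : up 0 q = q := by simp [up]

theorem up_add (j : ℕ) (q : Z2) (e : Fin 2) (c : ℤ) :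
    up j (q + Pi.single e c) = up j q + Pi.single e (2 ^ j * c) := by
  funext i
  by_cases h : i = e <;> simp [up_apply, h, mul_add]

/-- the index of the cell -/
def cn (j : ℕ) (u : Z2) : Z2 := fun i => u i / 2 ^ j

theorem cn_spec (j : ℕ) (u : Z2) (i : Fin 2) :
    up j (cn j u) i ≤ u i ∧ u i < up j (cn j u) i + 2 ^ j := by
  have a := Int.mul_ediv_add_emod (u i) (2 ^ j)
  have b := Int.emod_nonneg (u i) (p2 j).ne'
  have c := Int.emod_lt_of_pos (u i) (p2 j)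
  simp only [up_apply, cn]
  constructor <;> omega

theorem near_cn (j : ℕ) (u : Z2) : Near (2 ^ j) u (up j (cn j u)) := fun i => by
  have := cn_spec j u i
  rw [abs_le]
  constructor <;> omega

theorem cn_near {j : ℕ} {a : ℤ} (h : Near (2 ^ j * a) u u') : Near (a + 1) (cn j u) (cn j u') :=
  fun i => by
    have a1 := cn_spec j u i
    have a2 := cn_spec j u' i
    have b := abs_le.1 (h i)
    have c := p2 j
    simp only [up_apply] at a1 a2
    rw [abs_le]
    constructor <;> nlinarith [a1.1, a1.2, a2.1, a2.2, b.1, b.2]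

theorem up_near {j : ℕ} {a : ℤ} (h : Near a p q) : Near (2 ^ j * a) (up j p) (up j q) := fun i => by
  rw [up_apply, up_apply, ← mul_sub, abs_mul, abs_of_pos (p2 j)]
  exact mul_le_mul_of_nonneg_left (h i) (p2 j).le

theorem ll_of {S : Finset Z2} {j : ℕ} (h : Cn ↑S u u') (hu : Near (2 ^ j) v u)
    (hw : ¬ Near (4 * 2 ^ j) v u') : LL f j v (cs f (cut S v (4 * 2 ^ j + 1))) :=
  h.le hu (by have := p2 j; omega) (Or.inr hw)

/-- a long crossing contains many disjoint crossings of annuli -/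
theorem cr {S : Finset Z2} {j : ℕ} {l : ℤ} {m : ℝ} (h : Cn ↑S u u') (hl : 5 * 2 ^ j ≤ l)
    (hu : ¬ Near (l - 1) u u') (m0 : 0 ≤ m)
    (hm : ∀ q, Near (l + 2 ^ j) u (up j q) → ¬ LL f j (up j q) m) :
    l / (11 * 2 ^ j) * m ≤ cs f S := by
  have c := p2 j
  obtain ⟨N, hN⟩ := Int.eq_ofNat_of_zero_le (Int.ediv_nonneg (a := l) (b := 11 * 2 ^ j)
    (by omega) (by omega))
  have n1 : 11 * 2 ^ j * (N : ℤ) ≤ l := hN ▸ Int.mul_ediv_self_le (by omega)
  have n2 : l < 11 * 2 ^ j * (N : ℤ) + 11 * 2 ^ j := hN ▸ Int.lt_mul_ediv_self_add (by omega)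
  have ex : ∀ n : ℕ, n ≤ N → ∃ t, Cn ↑S u t ∧ Near (11 * (2 ^ j * n)) u t ∧
      ¬ Near (11 * (2 ^ j * n) - 1) u t := fun n hn =>
    h.ivt (by positivity) fun k => hu (near_mono k (by
      have : (n : ℤ) ≤ N := by exact_mod_cast hn
      nlinarith))
  choose! t t1 t2 t3 using ex
  have big : ∀ n ∈ range (N + 1), m ≤ cs f (cut S (up j (cn j (t n))) (4 * 2 ^ j + 1)) := by
    intro n hn
    have hn' : n ≤ N := Nat.lt_succ_iff.1 (mem_range.1 hn)
    have hn2 : (n : ℤ) ≤ N := by exact_mod_cast hn'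
    refine le_of_not_gt fun k => hm (cn j (t n)) (near_tri (t2 n hn') (near_cn _ _) (by nlinarith)) ?_
    have sp := cn_spec j (t n)
    rcases Nat.eq_zero_or_pos n with rfl | n0
    · refine Le.mono (ll_of ((t1 0 hn').symm.trans h) (near_cn _ _).symm fun k' => hu fun i => ?_) k.le
      have := abs_le.1 (k' i)
      have := abs_le.1 (t2 0 hn' i)
      have := sp i
      rw [abs_le]
      constructor <;> omega
    · refine Le.mono (ll_of (t1 n hn').symm (near_cn _ _).symm fun k' => t3 n hn' ?_) k.le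
      have : (1 : ℤ) ≤ n := by exact_mod_cast n0
      exact near_tri k'.symm (near_cn _ _).symm (by nlinarith)
  have dj : ∀ n n', n < n' → n' ≤ N → Disjoint (cut S (up j (cn j (t n))) (4 * 2 ^ j + 1))
      (cut S (up j (cn j (t n'))) (4 * 2 ^ j + 1)) := fun n n' h1 h2 =>
    disjoint_left.2 fun z a b => t3 n' h2 fun i => by
      have a1 := abs_le.1 ((mem_cut.1 a).2 i)
      have a2 := abs_le.1 ((mem_cut.1 b).2 i)
      have a3 := abs_le.1 (t2 n (by omega) i)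
      have a4 := cn_spec j (t n) i
      have a5 := cn_spec j (t n') i
      have a6 : (2 : ℤ) ^ j * n + 2 ^ j ≤ 2 ^ j * n' := by
        have : (n : ℤ) + 1 ≤ n' := by exact_mod_cast h1
        nlinarith
      rw [abs_le]
      constructor <;> omega
  have s1 := card_nsmul_le_sum _ _ _ big
  rw [card_range, nsmul_eq_mul] at s1
  have s2 : ∑ n ∈ range (N + 1), cs f (cut S (up j (cn j (t n))) (4 * 2 ^ j + 1)) ≤ cs f S := by
    unfold cs
    rw [← sum_biUnion fun n hn n' hn' hne => ?_]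
    · exact cs_mono (biUnion_subset.2 fun _ _ => cut_sub ..)
    · have a := Nat.lt_succ_iff.1 (mem_range.1 hn)
      have b := Nat.lt_succ_iff.1 (mem_range.1 hn')
      rcases lt_or_gt_of_ne hne with k | k
      exacts [dj n n' k b, (dj n' n k a).symm]
  refine le_trans (mul_le_mul_of_nonneg_right ?_ m0) (s1.trans s2)
  rw [div_le_iff₀ (by positivity)]
  have := (Int.cast_le (R := ℝ)).2 n2.le
  push_cast at this ⊢
  linarith

theorem Cn.entry {S : Set Z2} (B : Set Z2) (h : Cn S u u') :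
    Cn (S \ B) u u' ∨ ∃ t ∈ B, ∀ T : Set Z2, t ∈ T → Cn (S \ B ∪ T) u t := by
  refine h.induct (R := fun x => Cn (S \ B) u x ∨ ∃ t ∈ B, ∀ T : Set Z2, t ∈ T → Cn (S \ B ∪ T) u t)
    ?_ ?_
  · by_cases k : u ∈ B
    · exact Or.inr ⟨u, k, fun T hT => .refl (Or.inr hT)⟩
    · exact Or.inl (.refl ⟨h.1, k⟩)
  · rintro x y - (ih | ih) hy hn
    · by_cases k : y ∈ B
      · exact Or.inr ⟨y, k, fun T hT => (ih.mono Set.subset_union_left).tail (Or.inr hT) hn⟩
      · exact Or.inl (ih.tail ⟨hy, k⟩ hn)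
    · exact Or.inr ih

/-- a cheapest crossing spends little in a square whose points are cheaply joined -/
theorem shortcut {S : Finset Z2} {ρ R a : ℤ} (hR : ρ ≤ R) (h : Cn ↑S u u') (hu : Near ρ v u)
    (hw : u' = w ∨ ¬ Near R v u') (hmin : ∀ y, Le f v ρ R w y → cs f S ≤ y) (x0 : 0 ≤ x)
    (hB : ∀ t t', Near a p t → Near a p t' → Tr f Set.univ t t' x) : cs f (cut S p a) ≤ x := by
  have e : cs f (S \ cut S p a) + cs f (cut S p a) = cs f S := sum_sdiff (cut_sub ..)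
  have e2 : (↑(S \ cut S p a) : Set Z2) = ↑S \ Q p a := by
    rw [coe_sdiff, coe_cut, Set.sdiff_self_inter]
  have k1 : Cn (↑S \ Q p a) u u' → cs f (cut S p a) ≤ x := fun k => by
    have := hmin _ (Tr.le (D := Set.univ) ⟨_, Set.subset_univ _, e2 ▸ k, le_rfl⟩ hu hR hw)
    linarith
  rcases h.entry (Q p a) with k | ⟨t, ht, k⟩
  · exact k1 k
  rcases h.symm.entry (Q p a) with k' | ⟨t', ht', k'⟩
  · exact k1 k'.symm
  obtain ⟨T, -, b, c⟩ := hB t t' ht ht'
  have := hmin _ (Tr.le (D := Set.univ) ⟨S \ cut S p a ∪ T, Set.subset_univ _, by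
    rw [coe_union, e2]
    exact ((k _ b.1).trans (b.mono Set.subset_union_right)).trans (k' _ b.mem).symm, le_rfl⟩ hu hR hw)
  linarith [cs_union (f := f) (S \ cut S p a) T]

/-- a chain of grid edges -/
theorem chain {j : ℕ} {S : Finset Z2} {c : Z2 → ℝ} (h : Cn ↑S p q)
    (hc : ∀ q ∈ S, ∀ e, Tr f D (up j q) (up j q + Pi.single e (2 ^ j)) (c q)) :
    Tr f D (up j p) (up j q) (2 * ∑ q ∈ S, c q) := by
  choose! U h1 h2 h3 using hc
  have s : ∀ q ∈ S, ∀ e, (↑(U q e) : Set Z2) ⊆ ↑(S.biUnion fun q => univ.biUnion (U q)) :=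
    fun q hq e z hz => mem_biUnion.2 ⟨q, hq, mem_biUnion.2 ⟨e, mem_univ _, hz⟩⟩
  refine ⟨S.biUnion fun q => univ.biUnion (U q), fun z hz => ?_, ?_, (cs_biUnion ..).trans ?_⟩
  · obtain ⟨q, hq, hz⟩ := mem_biUnion.1 hz
    obtain ⟨e, -, hz⟩ := mem_biUnion.1 hz
    exact h1 q hq e hz
  · refine h.induct (R := fun x => Cn _ (up j p) (up j x)) (.refl (s p h.1 0 (h2 p h.1 0).1))
      fun x y hx ih hy hn => ih.trans ?_
    obtain ⟨e, rfl | rfl⟩ := hn.cases
    · rw [up_add, mul_one]; exact (h2 x hx.mem e).mono (s x hx.mem e)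
    · rw [up_add, mul_one]; exact ((h2 y hy e).mono (s y hy e)).symm
  · rw [mul_sum]
    refine sum_le_sum fun q hq => (cs_biUnion ..).trans ?_
    rw [Fin.sum_univ_two]
    linarith [h3 q hq 0, h3 q hq 1]

theorem prob_fin {Ω ι : Type} [MeasurableSpace Ω] (P : Measure Ω) [IsProbabilityMeasure P]
    (I : Finset ι) (E : ι → Ω → Prop) {ε : ℝ} (h : ∀ q ∈ I, P.real {ω | E q ω} ≤ ε) :
    P.real {ω | ∃ q ∈ I, E q ω} ≤ I.card * ε := by
  have e : {ω | ∃ q ∈ I, E q ω} = ⋃ q ∈ I, {ω | E q ω} := by ext ω; simp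
  rw [e, ← nsmul_eq_mul]
  exact (measureReal_biUnion_finset_le _ _).trans (sum_le_card_nsmul _ _ _ h)

/-- the square as a finite set -/
noncomputable def bx (v : Z2) (R : ℕ) : Finset Z2 :=
  Fintype.piFinset fun i => Icc (v i - R) (v i + R)

theorem mem_bx {R : ℕ} : p ∈ bx v R ↔ Near R v p := by
  simp only [bx, Fintype.mem_piFinset, mem_Icc, Near, abs_le]
  exact forall_congr' fun i => by omega

theorem card_bx (v : Z2) (R : ℕ) : (bx v R).card = (2 * R + 1) ^ 2 := by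
  have e : ∀ a : ℤ, (a + R + 1 - (a - R)).toNat = 2 * R + 1 := fun a => by omega
  simp only [bx, Fintype.card_piFinset, Int.card_Icc, e, prod_const, card_univ, Fintype.card_fin]

/-- a union bound over grid points -/
theorem prob_grid {Ω : Type} [MeasurableSpace Ω] (P : Measure Ω) [IsProbabilityMeasure P]
    (j d : ℕ) (v : Z2) (E : Z2 → Ω → Prop) {ε : ℝ} (h : ∀ q, P.real {ω | E q ω} ≤ ε) :
    P.real {ω | ∃ q, Near (2 ^ (j + d)) v (up j q) ∧ E q ω} ≤ 25 * 4 ^ d * ε := by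
  have e0 : 0 ≤ ε := measureReal_nonneg.trans (h 0)
  refine (measureReal_mono ?_).trans ((prob_fin P (bx (cn j v) (2 ^ d + 1)) E fun q _ => h q).trans
    (mul_le_mul_of_nonneg_right ?_ e0))
  · rintro ω ⟨q, hq, hω⟩
    refine ⟨q, mem_bx.2 fun i => ?_, hω⟩
    have a := abs_le.1 (hq i)
    have b := cn_spec j v i
    have c := p2 j
    simp only [up_apply, pow_add] at a b
    push_cast
    rw [abs_le]
    constructor <;> nlinarith [a.1, a.2, b.1, b.2]
  · have a : (1 : ℝ) ≤ 2 ^ d := one_le_pow₀ one_le_two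
    have b : (4 : ℝ) ^ d = 2 ^ d * 2 ^ d := by rw [← mul_pow]; norm_num
    rw [card_bx]
    push_cast
    nlinarith

end Pool.Agent.GU
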