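import Pool.Agent.Lib.MP_438f30_pr.U.St

/-! Counting bad scales. -/

namespace Pool.Agent.GU

open MeasureTheory ProbabilityTheory Real Finset Pool.Agent.Lib.MP_a0a493_pr Pool.Agent.GL
open scoped InnerProductSpace ENNReal

section
variable {H : Type} [NormedAddCommGroup H] [InnerProductSpace ℝ H]

theorem FK_mono {Ω : Type} (W : H →ₗ[ℝ] (Ω → ℝ)) {K K' : Set H} (h : K ⊆ K') :
    FK W K ≤ FK W K' :=
  (@measurable_pi_lambda Ω K (fun _ => ℝ) (FK W K') _ _ fun v : K => meas_FK W (h v.2)).comap_le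

theorem FK_indep {Ω : Type} [MeasurableSpace Ω] {P : Measure Ω} [IsProbabilityMeasure P]
    {W : H →ₗ[ℝ] (Ω → ℝ)} (h : Iso P W) {K K' : Set H}
    (ho : ∀ v ∈ K, ∀ v' ∈ K', ⟪v, v'⟫_ℝ = 0) : Indep (FK W K) (FK W K') P :=
  (IndepFun_iff_Indep _ _ _).1 (IndepFun.process_indepFun_process (fun _ => h.meas _)
    (fun _ => h.meas _) fun I J => h.indep (fun i : I => ((i : K) : H))
      (fun j : J => ((j : K') : H)) fun i j => ho _ i.1.2 _ j.1.2)

end

/-- the weight of a scale -/
noncomputable def cntZ {Ω : Type} (G : ℕ → Set Ω) (M : ℝ) (ω : Ω) : ℝ≥0∞ :=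
  1 + ∑' m : ℕ, (G m)ᶜ.indicator (fun _ => ENNReal.ofReal (exp ((M - 1) * (m + 1)))) ω

theorem cntZ_meas {Ω : Type} (m : MeasurableSpace Ω) {G : ℕ → Set Ω} (M : ℝ)
    (hG : ∀ k, MeasurableSet[m] (G k)) : Measurable[m] (cntZ G M) :=
  measurable_const.add (Measurable.ennreal_tsum fun k => measurable_const.indicator (hG k).compl)

theorem cntZ_one {Ω : Type} (G : ℕ → Set Ω) (M : ℝ) (ω : Ω) : 1 ≤ cntZ G M ω := le_self_add

theorem cntZ_top {Ω : Type} {G : ℕ → Set Ω} {M : ℝ} (hM : 1 ≤ M) {ω : Ω} (h : ∀ k, ω ∉ G k) :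
    cntZ G M ω = ⊤ := by
  refine top_le_iff.1 (le_add_left ?_)
  have : (∑' _ : ℕ, (1 : ℝ≥0∞)) = ⊤ := ENNReal.tsum_const_eq_top_of_ne_zero one_ne_zero
  rw [← this]
  refine ENNReal.tsum_le_tsum fun k => ?_
  rw [Set.indicator_of_mem (show ω ∈ (G k)ᶜ from h k), ENNReal.one_le_ofReal]
  exact one_le_exp (mul_nonneg (by linarith) (by positivity))

open Classical in
theorem cntZ_find {Ω : Type} {G : ℕ → Set Ω} (M : ℝ) {ω : Ω} (h : ∃ k, ω ∈ G k) :
    ENNReal.ofReal (exp ((M - 1) * (Nat.find h : ℕ))) ≤ cntZ G M ω := by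
  rcases e : Nat.find h with _ | k
  · simpa using cntZ_one G M ω
  · have hk : ω ∈ (G k)ᶜ := Nat.find_min h (by omega)
    refine le_add_left (le_trans ?_ (ENNReal.le_tsum k))
    rw [Set.indicator_of_mem hk]
    push_cast
    exact le_rfl

theorem cntZ_int {Ω : Type} [MeasurableSpace Ω] {P : Measure Ω} [IsProbabilityMeasure P]
    {G : ℕ → Set Ω} {M : ℝ} (hG : ∀ k, MeasurableSet (G k))
    (hP : ∀ m : ℕ, P.real (G m)ᶜ ≤ exp (-(M * (m + 1)))) : ∫⁻ ω, cntZ G M ω ∂P ≤ 2 := by
  unfold cntZ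
  rw [lintegral_add_left measurable_const,
    lintegral_tsum fun k => (measurable_const.indicator (hG k).compl).aemeasurable]
  have e : (2 : ℝ≥0∞) = 1 + ∑' k : ℕ, (2⁻¹ : ℝ≥0∞) ^ (k + 1) := by
    rw [ENNReal.tsum_geometric_add_one, ENNReal.one_sub_inv_two, inv_inv,
      ENNReal.inv_mul_cancel (by norm_num) (by norm_num)]
    norm_num
  rw [e, lintegral_const, measure_univ, mul_one]
  refine add_le_add le_rfl (ENNReal.tsum_le_tsum fun k => ?_)
  rw [lintegral_indicator_const (hG k).compl, ← ofReal_measureReal (μ := P) (s := (G k)ᶜ),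
    ← ENNReal.ofReal_mul (exp_pos _).le]
  have e2 : (2⁻¹ : ℝ≥0∞) ^ (k + 1) = ENNReal.ofReal ((2⁻¹ : ℝ) ^ (k + 1)) := by
    rw [ENNReal.ofReal_pow (by norm_num), ENNReal.ofReal_inv_of_pos (by norm_num)]
    norm_num
  rw [e2]
  refine ENNReal.ofReal_le_ofReal ((mul_le_mul_of_nonneg_left (hP k) (exp_pos _).le).trans ?_)
  rw [← exp_add, show (M - 1) * (k + 1) + -(M * (k + 1)) = ((k + 1 : ℕ) : ℝ) * (-1) by
    push_cast; ring, exp_nat_mul]
  refine pow_le_pow_left₀ (exp_pos _).le ?_ _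
  rw [exp_neg]
  exact inv_anti₀ (by norm_num) (by linarith [add_one_le_exp (1 : ℝ)])

theorem cnt : sCnt := by
  classical
  intro Ω _ P _ H _ _ W hW K F G M x J hM hx hKF _ ho hG hP
  let Z : ℕ → ℕ → Ω → ℝ≥0∞ := fun r n ω => ∏ j ∈ range n with j % 2 = r, cntZ (G j) M ω
  have hm : ∀ j k, MeasurableSet (G j k) := fun j k => FK_le hW _ _ (hG j k)
  have hZm : ∀ r n, Measurable (Z r n) := fun r n =>
    Finset.measurable_prod _ fun j _ => cntZ_meas _ M (hm j)
  have hZ : ∀ r n, n ≤ J → ∫⁻ ω, Z r n ω ∂P ≤ 2 ^ n := by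
    intro r n
    induction n with
    | zero => intro _; simp [Z]
    | succ n ih =>
      intro hn
      have ih := ih (by omega)
      by_cases c : n % 2 = r
      · have e : ∀ ω, Z r (n + 1) ω = cntZ (G n) M ω * Z r n ω := fun ω => by
          simp only [Z]
          rw [range_add_one, filter_insert, if_pos c, prod_insert (by simp)]
        let U : Set H := {h | ∃ j, j + 2 ≤ n ∧ h ∈ F j}
        have m2 : Measurable[FK W U] (Z r n) := Finset.measurable_prod _ fun j hj =>
          cntZ_meas _ M fun k => FK_mono W (K := K j) (K' := U) (fun h hh => ⟨j, by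
            simp only [mem_filter, mem_range] at hj; omega, hKF j hh⟩) _ (hG j k)
        simp only [e]
        rw [lintegral_mul_eq_lintegral_mul_lintegral_of_independent_measurableSpace
          (FK_le hW (K n)) (FK_le hW U)
          (FK_indep hW fun v hv v' ⟨j, h1, h2⟩ => ho n j h1 v hv v' h2)
          (cntZ_meas _ M (hG n)) m2, pow_succ']
        exact mul_le_mul' (cntZ_int (hm n) (hP n (by omega))) ih
      · have e : Z r (n + 1) = Z r n := funext fun ω => by
          simp only [Z]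
          rw [range_add_one, filter_insert, if_neg c]
        rw [e]
        exact ih.trans (pow_le_pow_right₀ (by norm_num) (by omega))
  set a : ℝ := exp ((M - 1) * x) with ha
  have ha0 : 0 < a := exp_pos _
  have hb : ∀ r, P.real {ω | ENNReal.ofReal a ≤ Z r J ω} ≤ 2 ^ J * exp (-((M - 1) * x)) := by
    intro r
    have h1 := (mul_meas_ge_le_lintegral₀ (μ := P) (hZm r J).aemeasurable
      (ENNReal.ofReal a)).trans (hZ r J le_rfl)
    rw [← ofReal_measureReal (μ := P), ← ENNReal.ofReal_mul ha0.le,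
      show (2 : ℝ≥0∞) ^ J = ENNReal.ofReal (2 ^ J) by
        rw [ENNReal.ofReal_pow (by norm_num)]; norm_num,
      ENNReal.ofReal_le_ofReal_iff (by positivity)] at h1
    rw [exp_neg, ← ha, ← div_eq_mul_inv, le_div_iff₀ ha0, mul_comm]
    exact h1
  have hs : {ω | ¬ ∃ τ : ℕ → ℕ, (∀ j < J, ω ∈ G j (τ j)) ∧ ∑ j ∈ range J, (τ j : ℝ) ≤ 2 * x} ⊆
      {ω | ENNReal.ofReal a ≤ Z 0 J ω} ∪ {ω | ENNReal.ofReal a ≤ Z 1 J ω} := by
    intro ω hω
    by_cases c : ∀ j < J, ∃ k, ω ∈ G j k
    · let τ : ℕ → ℕ := fun j => if h : j < J then Nat.find (c j h) else 0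
      have h1 : ∀ j < J, ω ∈ G j (τ j) := fun j h => by
        simp only [τ, dif_pos h]
        exact Nat.find_spec (c j h)
      have h2 : 2 * x < ∑ j ∈ range J, (τ j : ℝ) := not_le.1 fun h => hω ⟨τ, h1, h⟩
      have h3 : ∀ r, x ≤ ∑ j ∈ range J with j % 2 = r, (τ j : ℝ) →
          ENNReal.ofReal a ≤ Z r J ω := fun r hr => by
        refine le_trans ?_ (prod_le_prod' (f := fun j => ENNReal.ofReal (exp ((M - 1) * τ j)))
          fun j hj => ?_)
        · rw [← ENNReal.ofReal_prod_of_nonneg fun _ _ => (exp_pos _).le, ← exp_sum, ← mul_sum]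
          exact ENNReal.ofReal_le_ofReal
            (exp_le_exp.2 (mul_le_mul_of_nonneg_left hr (by linarith)))
        · have h : j < J := mem_range.1 (mem_filter.1 hj).1
          simp only [τ, dif_pos h]
          exact cntZ_find M (c j h)
      rw [← sum_filter_add_sum_filter_not (range J) fun j => j % 2 = 0,
        show (range J).filter (fun j => ¬ j % 2 = 0) = (range J).filter fun j => j % 2 = 1 from
          filter_congr fun j _ => by omega] at h2
      by_cases d : x ≤ ∑ j ∈ range J with j % 2 = 0, (τ j : ℝ)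
      · exact Or.inl (h3 0 d)
      · exact Or.inr (h3 1 (by linarith [not_le.1 d]))
    · push Not at c
      obtain ⟨j, hj, c⟩ := c
      have h3 : ENNReal.ofReal a ≤ Z (j % 2) J ω := by
        refine le_trans ?_ (single_le_prod' (f := fun i => cntZ (G i) M ω)
          (fun i _ => cntZ_one _ _ _) (mem_filter.2 ⟨mem_range.2 hj, rfl⟩))
        rw [cntZ_top hM c]
        exact le_top
      rcases Nat.mod_two_eq_zero_or_one j with e | e <;> rw [e] at h3
      · exact Or.inl h3
      · exact Or.inr h3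
  refine ((measureReal_mono hs).trans (measureReal_union_le _ _)).trans ?_
  linarith [hb 0, hb 1]

end Pool.Agent.GU
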