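import Pool.Agent.Lib.MP_438f30_pr.U.St2

/-! The chord-arc bootstrap. -/

namespace Pool.Agent.GU

open Real Finset Pool.Agent.Lib.MP_a0a493_pr Pool.Agent.GL

namespace Ca

theorem near_norm {r : ℤ} {p q : Z2} (h : Near r p q) : ‖pt q - pt p‖ ≤ 2 * (r : ℝ) :=
  norm_le_two (by exact_mod_cast near_nonneg h) fun j => by
    have := h j
    rw [abs_sub_comm] at this
    simp only [PiLp.sub_apply, pt_apply]
    exact_mod_cast this

theorem near_floor (p q : Z2) : Near ⌊‖pt q - pt p‖⌋ p q := fun j => by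
  rw [Int.le_floor, abs_sub_comm]
  have := abs_le_norm2 (pt q - pt p) j
  simp only [PiLp.sub_apply, pt_apply] at this
  exact_mod_cast this

theorem near_steps {p : ℕ → Z2} {m : ℕ} {c : ℤ} (h : ∀ l, l + 1 < m → Near c (p l) (p (l + 1)))
    (i r : ℕ) (hr : i + r < m) : Near (r * c) (p i) (p (i + r)) := by
  induction r with
  | zero => simpa using near_refl le_rfl (p i)
  | succ r ih =>
    exact near_tri (ih (by omega)) (h (i + r) (by omega)) (by push_cast; linarith)

theorem seg {R T a b r : ℝ} (hT : 1 ≤ T) (ha : 0 < a) (hb0 : 0 ≤ b) (hb : b ≤ a) (hr0 : 0 ≤ r)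
    (hr : r ≤ R) (hR : R * T ^ 2 ≤ 2 ^ 21 * a) : r + √(r * b) ≤ 2 ^ 22 * a / T := by
  have T0 : 0 < T := by linarith
  have h0 : r * T ^ 2 ≤ 2 ^ 21 * a := le_trans (by gcongr) hR
  have h1 : r ≤ 2 ^ 21 * a / T := by
    rw [le_div_iff₀ T0]
    nlinarith [mul_nonneg (mul_nonneg hr0 T0.le) (sub_nonneg.2 hT)]
  have h2 : √(r * b) ≤ 2 ^ 21 * a / T := by
    refine sqrt_le_iff.2 ⟨by positivity, ?_⟩
    rw [div_pow, le_div_iff₀ (by positivity)]
    calc r * b * T ^ 2 = r * T ^ 2 * b := by ring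
      _ ≤ 2 ^ 21 * a * a := by gcongr
      _ ≤ _ := by nlinarith [mul_pos ha ha]
  have : 2 ^ 22 * a / T = 2 ^ 21 * a / T + 2 ^ 21 * a / T := by ring
  linarith

end Ca

open Ca

theorem ca : sCA := by
  intro Cg hCg
  set T : ℝ := 2 ^ 23 * 10 ^ 6 * exp 29 * Cg with hTd
  have e29 : 1 ≤ exp (29 : ℝ) := one_le_exp (by norm_num)
  have hT : 1 ≤ T := by
    have := mul_le_mul e29 hCg zero_le_one (by positivity)
    rw [hTd]; nlinarith
  have hC : 1 ≤ T ^ 2 := one_le_pow₀ hT
  refine ⟨T ^ 2, hC, fun g y z k m p ho hlo hhi ⟨c1, c2, c3⟩ => ?_⟩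
  have k0 := p2 k
  have c1' : ∀ l < m, Near (3 * 2 ^ k) z (p l) := fun l hl => near_mono (c1 l hl) (by omega)
  have key : ∀ n i : ℕ, i + n < m → (n : ℝ) ≤ T ^ 2 * (‖pt (p (i + n)) - pt (p i)‖ + 1) := by
    intro n
    induction n using Nat.strong_induction_on with
    | _ n ih =>
    intro i hi
    by_contra hn
    rw [not_le] at hn
    have hD := near_floor (p i) (p (i + n))
    have D1 := Int.floor_le ‖pt (p (i + n)) - pt (p i)‖
    have N0 := norm_nonneg (pt (p (i + n)) - pt (p i))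
    generalize ⌊‖pt (p (i + n)) - pt (p i)‖⌋ = D at hD D1
    generalize ‖pt (p (i + n)) - pt (p i)‖ = N at hn D1 N0
    have n1 : 1 < n := by
      have : (1 : ℝ) < n := by nlinarith
      exact_mod_cast this
    obtain ⟨h, h1, h2⟩ : ∃ h : ℕ, 2 ^ h ≤ n - 1 ∧ n - 1 < 2 ^ (h + 1) :=
      ⟨_, Nat.pow_log_le_self 2 (by omega), Nat.lt_pow_succ_log_self one_lt_two _⟩
    have n2 : (n : ℝ) ≤ 2 * 2 ^ h := by
      have : n ≤ 2 * 2 ^ h := by rw [pow_succ] at h2; omega
      exact_mod_cast this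
    have a0 : (0 : ℝ) < 2 ^ h := by positivity
    have hR : ((D : ℝ) + 2 ^ 20) * T ^ 2 ≤ 2 ^ 21 * 2 ^ h := by
      have : (D : ℝ) + 2 ^ 20 ≤ 2 ^ 20 * (N + 1) := by nlinarith
      calc _ ≤ 2 ^ 20 * (N + 1) * T ^ 2 := by gcongr
        _ = 2 ^ 20 * (T ^ 2 * (N + 1)) := by ring
        _ ≤ _ := by linarith
    have D0 : (0 : ℝ) ≤ D := by exact_mod_cast near_nonneg hD
    have hR' : D + 2 ^ (0 + 20) ≤ (2 : ℤ) ^ (h + 23) := by
      have : (D : ℝ) + 2 ^ (0 + 20) ≤ 2 ^ (h + 23) := by
        have a : (D : ℝ) + 2 ^ 20 ≤ ((D : ℝ) + 2 ^ 20) * T ^ 2 :=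
          le_mul_of_one_le_right (by positivity) hC
        rw [pow_add 2 h, zero_add]
        linarith
      exact_mod_cast this
    set E := g (p i) - y (min k h) (p i) with hE
    have up := c3 i (i + n) (by omega) hi D (exp (E + 7) * (Cg * (2 ^ 22 * 2 ^ h / T))) hD
      fun q d r hr hs => by
        refine le_trans (sum_le_sum (g := fun s : ℕ => exp (E + 7) *
          exp (y (min k h) (q + Pi.single d (s : ℤ)))) fun s hs' => ?_) ?_
        · have hs' := hs s (mem_range.1 hs')
          have := ho h _ _ (c1' i (by omega)) hs'.1 (near_mono hs'.2 hR')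
          rw [← exp_add]
          exact exp_le_exp.2 (by linarith [(abs_le.1 this).2])
        · rw [← mul_sum]
          refine mul_le_mul_of_nonneg_left ((hhi _ (min_le_left k h) q d r
            fun s hs' => (hs s hs').1).trans ?_) (exp_pos _).le
          refine mul_le_mul_of_nonneg_left (seg hT a0 (by positivity)
            (pow_le_pow_right₀ one_le_two (min_le_right k h)) (Nat.cast_nonneg r) ?_ hR)
            (by linarith)
          rw [zero_add] at hr
          exact_mod_cast hr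
    have lo := hlo h (fun r => p (i + 1 + r)) (fun r hr => c1' _ (by omega))
      (fun r hr => (near_norm (c2 (i + 1 + r) (by omega))).trans (by norm_num))
      fun r r' hr hr' => by
        obtain ⟨t, rfl⟩ := Nat.exists_eq_add_of_le hr
        have := ih t (by omega) (i + 1 + r) (by omega)
        rw [add_assoc (i + 1)] at this
        push_cast
        linarith
    have low : exp (E - 8) * 2 ^ h ≤ ∑ l ∈ Ioo i (i + n), exp (g (p l)) := by
      have s1 : ∑ r ∈ range (2 ^ h), exp (g (p (i + 1 + r))) ≤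
          ∑ l ∈ Ioo i (i + n), exp (g (p l)) := by
        have s0 := sum_Ico_eq_sum_range (fun l => exp (g (p l))) (i + 1) (i + 1 + 2 ^ h)
        rw [Nat.add_sub_cancel_left] at s0
        rw [← s0]
        exact sum_le_sum_of_subset_of_nonneg (fun l hl => by
          rw [mem_Ico] at hl; rw [mem_Ioo]; omega) fun _ _ _ => (exp_pos _).le
      refine le_trans ?_ (le_trans (sum_le_sum (f := fun r => exp (E - 8) *
        (y (min k h) (p (i + 1 + r)) + 2)) fun r hr => ?_) s1)
      · rw [← mul_sum, sum_add_distrib, sum_const, card_range, nsmul_eq_mul]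
        refine mul_le_mul_of_nonneg_left ?_ (exp_pos _).le
        push_cast
        linarith
      · have hr := mem_range.1 hr
        have a1 := near_steps c2 i (1 + r) (by omega)
        rw [← add_assoc] at a1
        have a2 : ((1 + r : ℕ) : ℤ) * 2 ^ (0 + 21) ≤ 2 ^ (h + 23) := by
          have : ((1 + r : ℕ) : ℤ) ≤ 2 ^ h := by exact_mod_cast (by omega : 1 + r ≤ 2 ^ h)
          have := p2 h
          rw [pow_add 2 h, zero_add]
          linarith
        have := ho h _ _ (c1' i (by omega)) (c1' (i + 1 + r) (by omega)) (near_mono a1 a2)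
        have b := add_one_le_exp (y (min k h) (p (i + 1 + r)) + 1)
        calc _ ≤ exp (E - 8) * exp (y (min k h) (p (i + 1 + r)) + 1) :=
              mul_le_mul_of_nonneg_left (by linarith) (exp_pos _).le
          _ ≤ _ := by rw [← exp_add]; exact exp_le_exp.2 (by linarith [(abs_le.1 this).1])
    have e1 : 10 ^ 6 * exp 14 * (exp (E + 7) * (Cg * (2 ^ 22 * 2 ^ h / T))) =
        exp (E - 8) * 2 ^ h / 2 := by
      have : exp (E + 7) = exp (E - 8) * exp 29 / exp 14 := by
        rw [← exp_add, ← exp_sub]; congr 1; ring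
      rw [this, hTd]
      field_simp
    have : 0 < exp (E - 8) * 2 ^ h := by positivity
    linarith
  have k1 : (1 : ℝ) ≤ 2 ^ k := one_le_pow₀ one_le_two
  rcases m with _ | m
  · simp only [Nat.cast_zero]; positivity
  · have a1 := key m 0 (by omega)
    have a2 := near_norm (near_tri (c1 0 (by omega)).symm (c1 (0 + m) (by omega)) le_rfl)
    push_cast at a2 ⊢
    have a3 : T ^ 2 * (‖pt (p (0 + m)) - pt (p 0)‖ + 1) ≤ T ^ 2 * (9 * 2 ^ k) := by
      gcongr; linarith
    nlinarith

end Pool.Agent.GU
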