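import Pool.Agent.Lib.MP_438f30_pr.U.St2

/-! The number of pieces of a geodesic in a block. -/

namespace Pool.Agent.GU

open MeasureTheory Real Finset Filter Topology Pool.Agent.Lib.MP_a0a493_pr Pool.Agent.GL

variable {f : Z2 → ℝ} {x : ℕ → Z2} {T a b : ℕ} {z q : Z2}

theorem Cv.mono {R : ℤ} {M M' : ℝ} (h : Cv x a b R M) (hM : M ≤ M') : Cv x a b R M' :=
  fun F hF => (h F hF).trans hM

theorem cv_one {R : ℤ} (hR : 0 ≤ R) (x : ℕ → Z2) (a b : ℕ) : Cv x a b R ((b - a : ℕ) : ℝ) := by
  intro F hF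
  have := sum_le_card_nsmul (Ico a b) F 1 fun s hs => by
    have h := mem_Ico.1 hs
    have k := hF s (s + 1) h.1 h.2 fun t ht t' ht' => by
      have e : t = t' := by
        have := mem_Ico.1 ht
        have := mem_Ico.1 ht'
        omega
      exact e ▸ near_refl hR _
    simpa using k
  simpa using this

theorem GS.inj (h : GS f T x) {s t : ℕ} (hs : s < t) (ht : t ≤ T) : x s ≠ x t := fun e => by
  have k := h.2 s t (exp (f (x s))) hs.le ht
    ⟨{x s}, Set.subset_univ _, e ▸ .refl (by simp), by simp [cs]⟩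
  have k' := sum_le_sum_of_subset_of_nonneg (f := fun r => exp (f (x r))) (s := {s, t})
    (t := Icc s t) (fun r hr => by
      simp only [mem_insert, mem_singleton, mem_Icc] at hr ⊢
      omega) fun _ _ _ => (exp_pos _).le
  rw [sum_pair hs.ne] at k'
  linarith [exp_pos (f (x t))]

/-- a geodesic spends few steps in a square -/
theorem GS.len (h : GS f T x) (hb : b ≤ T + 1) {R : ℕ} (hx : ∀ s ∈ Ico a b, Near R z (x s)) :
    b - a ≤ (2 * R + 1) ^ 2 := by
  rw [← card_bx z R, ← Nat.card_Ico]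
  refine card_le_card_of_injOn x (fun s hs => mem_bx.2 (hx s hs)) fun s hs t ht e => ?_
  have h1 := mem_Ico.1 hs
  have h2 := mem_Ico.1 ht
  by_contra k
  rcases lt_or_gt_of_ne k with k | k
  exacts [h.inj k (by omega) e, h.inj k (by omega) e.symm]

theorem near_up {j k : ℕ} (h : Near (3 * 2 ^ k) (cn j z) q) :
    Near (4 * 2 ^ (j + k)) z (up j q) :=
  near_tri (near_cn j z) (up_near h) (by
    have := p2_le (Nat.le_add_right j k)
    rw [pow_add] at this ⊢
    linarith)

theorem near_big {j : ℕ} (h : Near (4 * 2 ^ j) z q) : Near (2 ^ (j + 3)) z q :=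
  near_mono h (by
    have := p2 j
    rw [pow_add]
    omega)

theorem near_big' {j k : ℕ} {v : Z2} (hk : 20 ≤ k) (h : Near (4 * 2 ^ (j + k)) z q)
    (h' : Near (2 ^ (j + 18)) q v) : Near (2 ^ (j + k + 3)) z v :=
  near_tri h h' (by
    have := p2_le (show j + 18 ≤ j + k by omega)
    have := p2 (j + k)
    rw [pow_add _ (j + k) 3]
    linarith)

theorem gb (h1 : sBL) (h2 : sCA) : sGB := by
  intro Cg hC
  obtain ⟨C', c1, h2⟩ := h2 Cg hC
  refine ⟨C', c1, fun f F μ c k T a b x z hS hb hk hG hN hB hf hx => ?_⟩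
  obtain ⟨m, p, hv, hp⟩ := h1 f (F c) μ c 0 k T a b x z 7 hS hb hk hG (hN.nc le_rfl) hx
    fun q v hq hv => by
      have a1 := abs_le.1 (hf v (near_big' hk hq hv))
      have a2 := abs_le.1 (hf _ (near_big hq))
      have a3 := abs_le.1 (hB.osc 0 (Nat.zero_le _) q v hq (near_mono hv (p2_le (by omega))))
      rw [Nat.add_zero] at a3
      rw [abs_le]
      constructor <;> linarith [a1.1, a1.2, a2.1, a2.2, a3.1, a3.2]
  rw [Nat.zero_add, show (2 : ℝ) * 7 = 14 by norm_num] at hp
  have hm := h2 _ _ _ k m p (fun h q q' hq hq' hn => ?_) hB.lo hB.hi hp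
  · refine hv.mono ?_
    have : (1 : ℝ) ≤ 2 ^ k := one_le_pow₀ one_le_two
    nlinarith
  · have n1 : Near (2 ^ (min k h + 23)) q q' := by
      rcases le_total k h with e | e
      · rw [min_eq_left e]
        refine near_tri hq.symm hq' ?_
        have := p2 k
        rw [pow_add]
        omega
      · rwa [min_eq_right e]
    have a1 := abs_le.1 (hf _ (near_big (near_up hq)))
    have a2 := abs_le.1 (hf _ (near_big (near_up hq')))
    have a3 := abs_le.1 (hB.osc _ (min_le_left k h) q (up c q') (near_up hq) (by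
      rw [add_assoc, pow_add]
      exact up_near n1))
    rw [abs_le]
    constructor <;> linarith [a1.1, a1.2, a2.1, a2.2, a3.1, a3.2]

theorem bm (h1 : sBL) : sBM := by
  intro f F μ c k m T a b x z o hS hb hk o0 hG hN hf hx
  have e1 : 1 ≤ exp (6 * o) := one_le_exp (by positivity)
  rcases le_or_gt m c with h | h
  · obtain ⟨j, rfl⟩ : ∃ j, c = j + m := ⟨c - m, by omega⟩
    obtain ⟨M, p, hv, hp, -, hq⟩ := h1 f F μ j m k T a b x z (2 * o) hS hb hk (hG j)
      (hN.nc le_rfl) hx fun q v hq hv => by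
        have a1 := abs_le.1 (hf v (near_big' hk hq hv))
        have a2 := abs_le.1 (hf _ (near_big hq))
        rw [abs_le]
        constructor <;> linarith [a1.1, a1.2, a2.1, a2.2]
    refine hv.mono ?_
    have og : ∀ q, Near (3 * 2 ^ (m + k)) (cn j z) q →
        |f (up j q) - F (up j q) - (f z - F z)| ≤ o := fun q hq =>
      hf _ (near_big (by rw [add_assoc]; exact near_up hq))
    have t1 : (1 : ℤ) < 2 ^ (m + k) := one_lt_pow₀ one_lt_two (by omega)
    have t2 := p2_le (show m + 20 ≤ m + k by omega)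
    have t3 : (1 : ℝ) ≤ 2 ^ (m + k) := one_le_pow₀ one_le_two
    have t4 : (2 : ℝ) ^ (m + k) ≤ 4 ^ (k + m) := by
      rw [add_comm]
      exact pow_le_pow_left₀ zero_le_two (by norm_num) _
    have t5 : 1 ≤ exp (6 * o) * 2 ^ (m + k) := one_le_mul_of_one_le_of_one_le e1 t3
    have key : (M : ℝ) - 2 ≤ 4 * 10 ^ 6 * (exp (6 * o) * 2 ^ (m + k)) := by
      rcases lt_or_ge M 2 with k2 | k2
      · have : (M : ℝ) ≤ 2 := by exact_mod_cast k2.le
        linarith
      obtain ⟨n, rfl⟩ : ∃ n, M = n + 2 := ⟨M - 2, by omega⟩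
      have s1 := hq 0 (n + 1) (by omega) (by omega) (2 * (2 ^ (m + k) + 1))
        (4 * 2 ^ (m + k) * exp (f z - F z + o))
        (near_tri (hp 0 (by omega)).symm (hp (n + 1) (by omega)) (by omega)) fun q d r hr hs => by
          have r1 : (r : ℝ) ≤ 4 * 2 ^ (m + k) := by
            have : (r : ℤ) ≤ 4 * 2 ^ (m + k) := by omega
            exact_mod_cast this
          refine (sum_le_card_nsmul _ _ (exp (f z - F z + o)) fun s hs' => exp_le_exp.2 ?_).trans ?_
          · linarith [(abs_le.1 (og _ (hs s (mem_range.1 hs')).1)).2]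
          · rw [card_range, nsmul_eq_mul]
            exact mul_le_mul_of_nonneg_right r1 (exp_pos _).le
      have s2 := card_nsmul_le_sum (Ioo 0 (n + 1)) (fun l => exp (f (up j (p l)) - F (up j (p l))))
        (exp (f z - F z - o)) fun l hl => exp_le_exp.2 (by
          have := (mem_Ioo.1 hl).2
          linarith [(abs_le.1 (og _ (near_mono (hp l (by omega)) (by omega)))).1])
      rw [Nat.card_Ioo, nsmul_eq_mul] at s2
      have e2 : exp (2 * (2 * o)) * exp (f z - F z + o) = exp (6 * o) * exp (f z - F z - o) := by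
        rw [← exp_add, ← exp_add]
        congr 1
        ring
      refine le_of_mul_le_mul_right ?_ (exp_pos (f z - F z - o))
      simp only [Nat.sub_zero, Nat.add_sub_cancel] at s2
      push_cast
      calc _ = (n : ℝ) * exp (f z - F z - o) := by ring
        _ ≤ _ := s2.trans s1
        _ = 4 * 10 ^ 6 * 2 ^ (m + k) * (exp (2 * (2 * o)) * exp (f z - F z + o)) := by ring
        _ = _ := by rw [e2]; ring
    nlinarith [mul_le_mul_of_nonneg_left t4 (exp_pos (6 * o)).le]
  · refine (cv_one (p2 _).le x a b).mono ?_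
    have s1 := hS.len hb (R := 2 ^ (c + k)) (z := z) fun s hs => by
      push_cast
      exact hx s hs
    have s2 : ((b - a : ℕ) : ℝ) ≤ (2 * 2 ^ (c + k) + 1) ^ 2 := by exact_mod_cast s1
    have t3 : (1 : ℝ) ≤ 2 ^ (c + k) := one_le_pow₀ one_le_two
    have t4 : (2 : ℝ) ^ (c + k) * 2 ^ (c + k) ≤ 4 ^ (k + m) := by
      rw [← mul_pow, show (2 : ℝ) * 2 = 4 by norm_num]
      exact pow_le_pow_right₀ (by norm_num) (by omega)
    have t5 : (0 : ℝ) < 4 ^ (k + m) := by positivity
    nlinarith [mul_le_mul_of_nonneg_right e1 t5.le]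

end Pool.Agent.GU
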