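import Pool.Agent.Lib.MP_438f30_pr.U.Tight

/-! The theorem for the white noise model. -/

namespace Pool.Agent.GU

open MeasureTheory Real Finset Filter Topology Pool.Agent.Lib.MP_a0a493_pr Pool.Agent.GL

theorem tail_le {M : ℝ} (hM : 1 < M) {J n : ℕ} (hJ : J ≤ 3 * n + 1) :
    2 * 2 ^ J * exp (-((M - 1) * (7 * n / (M - 1)))) ≤ 4 * 8 ^ n * exp (-7) ^ n := by
  rw [mul_div_cancel₀ _ (sub_pos.2 hM).ne', ← exp_nat_mul, show (n : ℝ) * -7 = -(7 * n) by ring]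
  refine mul_le_mul_of_nonneg_right ?_ (exp_pos _).le
  have := pow_le_pow_right₀ (one_le_two (α := ℝ)) hJ
  rw [pow_succ, pow_mul] at this
  norm_num at this
  linarith

theorem EH.add {f g : Z2 → ℝ} {F : ℕ → Z2 → ℝ} {t₀ : ℕ} {x : ℝ} {z : Z2} (h : EH f F t₀ 1 x z)
    (hz : Near (2 ^ t₀) 0 z) (hg : ∀ v, Near (2 ^ (t₀ + 4)) 0 v → |g v - g 0| ≤ 1 / 2) :
    EH (fun v => f v + g v) F t₀ 2 x z := by
  obtain ⟨τ, h1, h2, h3⟩ := h
  refine ⟨τ, h1, h2, fun t ht v hv => ?_⟩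
  have a0 := p2 t₀
  have a1 := p2_le ht
  have a2 := abs_le.1 (hg z (near_mono hz (by rw [pow_add]; omega)))
  have a3 := abs_le.1 (hg v (near_tri hz hv (by rw [pow_add, pow_add]; omega)))
  have a4 := abs_le.1 (h3 t ht v hv)
  rw [abs_le]
  constructor <;> linarith

theorem fin_le {T J K L B K₁ x n m δ : ℝ}
    (key : T + 1 ≤ 9 * 4 ^ 20 * exp (J * K * log 2 + J * L + B)) (a1 : B ≤ K₁ * (x ^ 4 * n))
    (a2 : J * K ≤ n + m + 1 + K) (b1 : m ≤ n) (m2 : m < x ^ 4 * n + 1) (n0 : 1 ≤ n)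
    (v2 : 62 + K + L ≤ x ^ 4 * n) (Kp : 0 < K) (L0 : 0 < L) (K0 : 0 < K₁) (d0 : 0 < δ) (x0 : 0 < x)
    (m0 : 0 ≤ m) (i2 : δ ^ 2 ≤ 4 * x ^ 4 * K) :
    T ≤ 2 ^ ((1 + 2 * (2 + 12 * L / δ ^ 2 + K₁) * x ^ 4) * n) := by
  have l1 : log 2 ≤ 1 := by linarith [log_two_lt_d9]
  have l2 : 1 / 2 ≤ log 2 := by linarith [log_two_gt_d9]
  have a3 : J ≤ 12 / δ ^ 2 * (x ^ 4 * n) + 1 := by
    have b2 : 1 ≤ 4 / δ ^ 2 * x ^ 4 * K := by
      rw [div_mul_eq_mul_div, div_mul_eq_mul_div, le_div_iff₀ (by positivity)]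
      linarith
    refine le_of_mul_le_mul_right (a2.trans ?_) Kp
    have := mul_le_mul_of_nonneg_left b2 (show (0 : ℝ) ≤ 3 * n by positivity)
    rw [show 12 / δ ^ 2 = 3 * (4 / δ ^ 2) by ring]
    linarith
  have a4 := mul_le_mul_of_nonneg_right a3 L0.le
  have a5 := mul_le_mul_of_nonneg_right a2 (log_nonneg one_le_two)
  have a6 : (9 : ℝ) * 4 ^ 20 ≤ exp 60 := by
    rw [show (60 : ℝ) = (60 : ℕ) * 1 by norm_num, exp_nat_mul]
    exact le_trans (by norm_num) (pow_le_pow_left₀ two_pos.le (by linarith [exp_one_gt_d9]) 60)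
  have a7 := mul_le_mul_of_nonneg_left l1 (show (0 : ℝ) ≤ m + 1 + K by positivity)
  have a8 := mul_le_mul_of_nonneg_left l2
    (show 0 ≤ 2 * (2 + 12 * L / δ ^ 2 + K₁) * (x ^ 4 * n) by positivity)
  rw [rpow_def_of_pos two_pos]
  refine (le_add_of_nonneg_right zero_le_one).trans (key.trans
    ((mul_le_mul_of_nonneg_right a6 (exp_pos _).le).trans ?_))
  rw [← exp_add]
  refine exp_le_exp.2 ?_
  rw [show 12 * L / δ ^ 2 = 12 / δ ^ 2 * L by ring] at a8 ⊢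
  linarith

theorem card_le {n m : ℕ} (m3 : m ≤ n) (I : ℕ) :
    ((bx 0 (2 ^ (n + m))).card : ℝ) * (4 * 8 ^ n * exp (-7) ^ n + (4 * 8 ^ n * exp (-7) ^ n +
      ((range (I + 1)).card * (4 * 8 ^ n * exp (-7) ^ n) +
        (Icc 1 I).card * (4 * 8 ^ n * exp (-7) ^ n)))) ≤
      36 * (2 * I + 3) * (128 * exp (-7)) ^ n := by
  have a1 : ((bx 0 (2 ^ (n + m))).card : ℝ) ≤ 9 * 16 ^ n := by
    have b1 := pow_le_pow_right₀ (one_le_two (α := ℝ)) (show n + m ≤ 2 * n by omega)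
    have b2 := one_le_pow₀ (n := n + m) (one_le_two (α := ℝ))
    have b3 : (16 : ℝ) ^ n = 2 ^ (2 * n) * 2 ^ (2 * n) := by rw [← mul_pow, pow_mul]; norm_num
    rw [card_bx, b3]
    push_cast
    nlinarith
  refine (mul_le_mul_of_nonneg_right a1 (by positivity)).trans (le_of_eq ?_)
  rw [card_range, Nat.card_Icc, Nat.add_sub_cancel, mul_pow, show (128 : ℝ) = 16 * 8 by norm_num,
    mul_pow]
  push_cast
  ring

theorem mod (mp : sMP) (osc : sOsc) (rt : sRT) (ml : ML) (ws : WS) (tg : sTight) (gb : sGB)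
    (det : sDet) (eh : sEH) (en : sEN) (em : sEM) (eb : sEB) (root : sRoot) : sMod := by
  intro C0
  obtain ⟨Cg, g1, eb⟩ := eb C0
  obtain ⟨C', c1, gb⟩ := gb Cg g1
  obtain ⟨c, c0, eb⟩ := eb C' c1
  obtain ⟨κ, hκ⟩ : ∃ κ, κ = C0 + 24 := ⟨_, rfl⟩
  obtain ⟨L, hL⟩ : ∃ L : ℝ, L = 11 * C' * 2 ^ 20 + κ + 70 := ⟨_, rfl⟩
  obtain ⟨c₁, hc₁⟩ : ∃ c₁ : ℝ, c₁ = 1 / (10 ^ 20 * (C0 + 1) ^ 3 * 4 ^ κ) := ⟨_, rfl⟩
  obtain ⟨δ, hδ⟩ : ∃ δ : ℝ, δ = min 1 (c / 2) := ⟨_, rfl⟩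
  have κ0 : (24 : ℝ) ≤ κ := by exact_mod_cast (show 24 ≤ κ by omega)
  have L0 : 0 < L := by rw [hL]; positivity
  have p1 : 0 < c₁ := by rw [hc₁]; positivity
  have d0 : 0 < δ := by rw [hδ]; positivity
  have d1 : δ ≤ 1 := hδ ▸ min_le_left _ _
  have d2 : δ ≤ c / 2 := hδ ▸ min_le_right _ _
  obtain ⟨K₁, hK₁⟩ : ∃ K₁, K₁ = 784 / c₁ + L * (224 / c + 448 / c₁) := ⟨_, rfl⟩
  have K0 : 0 < K₁ := by rw [hK₁]; positivity
  have m0 : 0 < min (min 1 (c₁ / 100)) (min (c / 4) (δ ^ 2 / (2 * κ))) := by positivity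
  refine ⟨2 * (2 + 12 * L / δ ^ 2 + K₁), _ ^ 3, by positivity, pow_pos m0 3, ?_⟩
  intro Ω H _ _ _ P _ W a hW bf ξ hξ hξ0 cc hcc
  obtain ⟨x, x0, rfl⟩ : ∃ x : ℝ, 0 < x ∧ ξ = x ^ 3 :=
    ⟨ξ ^ ((3 : ℕ)⁻¹ : ℝ), by positivity, (rpow_inv_natCast_pow hξ.le three_ne_zero).symm⟩
  have hx := le_of_pow_le_pow_left₀ three_ne_zero m0.le hξ0
  simp only [le_min_iff] at hx
  obtain ⟨⟨x1, x2⟩, x3, x4⟩ := hx
  have e4 : (x ^ 3) ^ (4 / 3 : ℝ) = x ^ 4 := by
    rw [← rpow_natCast, ← rpow_mul x0.le, ← rpow_natCast]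
    norm_num
  have y2 := pow_le_of_le_one x0.le x1 (show 2 ≠ 0 by norm_num)
  have y4 := pow_le_of_le_one x0.le x1 (show 4 ≠ 0 by norm_num)
  have y6 := pow_le_of_le_one x0.le x1 (show 6 ≠ 0 by norm_num)
  have C1 : (1 : ℝ) ≤ C0 := Nat.one_le_cast.2 bf.one
  obtain ⟨η, hη⟩ : ∃ η, η = c₁ / x ^ 6 := ⟨_, rfl⟩
  have η0 : 100 ≤ η := by rw [hη, le_div_iff₀ (by positivity)]; linarith
  have sm : (x ^ 3) ^ 2 * C0 ^ 3 * 4 ^ κ * η ≤ 1 / 10 ^ 20 := by
    have : (C0 : ℝ) ^ 3 ≤ (C0 + 1) ^ 3 := by gcongr; linarith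
    rw [hη, hc₁]
    field_simp
    exact this
  have su : Su P W a C0 (x ^ 3) η := ⟨hW, bf, hξ, η0, by
    have := mul_le_mul_of_nonneg_left (one_le_pow₀ (n := κ) (show (1 : ℝ) ≤ 4 by norm_num))
      (show 0 ≤ (x ^ 3) ^ 2 * C0 ^ 3 * η by positivity)
    norm_num at sm ⊢
    linarith, mp, osc, rt, ml⟩
  obtain ⟨μ, gr, np⟩ := tg Ω H P W a C0 _ η su
  obtain ⟨I, i1, i2⟩ := exists_nat_pow_near (x := δ ^ 2 / x ^ 4 / (2 * κ)) (y := 2) (by
    rw [div_right_comm, le_div_iff₀ (by positivity)]; linarith) one_lt_two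
  rw [le_div_iff₀' (by positivity)] at i1
  rw [div_lt_iff₀' (by positivity), pow_succ (2 : ℝ) I, div_lt_iff₀ (by positivity)] at i2
  obtain ⟨pa, pb⟩ : (∀ i ≤ I, _) ∧ ∀ n : ℕ, _ :=
    ⟨(par (n := 0) c0 p1 L0.le (show 20 ≤ κ by omega) d1 x0 x1 x2 x3 d0 i1).1,
      fun n => (par (n := n) c0 p1 L0.le (show 20 ≤ κ by omega) d1 x0 x1 x2 x3 d0 i1).2⟩
  rw [← hη, ← hK₁] at pb
  obtain ⟨K, hK⟩ : ∃ K, K = 2 ^ I * κ := ⟨_, rfl⟩
  have K1 : 0 < K := by rw [hK]; exact Nat.mul_pos (by positivity) (by omega)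
  have K2 : (K : ℝ) = 2 ^ I * κ := by rw [hK]; push_cast; rfl
  have r1 : 128 * exp (-7) < 1 := by
    rw [exp_neg, ← div_eq_mul_inv, div_lt_one (exp_pos _), show (7 : ℝ) = (7 : ℕ) * 1 by norm_num,
      exp_nat_mul]
    exact lt_of_le_of_lt (by norm_num) (pow_lt_pow_left₀ (show (2 : ℝ) < exp 1 by
      linarith [exp_one_gt_d9]) two_pos.le (by norm_num))
  have lim : Tendsto (fun n : ℕ => 2 * exp (-x ^ 4) ^ n + (exp (-1) ^ n +
      36 * (2 * I + 3) * (128 * exp (-7)) ^ n)) atTop (𝓝 0) := by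
    have t := fun r (h0 : 0 ≤ r) (h1 : r < 1) =>
      tendsto_pow_atTop_nhds_zero_of_lt_one (𝕜 := ℝ) (r := r) h0 h1
    simpa using ((t _ (exp_pos _).le (exp_lt_one_iff.2 (by
      linarith [pow_pos x0 4]) : exp (-x ^ 4) < 1)).const_mul 2).add
      ((t _ (exp_pos _).le (exp_lt_one_iff.2 (by norm_num) : exp (-1) < 1)).add
        ((t _ (by positivity) r1).const_mul (36 * (2 * (I : ℝ) + 3))))
  have ev1 : ∀ᶠ n : ℕ in atTop, (n : ℝ) * (1 / 2) ^ n < 1 / (160 * C0 * 2 ^ (K + 25)) :=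
    (tendsto_self_mul_const_pow_of_lt_one (by norm_num) (by norm_num)).eventually
      (gt_mem_nhds (by positivity))
  have ev2 : ∀ᶠ n : ℕ in atTop, 62 + K + L ≤ x ^ 4 * n :=
    (tendsto_natCast_atTop_atTop.const_mul_atTop (pow_pos x0 4)).eventually_ge_atTop _
  rw [e4]
  refine squeeze_zero' (Eventually.of_forall fun n => measureReal_nonneg) ?_ lim
  filter_upwards [ev1, ev2, eventually_ge_atTop (K + 21)] with n v1 v2 v3
  have n0 : (1 : ℝ) ≤ n := Nat.one_le_cast.2 (by omega)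
  have Kp : (0 : ℝ) < K := Nat.cast_pos.2 K1
  obtain ⟨m, hm⟩ : ∃ m, m = ⌈x ^ 4 * n⌉₊ := ⟨_, rfl⟩
  have m1 : x ^ 4 * n ≤ m := hm ▸ Nat.le_ceil _
  have m2 : (m : ℝ) < x ^ 4 * n + 1 := hm ▸ Nat.ceil_lt_add_one (by positivity)
  have m3 : m ≤ n := hm ▸ Nat.ceil_le.2 (by nlinarith)
  have m4 : 60 ≤ m := by exact_mod_cast (show (60 : ℝ) ≤ m by linarith)
  obtain ⟨J, hJ⟩ : ∃ J, J = (n + m + 1) / K + 1 := ⟨_, rfl⟩
  have J1 : n + m + 1 ≤ J * K := by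
    rw [hJ, mul_comm]; exact (Nat.lt_mul_div_succ _ K1).le
  have J2 : J * K ≤ n + m + 1 + K := by
    rw [hJ, add_mul, one_mul]; exact Nat.add_le_add_right (Nat.div_mul_le_self _ _) _
  have J3 : J * 2 ^ I * κ = J * K := by rw [hK, mul_assoc]
  have J4 : ∀ i, J * 2 ^ (I - i) ≤ 3 * n + 1 := fun i => by
    have a1 : 2 ^ (I - i) ≤ K := hK ▸ (Nat.pow_le_pow_right two_pos (by omega)).trans
      (Nat.le_mul_of_pos_right _ (by omega))
    have := Nat.mul_le_mul_left J a1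
    omega
  obtain ⟨u, hu⟩ : ∃ u, u = 7 * n / (η / 2 - 1) := ⟨_, rfl⟩
  have u0 : 0 ≤ u := by rw [hu]; exact div_nonneg (by positivity) (by linarith)
  obtain ⟨B, hB⟩ : ∃ B : ℕ → ℝ, B = fun i => c / (2 * x ^ 6 * √((2 ^ i * κ : ℕ) + 20)) := ⟨_, rfl⟩
  have tl : ∀ j ≤ 3 * n + 1, 2 * 2 ^ j * exp (-((η - 1) * u)) ≤ 4 * 8 ^ n * exp (-7) ^ n :=
    fun j hj => le_trans (mul_le_mul_of_nonneg_left (exp_le_exp.2 (by rw [← hu]; nlinarith))
      (by positivity)) (tail_le (M := η / 2) (by linarith) hj)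
  have q1 := root Ω H P W a C0 _ η su μ n m (3 * n) (cc n) (gr n n le_rfl).1 (np _ _ (by omega)) m4
    (by omega) (hcc n)
  have q2 := osc Ω P H W hW (fun v => x ^ 3 • cc n v) (C0 / 2 ^ (3 * n)) n (J * K + 20 + 4) 0
    (by positivity) (by positivity) fun v w => by
      rw [← smul_sub, norm_smul, Real.norm_of_nonneg hξ.le, div_mul_eq_mul_div]
      exact (mul_le_of_le_one_left (norm_nonneg _) (pow_le_one₀ x0.le x1)).trans (hcc n v w)
  have q3 := prob_all P (bx 0 (2 ^ (n + m))) fun z _ => prob_or P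
    ((eh Ω H P W a C0 _ η su (3 * n) (J * K + 20) u z (by omega) u0).trans (tl _ le_rfl))
    (prob_or P ((em Ω H P W a C0 _ η su κ (J * 2 ^ I) u z (by omega) (by
      have := mul_le_mul_of_nonneg_left C1 (show 0 ≤ (x ^ 3) ^ 2 * C0 ^ 2 * 4 ^ κ * η by positivity)
      linarith) u0).trans (tl _ (J4 0)))
    (prob_or P (prob_all P (range (I + 1)) fun i hi =>
      (en Ω H P W a C0 _ η su μ (2 ^ i * κ) (J * 2 ^ (I - i)) u z np
        (hκ ▸ Nat.le_mul_of_pos_left _ (by positivity)) (by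
          have a1 := pow_le_pow_right₀ (one_le_two (α := ℝ)) (Nat.lt_succ_iff.1 (mem_range.1 hi))
          have a2 := one_le_pow₀ (n := I) (one_le_two (α := ℝ))
          have a3 : δ ^ 2 / x ^ 4 * 3 ≤ η := by
            rw [hη, div_mul_eq_mul_div, div_le_div_iff₀ (by positivity) (by positivity)]
            have := mul_le_mul_of_nonneg_right (show δ ^ 2 * 3 * x ^ 2 ≤ c₁ by
              nlinarith [pow_le_one₀ d0.le d1 (n := 2), sq_nonneg x]) (pow_pos x0 4).le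
            linarith
          have a4 : (25 : ℝ) ≤ κ := by exact_mod_cast (show 25 ≤ κ by have := bf.one; omega)
          push_cast
          nlinarith) u0).trans (hu ▸ tail_le (M := η / 2) (by linarith) (J4 i)))
      (prob_all P (Icc 1 I) fun i hi => by
        obtain ⟨b1, b2⟩ := pa i (mem_Icc.1 hi).2
        refine (eb Ω H P W a C0 _ η su rfl (2 ^ i * κ) (J * 2 ^ (I - i)) (B i)
          (7 * n / (B i - 1)) z ((show 20 ≤ κ by omega).trans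
            (Nat.le_mul_of_pos_left _ (by positivity))) (by rw [hB]; linarith)
          (div_nonneg (by positivity) (by rw [hB]; linarith)) ?_).trans
            (tail_le (by rw [hB]; linarith) (J4 i))
        rw [hB]
        obtain ⟨s, hs⟩ : ∃ s, s = √(((2 ^ i * κ : ℕ) : ℝ) + 20) := ⟨_, rfl⟩
        have s0 : 0 < s := by rw [hs]; positivity
        have s2 : ((2 ^ i * κ : ℕ) : ℝ) + 20 = s ^ 2 := by rw [hs, sq_sqrt (by positivity)]
        simp only [← hs] at b1 ⊢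
        rw [s2, show (x ^ 3) ^ 2 * s * (s ^ 2 + c / (2 * x ^ 6 * s)) = (s * x ^ 2) ^ 3 + c / 2 by
          field_simp]
        have := pow_le_pow_left₀ (by positivity) ((le_div_iff₀ (by positivity)).1 b1) 3
        linarith [pow_le_of_le_one d0.le d1 (show 3 ≠ 0 by norm_num)])))
  refine le_trans (pmono ?_) ((prob_or P q1 (prob_or P (p := fun ω => ¬ _)
    (by simpa only [not_not] using q2) q3)).trans (add_le_add ?_ (add_le_add ?_ ?_)))
  · intro ω hω ⟨⟨r1, r2⟩, r3, r4⟩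
    refine hω ⟨r1, fun T y hy => ?_⟩
    have ef : (fun v => W (x ^ 3 • (A a (3 * n) (pt v) + cc n v)) ω) =
        fun v => X W a (x ^ 3) (3 * n) ω v + W (x ^ 3 • cc n v) ω := by
      funext v; rw [smul_add, map_add]; rfl
    have cf := r2 T y hy
    have key := det _ (fun k => X W a (x ^ 3) k ω) μ (fun i => 2 * (7 * n / (B i - 1))) Cg C' L
      (2 * u) κ I J T y gb (by omega) (by linarith [add_one_le_exp L]) (by rw [hL]; linarith) c1 gr
      ⟨hy.1.2.2, ws.geo n T _ y hy⟩ (fun s hs s' hs' => near_tri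
        (cf s (Nat.lt_succ_iff.1 (mem_Ico.1 hs).2)).symm (cf s' (Nat.lt_succ_iff.1 (mem_Ico.1 hs').2))
          (by rw [← two_mul, ← pow_succ']; exact p2_le (by omega))) fun s hs => by
        obtain ⟨k1, k2, k3, k4⟩ := r4 (y s) (mem_bx.2 (by push_cast; exact cf s hs))
        refine ⟨?_, k2, fun i hi => k3 i (mem_range.2 (by omega)), k4⟩
        rw [J3, ef]
        refine k1.add (near_mono (cf s hs) (p2_le (by omega))) fun v hv =>
          (not_lt.1 fun k => r3 ⟨v, hv, k⟩).trans ?_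
        have a1 : (2 : ℝ) ^ (J * K + 20 + 4) * 2 ^ n ≤ 2 ^ (K + 25) * 2 ^ (3 * n) := by
          rw [← pow_add, ← pow_add]; exact pow_le_pow_right₀ one_le_two (by omega)
        rw [lt_div_iff₀ (by positivity), one_div, inv_pow] at v1
        have a2 : (C0 : ℝ) / 2 ^ (3 * n) * 2 ^ (J * K + 20 + 4) ≤ (2 ^ n)⁻¹ * (C0 * 2 ^ (K + 25)) := by
          rw [div_mul_eq_mul_div, inv_mul_eq_div, div_le_div_iff₀ (by positivity) (by positivity),
            mul_assoc, mul_assoc]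
          exact mul_le_mul_of_nonneg_left a1 (by positivity)
        have a3 := mul_le_mul a2 (show 1 + (n : ℝ) ≤ 2 * n by linarith) (by positivity) (by positivity)
        linarith
    have a1 := pb n
    simp only [← hu] at a1
    rw [hB, show (J : ℝ) * (κ * log 2 * 2 ^ I + L) = J * K * log 2 + J * L by rw [K2]; ring] at key
    exact fin_le key a1 (by exact_mod_cast J2) (Nat.cast_le.2 m3) m2 n0 v2 Kp L0 K0 d0 x0
      (Nat.cast_nonneg _) (by rw [K2]; linarith)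
  · rw [← exp_nat_mul]
    exact mul_le_mul_of_nonneg_left (exp_le_exp.2 (by linarith)) two_pos.le
  · rw [← exp_nat_mul]
    exact exp_le_exp.2 (by nlinarith)
  · exact card_le m3 I

end Pool.Agent.GU
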