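import Pool.Agent.Lib.MP_438f30_pr.U.St2

/-! The probability of a bad site. -/

namespace Pool.Agent.GU

open MeasureTheory Real Finset Pool.Agent.Lib.MP_a0a493_pr Pool.Agent.GL

namespace Np

theorem e10 (i : ℕ) : exp ((i : ℝ) / 10) ≤ (10 / 9) ^ i := by
  have h : exp (1 / 10 : ℝ) ≤ 10 / 9 := by
    have a := add_one_le_exp (-(1 / 10) : ℝ)
    rw [exp_neg, ← one_div (exp _), le_div_iff₀ (exp_pos _)] at a
    linarith
  rw [show (i : ℝ) / 10 = i * (1 / 10) by ring, exp_nat_mul]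
  exact pow_le_pow_left₀ (exp_pos _).le h i

theorem det {f g : Z2 → ℝ} {μ : ℕ → ℝ} {j i : ℕ} {v : Z2} (μ0 : 0 < μ j)
    (h1 : ¬ LL g j v (μ j * exp (-1 - i / 20)))
    (h2 : ∀ e : Fin 2, Tr g (Q v (2 ^ (16 + j + i / 2) + 1)) v (v + Pi.single e (2 ^ j))
      (900 * μ j * exp (i / 20)))
    (h3 : ∀ y, Near (2 ^ (j + (17 + i / 2))) v y → |f y - g y| ≤ i / 20) :
    Nn f μ (j + i) j v := by
  have a := e10 i
  have b : exp ((i : ℝ) / 20) * exp (i / 20) = exp (i / 10) := by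
    rw [← exp_add]
    congr 1
    ring
  have c := p2 j
  have d := p2 (i / 2)
  have e1 : (2 : ℤ) ^ (j + (17 + i / 2)) = 131072 * (2 ^ j * 2 ^ (i / 2)) := by
    rw [pow_add, pow_add]
    ring
  have e2 : (2 : ℤ) ^ (16 + j + i / 2) = 65536 * (2 ^ j * 2 ^ (i / 2)) := by
    rw [pow_add, pow_add]
    ring
  have e3 : (2 : ℤ) ^ j ≤ 2 ^ j * 2 ^ (i / 2) := le_mul_of_one_le_right c.le d
  unfold Nn
  rw [Nat.add_sub_cancel_left]
  refine ⟨fun h => h1 (Le.mono (Le.cmp (f := g) (c := i / 20) h fun y hy => ?_) ?_), fun e =>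
    ((h2 e).cmp (f := f) (c := i / 20) fun y hy => ?_).mono subset_rfl ?_⟩
  · have := abs_le.1 (h3 y (near_mono hy (by omega)))
    linarith
  · have p : (0 : ℝ) < (10 / 9) ^ i := by positivity
    have q : exp (-1 - (i : ℝ) / 20) * (exp 1 * exp (i / 20)) = 1 := by
      rw [← exp_add, ← exp_add, ← exp_zero]
      congr 1
      ring
    have r : exp 1 * exp ((i : ℝ) / 10) ≤ 3 * (10 / 9) ^ i :=
      mul_le_mul (exp_one_lt_d9.le.trans (by norm_num)) a (exp_pos _).le (by norm_num)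
    rw [← mul_div_assoc, div_le_iff₀ (by positivity), mul_comm, mul_assoc]
    refine mul_le_mul_of_nonneg_left ?_ μ0.le
    calc exp ((i : ℝ) / 20) = exp (-1 - (i : ℝ) / 20) * (exp 1 * exp (i / 20)) * exp (i / 20) := by
          rw [q, one_mul]
      _ = exp (-1 - (i : ℝ) / 20) * (exp 1 * exp (i / 10)) := by rw [← b]; ring
      _ ≤ _ := mul_le_mul_of_nonneg_left r (exp_pos _).le
  · have := abs_le.1 (h3 y (near_mono hy (by omega)))
    linarith
  · calc exp ((i : ℝ) / 20) * (900 * μ j * exp (i / 20)) = 900 * μ j * exp (i / 10) := by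
          rw [← b]; ring
      _ ≤ _ := mul_le_mul_of_nonneg_left a (by positivity)

theorem num {η : ℝ} (hη : 100 ≤ η) {i : ℕ} (hi : 1 ≤ i) :
    300 * 4 ^ (17 + i / 2) * exp (-(10 ^ 5 * η * (i / 20))) ≤ exp (-(η * (1 + i))) / 4 := by
  have i1 : (1 : ℝ) ≤ i := Nat.one_le_cast.2 hi
  have a : (4 : ℝ) ≤ exp 2 := by
    have := add_one_le_exp (1 : ℝ)
    rw [show (2 : ℝ) = 1 + 1 by norm_num, exp_add]
    nlinarith
  have b : (4 : ℝ) ^ (6 + (17 + i / 2)) ≤ exp (2 * (24 * i)) :=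
    calc (4 : ℝ) ^ (6 + (17 + i / 2)) ≤ 4 ^ (24 * i) := pow_le_pow_right₀ (by norm_num) (by omega)
      _ ≤ exp 2 ^ (24 * i) := pow_le_pow_left₀ (by norm_num) a _
      _ = _ := by rw [← exp_nat_mul]; congr 1; push_cast; ring
  have c : exp (2 * (24 * (i : ℝ))) * exp (-(10 ^ 5 * η * (i / 20))) ≤ exp (-(η * (1 + i))) := by
    rw [← exp_add]
    exact exp_le_exp.2 (by nlinarith)
  have d : (0 : ℝ) < 4 ^ (17 + i / 2) := by positivity
  have e := exp_pos (-(10 ^ 5 * η * ((i : ℝ) / 20)))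
  rw [pow_add] at b
  generalize (4 : ℝ) ^ (17 + i / 2) = x at *
  have := mul_le_mul_of_nonneg_right b e.le
  have := mul_pos d e
  nlinarith

end Np

open Np in
theorem np : sNP := by
  intro Ω H _ _ _ P _ W a C0 ξ η h hS μ j k μ0 hL hU hjk v
  obtain ⟨i, rfl⟩ := Nat.exists_eq_add_of_le hjk
  rw [Nat.add_sub_cancel_left]
  have hη := h.eta
  have i0 : (0 : ℝ) ≤ i := Nat.cast_nonneg i
  have hC : P.real {ω | ∃ y, Near (2 ^ (j + (17 + i / 2))) v y ∧
      (i : ℝ) / 20 < |X W a ξ (j + i) ω y - X W a ξ j ω y|} ≤ exp (-(η * (1 + i))) / 4 := by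
    rcases Nat.eq_zero_or_pos i with rfl | hi
    · simp only [Nat.cast_zero, zero_div, add_zero, sub_self, abs_zero, lt_self_iff_false,
        and_false, exists_false, Set.ofPred_false, measureReal_empty]
      positivity
    · have i1 : (1 : ℝ) ≤ i := Nat.one_le_cast.2 hi
      exact (hS j i _ v _ (by linarith) (by linarith)).trans (num hη hi)
  have hE : exp (-(η * (1 + i))) ≤ 1 / 4 := by
    have := add_one_le_exp (η * (1 + i))
    rw [exp_neg, ← one_div, div_le_div_iff₀ (exp_pos _) (by norm_num)]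
    nlinarith
  have h2 : exp (-(2 * η * (1 + i))) ≤ exp (-(η * (1 + i))) / 4 := by
    rw [show -(2 * η * (1 + i)) = -(η * (1 + i)) + -(η * (1 + i)) by ring, exp_add]
    nlinarith [exp_pos (-(η * (1 + (i : ℝ))))]
  have h3 : exp (-(3 * η * (1 + i))) ≤ exp (-(2 * η * (1 + i))) := exp_le_exp.2 (by nlinarith)
  have a1 := hL v i
  have a2 := hU v 0 i
  have a3 := hU v 1 i
  refine (pmono (t := (({ω | LL (X W a ξ j ω) j v (μ j * exp (-1 - i / 20))} ∪
    {ω | ¬ Tr (X W a ξ j ω) (Q v (2 ^ (16 + j + i / 2) + 1)) v (v + Pi.single 0 (2 ^ j))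
      (900 * μ j * exp (i / 20))}) ∪
    {ω | ¬ Tr (X W a ξ j ω) (Q v (2 ^ (16 + j + i / 2) + 1)) v (v + Pi.single 1 (2 ^ j))
      (900 * μ j * exp (i / 20))}) ∪
    {ω | ∃ y, Near (2 ^ (j + (17 + i / 2))) v y ∧
      (i : ℝ) / 20 < |X W a ξ (j + i) ω y - X W a ξ j ω y|}) fun ω hω => ?_).trans
    ((measureReal_union_le _ _).trans ((add_le_add ((measureReal_union_le _ _).trans
      (add_le_add (measureReal_union_le _ _) le_rfl)) le_rfl).trans (by linarith)))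
  by_contra hn
  simp only [Set.mem_union, Set.mem_ofPred_eq, not_or, not_not, not_exists, not_and, not_lt] at hn
  exact hω (det μ0 hn.1.1.1 (Fin.forall_fin_two.2 ⟨hn.1.1.2, hn.1.2⟩) hn.2)

end Pool.Agent.GU
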