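import Pool.Agent.Lib.MP_438f30_pr.U.St2
import Pool.Agent.Lib.MP_438f30_pr.U.Ml

/-! A grid edge is cheap with probability one half. -/

namespace Pool.Agent.GU

open MeasureTheory Real Finset Pool.Agent.Lib.MP_a0a493_pr Pool.Agent.GL
open scoped InnerProductSpace

namespace Rs

variable {f : Z2 → ℝ} {μ : ℕ → ℝ} {k : ℕ} {m x y : ℝ} {D : Set Z2} {p v w : Z2}

theorem sm {C s t : ℝ} (n : ℕ) (hC : C ≤ 2 ^ n) (h : n + s ≤ t) : C * exp s ≤ exp t := by
  have a : (2 : ℝ) ^ n ≤ exp 1 ^ n :=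
    pow_le_pow_left₀ (by norm_num) (by linarith [add_one_le_exp (1 : ℝ)]) n
  rw [← exp_nat_mul, mul_one] at a
  refine le_trans ?_ (exp_le_exp.2 h)
  rw [exp_add]
  exact mul_le_mul_of_nonneg_right (hC.trans a) (exp_pos _).le

theorem sm' {η : ℝ} (h : 100 ≤ η) : exp (-η) ≤ 1 / 100 := by
  rw [exp_neg, ← one_div]
  exact one_div_le_one_div_of_le (by norm_num) (by linarith [add_one_le_exp η])

theorem c0 (h : GR μ (k + 30)) : 900 * μ k * (10 / 9) ^ (k + 30 - k) ≤ μ (k + 30) / 100 := by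
  have a := (h k (by omega)).2
  have b := (h _ le_rfl).1
  rw [Nat.add_sub_cancel_left] at a ⊢
  norm_num at a ⊢
  linarith

theorem near_single (v : Z2) (e : Fin 2) {c r : ℤ} (h : |c| ≤ r) : Near r v (v + Pi.single e c) :=
  fun i => by
    by_cases k : i = e
    · simpa [k] using h
    · simpa [k] using (abs_nonneg c).trans h

theorem ll_ex {j : ℕ} (h : LL f j v x) : ∃ u u', Near (2 ^ j) v u ∧ ¬ Near (4 * 2 ^ j) v u' ∧
    Near (4 * 2 ^ j + 1) v u' ∧ Tr f (Q v (4 * 2 ^ j + 1)) u u' x := by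
  obtain ⟨u, u', a, b, S, s1, s2, s3⟩ := h
  refine ⟨u, u', a, b.elim (fun e n => ?_) id, s1 s2.mem, S, s1, s2, s3⟩
  have c := n 0
  have := p2 j
  simp only [e, Pi.add_apply, Matrix.cons_val_zero, sub_add_cancel_left, abs_neg, abs_le] at c
  omega

/-- long connections are expensive -/
theorem crs {j n : ℕ} (h : Tr f D v w x) (hm : 0 < m) (hn : 5 ≤ n) (hu : ¬ Near (n * 2 ^ j - 1) v w)
    (hL : ∀ q, Near (n * 2 ^ j + 2 ^ j) v (up j q) →
      ¬ LL f j (up j q) (m * exp (-1 - (0 : ℕ) / 20))) : n * m ≤ 11 * exp 1 * x := by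
  obtain ⟨S, -, b, c⟩ := h
  have n5 : (5 : ℤ) ≤ n := by exact_mod_cast hn
  have key := (cr b (mul_le_mul_of_nonneg_right n5 (p2 j).le) hu (by positivity) hL).trans c
  have e : ((n * 2 ^ j : ℤ) : ℝ) / (11 * 2 ^ j) * (m * exp (-1 - (0 : ℕ) / 20)) =
      n * m / (11 * exp 1) := by
    rw [Nat.cast_zero, zero_div, sub_zero, exp_neg]
    push_cast
    field_simp
  rw [e, div_le_iff₀ (by positivity)] at key
  linarith

theorem line {e : Fin 2} {s : ℤ} (n : ℕ) (h0 : Tr f D p v y)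
    (h : ∀ i < n, Tr f D (v + Pi.single e (s * i)) (v + Pi.single e (s * i) + Pi.single e s) x) :
    Tr f D p (v + Pi.single e (s * n)) (y + n * x) := by
  induction n with
  | zero => simpa using h0
  | succ n ih =>
    have := (ih fun i hi => h i (by omega)).trans (h n (by omega))
    rw [add_assoc v, ← Pi.single_add] at this
    push_cast
    rwa [mul_add, mul_one, add_mul, one_mul, ← add_assoc]

/-- a cheap crossing joins two distant grid points -/
theorem d1 (h : LL f (k + 30) 0 (μ (k + 30))) (hN : NC f μ (k + 30) k (Q 0 (2 ^ (k + 30 + 3))))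
    (g : GR μ k) (g' : GR μ (k + 30)) : ∃ c, Near (2 ^ (k + 33)) 0 (up k c) ∧ ∃ c',
      Near (2 ^ (k + 33)) 0 (up k c') ∧ ¬ Near (2 * 2 ^ (k + 30)) (up k c) (up k c') ∧
      Near (6 * 2 ^ (k + 30)) (up k c) (up k c') ∧
      Tr f Set.univ (up k c) (up k c') (2 * μ (k + 30)) := by
  obtain ⟨u, u', a, b, c, d⟩ := ll_ex h
  have N := p2 k
  have e := c0 g'
  have n := near_cn k u
  have n' := near_cn k u'
  have t := dm hN (by omega) g (u := u) fun y hy => near_tri a hy (by simp only [pow_add]; omega)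
  have t' := dm hN (by omega) g (u := u') fun y hy => near_tri c hy (by simp only [pow_add]; omega)
  refine ⟨_, near_tri a n (by simp only [pow_add]; omega), _,
    near_tri c n' (by simp only [pow_add]; omega), fun z => b (near_tri (near_tri
      (near_tri a n le_rfl) z le_rfl) n'.symm (by simp only [pow_add]; omega)),
    near_tri (near_tri a n le_rfl).symm (near_tri c n' le_rfl) (by simp only [pow_add]; omega),
    (((t.mono (Set.subset_univ _) le_rfl).symm.trans (d.mono (Set.subset_univ _) le_rfl)).trans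
      (t'.mono (Set.subset_univ _) le_rfl)).mono subset_rfl ?_⟩
  linarith [(g' _ le_rfl).1]

/-- the exit is too expensive -/
theorem d3 {j : ℕ} (hm : 0 < m) (h : Le f v 0 (2 ^ (j + 8)) w (2 * m * exp 1))
    (hL : ∀ q, Near (2 ^ (j + 9)) v (up j q) → ¬ LL f j (up j q) (m * exp (-1 - (0 : ℕ) / 20))) :
    Tr f (Q v (2 ^ (j + 8) + 1)) v w (2 * m * exp 1) := by
  obtain ⟨u, u', h0, h1, h2⟩ := h
  obtain rfl : v = u := funext fun j => sub_eq_zero.1 (abs_nonpos_iff.1 (h0 j))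
  rcases h1 with rfl | h1
  · exact h2
  have N := p2 j
  have a := crs (j := j) (n := 256) h2 hm (by norm_num)
    (fun n => h1 (near_mono n (by simp only [pow_add]; omega)))
    fun q hq => hL q (near_mono hq (by simp only [pow_add]; omega))
  have b : exp 1 * exp 1 ≤ (3 * 3 : ℝ) :=
    mul_self_le_mul_self (exp_pos _).le (by linarith [exp_one_lt_d9])
  push_cast at a
  nlinarith

theorem dv {a : ℤ} (a1 : 2 * 2 ^ (k + 30) < a) (a2 : a ≤ 6 * 2 ^ (k + 30)) (hd : 2 ^ k ∣ a) :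
    ∃ ρ q : ℕ, ρ + 1 ≤ 12 * 2 ^ 30 ∧ q ≤ 2 ^ 28 ∧ (2 : ℤ) ^ (k + 60) = 2 ^ k * ρ + 2 * a * q := by
  obtain ⟨α, rfl⟩ := hd
  have N := p2 k
  rw [pow_add] at a1 a2
  have b1 : 2 * 2 ^ 30 < α := lt_of_mul_lt_mul_left (by linarith) N.le
  have b2 : α ≤ 6 * 2 ^ 30 := le_of_mul_le_mul_left (by linarith) N
  lift α to ℕ using by omega
  have c1 := Nat.mod_add_div (2 ^ 60) (2 * α)
  have c2 := Nat.mod_lt (2 ^ 60) (show 0 < 2 * α by omega)
  generalize 2 ^ 60 % (2 * α) = ρ, 2 ^ 60 / (2 * α) = q at c1 c2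
  have c3 : 2 * (2 * 2 ^ 30) * q ≤ 2 * α * q := Nat.mul_le_mul_right _ (by omega)
  refine ⟨ρ, q, by omega, by omega, ?_⟩
  have c4 := congrArg (Nat.cast (R := ℤ)) c1
  push_cast at c4
  rw [pow_add]
  linear_combination (-(2 : ℤ) ^ k) * c4

/-- the zigzag -/
theorem d4 {a : ℤ} {e : Fin 2} {ρ q : ℕ} (g : GR μ (k + 30)) (a0 : 0 ≤ a) (hρ : ρ + 1 ≤ 12 * 2 ^ 30)
    (hq : q ≤ 2 ^ 28) (h : (2 : ℤ) ^ (k + 60) = 2 ^ k * ρ + 2 * a * q)
    (h1 : ∀ i < ρ + 1, Nn f μ (k + 30) k (v + Pi.single e ((2 : ℤ) ^ k * i)))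
    (h2 : ∀ i < q, ∀ z, z = v + Pi.single e ((2 : ℤ) ^ k * ρ) + Pi.single e (2 * a * i) →
      Tr f (Q z (2 ^ (k + 30 + 9))) z (z + Pi.single e (2 * a)) (4 * μ (k + 30) * exp 1)) :
    Tr f (Q v (2 ^ (k + 30 + 31))) v (v + Pi.single e (2 ^ (k + 60))) (3 * 2 ^ 30 * μ (k + 30)) := by
  have N := p2 k
  have m0 := (g _ le_rfl).1
  have b0 : ∀ i : ℕ, (0 : ℤ) ≤ 2 ^ k * i := fun i => mul_nonneg N.le i.cast_nonneg
  have a2 : 0 ≤ 2 * a := mul_nonneg zero_le_two a0
  have b1 := b0 ρ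
  have b2 : 0 ≤ 2 * a * q := mul_nonneg a2 q.cast_nonneg
  have ed : ∀ i < ρ + 1, Tr f (Q v (2 ^ (k + 30 + 31))) (v + Pi.single e ((2 : ℤ) ^ k * i))
      (v + Pi.single e ((2 : ℤ) ^ k * i) + Pi.single e (2 ^ k)) (μ (k + 30) / 100) := fun i hi => by
    have b3 : (2 : ℤ) ^ k * i ≤ 2 ^ k * ρ :=
      mul_le_mul_of_nonneg_left (Nat.cast_le.2 (Nat.lt_succ_iff.1 hi)) N.le
    refine ((h1 i hi).edge (k.le_add_right _) e).mono (fun y hy => near_tri
      (near_single v e (abs_of_nonneg (b0 i)).le) hy ?_) (c0 g)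
    simp only [pow_add] at h ⊢
    linarith
  have t0 := (ed 0 ρ.succ_pos).left
  rw [Nat.cast_zero, mul_zero, Pi.single_zero, add_zero] at t0
  have t := line q (line ρ t0 fun i hi => ed i (hi.trans ρ.lt_succ_self)) (s := 2 * a) (e := e)
    (x := 4 * μ (k + 30) * exp 1) fun i hi => by
      have b3 : 2 * a * i ≤ 2 * a * q := mul_le_mul_of_nonneg_left (Nat.cast_le.2 hi.le) a2
      refine (h2 i hi _ rfl).mono (fun y hy => near_tri (near_tri
        (near_single v e (abs_of_nonneg b1).le)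
        (near_single _ e (abs_of_nonneg (mul_nonneg a2 i.cast_nonneg)).le) le_rfl) hy ?_) le_rfl
      simp only [pow_add] at h ⊢
      linarith
  rw [add_assoc v, ← Pi.single_add, ← h] at t
  refine t.mono subset_rfl ?_
  have r1 : (ρ : ℝ) + 1 ≤ 12 * 2 ^ 30 := by exact_mod_cast hρ
  have r2 : (q : ℝ) ≤ 2 ^ 28 := by exact_mod_cast hq
  have r3 : q * exp 1 ≤ (2 ^ 28 * 2.72 : ℝ) :=
    mul_le_mul r2 (by linarith [exp_one_lt_d9]) (exp_pos _).le (by norm_num)
  nlinarith [mul_le_mul_of_nonneg_right r1 m0.le, mul_le_mul_of_nonneg_right r3 m0.le]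

variable {Ω H : Type} [MeasurableSpace Ω] {P : Measure Ω} [IsProbabilityMeasure P]
  [NormedAddCommGroup H] [InnerProductSpace ℝ H] {W : H →ₗ[ℝ] (Ω → ℝ)} {a : ℕ → E 2 → H} {C0 : ℕ}
  {ξ η : ℝ}

theorem rot (bf : BF a C0) (ξ : ℝ) (k : ℕ) (v w v' w' : Z2) (h : ‖pt v - pt w‖ = ‖pt v' - pt w'‖) :
    ⟪ξ • A a k (pt v), ξ • A a k (pt w)⟫_ℝ = ⟪ξ • A a k (pt v'), ξ • A a k (pt w')⟫_ℝ := by
  simp only [real_inner_smul_left, real_inner_smul_right]
  congr 2
  simp only [A, sum_inner, inner_sum]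
  refine sum_congr rfl fun b _ => sum_congr rfl fun b' _ => ?_
  by_cases e : b' = b
  · rw [e]; exact bf.rot _ _ _ _ _ h
  · rw [bf.orth _ _ e, bf.orth _ _ e]

/-- a displacement that is cheap with probability not too small -/
theorem p1 (h : Su P W a C0 ξ η) (hM : Md P W a ξ μ (k + 30))
    (hN : ∀ j < k + 30, NP P W a ξ η μ (k + 30) j) (g : GR μ k) (g' : GR μ (k + 30)) :
    ∃ α β : ℤ, 2 * 2 ^ (k + 30) < α ∧ α ≤ 6 * 2 ^ (k + 30) ∧ |β| ≤ α ∧ 2 ^ k ∣ α ∧
      ∀ (v : Z2) (s : ℤ) (d d' : Fin 2), s = 1 ∨ s = -1 → d ≠ d' → exp (-(10 * η)) ≤ P.real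
        {ω | Tr (X W a ξ (k + 30) ω) Set.univ v (v + Pi.single d α + Pi.single d' (s * β))
          (2 * μ (k + 30))} := by
  have hη := h.eta
  obtain ⟨c, c', ex⟩ : ∃ c c', exp (-(10 * η)) < P.real
      {ω | ¬ Near (2 * 2 ^ (k + 30)) (up k c) (up k c') ∧ Near (6 * 2 ^ (k + 30)) (up k c) (up k c') ∧
        Tr (X W a ξ (k + 30) ω) Set.univ (up k c) (up k c') (2 * μ (k + 30))} := by
    by_contra! n
    have g1 := prob_grid P k 33 0 _ fun c => prob_grid P k 33 0 _ fun c' => n c c'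
    have g2 := prob_NI (F := X W a ξ (k + 30)) (i := 30) (by linarith)
      (fun j hj => hN j (by omega)) 0 3 subset_rfl
    have g3 := (hM.2 0).1.trans ((pmono fun ω hω => (em _).imp
      (fun n => d1 hω (NI.nc n le_rfl) g g') id).trans
        ((measureReal_union_le _ _).trans (add_le_add g1 g2)))
    have e1 := sm (C := 25 * 4 ^ 33 * (25 * 4 ^ 33)) (s := -(10 * η)) (t := -η) 142 (by norm_num)
      (by push_cast; linarith)
    have e2 := sm (C := 60 * 4 ^ 3) (s := -η - (η - 2) * (30 : ℕ)) (t := -η) 12 (by norm_num)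
      (by push_cast; linarith)
    exact absurd (g3.trans (add_le_add ((mul_assoc ..).ge.trans e1) e2)) (by linarith [sm' hη])
  obtain ⟨-, h1, h2, -⟩ := nonempty_of_measureReal_ne_zero ((exp_pos _).trans ex).ne'
  obtain ⟨α, β, -, hb, n1, n2, dv, e⟩ :=
    (h.ml.ll h.iso _ (rot h.bf ξ (k + 30))).2 (up k c) (up k c') 0 (2 * μ (k + 30))
  refine ⟨α, β, not_le.1 fun n => h1 (near_mono n1 n), not_lt.1 fun n => n2 (near_mono h2 (by omega)),
    hb, dv _ fun i => by rw [up_apply, up_apply, ← mul_sub]; exact dvd_mul_right _ _,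
    fun v s d d' hs hd => (ex.le.trans (pmono fun ω hω => hω.2.2)).trans ((e s d d' hs hd).trans_le
      (Ml.tr_le h.iso (rot h.bf ξ (k + 30)) 1 (fun i => by simp [add_assoc]) _))⟩

/-- such a displacement is cheap with high probability -/
theorem p3 {j : ℕ} (h : Su P W a C0 ξ η) (m0 : 0 < μ j) (hN : ∀ i < j, NP P W a ξ η μ j i)
    (hG : ∀ b < j, GR μ b) (hL : TL P W a ξ η μ j) (hw : ¬ Near (0 + 2 ^ j - 1) v w)
    (ht : exp (-(10 * η)) ≤ P.real {ω | Tr (X W a ξ j ω) Set.univ v w (2 * μ j)}) :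
    P.real {ω | ¬ Tr (X W a ξ j ω) (Q v (2 ^ (j + 8) + 1)) v w (2 * μ j * exp 1)} ≤
      2 * exp (-(2 * η)) := by
  have hη := h.eta
  have c := h.con (d := 8) hN hG (ρ := 0) (R := 2 ^ (j + 8)) le_rfl
    (by rw [zero_add]; exact p2_le (by omega)) le_rfl hw (x := 2 * μ j) (by positivity) 1
  have r := ht.trans (pmono (t := {ω | Le (X W a ξ j ω) v 0 (2 ^ (j + 8)) w (2 * μ j)})
    fun ω hω => Tr.le hω (near_refl le_rfl v) (p2 _).le (Or.inl rfl))
  have e1 := sm (C := 2000 * 4 ^ 8) (s := 1.6 * η - 80 * η * 1) (t := -(2 * η) + -(10 * η)) 27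
    (by norm_num) (by push_cast; linarith)
  have e2 := sm (C := 25 * 4 ^ 9) (s := -(3 * η * (1 + (0 : ℕ)))) (t := -(2 * η)) 23
    (by norm_num) (by push_cast; linarith)
  rw [exp_add] at e1
  have c' := le_of_mul_le_mul_right
    (((mul_le_mul_of_nonneg_left r measureReal_nonneg).trans c).trans e1) (exp_pos _)
  have g := (prob_grid P j 9 v _ fun q => hL (up j q) 0).trans e2
  refine le_trans (pmono fun ω hω => ?_) (((measureReal_union_le _ _).trans
    (add_le_add c' g)).trans (by linarith))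
  by_contra n
  rw [Set.mem_union, not_or] at n
  exact hω (d3 m0 (not_not.1 n.1) fun q hq l => n.2 ⟨q, hq, l⟩)

/-- growth of the median -/
theorem p5 (h : Su P W a C0 ξ η) (hS : SP P W a ξ η) (m0 : 0 < μ (k + 30))
    (hM : Md P W a ξ μ (k + 60)) (hL : TL P W a ξ η μ (k + 30)) :
    3 * 2 ^ 30 * μ (k + 30) ≤ 11 * exp 1 * (exp 1 * μ (k + 60)) := by
  have hη := h.eta
  have N := p2 k
  by_contra n
  have g1 := (hS (k + 30) 30 33 0 1 (by norm_num) (by norm_num)).trans
    (sm (t := -η) 75 (by norm_num) (by push_cast; linarith))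
  have g2 := (prob_grid P (k + 30) 33 0 _ fun q => hL (up (k + 30) q) 0).trans
    (sm (t := -η) 71 (by norm_num) (by push_cast; linarith))
  refine absurd ((hM.2 0).1.trans ((pmono fun ω hω => ?_).trans
    ((measureReal_union_le _ _).trans (add_le_add g1 g2)))) (by linarith [sm' hη])
  by_contra n'
  simp only [Set.mem_union, Set.mem_ofPred_eq, not_or, not_exists, not_and, not_lt] at n'
  obtain ⟨u, u', b, c, -, d⟩ := ll_ex hω
  have := crs (j := k + 30) (n := 3 * 2 ^ 30) (d.cmp (f := X W a ξ (k + 30) ω) (c := 1)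
    fun y hy => by
      have := abs_le.1 (n'.1 y (near_mono hy (by simp only [pow_add]; omega)))
      linarith [this.1]) m0 (by norm_num)
    (fun z => c (near_tri b z (by simp only [pow_add]; omega)))
    fun q hq => n'.2 q (near_tri b hq (by simp only [pow_add]; omega))
  exact n (by exact_mod_cast this)

end Rs

open Rs in
theorem rs : sRS := by
  intro Ω H _ _ _ P _ W a C0 ξ η h hS μ k hM hN hG hL v e
  have hη := h.eta
  have N := p2 k
  have m0 := (hM (k + 30)).1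
  obtain ⟨α, β, a1, a2, hb, hd, ht⟩ := p1 h (hM _) hN (hG k (by omega)) (hG _ le_rfl)
  obtain ⟨ρ, q, hρ, hq, hr⟩ := dv a1 a2 hd
  obtain ⟨e', he⟩ := exists_ne e
  have a0 : 0 ≤ α := (abs_nonneg _).trans hb
  have s1 : ∀ z s, s = 1 ∨ s = -1 → _ := fun z s hs =>
    p3 h m0 hN (fun b hb => hG b hb.le) hL (fun n => by
      have := n e
      simp only [Pi.add_apply, Pi.single_eq_same, Pi.single_eq_of_ne he.symm, abs_le, pow_add]
        at this a1
      omega) (ht z s e e' hs he.symm)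
  have s2 : ∀ z, P.real {ω | ¬ Tr (X W a ξ (k + 30) ω) (Q z (2 ^ (k + 30 + 9))) z
      (z + Pi.single e (2 * α)) (4 * μ (k + 30) * exp 1)} ≤ 4 * exp (-(2 * η)) := fun z => by
    refine le_trans (pmono fun ω hω => ?_) (((measureReal_union_le _ _).trans (add_le_add
      (s1 z 1 (Or.inl rfl)) (s1 (z + Pi.single e α + Pi.single e' (1 * β)) (-1) (Or.inr rfl)))).trans
        (by linarith))
    by_contra n
    simp only [Set.mem_union, Set.mem_ofPred_eq, not_or, not_not] at n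
    have t := (n.1.mono (D' := Q z (2 ^ (k + 30 + 9)))
      (fun y hy => near_mono hy (by simp only [pow_add]; omega)) le_rfl).trans
      (n.2.mono (fun y hy => near_tri (near_tri (near_single z e (abs_of_nonneg a0).le)
        (near_single _ e' (r := α) (by rwa [one_mul])) le_rfl) hy
          (by simp only [pow_add] at a2 ⊢; omega)) le_rfl)
    rw [show z + Pi.single e α + Pi.single e' (1 * β) + Pi.single e α + Pi.single e' (-1 * β) =
      z + Pi.single e (2 * α) by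
        rw [two_mul, Pi.single_add, neg_mul, Pi.single_neg]
        abel] at t
    exact hω (t.mono subset_rfl (by linarith))
  have g1 := (prob_fin P (range (ρ + 1)) _ fun i _ =>
    hN k (by omega) (v + Pi.single e ((2 : ℤ) ^ k * i))).trans
    (sm (t := -η) 34 (by rw [card_range]; exact_mod_cast hρ.trans (by norm_num))
      (by rw [Nat.add_sub_cancel_left]; push_cast; linarith))
  have g2 := (prob_fin P (range q) _ fun i _ =>
    s2 (v + Pi.single e ((2 : ℤ) ^ k * ρ) + Pi.single e (2 * α * i))).trans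
    ((mul_assoc ..).ge.trans (sm (t := -η) 30 (by
      rw [card_range]
      exact_mod_cast (Nat.mul_le_mul_right 4 hq).trans (by norm_num)) (by push_cast; linarith)))
  have g3 := (hS (k + 30) 30 31 v 1 (by norm_num) (by norm_num)).trans
    (sm (t := -η) 71 (by norm_num) (by push_cast; linarith))
  have g4 := (measureReal_union_le _ _).trans (add_le_add ((measureReal_union_le _ _).trans
    (add_le_add g1 g2)) g3)
  have g5 := (pmono (s := Set.univ) fun ω _ => ?_).trans ((measureReal_union_le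
    {ω | Tr (X W a ξ (k + 60) ω) Set.univ v (v + Pi.single e (2 ^ (k + 60))) (300 * μ (k + 60))}
    _).trans (add_le_add le_rfl g4))
  · rw [probReal_univ] at g5
    linarith [sm' hη]
  refine or_iff_not_imp_right.2 fun n => ?_
  simp only [Set.mem_union, Set.mem_ofPred_eq, not_or, not_not, not_exists, not_and, not_lt,
    mem_range] at n
  refine ((d4 (hG _ le_rfl) a0 hρ hq hr n.1.1 fun i hi z hz => hz ▸ n.1.2 i hi).cmp
    (f := X W a ξ (k + 60) ω) (c := 1) fun y hy => by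
      have := abs_le.1 (n.2 y hy)
      linarith [this.2]).mono (Set.subset_univ _) ?_
  have b := mul_le_mul_of_nonneg_left (p5 h hS m0 (hM _) hL) (exp_pos 1).le
  have e3 : exp 1 ≤ (3 : ℝ) := by linarith [exp_one_lt_d9]
  have c : exp 1 ^ 3 ≤ (3 : ℝ) ^ 3 := pow_le_pow_left₀ (exp_pos _).le e3 3
  linarith [mul_le_mul_of_nonneg_right c (hM (k + 60)).1.le, (hM (k + 60)).1]

end Pool.Agent.GU
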