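import Pool.Agent.Lib.MP_438f30_pr.U.St2

/-! Oscillation of a few bands. -/

namespace Pool.Agent.GU

open MeasureTheory Real Finset Pool.Agent.Lib.MP_a0a493_pr Pool.Agent.GL
open scoped InnerProductSpace

namespace SpL

variable {Ω H : Type} [MeasurableSpace Ω] {P : Measure Ω} [IsProbabilityMeasure P]
  [NormedAddCommGroup H] [InnerProductSpace ℝ H] {W : H →ₗ[ℝ] (Ω → ℝ)} {a : ℕ → E 2 → H} {C0 : ℕ}
  {ξ η : ℝ}

/-- the bands between `j` and `j + n` -/
noncomputable def g (a : ℕ → E 2 → H) (ξ : ℝ) (j n : ℕ) (y : Z2) : H :=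
  ξ • ∑ i ∈ range n, a (j + 1 + i) (pt y)

omit [MeasurableSpace Ω] in
theorem X_sub (j n : ℕ) (ω : Ω) (y : Z2) :
    X W a ξ (j + n) ω y - X W a ξ j ω y = W (g a ξ j n y) ω := by
  have e : A a (j + n) (pt y) = A a j (pt y) + ∑ i ∈ range n, a (j + 1 + i) (pt y) := by
    rw [A, A, show j + n + 1 = j + 1 + n by omega, sum_range_add]
  simp only [X, g, e, smul_add, map_add, Pi.add_apply, add_sub_cancel_left]

theorem g_sq (bf : BF a C0) (j n : ℕ) (y : Z2) : ‖g a ξ j n y‖ ^ 2 ≤ ξ ^ 2 * C0 ^ 2 * n := by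
  rw [g, norm_smul, mul_pow, Real.norm_eq_abs, sq_abs,
    orth_sum _ fun i i' h => bf.orth _ _ (by omega) _ _, mul_assoc]
  refine mul_le_mul_of_nonneg_left ?_ (sq_nonneg _)
  have := sum_le_card_nsmul (range n) (fun i => ‖a (j + 1 + i) (pt y)‖ ^ 2) ((C0 : ℝ) ^ 2)
    fun i _ => pow_le_pow_left₀ (norm_nonneg _) (bf.nrm _ _) 2
  rwa [card_range, nsmul_eq_mul, mul_comm] at this

theorem geo (j n : ℕ) : ∑ i ∈ range n, (1 : ℝ) / 2 ^ (j + 1 + i) = 1 / 2 ^ j - 1 / 2 ^ (j + n) := by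
  induction n with
  | zero => simp
  | succ n ih =>
    rw [sum_range_succ, ih, show j + 1 + n = j + n + 1 by omega, ← add_assoc, pow_succ]
    field_simp
    ring

theorem g_lip (bf : BF a C0) (hξ : 0 < ξ) (j n : ℕ) (v w : Z2) :
    ‖g a ξ j n v - g a ξ j n w‖ ≤ ξ * C0 / 2 ^ j * ‖pt v - pt w‖ := by
  rw [g, g, ← smul_sub, ← sum_sub_distrib, norm_smul, Real.norm_eq_abs, abs_of_pos hξ,
    mul_div_assoc, mul_assoc]
  refine mul_le_mul_of_nonneg_left ((norm_sum_le _ _).trans ((sum_le_sum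
    (g := fun i => C0 * ‖pt v - pt w‖ * (1 / 2 ^ (j + 1 + i))) fun i _ => ?_).trans ?_)) hξ.le
  · rw [mul_one_div]
    exact bf.lip _ (by omega) _ _
  · rw [← mul_sum, geo]
    have h1 : (0 : ℝ) ≤ C0 * ‖pt v - pt w‖ * (1 / 2 ^ (j + n)) := by positivity
    calc _ = C0 / 2 ^ j * ‖pt v - pt w‖ - C0 * ‖pt v - pt w‖ * (1 / 2 ^ (j + n)) := by ring
      _ ≤ _ := by linarith

omit [IsProbabilityMeasure P] in
theorem small (h : Su P W a C0 ξ η) : ξ ^ 2 * C0 ^ 2 * η ≤ 1 / 10 ^ 12 := by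
  have C1 : (1 : ℝ) ≤ C0 := Nat.one_le_cast.2 h.bf.one
  have hη := h.eta
  have p : 0 ≤ ξ ^ 2 * C0 ^ 2 * η := by positivity
  refine le_trans ?_ h.small
  nlinarith

theorem val (h : Su P W a C0 ξ η) {n : ℕ} {r : ℝ} (hn : n ≤ 100 * r) {u : H}
    (hu : ‖u‖ ^ 2 ≤ ξ ^ 2 * C0 ^ 2 * n) :
    P.real {ω | r / 2 ≤ W u ω} ≤ exp (-(10 ^ 5 * η * r)) := by
  have hη := h.eta
  have s := small h
  have n0 : (0 : ℝ) ≤ n := Nat.cast_nonneg n
  refine (h.iso.tail hu (t := 4 * 10 ^ 5 * η) (by positivity) _).trans (exp_le_exp.2 ?_)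
  have a1 : ξ ^ 2 * C0 ^ 2 * η * (n * η) ≤ 1 / 10 ^ 12 * (n * η) :=
    mul_le_mul_of_nonneg_right s (by positivity)
  have a2 : n * η ≤ 100 * r * η := mul_le_mul_of_nonneg_right hn (by positivity)
  have a3 : 0 ≤ r * η := mul_nonneg (by linarith) (by linarith)
  nlinarith

theorem osc (h : Su P W a C0 ξ η) (j n : ℕ) {r : ℝ} (hr : 1 / 20 ≤ r) (z : Z2) :
    P.real {ω | ∃ y, Near (2 ^ j) z y ∧ r / 2 < |W (g a ξ j n y) ω - W (g a ξ j n z) ω|} ≤
      exp (-(10 ^ 5 * η * r)) := by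
  have hη := h.eta
  have hξ := h.xi
  have s := small h
  have C1 : (1 : ℝ) ≤ C0 := Nat.one_le_cast.2 h.bf.one
  obtain ⟨c, hc⟩ : ∃ c, c = ξ * C0 := ⟨_, rfl⟩
  have c0 : 0 < c := by rw [hc]; positivity
  rw [← mul_pow, ← hc] at s
  have c1 : c ≤ 1 / 10 ^ 7 := by
    refine le_of_not_gt fun k => ?_
    have : (1 / 10 ^ 7 : ℝ) ^ 2 < c ^ 2 := pow_lt_pow_left₀ k (by norm_num) two_ne_zero
    nlinarith
  have key := h.osc Ω P H W h.iso (g a ξ j n) (ξ * C0 / 2 ^ j) (r / (160 * c)) j z (by positivity)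
    (by positivity) (g_lip h.bf hξ j n)
  refine (pmono ?_).trans (key.trans (exp_le_exp.2 (neg_le_neg ?_)))
  · rintro ω ⟨y, h1, h2⟩
    refine ⟨y, h1, lt_of_le_of_lt ?_ h2⟩
    rw [← hc, div_mul_cancel₀ _ (by positivity),
      show 40 * c * (1 + r / (160 * c)) = 40 * c + r / 4 by field_simp; ring]
    linarith
  · rw [div_pow, le_div_iff₀ (by positivity)]
    have a1 : c ^ 2 * η * r ≤ 1 / 10 ^ 12 * r := mul_le_mul_of_nonneg_right s (by linarith)
    have a2 : 1 / 20 * r ≤ r * r := mul_le_mul_of_nonneg_right hr (by linarith)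
    nlinarith

end SpL

open SpL in
theorem sp : sSP := by
  intro Ω H _ _ _ P _ W a C0 ξ η h j n d v r hr hn
  have key := prob_grid P j (d + 1) v (fun q ω => (r / 2 ≤ W (g a ξ j n (up j q)) ω ∨
    r / 2 ≤ W (-g a ξ j n (up j q)) ω) ∨ ∃ y, Near (2 ^ j) (up j q) y ∧
      r / 2 < |W (g a ξ j n y) ω - W (g a ξ j n (up j q)) ω|)
    (ε := 3 * exp (-(10 ^ 5 * η * r))) fun q => by
      have a1 := val h hn (g_sq h.bf j n (up j q))
      have a2 := val h hn (u := -g a ξ j n (up j q)) (by rw [norm_neg]; exact g_sq h.bf j n _)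
      have a3 := osc h j n hr (up j q)
      simp only [Set.ofPred_or]
      refine (measureReal_union_le _ _).trans ?_
      have := measureReal_union_le (μ := P) {ω | r / 2 ≤ W (g a ξ j n (up j q)) ω}
        {ω | r / 2 ≤ W (-g a ξ j n (up j q)) ω}
      linarith
  refine (pmono ?_).trans (key.trans (le_of_eq (by ring)))
  rintro ω ⟨y, h1, h2⟩
  rw [X_sub] at h2
  refine ⟨cn j y, near_tri h1 (near_cn j y) ?_, ?_⟩
  · have := p2_le (show j ≤ j + d by omega)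
    rw [← add_assoc, pow_succ]
    omega
  · by_cases k : r / 2 < |W (g a ξ j n y) ω - W (g a ξ j n (up j (cn j y))) ω|
    · exact Or.inr ⟨y, (near_cn j y).symm, k⟩
    · left
      rw [map_neg, Pi.neg_apply]
      have k' := abs_le.1 (not_lt.1 k)
      rcases lt_abs.1 h2 with e | e
      · exact Or.inl (by linarith)
      · exact Or.inr (by linarith)

end Pool.Agent.GU
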