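import Pool.Agent.Lib.MP_438f30_pr.U.St2
import Pool.Agent.Lib.MP_438f30_pr.U.Cnt

/-! Few blocks are irregular. -/

namespace Pool.Agent.GU

open MeasureTheory Real Finset Pool.Agent.Lib.MP_a0a493_pr Pool.Agent.GL
open scoped InnerProductSpace

namespace Eb

variable {Ω H : Type} [NormedAddCommGroup H] [InnerProductSpace ℝ H] {W : H →ₗ[ℝ] (Ω → ℝ)}
  {a : ℕ → E 2 → H} {C0 : ℕ} {ξ η : ℝ}

/-- the bands above `c`, rescaled -/
noncomputable def rs (a : ℕ → E 2 → H) (c b : ℕ) (y : E 2) : H := a (c + 1 + b) ((2 : ℝ) ^ c • y)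

theorem rs_bd (bf : BF a C0) (c : ℕ) : Bd (rs a c) (2 * C0) where
  orth b b' h x y := bf.orth _ _ (by omega) _ _
  far b x y h := bf.far _ _ _ (by
    rw [← smul_sub, norm_smul, Real.norm_eq_abs, abs_of_pos (by positivity), pow_add, pow_add]
    have : (0 : ℝ) < 2 ^ c := by positivity
    nlinarith)
  nrm b x := (bf.nrm _ _).trans (by linarith [Nat.cast_nonneg (α := ℝ) C0])
  lip b x y := (bf.lip _ (by omega) _ _).trans (by
    rw [← smul_sub, norm_smul, Real.norm_eq_abs, abs_of_pos (by positivity), pow_add, pow_add,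
      div_le_div_iff₀ (by positivity) (by positivity)]
    have : 0 ≤ (C0 : ℝ) * ‖x - y‖ * 2 ^ c * 2 ^ b := by positivity
    nlinarith)

theorem A_sub (c n : ℕ) (x : E 2) :
    A a (c + n) x - A a c x = ∑ b ∈ range n, a (c + 1 + b) x := by
  unfold A
  rw [show c + n + 1 = c + 1 + n by ring, sum_range_add, add_sub_cancel_left]

theorem Y_eq (c n : ℕ) (q : Z2) (ω : Ω) :
    X W a ξ (c + n) ω (up c q) - X W a ξ c ω (up c q) = ξ * W (Y (rs a c) n (pt q)) ω := by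
  have e : Y (rs a c) n (pt q) = A a (c + n) (pt (up c q)) - A a c (pt (up c q)) := by
    rw [A_sub, up, pt_zsmul]
    simp [Y, rs]
  simp [e, X, mul_sub]

theorem A_mem (c : ℕ) {n k : ℕ} (h : n ≤ k) (x : E 2) :
    A a (c + n) x - A a c x ∈ Submodule.span ℝ {h | ∃ b < k, ∃ x, h = rs a c b x} := by
  rw [A_sub]
  refine Submodule.sum_mem _ fun b hb => Submodule.subset_span
    ⟨b, (mem_range.1 hb).trans_le h, ((2 : ℝ) ^ c)⁻¹ • x, ?_⟩
  rw [rs, smul_inv_smul₀ (by positivity)]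

theorem A_lip (bf : BF a C0) (c n : ℕ) (x y : E 2) :
    ‖A a (c + n) x - A a c x - (A a (c + n) y - A a c y)‖ ≤
      C0 * ‖x - y‖ / 2 ^ c - C0 * ‖x - y‖ / 2 ^ (c + n) := by
  induction n with
  | zero => simp
  | succ n ih =>
    have e : ∀ x, A a (c + (n + 1)) x = A a (c + n) x + a (c + n + 1) x :=
      fun x => sum_range_succ _ _
    have l := bf.lip (c + n + 1) (by omega) x y
    have e2 : A a (c + (n + 1)) x - A a c x - (A a (c + (n + 1)) y - A a c y) =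
        A a (c + n) x - A a c x - (A a (c + n) y - A a c y) +
          (a (c + n + 1) x - a (c + n + 1) y) := by rw [e, e]; abel
    have e3 : C0 * ‖x - y‖ / 2 ^ (c + n) = 2 * (C0 * ‖x - y‖ / 2 ^ (c + n + 1)) := by
      rw [pow_succ]; field_simp
    rw [e2, ← add_assoc]
    linarith [norm_add_le (A a (c + n) x - A a c x - (A a (c + n) y - A a c y))
      (a (c + n + 1) x - a (c + n + 1) y)]

/-- the bands between two scales -/
noncomputable def gg (a : ℕ → E 2 → H) (ξ : ℝ) (t t' : ℕ) (v : Z2) : H :=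
  ξ • (A a t (pt v) - A a t' (pt v))

theorem X_sub (t t' : ℕ) (v : Z2) (ω : Ω) :
    X W a ξ t ω v - X W a ξ t' ω v = W (gg a ξ t t' v) ω := by
  simp [X, gg, mul_sub]

theorem gg_mem (b : ℕ) {k k' : ℕ} (h : k' ≤ k) (v : Z2) :
    gg a ξ (b + k) (b + k') v ∈ Sp (rs a b) k := by
  have := Submodule.sub_mem _ (A_mem (a := a) b (le_refl k) (pt v)) (A_mem b h (pt v))
  rw [sub_sub_sub_cancel_right] at this
  exact Submodule.smul_mem _ _ this

theorem gg_lip (bf : BF a C0) (h0 : 0 < ξ) {t t' : ℕ} (h : t' ≤ t) (v w : Z2) :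
    ‖gg a ξ t t' v - gg a ξ t t' w‖ ≤ ξ * C0 / 2 ^ t' * ‖pt v - pt w‖ := by
  obtain ⟨n, rfl⟩ := Nat.exists_eq_add_of_le h
  have l := A_lip bf t' n (pt v) (pt w)
  have p : 0 ≤ C0 * ‖pt v - pt w‖ / 2 ^ (t' + n) := by positivity
  rw [gg, gg, ← smul_sub, norm_smul, Real.norm_eq_abs, abs_of_pos h0]
  calc _ ≤ ξ * (C0 * ‖pt v - pt w‖ / 2 ^ t') := mul_le_mul_of_nonneg_left (by linarith) h0.le
    _ = _ := by ring

/-- the bands of a block oscillate little -/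
def GO (W : H →ₗ[ℝ] (Ω → ℝ)) (a : ℕ → E 2 → H) (ξ : ℝ) (z : Z2) (b k : ℕ) : Set Ω :=
  {ω | ∀ k' ≤ k, ∀ q v, Near (4 * 2 ^ (b + k)) z (up b q) →
    Near (2 ^ (b + k' + 23)) (up b q) v →
    |W (gg a ξ (b + k) (b + k') v) ω - W (gg a ξ (b + k) (b + k') (up b q)) ω| ≤ 1}

theorem GO_meas (z : Z2) (b k : ℕ) :
    MeasurableSet[FK W (Sp (rs a b) k)] (GO W a ξ z b k) := by
  let _ := FK W (Sp (rs a b) k)
  simp only [GO, Set.ofPred_forall]
  exact .iInter fun k' => .iInter fun hk => .iInter fun q => .iInter fun v => .iInter fun _ =>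
    .iInter fun _ => measurableSet_le (continuous_abs.measurable.comp
      ((meas_FK W (gg_mem b hk _)).sub (meas_FK W (gg_mem b hk _)))) measurable_const

variable [MeasurableSpace Ω] {P : Measure Ω} [IsProbabilityMeasure P]

theorem GO_prob (h : Su P W a C0 ξ η) (z : Z2) (b : ℕ) {k : ℕ} {B : ℝ} (hk : 22 ≤ k) (hB : 0 ≤ B)
    (hc : ξ ^ 2 * (k + B) ≤ 1 / (7 * (40 * C0 * 2 ^ 23) ^ 2)) :
    P.real (GO W a ξ z b k)ᶜ ≤ exp (-(B + 2)) := by
  have C1 : (1 : ℝ) ≤ C0 := Nat.one_le_cast.2 h.bf.one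
  have k1 : (22 : ℝ) ≤ k := by exact_mod_cast hk
  have x0 := h.xi
  obtain ⟨s, s0, s2⟩ : ∃ s : ℝ, 0 ≤ s ∧ s ^ 2 = B + 3 * k + 10 :=
    ⟨_, sqrt_nonneg _, sq_sqrt (by positivity)⟩
  have u : 40 * (ξ * C0 * 2 ^ 23) * (1 + s) ≤ 1 := by
    refine (sq_le_one_iff₀ (by positivity)).1 ?_
    have s3 : (1 + s) ^ 2 ≤ 7 * (k + B) := by nlinarith [sq_nonneg (1 - s)]
    rw [le_div_iff₀ (by positivity)] at hc
    calc _ = ξ ^ 2 * (40 * C0 * 2 ^ 23) ^ 2 * (1 + s) ^ 2 := by ring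
      _ ≤ ξ ^ 2 * (40 * C0 * 2 ^ 23) ^ 2 * (7 * (k + B)) := by gcongr
      _ = _ := by ring
      _ ≤ 1 := hc
  refine (pmono (t := {ω | ∃ k' ∈ range (k + 1), ∃ q, Near (2 ^ (b + (k + 2))) z (up b q) ∧
    ∃ v, Near (2 ^ (b + k' + 23)) (up b q) v ∧
      40 * (ξ * C0 / 2 ^ (b + k') * 2 ^ (b + k' + 23)) * (1 + s) <
        |W (gg a ξ (b + k) (b + k') v) ω - W (gg a ξ (b + k) (b + k') (up b q)) ω|}) ?_).trans ?_
  · intro ω hω
    simp only [GO, Set.mem_compl_iff, Set.mem_ofPred_eq, not_forall, not_le] at hω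
    obtain ⟨k', hk', q, v, h1, h2, h3⟩ := hω
    refine ⟨k', mem_range.2 (by omega), q, near_mono h1 (le_of_eq (by ring)), v, h2,
      lt_of_le_of_lt ?_ h3⟩
    rwa [pow_add 2 (b + k'), ← mul_assoc (_ / _), div_mul_cancel₀ _ (by positivity)]
  · refine (prob_fin P _ _ fun k' hk' => prob_grid P b (k + 2) z _ fun q =>
      h.osc Ω P H W h.iso (gg a ξ (b + k) (b + k')) _ s _ _ (by positivity) s0
        (gg_lip h.bf x0 (by have := mem_range.1 hk'; omega))).trans ?_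
    have e1 := exp_one_gt_d9
    have e2 : (4 : ℝ) ≤ exp 2 := by
      rw [show (2 : ℝ) = 1 + 1 by norm_num, exp_add]; nlinarith
    have e3 : (4 : ℝ) ^ k ≤ exp (k * 2) := by
      rw [exp_nat_mul]; exact pow_le_pow_left₀ (by norm_num) e2 k
    have e4 : (400 : ℝ) ≤ exp 8 := by
      have := pow_le_pow_left₀ (by norm_num) (show (2.7 : ℝ) ≤ exp 1 by linarith) 8
      rw [exp_one_pow] at this
      norm_num at this ⊢
      linarith
    have e5 : (k : ℝ) + 1 ≤ exp k := add_one_le_exp _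
    rw [card_range, s2, pow_add]
    push_cast
    calc _ = (k + 1) * 4 ^ k * 400 * exp (-(B + 3 * k + 10)) := by ring
      _ ≤ exp k * exp (k * 2) * exp 8 * exp (-(B + 3 * k + 10)) := by gcongr
      _ = _ := by rw [← exp_add, ← exp_add, ← exp_add]; congr 1; ring

end Eb

open Eb in
theorem eb (h1 : sLow) (h2 : sUp) : sEB := by
  intro C
  rcases Nat.eq_zero_or_pos C with rfl | C1
  · exact ⟨1, le_rfl, fun _ _ => ⟨1, one_pos, fun Ω H _ _ _ P _ W a C0 ξ η h e =>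
      absurd h.bf.one (by omega)⟩⟩
  have C2 : (1 : ℝ) ≤ C := Nat.one_le_cast.2 C1
  obtain ⟨c2, Cg, c20, Cg1, hi⟩ := h2 (2 * C) (by linarith)
  refine ⟨Cg, Cg1, fun C' C'1 => ?_⟩
  obtain ⟨c1, c10, lo⟩ := h1 (2 * C) (2 ^ 22) C' (by linarith) (by norm_num) C'1
  refine ⟨min (min (c1 / 2) (c2 / 2)) (1 / (7 * (40 * C * 2 ^ 23) ^ 2)), by positivity, ?_⟩
  rintro Ω H _ _ _ P _ W a C0 ξ η h rfl κ J B x z hκ hB hx hc
  have κ0 : (0 : ℝ) ≤ κ := Nat.cast_nonneg κ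
  have k1 : (1 : ℝ) ≤ √(κ + 20) := one_le_sqrt.2 (by linarith)
  have p0 := sq_nonneg ξ
  have p1 : 0 ≤ ξ ^ 2 * √(κ + 20) := by positivity
  have p2 : ξ ^ 2 ≤ ξ ^ 2 * √(κ + 20) := le_mul_of_one_le_right p0 k1
  have p3 : ξ ^ 2 * (κ + 20 + B) ≤ ξ ^ 2 * √(κ + 20) * (κ + 20 + B) :=
    mul_le_mul_of_nonneg_right p2 (by linarith)
  obtain ⟨⟨a1, a2⟩, a3⟩ := (le_min_iff.1 hc).imp_left le_min_iff.1
  choose Gl l1 l2 l3 using fun j => lo Ω P H W h.iso (rs a (j * κ)) (rs_bd h.bf _) (κ + 20) ξ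
    (B + 2) (cn (j * κ) z) (by omega) h.xi (by linarith) (by push_cast; nlinarith)
  choose Gu u1 u2 u3 using fun j => hi Ω P H W h.iso (rs a (j * κ)) (rs_bd h.bf _) (κ + 20) ξ
    (B + 2) (cn (j * κ) z) (by omega) h.xi (by linarith) (by push_cast; nlinarith)
  refine (pmono ?_).trans (cnt Ω P H W h.iso (fun j => Sp (rs a (j * κ)) (κ + 20))
    (fun j => ↑(Submodule.span ℝ {h | ∃ b ≤ j * κ + κ + 20, ∃ x, h = a b x}))
    (fun j m => if m = 0 then GO W a ξ z (j * κ) (κ + 20) ∩ (Gl j ∩ Gu j) else Set.univ) B x J hB hx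
    (fun j => Submodule.span_mono ?_) (fun j j' hj => Submodule.span_mono ?_)
    (fun j j' hj v hv v' hv' => (Submodule.isOrtho_span.2 ?_).inner_eq hv hv') (fun j m => ?_)
    fun j _ m => ?_)
  · rintro ω hω ⟨τ, t1, t2⟩
    refine hω ⟨τ, fun j hj e => ?_, t2⟩
    have := t1 j hj
    rw [if_pos e] at this
    obtain ⟨o1, o2, o3⟩ := this
    refine ⟨fun k' hk' q v n1 n2 => ?_, ?_, ?_⟩
    · rw [X_sub, X_sub]
      exact o1 k' hk' q v n1 n2
    · simp only [Lo, Y_eq]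
      exact l3 j ω o2
    · simp only [Hi, Y_eq]
      exact u3 j ω o3
  · rintro _ ⟨b, hb, y, rfl⟩
    exact ⟨_, by omega, _, rfl⟩
  · rintro _ ⟨b, hb, y, rfl⟩
    exact ⟨b, hb.trans (by have := Nat.mul_le_mul_right κ hj; omega), _, rfl⟩
  · rintro _ ⟨b, hb, y, rfl⟩ _ ⟨b', hb', y', rfl⟩
    refine h.bf.orth _ _ ?_ _ _
    have := Nat.mul_le_mul_right κ hj
    rw [add_mul] at this
    omega
  · split_ifs
    exacts [(GO_meas ..).inter ((l1 j).inter (u1 j)), .univ]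
  · split_ifs with e
    · have o := GO_prob h z (j * κ) (k := κ + 20) (B := B) (by omega) (by linarith)
        (by push_cast; linarith)
      have e1 : (3 : ℝ) * exp (-2) ≤ 1 := by
        rw [exp_neg, ← div_eq_mul_inv, div_le_one (exp_pos _)]
        linarith [add_one_le_exp (2 : ℝ)]
      have e2 : exp (-(B + 2)) = exp (-B) * exp (-2) := by rw [← exp_add]; congr 1; ring
      rw [Set.compl_inter, Set.compl_inter, e, Nat.cast_zero, zero_add, mul_one]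
      have s1 := measureReal_union_le (μ := P) (GO W a ξ z (j * κ) (κ + 20))ᶜ ((Gl j)ᶜ ∪ (Gu j)ᶜ)
      have s2 := measureReal_union_le (μ := P) (Gl j)ᶜ (Gu j)ᶜ
      nlinarith [l2 j, u2 j, exp_pos (-B)]
    · rw [Set.compl_univ, measureReal_empty]
      exact (exp_pos _).le

end Pool.Agent.GU
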