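import Pool.Agent.Lib.MP_438f30_pr.U.St2
import Pool.Agent.Lib.MP_438f30_pr.U.Cnt

/-! The coarse field oscillates at few scales. -/

namespace Pool.Agent.GU

open MeasureTheory Real Finset Pool.Agent.Lib.MP_a0a493_pr Pool.Agent.GL
open scoped InnerProductSpace

theorem eh_meas {Ω : Type} (m : MeasurableSpace Ω) (g : Z2 → Ω → ℝ) (hg : ∀ v, Measurable[m] (g v))
    (p : ℕ → Z2 → Prop) (c : ℕ → ℝ) (z : Z2) :
    MeasurableSet[m] {ω | ∀ t v, p t v → |g v ω - g z ω| ≤ c t} := by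
  have e : {ω | ∀ t v, p t v → |g v ω - g z ω| ≤ c t} =
      ⋂ t, ⋂ v, ⋂ _ : p t v, {ω | |g v ω - g z ω| ≤ c t} := by ext ω; simp
  rw [e]
  exact .iInter fun t => .iInter fun v => .iInter fun _ =>
    measurableSet_le ((hg v).sub (hg z)).abs measurable_const

theorem eh_geo {r : ℝ} (h0 : 0 ≤ r) (h1 : r < 1) (b : ℕ) (s : Finset ℕ) (hs : ∀ t ∈ s, t ≤ b) :
    ∑ t ∈ s, r ^ (b - t) ≤ (1 - r)⁻¹ :=
  GLA.geo_le h0 h1 s (g := fun t => b - t) fun x hx y hy e => by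
    have := hs x hx
    have := hs y hy
    simp only at e
    omega

variable {Ω H : Type} [MeasurableSpace Ω] {P : Measure Ω} [IsProbabilityMeasure P]
  [NormedAddCommGroup H] [InnerProductSpace ℝ H] {W : H →ₗ[ℝ] (Ω → ℝ)} {a : ℕ → E 2 → H} {C0 : ℕ}
  {ξ η : ℝ}

theorem eh_band (h : Su P W a C0 ξ η) {b t : ℕ} (ht : t < b) (m : ℕ) (z : Z2) :
    P.real {ω | ∃ v, Near (2 ^ (t + 3)) z v ∧ (1 + m) * (3 / 4) ^ (b - t) / 4 <
      |W (ξ • a b (pt v)) ω - W (ξ • a b (pt z)) ω|} ≤ exp (-(η * (m + 1))) / 2 * (1 / 2) ^ (b - t) := by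
  obtain ⟨i, rfl⟩ : ∃ i, b = t + i := ⟨b - t, by omega⟩
  rw [Nat.add_sub_cancel_left]
  have x0 := h.xi
  have hη := h.eta
  have C1 : (1 : ℝ) ≤ C0 := Nat.one_le_cast.2 h.bf.one
  have m0 : (0 : ℝ) ≤ m := Nat.cast_nonneg m
  have i0 : (0 : ℝ) ≤ i := Nat.cast_nonneg i
  obtain ⟨y, hy⟩ : ∃ y, y = 1 / (1280 * ξ * C0) := ⟨_, rfl⟩
  have y0 : 0 < y := by rw [hy]; positivity
  have y1 : 8 * η ≤ y ^ 2 := by
    rw [hy, div_pow, le_div_iff₀ (by positivity)]
    have := mul_le_mul_of_nonneg_left C1 (show 0 ≤ ξ ^ 2 * C0 ^ 2 * η by positivity)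
    nlinarith [h.small]
  have y2 : 2 ≤ y := by nlinarith
  have p1 : (1 : ℝ) ≤ (3 / 2) ^ i := one_le_pow₀ (by norm_num)
  have p2 : 1 + (i : ℝ) ≤ ((3 / 2) ^ i) ^ 2 := by
    have := one_add_mul_le_pow (show (-2 : ℝ) ≤ 5 / 4 by norm_num) i
    rw [← pow_mul, mul_comm i, pow_mul]
    norm_num at this ⊢
    linarith
  obtain ⟨u, hu⟩ : ∃ u, u = (1 + m) * (3 / 2) ^ i * y := ⟨_, rfl⟩
  have u2 : 2 ≤ u := by
    rw [hu]
    exact y2.trans (le_mul_of_one_le_left y0.le (one_le_mul_of_one_le_of_one_le (by linarith) p1))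
  have u3 : (1 + m) * (1 + i) * (8 * η) ≤ u ^ 2 := by
    rw [hu, mul_pow, mul_pow]
    gcongr
    nlinarith
  have key := h.osc Ω P H W h.iso (fun v => ξ • a (t + i) (pt v)) (ξ * C0 / 2 ^ (t + i)) (u - 1)
    (t + 3) z (by positivity) (by linarith) fun v w => by
      rw [← smul_sub, norm_smul, Real.norm_eq_abs, abs_of_pos x0]
      refine (mul_le_mul_of_nonneg_left (h.bf.lip _ (by omega) _ _) x0.le).trans (le_of_eq ?_)
      ring
  have e : 40 * (ξ * C0 / 2 ^ (t + i) * 2 ^ (t + 3)) * (1 + (u - 1)) =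
      (1 + m) * (3 / 4) ^ i / 4 := by
    have : (3 / 4 : ℝ) ^ i = (3 / 2) ^ i / 2 ^ i := by rw [← div_pow]; norm_num
    rw [hu, hy, this, pow_add, pow_add]
    field_simp
    ring
  rw [e] at key
  refine key.trans ?_
  have l1 : exp (-1) ≤ 1 / 2 := by
    rw [exp_neg, one_div]
    exact inv_anti₀ two_pos (by linarith [add_one_le_exp (1 : ℝ)])
  have l2 : exp (-(u - 1) ^ 2) ≤ exp (-(η * (m + 1))) * exp (-1) ^ (i + 1) := by
    rw [← exp_nat_mul, ← exp_add]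
    refine exp_le_exp.2 ?_
    push_cast
    have a1 : u ^ 2 / 4 ≤ (u - 1) ^ 2 := by nlinarith
    have a2 : 1 ≤ η * (m + 1) := by nlinarith
    nlinarith [mul_nonneg i0 (sub_nonneg.2 a2)]
  refine l2.trans ?_
  have := mul_le_mul_of_nonneg_left (pow_le_pow_left₀ (exp_pos _).le l1 (i + 1))
    (exp_pos (-(η * (m + 1)))).le
  rw [pow_succ (1 / 2 : ℝ)] at this
  linarith

omit [MeasurableSpace Ω] in
theorem eh_sub (W : H →ₗ[ℝ] (Ω → ℝ)) (a : ℕ → E 2 → H) (ξ : ℝ) {t N : ℕ} (h : t ≤ N) (ω : Ω) (v : Z2) :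
    X W a ξ N ω v - X W a ξ t ω v = ∑ b ∈ Ico (t + 1) (N + 1), W (ξ • a b (pt v)) ω := by
  simp only [X, A, smul_sum, map_sum, Finset.sum_apply]
  rw [sum_Ico_eq_sub _ (by omega)]

theorem eh : sEH := by
  intro Ω H _ _ _ P _ W a C0 ξ η h N t₀ x z ht hx
  refine (pmono ?_).trans (cnt Ω P H W h.iso (fun b => Set.range fun v : Z2 => ξ • a b (pt v))
    (fun b => {g | ∃ b' ≤ b, ∃ v : Z2, ξ • a b' (pt v) = g})
    (fun b m => {ω | ∀ t v, t < b ∧ Near (2 ^ (t + 3)) z v →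
      |W (ξ • a b (pt v)) ω - W (ξ • a b (pt z)) ω| ≤ (1 + m) * (3 / 4) ^ (b - t) / 4}) η x (N + 1)
    (by linarith [h.eta]) hx (fun b g hg => ⟨b, le_rfl, hg⟩)
    (fun b b' hb g ⟨c, hc, hg⟩ => ⟨c, hc.trans hb, hg⟩) ?_
    (fun b m => eh_meas _ (fun v => W (ξ • a b (pt v))) (fun v => meas_FK W (Set.mem_range_self v)) _ _ z)
    fun b _ m => ?_)
  · rintro ω hω ⟨k, k1, k2⟩
    refine hω ⟨fun t => ∑ b ∈ Ico (t + 1) (N + 1), k b * (3 / 4) ^ (b - t) / 4,
      fun t => sum_nonneg fun _ _ => by positivity, le_trans ?_ k2, fun t h1 v hv => ?_⟩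
    · rw [sum_comm' (t' := range (N + 1)) (s' := fun b => (range (t₀ + 1)).filter (· < b))
        (by intro t b; simp only [mem_range, mem_Ico, mem_filter]; omega)]
      refine sum_le_sum fun b _ => ?_
      rw [← sum_div, ← mul_sum]
      have := mul_le_mul_of_nonneg_left (eh_geo (r := 3 / 4) (by norm_num) (by norm_num) b
        ((range (t₀ + 1)).filter (· < b)) fun t k => (mem_filter.1 k).2.le) (Nat.cast_nonneg (k b))
      norm_num at this ⊢
      linarith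
    · rw [eh_sub W a ξ (h1.trans ht), eh_sub W a ξ (h1.trans ht), ← sum_sub_distrib]
      refine (abs_sum_le_sum_abs _ _).trans ((sum_le_sum fun b hb => k1 b (mem_Ico.1 hb).2 t v
        ⟨(mem_Ico.1 hb).1, hv⟩).trans ?_)
      have := GLA.geo_le (r := 3 / 4) (by norm_num) (by norm_num) (Ico (t + 1) (N + 1))
        (g := fun b => b - t) fun x hx y hy e => by
          have := (mem_Ico.1 hx).1
          have := (mem_Ico.1 hy).1
          simp only at e
          omega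
      simp only [add_mul, one_mul, add_div, sum_add_distrib]
      rw [← sum_div]
      norm_num at this ⊢
      linarith
  · rintro b b' hb _ ⟨v, rfl⟩ _ ⟨c, hc, w, rfl⟩
    simp only [real_inner_smul_left, real_inner_smul_right, h.bf.orth b c (by omega), mul_zero]
  · refine le_trans (pmono (t := {ω | ∃ t ∈ range b, ∃ v, Near (2 ^ (t + 3)) z v ∧
      (1 + m) * (3 / 4) ^ (b - t) / 4 < |W (ξ • a b (pt v)) ω - W (ξ • a b (pt z)) ω|})
      fun ω hω => ?_) ?_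
    · simp only [Set.mem_compl_iff, Set.mem_ofPred_eq, not_forall, not_le] at hω
      obtain ⟨t, v, k1, k2⟩ := hω
      exact ⟨t, mem_range.2 k1.1, v, k1.2, k2⟩
    · have e : {ω | ∃ t ∈ range b, ∃ v, Near (2 ^ (t + 3)) z v ∧
          (1 + m) * (3 / 4) ^ (b - t) / 4 < |W (ξ • a b (pt v)) ω - W (ξ • a b (pt z)) ω|} =
          ⋃ t ∈ range b, {ω | ∃ v, Near (2 ^ (t + 3)) z v ∧ (1 + (m : ℝ)) * (3 / 4) ^ (b - t) / 4 <
            |W (ξ • a b (pt v)) ω - W (ξ • a b (pt z)) ω|} := by ext ω; simp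
      rw [e]
      refine (measureReal_biUnion_finset_le _ _).trans
        ((sum_le_sum fun t k => eh_band h (mem_range.1 k) m z).trans ?_)
      rw [← mul_sum]
      have := mul_le_mul_of_nonneg_left (eh_geo (r := 1 / 2) (by norm_num) (by norm_num) b (range b)
        fun t k => (mem_range.1 k).le) (exp_pos (-(η * (m + 1)))).le
      norm_num at this ⊢
      linarith

end Pool.Agent.GU
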