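import Pool.Agent.Lib.MP_438f30_pr.U.St2
import Pool.Agent.Lib.MP_438f30_pr.U.Cnt

/-! Few blocks oscillate. -/

namespace Pool.Agent.GU

open MeasureTheory Real Finset Filter Topology Pool.Agent.Lib.MP_a0a493_pr Pool.Agent.GL
open scoped InnerProductSpace

section
variable {Ω H : Type} [NormedAddCommGroup H] [InnerProductSpace ℝ H] {a : ℕ → E 2 → H} {C0 : ℕ}

/-- the bands of a block -/
noncomputable def emG (a : ℕ → E 2 → H) (ξ : ℝ) (c n : ℕ) (v : Z2) : H :=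
  ξ • ∑ i ∈ range n, a (c + 1 + i) (pt v)

theorem em_dif (W : H →ₗ[ℝ] (Ω → ℝ)) (ξ : ℝ) (c n : ℕ) (ω : Ω) (v : Z2) :
    X W a ξ (c + n) ω v - X W a ξ c ω v = W (emG a ξ c n v) ω := by
  have e : c + n + 1 = c + 1 + n := by ring
  simp only [X, A, emG]
  rw [e, sum_range_add _ (c + 1) n, smul_add, map_add, Pi.add_apply]
  ring

theorem em_lip (bf : BF a C0) (c n : ℕ) (x y : E 2) :
    ‖∑ i ∈ range n, a (c + 1 + i) x - ∑ i ∈ range n, a (c + 1 + i) y‖ ≤
      C0 * ‖x - y‖ / 2 ^ c - C0 * ‖x - y‖ / 2 ^ (c + n) := by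
  induction n with
  | zero => simp
  | succ n ih =>
    rw [sum_range_succ, sum_range_succ, add_sub_add_comm]
    refine (norm_add_le _ _).trans ((add_le_add ih (bf.lip _ (by omega) x y)).trans (le_of_eq ?_))
    have e : c + 1 + n = c + n + 1 := by ring
    rw [e, ← add_assoc, pow_succ]
    ring

theorem em_lip' (bf : BF a C0) {ξ : ℝ} (hξ : 0 < ξ) (c n : ℕ) (v w : Z2) :
    ‖emG a ξ c n v - emG a ξ c n w‖ ≤ ξ * C0 / 2 ^ c * ‖pt v - pt w‖ := by
  have h1 := em_lip bf c n (pt v) (pt w)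
  have h2 : (0 : ℝ) ≤ C0 * ‖pt v - pt w‖ / 2 ^ (c + n) := by positivity
  rw [emG, emG, ← smul_sub, norm_smul, Real.norm_of_nonneg hξ.le]
  calc _ ≤ ξ * (C0 * ‖pt v - pt w‖ / 2 ^ c) := by gcongr; linarith
    _ = _ := by ring

theorem em_orth (bf : BF a C0) (ξ : ℝ) {c c' n n' : ℕ} (h : c' + n' ≤ c) (v w : Z2) :
    ⟪emG a ξ c n v, emG a ξ c' n' w⟫_ℝ = 0 := by
  rw [emG, emG, inner_smul_left, inner_smul_right, sum_inner, sum_eq_zero, mul_zero, mul_zero]
  intro i _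
  rw [inner_sum]
  refine sum_eq_zero fun i' hi' => bf.orth _ _ ?_ _ _
  have := mem_range.1 hi'
  omega

end

theorem em : sEM := by
  intro Ω H _ _ _ P _ W a C0 ξ η h κ J x z hκ hs hx
  have hξ := h.xi
  have hη := h.eta
  have hC : (1 : ℝ) ≤ C0 := by exact_mod_cast h.bf.one
  have key := cnt Ω P H W h.iso (fun j => Set.range (emG a ξ (j * κ) (κ + 20)))
    (fun j => {g | ∃ j' ≤ j, g ∈ Set.range (emG a ξ (j' * κ) (κ + 20))})
    (fun j m => {ω | ∀ v, Near (2 ^ (j * κ + (κ + 20) + 3)) z v →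
      |W (emG a ξ (j * κ) (κ + 20) v) ω - W (emG a ξ (j * κ) (κ + 20) z) ω| ≤ 1 + m})
    η x J (by linarith) hx (fun j g hg => ⟨j, le_rfl, hg⟩)
    (fun j j' hj g ⟨i, hi, hg⟩ => ⟨i, hi.trans hj, hg⟩) ?_ ?_ ?_
  · refine le_trans (le_of_eq ?_) key
    simp only [EM, em_dif, Set.mem_ofPred_eq]
  · rintro j j' hj _ ⟨v, rfl⟩ _ ⟨i, hi, w, rfl⟩
    refine em_orth h.bf ξ ?_ v w
    have : (i + 2) * κ ≤ j * κ := Nat.mul_le_mul_right _ (by omega)
    rw [add_mul] at this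
    omega
  · intro j m
    simp only [Set.ofPred_forall]
    refine MeasurableSet.iInter fun v => MeasurableSet.iInter fun _ => ?_
    have k := fun w => meas_FK W (K := Set.range (emG a ξ (j * κ) (κ + 20))) ⟨w, rfl⟩
    let _ := FK W (Set.range (emG a ξ (j * κ) (κ + 20)))
    exact measurableSet_le ((k v).sub (k z)).abs measurable_const
  · intro j _ m
    obtain ⟨D, hD⟩ : ∃ D : ℝ, D = 40 * (ξ * C0 / 2 ^ (j * κ) * 2 ^ (j * κ + (κ + 20) + 3)) :=
      ⟨_, rfl⟩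
    have D0 : 0 < D := by rw [hD]; positivity
    have D2 : D ^ 2 = 1600 * 2 ^ 46 * (ξ ^ 2 * C0 ^ 2 * 4 ^ κ) := by
      have : (4 : ℝ) ^ κ = (2 ^ κ) ^ 2 := by rw [← pow_mul, mul_comm, pow_mul]; norm_num
      rw [hD, this]
      field_simp
      ring
    have D3 : D ^ 2 * η ≤ 1 / 4 := by
      rw [D2, mul_assoc]
      linarith
    have D4 : D ≤ 1 / 2 := by nlinarith
    have m0 : (0 : ℝ) ≤ m := m.cast_nonneg
    have s1 : (1 + m) / (2 * D) ≤ (1 + m) / D - 1 := by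
      have : (1 : ℝ) ≤ (1 + m) / (2 * D) := by rw [le_div_iff₀ (by positivity)]; linarith
      have e : (1 + (m : ℝ)) / D = (1 + m) / (2 * D) + (1 + m) / (2 * D) := by field_simp; ring
      linarith
    have s0 : (0 : ℝ) ≤ (1 + m) / (2 * D) := by positivity
    have o := h.osc Ω P H W h.iso (emG a ξ (j * κ) (κ + 20)) (ξ * C0 / 2 ^ (j * κ))
      ((1 + m) / D - 1) (j * κ + (κ + 20) + 3) z (by positivity) (s0.trans s1)
      (em_lip' h.bf hξ _ _)
    have e : D * (1 + ((1 + m) / D - 1)) = 1 + m := by field_simp; ring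
    rw [← hD, e] at o
    refine le_trans (le_of_eq ?_) (o.trans (exp_le_exp.2 (neg_le_neg ?_)))
    · congr 1
      ext ω
      simp only [Set.mem_compl_iff, Set.mem_ofPred_eq, not_forall, not_le, exists_prop]
    · refine le_trans ?_ (pow_le_pow_left₀ s0 s1 2)
      rw [div_pow, le_div_iff₀ (by positivity)]
      have : η * (m + 1) * (2 * D) ^ 2 = 4 * (D ^ 2 * η) * (m + 1) := by ring
      rw [this]
      nlinarith [mul_le_mul_of_nonneg_right D3 (by linarith : (0 : ℝ) ≤ m + 1)]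

end Pool.Agent.GU
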