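import Pool.Agent.Lib.MP_438f30_pr.U.LowB

/-! Almost straight chains see the average of the field. -/

namespace Pool.Agent.GU

open MeasureTheory Real Finset Pool.Agent.Lib.MP_a0a493_pr Pool.Agent.GL
open Pool.Agent.GLA (V Ls hh hh_nonneg kraft union_le sq_three)
open scoped InnerProductSpace

namespace Low

variable {H : Type} [NormedAddCommGroup H] [InnerProductSpace ℝ H] {e : ℕ → E 2 → H} {C : ℝ}

theorem det (hb : Bd e C) {C₁ C' μ s t : ℝ} (c0 : 1 ≤ C) (c1 : 1 ≤ C₁) (c2 : 1 ≤ C') (m0 : 0 < μ)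
    (m1 : μ * (8 * C') ≤ 1) (s0 : 0 < s) {Z : ℤ} (hZ : 2 * (C₁ / μ) + 3 ≤ Z) {M h k : ℕ}
    (hM : 2 * C₁ ≤ M) (hk : k ≤ h) {x : ℕ → E 2} (st : ∀ i < 2 ^ h, ‖x (i + 1) - x i‖ ≤ C₁)
    (lo : ∀ i j : ℕ, i + j ≤ 2 ^ h → (j : ℝ) ≤ C' * (‖x (i + j) - x i‖ + 1)) (w : H →ₗ[ℝ] ℝ)
    (hw : ∀ L ∈ Ls Z (List.length L), L.length ≤ h → ∀ i ≤ 2 ^ h,
      w (-uu (Y e k) μ M h (x 0, x (2 ^ h)) L (x i)) ≤
        s * ‖uu (Y e k) μ M h (x 0, x (2 ^ h)) L (x i)‖ ^ 2 / 2 + (hh L + t) / s) :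
    0 ≤ 2 ^ h * (s * (18 * C' * C ^ 2 * exp C + 2 * (16 * C * C₁ * C') ^ 2) + t / s +
      (36 * (576 * C ^ 2 * exp C) * C' * μ * s + 1 / s) * (41 * h + C₁ ^ 2 / μ ^ 2)) +
      ∑ i ∈ range (2 ^ h), w (Y e k (x i)) := by
  have up : ∀ i j : ℕ, i + j ≤ 2 ^ h → ‖x (i + j) - x i‖ ≤ C₁ * j := by
    intro i j
    induction j with
    | zero => simp
    | succ j ih =>
      intro hj
      have := norm_sub_le_norm_sub_add_norm_sub (x (i + j + 1)) (x (i + j)) (x i)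
      have a := st (i + j) (by omega)
      have b := ih (by omega)
      push_cast
      rw [← add_assoc]
      linarith
  have R0 : (0 : ℝ) < 2 ^ h := by positivity
  have M0 : 0 < M := Nat.cast_pos.1 (show (0 : ℝ) < M by linarith)
  have u0 := up 0 (2 ^ h) (by omega)
  have l0 := lo 0 (2 ^ h) (by omega)
  rw [zero_add] at u0 l0
  push_cast at u0 l0
  have e1 : 1 ≤ exp C := one_le_exp (by linarith)
  have kh : (2 : ℝ) ^ k ≤ 2 ^ h := pow_le_pow_right₀ one_le_two hk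
  have v0 : ‖V (Y e k) (M * 2 ^ h) (x 0) (x (2 ^ h))‖ ^ 2 ≤ 12 * C' * C ^ 2 * exp C := by
    rcases le_total (2 * C') (2 ^ h) with c | c
    · refine (V_sq hb k (by positivity) (l := 2 ^ h / (2 * C')) (by positivity) ?_ ?_).trans ?_
      · rw [div_le_iff₀ (by positivity)]; linarith
      · push_cast; nlinarith
      · exact (mul_le_mul_of_nonneg_left kh (by positivity)).trans (le_of_eq (by field_simp; ring))
    · refine (V_sq' hb k (by positivity) _ _).trans ?_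
      have a : (k : ℝ) ≤ 2 ^ k := by exact_mod_cast Nat.lt_two_pow_self.le
      have b := mul_le_mul_of_nonneg_left (a.trans (kh.trans c)) (sq_nonneg C)
      nlinarith [mul_le_mul_of_nonneg_left e1 (show 0 ≤ C' * C ^ 2 by positivity)]
  obtain ⟨G, hG⟩ : ∃ G, G = 576 * C ^ 2 * exp C := ⟨_, rfl⟩
  have G0 : 0 ≤ G := by rw [hG]; positivity
  obtain ⟨q, hq⟩ : ∃ q, q = 36 * G * C' * μ * s + 1 / s := ⟨_, rfl⟩
  have q0 : 0 ≤ q := by rw [hq]; positivity
  rw [← hG, ← hq]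
  have := main_ind (hG ▸ gm_Y hb k) G0 c1 c2 m0 m1 hZ hM (σ := (x 0, x (2 ^ h))) up lo w
    (Bd := s * (18 * C' * C ^ 2 * exp C + 2 * (16 * C * C₁ * C') ^ 2) + t / s + q * (41 * h))
    (lam := q / μ ^ 2) (by positivity) (fun L i Eh hi hL hl a1 a2 a3 a4 => by
      have g := hw L hL hl i hi
      have g0 := pow_le_pow_left₀ (norm_nonneg _)
        (Y_V hb k (m := M * 2 ^ (h - L.length)) (by positivity) a2 a3) 2
      have g1 : ‖uu (Y e k) μ M h (x 0, x (2 ^ h)) L (x i)‖ ^ 2 ≤ 3 * (12 * C' * C ^ 2 * exp C +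
          6 * G * (4 * C' * μ * hh L) + (2 * C * (8 * C₁ * C')) ^ 2) :=
        (sq_three _ _ _).trans (by linarith)
      have g2 := mul_le_mul_of_nonneg_left g1 s0.le
      have g3 : hh L ≤ 41 * h + Eh / μ ^ 2 := by
        linarith [(Nat.cast_le (α := ℝ)).2 hl]
      have g4 := mul_le_mul_of_nonneg_left g3 q0
      have g5 : q * hh L = 36 * G * C' * μ * s * hh L + hh L / s := by rw [hq]; ring
      have g6 : 0 ≤ s * (C * C₁ * C') ^ 2 := by positivity
      have g7 : q * (Eh / μ ^ 2) = q / μ ^ 2 * Eh := by ring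
      rw [map_neg, add_div] at g
      linarith) h 0 [] 0 (by simp) (by simp) (by simp [Ls]) (by simp [seg]; positivity)
      (by simp [seg]; positivity) ⟨0, le_rfl, fun ν b _ => by simp [SS], by simp [SS, hh]⟩
      (by simp [hh])
  simp only [SS, seg, add_zero, zero_add, add_sub_cancel_right] at this
  have z : 0 ≤ 2 ^ h * (q / μ ^ 2 * (‖x (2 ^ h) - x 0‖ / 2 ^ h) ^ 2) := by positivity
  have y : q * (C₁ ^ 2 / μ ^ 2) = q / μ ^ 2 * C₁ ^ 2 := by ring
  nlinarith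

end Low

open Low

theorem low : sLow := by
  classical
  intro C C₁ C' c0 c1 c2
  obtain ⟨K0, hK0⟩ := pow_unbounded_of_one_lt (13 * C') (one_lt_two (α := ℝ))
  obtain ⟨K1, hK1⟩ : ∃ K1, K1 = 18 * C' * C ^ 2 * exp C + 2 * (16 * C * C₁ * C') ^ 2 := ⟨_, rfl⟩
  obtain ⟨G, hG⟩ : ∃ G, G = 576 * C ^ 2 * exp C := ⟨_, rfl⟩
  obtain ⟨D, hD⟩ : ∃ D, D = 41 * (1 + K0) + 64 * C' ^ 2 * C₁ ^ 2 := ⟨_, rfl⟩
  have K10 : 0 < K1 := by rw [hK1]; positivity
  have G0 : 0 < G := by rw [hG]; positivity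
  have D0 : 0 < D := by rw [hD]; positivity
  obtain ⟨K3, hK3⟩ : ∃ K3, K3 = K1 + 9 / 2 * G * D := ⟨_, rfl⟩
  obtain ⟨K4, hK4⟩ : ∃ K4, K4 = D + (32 + 2 * K0) := ⟨_, rfl⟩
  have K30 : 0 < K3 := by rw [hK3]; positivity
  have K40 : 0 < K4 := by rw [hK4]; positivity
  refine ⟨1 / (4 * K3 * K4), by positivity, fun Ω _ P _ H _ _ W hW e hb k ξ B z hk hξ hB hc => ?_⟩
  have k1 : (1 : ℝ) ≤ k := by exact_mod_cast hk
  obtain ⟨r, hr⟩ : ∃ r, r = √(k : ℝ) := ⟨_, rfl⟩
  have r1 : 1 ≤ r := by rw [hr]; exact one_le_sqrt.2 k1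
  have r2 : r ^ 2 = k := by rw [hr, sq_sqrt (by positivity)]
  rw [← hr] at hc
  obtain ⟨μ, hμ⟩ : ∃ μ, μ = 1 / (8 * C' * r) := ⟨_, rfl⟩
  obtain ⟨s, hs⟩ : ∃ s, s = 1 / (2 * ξ * K3 * r) := ⟨_, rfl⟩
  obtain ⟨t, ht⟩ : ∃ t, t = B + (32 + 2 * K0) * k := ⟨_, rfl⟩
  have m0 : 0 < μ := by rw [hμ]; positivity
  have s0 : 0 < s := by rw [hs]; positivity
  obtain ⟨Gp, hGp⟩ : ∃ Gp, Gp = (box 2 (2 * 2 ^ k)).image fun v => pt (z + v) := ⟨_, rfl⟩
  obtain ⟨I, hI⟩ : ∃ I, I = (range (k + K0 + 1)).sigma fun d =>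
    Ls ⌈2 * (C₁ / μ) + 3⌉ d ×ˢ range (k + K0 + 1) ×ˢ Gp ×ˢ Gp ×ˢ Gp := ⟨_, rfl⟩
  have un := union_le hW I (fun i => uu (Y e (min k i.2.2.1)) μ ⌈2 * C₁⌉₊ i.2.2.1
    (i.2.2.2.1, i.2.2.2.2.1) i.2.1 i.2.2.2.2.2) (fun i => hh i.2.1) s0 t
  rw [← compl_compl {ω | _}] at un
  refine ⟨_, ?_, un.trans ?_, fun ω hω h p h1 h2 h3 => ?_⟩
  · refine MeasurableSet.compl ?_
    simp only [← exists_prop, Set.ofPred_exists]
    refine Finset.measurableSet_biUnion _ fun i _ => measurableSet_le measurable_const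
      (meas_FK W (Submodule.neg_mem _ (uu_mem (fun y => Submodule.sum_mem _ fun b hb' =>
        Submodule.subset_span ?_) _ _ _ _ _ _)))
    exact ⟨b, (mem_range.1 hb').trans_le (min_le_left _ _), y, rfl⟩
  · have two : ∀ n : ℕ, (2 : ℝ) ^ n ≤ exp n := fun n => by
      rw [← mul_one (n : ℝ), exp_nat_mul]
      exact pow_le_pow_left₀ two_pos.le (by linarith [add_one_le_exp 1]) _
    have a1 : (Gp.card : ℝ) ≤ exp (k + 4) ^ 2 := by
      rw [hGp]
      refine (Nat.cast_le.2 card_image_le).trans ?_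
      rw [card_box]
      have := two (k + 4)
      push_cast at this ⊢
      rw [pow_add] at this
      exact pow_le_pow_left₀ (by positivity)
        (by linarith [one_le_pow₀ (n := k) (one_le_two (α := ℝ))]) 2
    have a2 : ((k + K0 + 1 : ℕ) : ℝ) ≤ exp (k + K0) := by
      push_cast; exact add_one_le_exp _
    have a3 : ∀ d ∈ range (k + K0 + 1), ∑ i ∈ Ls ⌈2 * (C₁ / μ) + 3⌉ d ×ˢ range (k + K0 + 1) ×ˢ
        Gp ×ˢ Gp ×ˢ Gp, exp (-hh i.1) ≤ exp (k + K0) * (exp (k + 4) ^ 2) ^ 3 := by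
      intro d _
      rw [sum_product]
      simp only [sum_const, card_product, card_range, nsmul_eq_mul, ← mul_sum, Nat.cast_mul]
      refine (mul_le_of_le_one_right (by positivity) (kraft _ d)).trans
        (mul_le_mul a2 ?_ (by positivity) (by positivity))
      rw [← pow_three]
      exact pow_le_pow_left₀ (by positivity) a1 3
    have a4 := sum_le_sum a3
    rw [sum_const, card_range, nsmul_eq_mul] at a4
    rw [hI, sum_sigma]
    refine (mul_le_mul_of_nonneg_left (a4.trans (mul_le_mul_of_nonneg_right a2 (by positivity)))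
      (exp_pos _).le).trans ?_
    rw [← pow_mul, ← exp_nat_mul, ← exp_add, ← exp_add, ← exp_add, ht]
    refine exp_le_exp.2 ?_
    push_cast
    nlinarith [mul_le_mul_of_nonneg_left k1 (Nat.cast_nonneg (α := ℝ) K0)]
  · have p2 : (1 : ℝ) ≤ 2 ^ k := one_le_pow₀ one_le_two
    have hG' : ∀ i ≤ 2 ^ h, pt (p i) ∈ Gp := fun i hi => by
      rw [hGp]
      refine mem_image.2 ⟨p i - z, mem_box.2 fun j => ?_, by rw [add_sub_cancel]⟩
      have := h1 i hi j
      have a : (0 : ℤ) < 2 ^ k := by positivity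
      rw [abs_sub_comm] at this
      push_cast
      rw [Pi.sub_apply]
      linarith
    have hh' : h ≤ k + K0 := by
      have a := h3 0 (2 ^ h) (Nat.zero_le _) le_rfl
      have b : ‖pt (p (2 ^ h)) - pt (p 0)‖ ≤ 2 * (6 * 2 ^ k) := norm_le_two (by positivity) fun j => by
        have u := abs_le.1 (h1 0 (Nat.zero_le _) j)
        have v := abs_le.1 (h1 _ le_rfl j)
        have : |p (2 ^ h) j - p 0 j| ≤ 6 * 2 ^ k := abs_le.2 ⟨by linarith, by linarith⟩
        have := (Int.cast_le (R := ℝ)).2 this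
        push_cast at this
        exact this
      refine (pow_le_pow_iff_right₀ (one_lt_two (α := ℝ))).1 ?_
      push_cast at a
      rw [pow_add]
      nlinarith [mul_le_mul_of_nonneg_left b (zero_le_one.trans c2),
        mul_le_mul_of_nonneg_left p2 (zero_le_one.trans c2),
        mul_le_mul_of_nonneg_left hK0.le (zero_le_one.trans p2)]
    have := det hb c0 c1 c2 m0 (by rw [hμ, one_div_mul_eq_div, div_le_one (by positivity)]; nlinarith)
      s0 (t := t) (Int.le_ceil _) (Nat.le_ceil _) (min_le_right k h) (x := fun i => pt (p i)) h2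
      (fun i j hj => by simpa using h3 i (i + j) (Nat.le_add_right _ _) hj)
      ((LinearMap.proj ω).comp W) fun L hL hl i hi => le_of_lt (not_le.1 fun c => hω
        ⟨⟨L.length, L, h, _, _, _⟩, hI ▸ mem_sigma.2 ⟨mem_range.2 (by simp only; omega),
          mem_product.2 ⟨hL, mem_product.2 ⟨mem_range.2 (by simp only; omega), mem_product.2
            ⟨hG' 0 (Nat.zero_le _), mem_product.2 ⟨hG' _ le_rfl, hG' i hi⟩⟩⟩⟩⟩, c⟩)
    rw [← hK1, ← hG] at this
    have b1 : 41 * h + C₁ ^ 2 / μ ^ 2 ≤ D * r ^ 2 := by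
      have a : C₁ ^ 2 / μ ^ 2 = 64 * C' ^ 2 * C₁ ^ 2 * r ^ 2 := by rw [hμ]; field_simp; ring
      have b : (h : ℝ) ≤ k + K0 := by exact_mod_cast hh'
      rw [a, hD, r2]
      nlinarith [mul_le_mul_of_nonneg_left k1 (Nat.cast_nonneg (α := ℝ) K0)]
    have b2 : (36 * G * C' * μ * s + 1 / s) * (D * r ^ 2) = s * r * (9 / 2 * G * D) + D * k / s := by
      rw [hμ, ← r2]; field_simp; ring
    have b3 := (mul_le_mul_of_nonneg_left b1
      (show 0 ≤ 36 * G * C' * μ * s + 1 / s by positivity)).trans_eq b2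
    have b4 : ξ * (s * r * K3) = 1 / 2 := by rw [hs]; field_simp
    have b5 : ξ * (K4 * (k + B) / s) ≤ 1 / 2 := by
      have : ξ * (K4 * (k + B) / s) = 2 * K3 * K4 * (ξ ^ 2 * r * (k + B)) := by rw [hs]; field_simp
      rw [this]
      exact (mul_le_mul_of_nonneg_left hc (by positivity)).trans_eq (by field_simp; ring)
    have b6 : t / s + D * k / s ≤ K4 * (k + B) / s := by
      rw [← add_div]
      refine div_le_div_of_nonneg_right ?_ s0.le
      rw [ht, hK4]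
      nlinarith [mul_nonneg D0.le hB, mul_nonneg (Nat.cast_nonneg (α := ℝ) K0) hB]
    have b7 : s * K1 ≤ s * r * K1 := by nlinarith [mul_pos s0 K10]
    have b8 : ξ * (s * K1 + t / s + (36 * G * C' * μ * s + 1 / s) * (41 * h + C₁ ^ 2 / μ ^ 2)) ≤ 1 :=
      (mul_le_mul_of_nonneg_left (show _ ≤ s * r * K3 + K4 * (k + B) / s by
        rw [hK3]; linarith) hξ.le).trans (by linarith)
    rw [← mul_sum]
    have b9 := mul_nonneg hξ.le this
    simp only [LinearMap.comp_apply, LinearMap.proj_apply] at b9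
    nlinarith [mul_le_mul_of_nonneg_left b8 (show (0 : ℝ) ≤ 2 ^ h by positivity)]

end Pool.Agent.GU
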