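import Pool.Agent.Lib.MP_438f30_pr.U.St2

/-! The length of a geodesic in a good environment. -/

namespace Pool.Agent.GU

open Real Finset Pool.Agent.Lib.MP_a0a493_pr Pool.Agent.GL

theorem Det.cv {x : ℕ → Z2} {a b : ℕ} {R : ℤ} {M M' : ℝ} (h : Cv x a b R M) (hM : M ≤ M') :
    Cv x a b R M' := fun F hF => (h F hF).trans hM

theorem Det.inj {f : Z2 → ℝ} {T : ℕ} {x : ℕ → Z2} (h : GS f T x) {s s' : ℕ} (hs : s < s')
    (hT : s' ≤ T) : x s ≠ x s' := fun e => by
  have k := h.2 s s' (exp (f (x s))) hs.le hT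
    ⟨{x s}, Set.subset_univ _, by rw [← e]; exact .refl (by simp), by simp [cs]⟩
  have k2 : ∑ t ∈ ({s, s'} : Finset ℕ), exp (f (x t)) ≤ ∑ t ∈ Icc s s', exp (f (x t)) :=
    sum_le_sum_of_subset_of_nonneg (fun t ht => by
      simp only [mem_insert, mem_singleton] at ht
      rw [mem_Icc]
      omega) fun _ _ _ => (exp_pos _).le
  rw [sum_pair hs.ne] at k2
  linarith [exp_pos (f (x s'))]

theorem Det.base {f : Z2 → ℝ} {T : ℕ} {x : ℕ → Z2} (h : GS f T x) {a b : ℕ} (hb : b ≤ T + 1)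
    (hD : Dm x a b (2 ^ 20)) : ((b - a : ℕ) : ℝ) ≤ 9 * 4 ^ 20 := by
  rcases le_or_gt b a with hab | hab
  · rw [Nat.sub_eq_zero_of_le hab]
    norm_num
  have k : (Ico a b).card ≤ (bx (x a) (2 ^ 20)).card := by
    refine card_le_card_of_injOn x (fun s hs => ?_) fun s hs s' hs' e => ?_
    · refine mem_coe.2 (mem_bx.2 ?_)
      exact_mod_cast hD a (mem_Ico.2 ⟨le_rfl, hab⟩) s (mem_coe.1 hs)
    · have h1 := mem_Ico.1 (mem_coe.1 hs)
      have h2 := mem_Ico.1 (mem_coe.1 hs')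
      rcases lt_trichotomy s s' with k | k | k
      · exact absurd e (Det.inj h k (by omega))
      · exact k
      · exact absurd e.symm (Det.inj h k (by omega))
  rw [Nat.card_Ico, card_bx] at k
  have k' : b - a ≤ 9 * 4 ^ 20 := k.trans (by norm_num)
  exact_mod_cast k'

theorem Det.tops {τ : ℕ → ℝ} (h0 : ∀ t, 0 ≤ τ t) {κ n t₀ : ℕ} (hκ : 1 ≤ κ) (hn : n * κ + 20 ≤ t₀) :
    ∑ j ∈ range n, τ (j * κ + (κ + 20)) ≤ ∑ t ∈ range (t₀ + 1), τ t := by
  rw [← sum_image (g := fun j => j * κ + (κ + 20)) (f := τ) (s := range n) fun j _ j' _ e =>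
    Nat.eq_of_mul_eq_mul_right hκ (Nat.add_right_cancel e)]
  refine sum_le_sum_of_subset_of_nonneg (fun t ht => ?_) fun _ _ _ => h0 _
  obtain ⟨j, hj, rfl⟩ := mem_image.1 ht
  have := Nat.mul_le_mul_right κ (Nat.succ_le_of_lt (mem_range.1 hj))
  rw [Nat.succ_mul] at this
  rw [mem_range]
  omega

theorem Det.num {κ m : ℕ} {L u v : ℝ} (hL : (κ : ℝ) + 70 ≤ L) :
    10 ^ 7 * exp (6 * ((2 + v) + (1 + u))) * 4 ^ (κ + 20 + m) ≤
      exp (κ * log 2 + L + (6 * u + 6 * v + 2 * m)) := by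
  have e1 : (2 : ℝ) ≤ exp 1 := by linarith [add_one_le_exp (1 : ℝ)]
  have e2 : ∀ n : ℕ, (2 : ℝ) ^ n ≤ exp n := fun n => by
    rw [← exp_one_pow]
    exact pow_le_pow_left₀ (by norm_num) e1 n
  have e3 : (2 : ℝ) ^ κ = exp (κ * log 2) := by
    rw [exp_nat_mul, exp_log two_pos]
  have e4 : (4 : ℝ) ^ m ≤ exp (2 * m) := by
    have := e2 (2 * m)
    rw [pow_mul] at this
    norm_num at this
    exact this
  have e5 : (10 : ℝ) ^ 7 * 4 ^ 20 ≤ exp 52 := by
    have h : (5 / 2 : ℝ) ≤ exp 1 := by linarith [exp_one_gt_d9]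
    have := pow_le_pow_left₀ (by norm_num) h 52
    rw [exp_one_pow] at this
    refine le_trans ?_ (this.trans (by norm_num))
    norm_num
  have e6 : (4 : ℝ) ^ κ = 2 ^ κ * 2 ^ κ := by rw [← mul_pow]; norm_num
  calc (10 : ℝ) ^ 7 * exp (6 * ((2 + v) + (1 + u))) * 4 ^ (κ + 20 + m)
      = (10 ^ 7 * 4 ^ 20) * (2 ^ κ * (2 ^ κ * (4 ^ m * exp (6 * ((2 + v) + (1 + u)))))) := by
        rw [pow_add, pow_add, e6]; ring
    _ ≤ exp 52 * (exp (κ * log 2) * (exp κ * (exp (2 * m) * exp (6 * ((2 + v) + (1 + u)))))) := by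
        rw [← e3]
        gcongr
        exact e2 κ
    _ ≤ _ := by
        simp only [← exp_add]
        exact exp_le_exp.2 (by linarith)

theorem det (h1 : sBM) (h2 : sLad) : sDet := by
  intro f F μ xb Cg C' L x₀ κ I J T x hGB hκ hL1 hL2 hC hG hS hD hE
  have L0 : 0 ≤ L := by linarith [Nat.cast_nonneg (α := ℝ) κ]
  have hH : ∀ s, ∃ τ : ℕ → ℝ, (∀ t, 0 ≤ τ t) ∧ (s ≤ T →
      ∑ t ∈ range (J * 2 ^ I * κ + 20 + 1), τ t ≤ x₀ ∧ ∀ t ≤ J * 2 ^ I * κ + 20, ∀ v,
        Near (2 ^ (t + 3)) (x s) v → |f v - F t v - (f (x s) - F t (x s))| ≤ 2 + τ t) := fun s => by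
    by_cases hs : s ≤ T
    · obtain ⟨τ, a, b⟩ := (hE s hs).1
      exact ⟨τ, a, fun _ => b⟩
    · exact ⟨0, fun _ => le_rfl, fun h => absurd h hs⟩
  choose τH H0 hH using hH
  have hM := fun s hs => (hE s hs).2.1
  have hN := fun s hs => (hE s hs).2.2.1
  have hB := fun s hs => (hE s hs).2.2.2
  unfold EM at hM
  unfold EN at hN
  unfold EB at hB
  choose! τM hM hM' using hM
  choose! τN hN hN' using hN
  choose! τB hB hB' using hB
  have top : ∀ i ≤ I, J * 2 ^ (I - i) * (2 ^ i * κ) = J * 2 ^ I * κ := fun i hi => by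
    rw [show 2 ^ I = 2 ^ (I - i) * 2 ^ i by rw [← pow_add, Nat.sub_add_cancel hi]]
    ring
  have pos : ∀ i, 1 ≤ 2 ^ i * κ := fun i => Nat.mul_pos (by positivity) hκ
  have lt : ∀ {j n k : ℕ}, j < n → j * k + (k + 20) ≤ n * k + 20 := fun {j n k} hj => by
    have := Nat.mul_le_mul_right k (Nat.succ_le_of_lt hj)
    rw [Nat.succ_mul] at this
    omega
  refine h2 x (fun j => 2 ^ (j * κ + 20)) T I J (9 * 4 ^ 20) (κ * log 2) L _
    (fun j s => 6 * τM s j + 6 * τH s (j * κ + (κ + 20)) + 2 * τN s 0 j)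
    (fun i j s => τB s i j + τN s i j + τH s (j * (2 ^ i * κ) + (2 ^ i * κ + 20)))
    (by norm_num) (mul_nonneg (Nat.cast_nonneg _) (log_nonneg one_le_two)) L0
    (fun j s => by have := H0 s (j * κ + (κ + 20)); positivity)
    (fun i j s => by have := H0 s (j * (2 ^ i * κ) + (2 ^ i * κ + 20)); positivity)
    (fun a b hb h => Det.base hS hb (by simpa using h)) ?_ ?_ hD ?_
  · intro j hj a b hb hd s hs
    have hT : s ≤ T := by have := (mem_Ico.1 hs).2; omega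
    have k := hN s hT 0 (Nat.zero_le _) j (by simpa using hj)
    simp only [pow_zero, one_mul] at k
    refine Det.cv (h1 f (F (j * κ)) μ (j * κ) (κ + 20) (τN s 0 j) T a b x (x s)
      ((2 + τH s (j * κ + (κ + 20))) + (1 + τM s j)) hS hb (by omega)
      (by have := H0 s (j * κ + (κ + 20)); positivity) hG k (fun v hv => ?_) fun s' hs' => ?_)
      (Det.num hL2)
    · have a1 := abs_le.1 ((hH s hT).2 _ (lt hj) v hv)
      have a2 := abs_le.1 (hM s hT j hj v hv)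
      rw [abs_le]
      constructor <;> linarith [a1.1, a1.2, a2.1, a2.2]
    · have := hd s hs s' hs'
      rwa [show (j + 1) * κ + 20 = j * κ + (κ + 20) by ring] at this
  · intro i hi j hj a b hb hd s hs hbd
    have hT : s ≤ T := by have := (mem_Ico.1 hs).2; omega
    have hI := (mem_Icc.1 hi).2
    have t0 := H0 s (j * (2 ^ i * κ) + (2 ^ i * κ + 20))
    have t1 : (0 : ℝ) ≤ τB s i j := Nat.cast_nonneg _
    have t2 : (0 : ℝ) ≤ τN s i j := Nat.cast_nonneg _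
    have z1 : τB s i j = 0 := Nat.lt_one_iff.1 (by exact_mod_cast (by linarith : (τB s i j : ℝ) < 1))
    have z2 : τN s i j = 0 := Nat.lt_one_iff.1 (by exact_mod_cast (by linarith : (τN s i j : ℝ) < 1))
    have k := hN s hT i hI j hj
    rw [z2] at k
    have k2 := hGB f F μ (j * (2 ^ i * κ)) (2 ^ i * κ + 20) T a b x (x s) hS hb (by omega) (hG _) k
      (hB s hT i hi j hj z1) (fun v hv => ((hH s hT).2 _ ((lt hj).trans (by rw [top i hI])) v hv).trans
        (by linarith)) fun s' hs' => by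
        have := hd s hs s' hs'
        rwa [show (j + 1) * 2 ^ i * κ + 20 = j * (2 ^ i * κ) + (2 ^ i * κ + 20) by ring] at this
    rw [← mul_assoc] at k2
    refine Det.cv k2 ?_
    have e3 : (2 : ℝ) ^ (2 ^ i * κ) = exp (κ * log 2 * 2 ^ i) := by
      rw [show (κ : ℝ) * log 2 * 2 ^ i = (2 ^ i * κ : ℕ) * log 2 by push_cast; ring, exp_nat_mul,
        exp_log two_pos]
    rw [pow_add, exp_add, ← e3, show 11 * C' * ((2 : ℝ) ^ (2 ^ i * κ) * 2 ^ 20) =
      2 ^ (2 ^ i * κ) * (11 * C' * 2 ^ 20) by ring]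
    exact mul_le_mul_of_nonneg_left hL1 (by positivity)
  · intro s hT
    have a1 := hM' s hT
    have a2 := (Det.tops (H0 s) hκ (le_refl (J * 2 ^ I * κ + 20))).trans (hH s hT).1
    have a3 := hN' s hT 0 (Nat.zero_le _)
    rw [Nat.sub_zero] at a3
    have a4 : ∑ i ∈ Icc 1 I, ∑ j ∈ range (J * 2 ^ (I - i)),
        ((τB s i j : ℝ) + τN s i j + τH s (j * (2 ^ i * κ) + (2 ^ i * κ + 20))) ≤
        ∑ i ∈ Icc 1 I, (xb i + 2 * x₀) := sum_le_sum fun i hi => by
      have hI := (mem_Icc.1 hi).2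
      have b1 := (Det.tops (H0 s) (pos i) (show J * 2 ^ (I - i) * (2 ^ i * κ) + 20 ≤
        J * 2 ^ I * κ + 20 by rw [top i hI])).trans (hH s hT).1
      rw [sum_add_distrib, sum_add_distrib]
      linarith [hB' s hT i hi, hN' s hT i hI]
    rw [sum_add_distrib (s := Icc 1 I) (f := xb), sum_const, Nat.card_Icc, Nat.add_sub_cancel,
      nsmul_eq_mul] at a4
    have a5 := mul_le_mul_of_nonneg_left a4 L0
    rw [sum_add_distrib, sum_add_distrib, ← mul_sum, ← mul_sum, ← mul_sum]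
    rw [show 2 * (I : ℝ) * x₀ = I * (2 * x₀) by ring]
    linarith

end Pool.Agent.GU
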