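import Pool.Agent.Lib.MP_438f30_pr.U.St2

/-! The ladder of blocks. -/

namespace Pool.Agent.GU

open Real Finset

namespace Lad

/-- all parts of diameter at most `r` have weight at most one -/
def Al (x : ℕ → Z2) (T : ℕ) (r : ℤ) (f : ℕ → ℝ) : Prop :=
  ∀ a b, b ≤ T + 1 → Dm x a b r → ∑ s ∈ Ico a b, exp (-f s) ≤ 1

theorem of_cv {x : ℕ → Z2} {T a b : ℕ} {r : ℤ} {f g : ℕ → ℝ} {c : ℝ} (h : Al x T r f)
    (hb : b ≤ T + 1) (hc : Cv x a b r (exp c)) (hg : ∀ s ∈ Ico a b, f s + c ≤ g s) :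
    ∑ s ∈ Ico a b, exp (-g s) ≤ 1 := by
  have h1 := hc (fun s => exp (-f s)) fun a' b' _ h2 h3 => h a' b' (h2.trans hb) h3
  calc ∑ s ∈ Ico a b, exp (-g s) ≤ ∑ s ∈ Ico a b, exp (-c) * exp (-f s) :=
        sum_le_sum fun s hs => by
          rw [← exp_add]
          exact exp_le_exp.2 (by linarith [hg s hs])
    _ = exp (-c) * ∑ s ∈ Ico a b, exp (-f s) := (mul_sum _ _ _).symm
    _ ≤ exp (-c) * exp c := mul_le_mul_of_nonneg_left h1 (exp_pos _).le
    _ = 1 := by rw [← exp_add]; simp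

/-- the excess -/
noncomputable def ee (L : ℝ) (ex : ℕ → ℕ → ℝ) (bd : ℕ → ℕ → ℕ → ℝ) : ℕ → ℕ → ℕ → ℝ
  | 0, j, s => ex j s
  | i + 1, j, s =>
    if bd (i + 1) j s < 1 then 0 else ee L ex bd i (2 * j) s + ee L ex bd i (2 * j + 1) s + L

variable {L : ℝ} {ex : ℕ → ℕ → ℝ} {bd : ℕ → ℕ → ℕ → ℝ}

theorem ee_nonneg (hL : 0 ≤ L) (hx : ∀ j s, 0 ≤ ex j s) (i : ℕ) :
    ∀ j s, 0 ≤ ee L ex bd i j s := by
  induction i with
  | zero => exact hx
  | succ i ih =>
    intro j s
    rw [ee]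
    split_ifs
    · exact le_rfl
    · exact add_nonneg (add_nonneg (ih _ _) (ih _ _)) hL

theorem ee_le (hL : 0 ≤ L) (hx : ∀ j s, 0 ≤ ex j s) (hb : ∀ i j s, 0 ≤ bd i j s) (i j s : ℕ) :
    ee L ex bd (i + 1) j s ≤
      ee L ex bd i (2 * j) s + ee L ex bd i (2 * j + 1) s + L * bd (i + 1) j s := by
  rw [ee]
  split_ifs with h
  · exact add_nonneg (add_nonneg (ee_nonneg hL hx _ _ _) (ee_nonneg hL hx _ _ _))
      (mul_nonneg hL (hb _ _ _))
  · have := mul_le_mul_of_nonneg_left (not_lt.1 h) hL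
    linarith

theorem sum_pair (g : ℕ → ℝ) (n : ℕ) :
    ∑ j ∈ range n, (g (2 * j) + g (2 * j + 1)) = ∑ j ∈ range (2 * n), g j := by
  induction n with
  | zero => simp
  | succ n ih => rw [sum_range_succ, ih, show 2 * (n + 1) = 2 * n + 1 + 1 by ring, sum_range_succ,
      sum_range_succ, add_assoc]

theorem pw {I i : ℕ} (J : ℕ) (h : i + 1 ≤ I) : J * 2 ^ (I - i) = 2 * (J * 2 ^ (I - (i + 1))) := by
  rw [show I - i = I - (i + 1) + 1 by omega, pow_succ]
  ring

theorem sum_ee (hL : 0 ≤ L) (hx : ∀ j s, 0 ≤ ex j s) (hb : ∀ i j s, 0 ≤ bd i j s) (I J s i : ℕ)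
    (hi : i ≤ I) : ∑ j ∈ range (J * 2 ^ (I - i)), ee L ex bd i j s ≤
      ∑ j ∈ range (J * 2 ^ I), ex j s +
        L * ∑ l ∈ Icc 1 i, ∑ j ∈ range (J * 2 ^ (I - l)), bd l j s := by
  induction i with
  | zero => simp [ee]
  | succ i ih =>
    have h1 := ih (by omega)
    rw [pw J hi, ← sum_pair fun j => ee L ex bd i j s] at h1
    rw [sum_Icc_succ_top (by omega), mul_add]
    refine (sum_le_sum fun j _ => ee_le hL hx hb i j s).trans ?_
    rw [sum_add_distrib, ← mul_sum]
    linarith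

end Lad

open Lad in
theorem lad : sLad := by
  intro x R T I J M₀ κ L B ex bd hM _ hL hx hb h0 h1 h2 h3 h4
  have key : ∀ i ≤ I, ∀ j < J * 2 ^ (I - i), ∀ f : ℕ → ℝ, Al x T (R (j * 2 ^ i)) f →
      Al x T (R ((j + 1) * 2 ^ i)) fun s => f s + (κ * 2 ^ i + L + ee L ex bd i j s) := by
    intro i
    induction i with
    | zero =>
      intro _ j hj f hf a b hb' hd
      rcases (Ico a b).eq_empty_or_nonempty with he | he
      · simp [he]
      obtain ⟨s₀, hs₀, hm⟩ := exists_min_image (Ico a b) (ex j) he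
      simp only [pow_zero, mul_one, Nat.sub_zero] at hj hf hd ⊢
      refine of_cv hf hb' (h1 j hj a b hb' hd s₀ hs₀) fun s hs => ?_
      have := hm s hs
      simp only [ee]
      linarith
    | succ i ih =>
      intro hi j hj f hf a b hb' hd
      by_cases hg : ∃ s ∈ Ico a b, bd (i + 1) j s < 1
      · obtain ⟨s₀, hs₀, hg⟩ := hg
        refine of_cv hf hb' (h2 (i + 1) (mem_Icc.2 ⟨by omega, hi⟩) j hj a b hb' hd s₀ hs₀ hg)
          fun s _ => ?_
        have := ee_nonneg (bd := bd) hL hx (i + 1) j s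
        linarith
      · have hp := pw J hi
        have e1 : j * 2 ^ (i + 1) = 2 * j * 2 ^ i := by ring
        have e2 : (j + 1) * 2 ^ (i + 1) = (2 * j + 1 + 1) * 2 ^ i := by ring
        rw [e1] at hf
        rw [e2] at hd
        have k := ih (by omega) (2 * j + 1) (by omega) _ (ih (by omega) (2 * j) (by omega) f hf)
          a b hb' hd
        refine le_of_eq_of_le (sum_congr rfl fun s hs => ?_) k
        have : ¬ bd (i + 1) j s < 1 := fun h => hg ⟨s, hs, h⟩
        simp only [ee, if_neg this]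
        congr 1
        ring
  have cat : ∀ j ≤ J, Al x T (R (j * 2 ^ I))
      fun s => log M₀ + ∑ l ∈ range j, (κ * 2 ^ I + L + ee L ex bd I l s) := by
    intro j
    induction j with
    | zero =>
      intro _ a b hb' hd
      rw [zero_mul] at hd
      simp only [range_zero, sum_empty, add_zero, sum_const, Nat.card_Ico, nsmul_eq_mul]
      rw [exp_neg, exp_log hM, ← div_eq_mul_inv, div_le_one hM]
      exact h0 a b hb' hd
    | succ j ih =>
      intro hj
      have := key I le_rfl j (by simpa using hj) _ (ih (by omega))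
      simpa only [sum_range_succ, add_assoc] using this
  have k := cat J le_rfl 0 (T + 1) le_rfl h3
  have k2 : ∑ _s ∈ Ico 0 (T + 1), exp (-(log M₀ + (J * (κ * 2 ^ I + L) + B))) ≤ 1 := by
    refine le_trans (sum_le_sum fun s hs => exp_le_exp.2 ?_) k
    have a1 := sum_ee hL hx hb I J s I le_rfl
    have a2 := h4 s (by have := (mem_Ico.1 hs).2; omega)
    rw [Nat.sub_self, pow_zero, mul_one] at a1
    beta_reduce
    rw [sum_add_distrib, sum_const, card_range, nsmul_eq_mul]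
    linarith
  rw [sum_const, Nat.card_Ico, nsmul_eq_mul, exp_neg, exp_add, exp_log hM, ← div_eq_mul_inv,
    div_le_one (by positivity)] at k2
  simpa using k2

end Pool.Agent.GU
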