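import Pool.Agent.Lib.MP_438f30_pr.U.St2
import Pool.Agent.Lib.MP_438f30_pr.U.Cnt

/-! Few scales have bad sites. -/

namespace Pool.Agent.GU

open MeasureTheory Real Finset Pool.Agent.Lib.MP_a0a493_pr Pool.Agent.GL
open scoped InnerProductSpace

section
variable {Ω H : Type} [NormedAddCommGroup H] [InnerProductSpace ℝ H]

theorem en_measX (W : H →ₗ[ℝ] (Ω → ℝ)) (a : ℕ → E 2 → H) (ξ : ℝ) (b : ℕ) (y : Z2) {K : Set H}
    (h : ∀ b' ≤ b, a b' (pt y) ∈ K) : Measurable[FK W K] fun ω => X W a ξ b ω y := by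
  have e : (fun ω => X W a ξ b ω y) = fun ω => ξ * ∑ b' ∈ range (b + 1), W (a b' (pt y)) ω := by
    funext ω
    simp only [X, A, map_smul, map_sum, Pi.smul_apply, Finset.sum_apply, smul_eq_mul]
  rw [e]
  exact (Finset.measurable_sum (range (b + 1)) fun b' hb =>
    meas_FK W (h b' (Nat.lt_succ_iff.1 (mem_range.1 hb)))).const_mul ξ

theorem en_measNI (ml : ML) (m : MeasurableSpace Ω) (F : Ω → Z2 → ℝ) (μ : ℕ → ℝ) (k i : ℕ)
    (D : Set Z2) (h : ∀ v ∈ D, ∀ y, Near (2 ^ (k + 16) + 1) v y → Measurable[m] fun ω => F ω y) :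
    MeasurableSet[m] {ω | NI (F ω) μ k i D} := by
  have e : {ω | NI (F ω) μ k i D} = ⋂ (j : ℕ) (_ : j + i ≤ k) (q : Z2) (_ : up j q ∈ D),
      ({ω | LL (F ω) j (up j q) (μ j / (3 * (10 / 9) ^ (k - j)))}ᶜ ∩ ⋂ e : Fin 2,
        {ω | Tr (F ω) (Q (up j q) (2 ^ (16 + j + (k - j) / 2) + 1)) (up j q)
          (up j q + Pi.single e (2 ^ j)) (900 * μ j * (10 / 9) ^ (k - j))}) := by
    ext ω
    simp only [NI, Nn, Set.mem_iInter, Set.mem_inter_iff, Set.mem_compl_iff, Set.mem_ofPred_eq]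
  rw [e]
  refine .iInter fun j => .iInter fun hj => .iInter fun q => .iInter fun hq => .inter
    (.compl (ml.le m F _ _ _ _ _ fun y hy => h _ hq y (near_mono hy ?_)))
    (.iInter fun e => ml.tr m F _ _ _ _ fun y hy => h _ hq y (near_mono hy ?_))
  · have := p2_le (show j + 2 ≤ k + 16 by omega)
    rw [pow_add] at this
    omega
  · have := p2_le (show 16 + j + (k - j) / 2 ≤ k + 16 by omega)
    omega

end

theorem en : sEN := by
  intro Ω H _ _ _ P _ W a C0 ξ η h μ κ J x z hN hκ hη hx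
  have η0 := h.eta
  refine cnt Ω P H W h.iso
    (fun j => {v | ∃ b ≤ j * κ, ∃ y, ¬ Near (2 ^ (j * κ)) z y ∧
      Near (5 * 2 ^ (j * κ + (κ + 20))) z y ∧ v = a b (pt y)})
    (fun j => {v | ∃ b ≤ j * κ, ∃ y, Near (5 * 2 ^ (j * κ + (κ + 20))) z y ∧ v = a b (pt y)})
    (fun j m => {ω | NI (X W a ξ (j * κ) ω) μ (j * κ) m (Ann z (j * κ) (κ + 20))})
    (η / 2) x J (by linarith) hx ?_ ?_ ?_ ?_ ?_
  · rintro j v ⟨b, hb, y, -, h1, h2⟩
    exact ⟨b, hb, y, h1, h2⟩
  · rintro j j' hj v ⟨b, hb, y, h1, h2⟩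
    have k := Nat.mul_le_mul_right κ hj
    have := p2_le (show j * κ + (κ + 20) ≤ j' * κ + (κ + 20) by omega)
    exact ⟨b, hb.trans k, y, near_mono h1 (by omega), h2⟩
  · rintro j j' hj _ ⟨b, hb, y, h1, -, rfl⟩ _ ⟨b', hb', y', h2, rfl⟩
    by_cases e : b = b'
    · subst e
      have k := Nat.mul_le_mul_right κ hj
      rw [add_mul] at k
      obtain ⟨t, ht⟩ : ∃ t, t = j' * κ + (κ + 20) := ⟨_, rfl⟩
      rw [← ht] at h2
      have a1 := p2_le (show t + (C0 + 4) ≤ j * κ by omega)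
      have a2 := p2_le (show b ≤ t by omega)
      have a3 : (C0 : ℤ) < 2 ^ C0 := by exact_mod_cast Nat.lt_two_pow_self (n := C0)
      have a4 := p2 t
      have a5 : (0 : ℤ) ≤ C0 := Int.natCast_nonneg _
      have a6 : (C0 : ℤ) * 2 ^ b + 5 * 2 ^ t ≤ 2 ^ (j * κ) := by
        rw [pow_add, pow_add] at a1
        nlinarith [mul_le_mul_of_nonneg_left a2 a5, mul_le_mul_of_nonneg_left a3.le a4.le,
          mul_le_mul_of_nonneg_left (show (1 : ℤ) ≤ 2 ^ C0 by omega) a4.le]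
      obtain ⟨i, hi⟩ := not_forall.1 h1
      refine h.bf.far b _ _ (le_trans ?_ (abs_le_norm2 _ i))
      simp only [PiLp.sub_apply, pt_apply]
      have a7 : (C0 : ℤ) * 2 ^ b ≤ |y i - y' i| := by
        have := abs_sub_le (z i) (y' i) (y i)
        rw [abs_sub_comm (y' i)] at this
        linarith [h2 i, not_le.1 hi]
      exact_mod_cast a7
    · exact h.bf.orth b b' e _ _
  · intro j m
    refine en_measNI h.ml _ _ μ _ _ _ fun v hv y hy => en_measX W a ξ _ y fun b hb =>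
      ⟨b, hb, y, fun k => hv.2 (near_tri k hy.symm ?_), near_tri hv.1 hy ?_, rfl⟩
    · have := p2 (j * κ)
      rw [pow_add, pow_add]
      omega
    · have a1 := p2_le (show j * κ + 16 + 1 ≤ j * κ + (κ + 20) by omega)
      have a2 := p2 (j * κ + 16)
      rw [pow_succ] at a1
      omega
  · intro j _ m
    refine (prob_NI (F := X W a ξ (j * κ)) (i := m) (by linarith)
      (fun i hi => hN _ i (by omega)) z (κ + 22) (D := Ann z (j * κ) (κ + 20))
      fun v hv => near_mono hv.1 (le_of_eq ?_)).trans ?_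
    · rw [show j * κ + (κ + 22) = j * κ + (κ + 20) + 2 by omega, pow_add _ _ 2]
      ring
    · have a1 : (4 : ℝ) ≤ exp (3 / 2) := by
        rw [show (3 / 2 : ℝ) = 1 + 1 / 2 by norm_num, exp_add]
        nlinarith [exp_one_gt_d9, add_one_le_exp (1 / 2 : ℝ)]
      have a2 : (4 : ℝ) ^ (κ + 25) ≤ exp (η / 2) := by
        refine (pow_le_pow_left₀ (by norm_num) a1 _).trans ?_
        rw [← exp_nat_mul]
        refine exp_le_exp.2 ?_
        push_cast
        linarith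
      have a3 : (60 : ℝ) * 4 ^ (κ + 22) ≤ exp (η / 2) := by
        rw [show κ + 25 = κ + 22 + 3 by omega, pow_add _ _ 3] at a2
        have : (0 : ℝ) < 4 ^ (κ + 22) := by positivity
        linarith
      refine (mul_le_mul_of_nonneg_right a3 (exp_pos _).le).trans ?_
      rw [← exp_add]
      refine exp_le_exp.2 ?_
      nlinarith [mul_nonneg (show 0 ≤ η / 2 - 2 by linarith) (Nat.cast_nonneg (α := ℝ) m)]

end Pool.Agent.GU
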