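import Pool.Agent.Lib.MP_438f30_pr.U.St2

/-! Growth of the typical costs. -/

namespace Pool.Agent.GU

open MeasureTheory Real Finset Pool.Agent.Lib.MP_a0a493_pr Pool.Agent.GL

theorem gr : sGR := by
  intro Ω H _ _ _ P _ W a C0 ξ η h μ b hM hN j hj
  refine ⟨(hM j).1, ?_⟩
  rcases hj.eq_or_lt with rfl | hj
  · rw [Nat.sub_self, pow_zero]
    linarith [(hM j).1]
  have hη := h.eta
  have k1 := prob_NI (P := P) (F := X W a ξ b) (μ := μ) (k := b) (i := 1) (η := η) (by linarith)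
    (fun j hj => hN j (by omega)) 0 3 subset_rfl
  have k2 : 60 * 4 ^ 3 * exp (-η - (η - 2) * (1 : ℕ)) < 1 / 2 := by
    have e1 : exp (-η - (η - 2) * (1 : ℕ)) ≤ exp (-198) := exp_le_exp.2 (by push_cast; linarith)
    have e2 : exp (-198 : ℝ) ≤ 10000⁻¹ := by
      rw [exp_neg]
      exact inv_anti₀ (by norm_num)
        (le_trans (by norm_num) (quadratic_le_exp_of_nonneg (by norm_num)))
    exact (mul_le_mul_of_nonneg_left (e1.trans e2) (by norm_num)).trans_lt (by norm_num)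
  obtain ⟨ω, ⟨u, u', h1, h2, S, -, h3, h4⟩, hI⟩ : ∃ ω, LL (X W a ξ b ω) b 0 (μ b) ∧
      NI (X W a ξ b ω) μ b 1 (Q 0 (2 ^ (b + 3))) := by
    by_contra! n
    exact ((((hM b).2 0).1.trans (pmono n)).trans k1).not_gt k2
  obtain ⟨n, rfl⟩ := Nat.exists_eq_add_of_lt hj
  have c := p2 j
  have c' := p2 n
  have e : (2 : ℤ) ^ j * (3 * 2 ^ (n + 1) : ℕ) = 3 * 2 ^ (j + n + 1) := by push_cast; ring
  have e' := p2_le (show j ≤ j + n + 1 by omega)
  have h5 : ¬ Near (4 * 2 ^ (j + n + 1)) 0 u' := h2.elim (fun k k' => by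
    have := k' 0
    simp only [k, zero_add, Pi.zero_apply, zero_sub, abs_neg, Matrix.cons_val_zero] at this
    have := le_abs_self (5 * 2 ^ (j + n + 1) : ℤ)
    omega) id
  have k := (cross (hI.nc (j := j) (by omega)) (hM j).1 h3 (l := 3 * 2 ^ (n + 1))
    (by have := Nat.one_le_two_pow (n := n); omega)
    (fun k => h5 (near_tri h1 k (by omega))) fun y hy => near_tri h1 hy (by
      rw [mul_add, e, pow_add _ _ 3]
      omega)).trans h4
  rw [show j + n + 1 - j = n + 1 by omega] at k ⊢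
  rw [div_le_iff₀ (by positivity), show (10 / 9 : ℝ) = 2 * (5 / 9) by norm_num, mul_pow] at k
  push_cast at k
  refine le_of_mul_le_mul_left (k.trans_eq (by ring)) (by positivity)

end Pool.Agent.GU
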