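import Pool.Agent.Lib.MP_438f30_pr.U.St2
import Pool.Agent.Lib.MP_438f30_pr.U.Ws

/-! Geodesics exist and stay in a box. -/

namespace Pool.Agent.GU

open MeasureTheory Real Finset Filter Topology Pool.Agent.Lib.MP_a0a493_pr Pool.Agent.GL

namespace Root

theorem num {m : ℕ} (hm : 60 ≤ m) :
    29700 * (exp (m / 5) * ((10 / 9) ^ m * (10 / 9) ^ m)) < (2 : ℝ) ^ m := by
  have a : exp (1 / 5 : ℝ) ≤ 5 / 4 := by
    have := add_one_le_exp (-(1 / 5) : ℝ)
    rw [exp_neg, ← one_div, le_div_iff₀ (exp_pos _)] at this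
    linarith
  have b : exp (m / 5 : ℝ) ≤ (5 / 4) ^ m := by
    rw [show (m / 5 : ℝ) = m * (1 / 5) by ring, exp_nat_mul]
    exact pow_le_pow_left₀ (exp_pos _).le a m
  have c : (29700 : ℝ) < (162 / 125) ^ m :=
    lt_of_lt_of_le (by norm_num) (pow_le_pow_right₀ (by norm_num) hm)
  have d : (2 : ℝ) ^ m = (162 / 125) ^ m * ((5 / 4) ^ m * ((10 / 9) ^ m * (10 / 9) ^ m)) := by
    rw [← mul_pow, ← mul_pow, ← mul_pow]; norm_num
  rw [d]
  exact mul_lt_mul c (mul_le_mul_of_nonneg_right b (by positivity)) (by positivity)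
    (by positivity)

theorem det {f F : Z2 → ℝ} {μ : ℕ → ℝ} {n m : ℕ} {g : ℝ} (μ0 : 0 < μ n) (hm : 60 ≤ m)
    (h1 : ∀ v, Near (2 ^ (n + m + 1)) 0 v → |f v - F v - g| ≤ m / 10)
    (h2 : ∀ q, Near (2 ^ (n + (m + 1))) 0 (up n q) → Nn F μ (n + m) n (up n q)) :
    (∃ T x, Geo n f T x) ∧ ∀ T x, Geo n f T x → ∀ s ≤ T, Near (2 ^ (n + m)) 0 (x s) := by
  have p1 := p2 n
  have p3 := p2 (n + m)
  have p4 : (2 : ℤ) ^ (n + m + 1) = 2 * 2 ^ (n + m) := by ring
  have p5 : 8 * (2 : ℤ) ^ n ≤ 2 ^ (n + m) := by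
    have := p2_le (show n + 3 ≤ n + m by omega)
    rw [pow_add] at this
    omega
  refine ws.root n f (2 ^ (n + m)) (exp (g + m / 10) * (900 * μ n * (10 / 9) ^ m)) (by omega) ?_ ?_
  · have e0 : up n 0 = 0 := smul_zero _
    have a := (h2 0 (by rw [e0]; exact near_refl (p2 _).le _)).2 0
    have e : (0 : Z2) + Pi.single 0 (2 ^ n) = ![2 ^ n, 0] := by
      funext i; fin_cases i <;> simp
    rw [e0, e, Nat.add_sub_cancel_left] at a
    refine (a.cmp fun v hv => ?_).mono (Set.subset_univ _) le_rfl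
    have b := p2_le (show 16 + n + m / 2 ≤ n + m by omega)
    have := (abs_le.1 (h1 v (near_mono hv (by omega)))).2
    linarith
  · rintro u hu ⟨S, s1, s2, s3⟩
    have a := cr (f := F) (j := n) (l := 2 ^ (n + m)) (m := μ n / (3 * (10 / 9) ^ m)) s2 (by omega)
      (fun k => hu (near_mono k (by omega))) (by positivity) fun q hq => by
        have := (h2 q (near_mono hq (by rw [← add_assoc]; omega))).1
        rwa [Nat.add_sub_cancel_left] at this
    have b := cs_le (f := F) (f' := f) (S := S) (c := m / 10 - g) fun v hv => by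
      have := (abs_le.1 (h1 v (near_mono (s1 hv) (by omega)))).1
      linarith
    have c := (a.trans b).trans (mul_le_mul_of_nonneg_left s3 (exp_pos _).le)
    rw [← mul_assoc, ← exp_add, show (m / 10 - g + (g + m / 10) : ℝ) = m / 5 by ring] at c
    have e : (((2 : ℤ) ^ (n + m) : ℤ) : ℝ) / (11 * 2 ^ n) * (μ n / (3 * (10 / 9) ^ m)) =
        2 ^ m * μ n / (33 * (10 / 9) ^ m) := by
      push_cast
      rw [pow_add]
      field_simp
      ring
    rw [e, div_le_iff₀ (by positivity)] at c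
    have d := mul_lt_mul_of_pos_right (num hm) μ0
    nlinarith

variable {H : Type} [NormedAddCommGroup H] [InnerProductSpace ℝ H] {a : ℕ → E 2 → H} {C0 : ℕ}

theorem lip (bf : BF a C0) (k m : ℕ) (x y : E 2) :
    ‖A a (k + m) x - A a k x - (A a (k + m) y - A a k y)‖ ≤
      C0 * ‖x - y‖ / 2 ^ k - C0 * ‖x - y‖ / 2 ^ (k + m) := by
  induction m with
  | zero => simp
  | succ m ih =>
    have e : ∀ z, A a (k + (m + 1)) z = A a (k + m) z + a (k + m + 1) z := fun z =>
      sum_range_succ _ _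
    have e2 : A a (k + (m + 1)) x - A a k x - (A a (k + (m + 1)) y - A a k y) =
        A a (k + m) x - A a k x - (A a (k + m) y - A a k y) +
          (a (k + m + 1) x - a (k + m + 1) y) := by
      rw [e, e]; abel
    have e3 : (C0 : ℝ) * ‖x - y‖ / 2 ^ (k + m) = 2 * (C0 * ‖x - y‖ / 2 ^ (k + m + 1)) := by
      rw [pow_succ]; field_simp
    have := bf.lip (k + m + 1) (by omega) x y
    rw [e2, ← add_assoc]
    linarith [norm_add_le (A a (k + m) x - A a k x - (A a (k + m) y - A a k y))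
      (a (k + m + 1) x - a (k + m + 1) y)]

end Root

theorem root : sRoot := by
  intro Ω H _ _ _ P _ W a C0 ξ η h μ n m N c μ0 hN hm hk hc
  obtain ⟨r, rfl⟩ := Nat.exists_eq_add_of_le hk
  have hη := h.eta
  have ξ0 := h.xi
  have C1 : (1 : ℝ) ≤ C0 := Nat.one_le_cast.2 h.bf.one
  have m1 : (60 : ℝ) ≤ m := by exact_mod_cast hm
  have sm : ξ * C0 ≤ 1 / 10 ^ 6 := by
    refine (pow_le_pow_iff_left₀ (by positivity) (by positivity) two_ne_zero).1 ?_
    have a1 : (ξ * C0) ^ 2 * 1 ≤ (ξ * C0) ^ 2 * (C0 * η) :=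
      mul_le_mul_of_nonneg_left (by nlinarith) (sq_nonneg _)
    nlinarith [h.small]
  have o := h.osc Ω P H W h.iso
    (fun v => ξ • (A a (n + m + r) (pt v) - A a (n + m) (pt v) + c v)) (ξ * C0 / 2 ^ (n + m)) m
    (n + m + 1) 0 (by positivity) (by positivity) fun v w => by
      have a1 := Root.lip h.bf (n + m) r (pt v) (pt w)
      have a2 := hc v w
      rw [← smul_sub, norm_smul, Real.norm_eq_abs, abs_of_pos ξ0, mul_div_assoc, mul_assoc]
      refine mul_le_mul_of_nonneg_left ?_ ξ0.le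
      rw [add_sub_add_comm]
      refine (norm_add_le _ _).trans ?_
      rw [div_mul_eq_mul_div]
      linarith
  have g := prob_grid P n (m + 1) 0 (fun q ω => ¬ Nn (X W a ξ (n + m) ω) μ (n + m) n (up n q))
    fun q => hN (up n q)
  refine (pmono ?_).trans ((measureReal_union_le _ _).trans
    ((add_le_add (o.trans ?_) (g.trans ?_)).trans_eq (two_mul _).symm))
  · intro ω hω
    by_contra k
    simp only [Set.mem_union, Set.mem_ofPred_eq, not_or, not_exists, not_and, not_lt, not_not] at k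
    refine hω (Root.det (F := X W a ξ (n + m) ω)
      (g := W (ξ • (A a (n + m + r) (pt 0) - A a (n + m) (pt 0) + c 0)) ω) μ0 hm
      (fun v hv => ?_) k.2)
    have e : W (ξ • (A a (n + m + r) (pt v) + c v)) ω - X W a ξ (n + m) ω v =
        W (ξ • (A a (n + m + r) (pt v) - A a (n + m) (pt v) + c v)) ω := by
      simp only [X, map_smul, map_add, map_sub, Pi.smul_apply, Pi.add_apply, Pi.sub_apply,
        smul_eq_mul]
      ring
    rw [e]
    refine (k.1 v hv).trans ?_
    have e2 : ξ * C0 / 2 ^ (n + m) * 2 ^ (n + m + 1) = 2 * (ξ * C0) := by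
      rw [pow_succ]; field_simp
    rw [e2]
    nlinarith
  · exact exp_le_exp.2 (by nlinarith)
  · rw [Nat.add_sub_cancel_left]
    have a1 : (4 : ℝ) ≤ exp 2 := by
      have h2 : exp (2 : ℝ) = exp 1 * exp 1 := by rw [← exp_add]; norm_num
      nlinarith [exp_one_gt_d9]
    have a2 : (4 : ℝ) ^ m ≤ exp (m * 2) := by
      rw [exp_nat_mul]
      exact pow_le_pow_left₀ (by norm_num) a1 m
    have a3 : (100 : ℝ) ≤ exp η := by linarith [add_one_le_exp η]
    calc _ = 100 * 4 ^ m * exp (-(η * (1 + m))) := by rw [pow_succ]; ring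
      _ ≤ exp η * exp (m * 2) * exp (-(η * (1 + m))) := by gcongr
      _ ≤ _ := by
        rw [← exp_add, ← exp_add]
        exact exp_le_exp.2 (by nlinarith)

end Pool.Agent.GU
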