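import Pool.Agent.Lib.MP_438f30_pr.U.St2

/-! Grid edges of the first scales are cheap. -/

namespace Pool.Agent.GU

open MeasureTheory Real Finset Pool.Agent.Lib.MP_a0a493_pr Pool.Agent.GL

namespace Rs0

variable {f : Z2 → ℝ} {v : Z2}

theorem near_single {R n : ℤ} (e : Fin 2) (h0 : 0 ≤ n) (h : n ≤ R) :
    Near R v (v + Pi.single e n) := fun i => by
  by_cases k : i = e
  · subst k
    simpa [abs_of_nonneg h0] using h
  · simpa [k] using h0.trans h

theorem one {p : Z2} (h : f p ≤ 1) : cs f {p} ≤ 3 := by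
  have := exp_le_exp.2 h
  have := exp_one_lt_d9
  simp only [cs, sum_singleton]
  linarith

/-- a straight segment -/
theorem line {R : ℤ} (e : Fin 2) (h : ∀ y, Near R v y → f y ≤ 1) (n : ℕ) (hn : (n : ℤ) ≤ R) :
    Tr f Set.univ v (v + Pi.single e (n : ℤ)) ((2 * n + 1) * 3) := by
  induction n with
  | zero =>
    refine ⟨{v}, Set.subset_univ _, ?_, ?_⟩
    · simpa using Cn.refl (S := ↑({v} : Finset Z2)) (p := v) (by simp)
    · simpa using one (h v (near_refl (by simpa using hn) v))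
  | succ n ih =>
    have n0 : (0 : ℤ) ≤ n := Int.natCast_nonneg n
    push_cast at hn
    have e1 : v + Pi.single e ((n + 1 : ℕ) : ℤ) = v + Pi.single e (n : ℤ) + Pi.single e 1 := by
      rw [add_assoc, ← Pi.single_add]
      push_cast
      rfl
    have a := one (h _ (near_single e n0 (by omega)))
    have b := one (h _ (near_single (n := ((n + 1 : ℕ) : ℤ)) e (Int.natCast_nonneg _)
      (by push_cast; omega)))
    have s : Tr f Set.univ (v + Pi.single e (n : ℤ)) (v + Pi.single e ((n + 1 : ℕ) : ℤ)) 6 := by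
      refine ⟨{v + Pi.single e (n : ℤ)} ∪ {v + Pi.single e ((n + 1 : ℕ) : ℤ)}, Set.subset_univ _,
        (Cn.refl (by simp)).tail (by simp) (e1 ▸ adj_single _ e), (cs_union _ _).trans ?_⟩
      linarith
    refine ((ih (by omega)).trans s).mono subset_rfl (le_of_eq ?_)
    push_cast
    ring

/-- a crossing has many sites -/
theorem card_ge {S : Finset Z2} {u u' : Z2} (h : Cn ↑S u u') {l : ℕ} (hu : ¬ Near (l - 1) u u') :
    l ≤ S.card := by
  have ex : ∀ n : ℕ, n < l → ∃ t, Cn ↑S u t ∧ Near n u t ∧ ¬ Near (n - 1) u t := fun n hn =>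
    h.ivt (Int.natCast_nonneg n) fun k => hu (near_mono k (by omega))
  choose! t t1 t2 t3 using ex
  rw [← card_range l]
  refine card_le_card_of_injOn t (fun n hn => (t1 n (by simpa using hn)).mem) ?_
  intro n hn n' hn' k
  have a : n < l := by simpa using hn
  have b : n' < l := by simpa using hn'
  by_contra ne
  rcases lt_or_gt_of_ne ne with c | c
  · exact t3 n' b (near_mono (k ▸ t2 n a) (by omega))
  · exact t3 n a (near_mono (k ▸ t2 n' b) (by omega))

theorem low {k : ℕ} {x : ℝ} (h : ∀ y, Near (4 * 2 ^ k + 1) v y → -1 ≤ f y) (hl : LL f k v x) :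
    2 ^ k ≤ x := by
  obtain ⟨u, u', h1, h2, S, h3, h4, h5⟩ := hl
  have c := p2 k
  have a : 3 * 2 ^ k ≤ S.card := card_ge h4 fun k1 => by
    have k2 : Near (4 * 2 ^ k) v u' := near_tri h1 k1 (by push_cast; omega)
    rcases h2 with rfl | h2
    · have := abs_le.1 (k2 0)
      simp only [Pi.add_apply, Matrix.cons_val_zero] at this
      omega
    · exact h2 k2
  have b : S.card • (1 / 3 : ℝ) ≤ cs f S := card_nsmul_le_sum _ _ _ fun y hy => by
    have := exp_le_exp.2 (h y (h3 hy))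
    have := exp_neg_one_gt_d9
    linarith
  have a' : (3 : ℝ) * 2 ^ k ≤ S.card := by exact_mod_cast a
  rw [nsmul_eq_mul] at b
  linarith

theorem tail {Ω H : Type} [MeasurableSpace Ω] [NormedAddCommGroup H] [InnerProductSpace ℝ H]
    {P : Measure Ω} [IsProbabilityMeasure P] {W : H →ₗ[ℝ] (Ω → ℝ)} (h : Iso P W) {g : H}
    (hg : ‖g‖ ^ 2 ≤ 1 / 20000) : P.real {ω | 1 ≤ |W g ω|} ≤ 1 / 2 ^ 198 := by
  have a := h.tail hg (t := 200) (by norm_num) 1
  have b := h.tail (v := -g) (V := 1 / 20000) (by rwa [norm_neg]) (t := 200) (by norm_num) 1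
  have c : exp (-200 * 1 + 1 / 20000 * 200 ^ 2 / 2) ≤ 1 / 2 ^ 199 := by
    have d : (2 : ℝ) ^ 199 ≤ exp 1 ^ 199 :=
      pow_le_pow_left₀ (by norm_num) (by linarith [add_one_le_exp (1 : ℝ)]) _
    rw [← exp_nat_mul] at d
    rw [show (-200 * 1 + 1 / 20000 * 200 ^ 2 / 2 : ℝ) = -((199 : ℕ) * 1) by norm_num, exp_neg,
      one_div]
    exact inv_anti₀ (by positivity) d
  have s : {ω | 1 ≤ |W g ω|} ⊆ {ω | 1 ≤ W g ω} ∪ {ω | 1 ≤ W (-g) ω} := fun ω hω => by
    simpa [le_abs] using hω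
  have := (pmono (P := P) s).trans (measureReal_union_le _ _)
  have e : (1 : ℝ) / 2 ^ 198 = 1 / 2 ^ 199 + 1 / 2 ^ 199 := by norm_num
  linarith

end Rs0

open Rs0 in
theorem rs0 : sRS0 := by
  intro Ω H _ _ _ P _ W a C0 ξ η h μ k hM hk v e
  have c1 : (1 : ℝ) ≤ C0 := by exact_mod_cast h.bf.one
  have x0 := h.xi
  have sm : (ξ * C0) ^ 2 ≤ 1 / 10 ^ 14 := by
    have h1 := h.small
    have h2 := h.eta
    have h3 : (100 : ℝ) ≤ C0 * η := by nlinarith
    have h4 : ξ ^ 2 * C0 ^ 3 * η = (ξ * C0) ^ 2 * (C0 * η) := by ring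
    nlinarith [sq_nonneg (ξ * C0)]
  have nm : ∀ y, ‖ξ • A a k (pt y)‖ ^ 2 ≤ 1 / 20000 := fun y => by
    have h1 : ‖A a k (pt y)‖ ≤ 60 * C0 := by
      refine (norm_sum_le _ _).trans ((sum_le_card_nsmul _ _ _ fun b _ => h.bf.nrm b _).trans ?_)
      rw [card_range, nsmul_eq_mul]
      exact mul_le_mul_of_nonneg_right (by exact_mod_cast hk) (by linarith)
    have h2 : ‖ξ • A a k (pt y)‖ ≤ 60 * (ξ * C0) := by
      rw [norm_smul, Real.norm_of_nonneg x0.le]
      nlinarith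
    have := pow_le_pow_left₀ (norm_nonneg _) h2 2
    nlinarith
  have bad : P.real {ω | ∃ y ∈ bx v (2 ^ 62), 1 ≤ |X W a ξ k ω y|} ≤ 1 / 4 := by
    refine (prob_fin P _ (fun y ω => 1 ≤ |X W a ξ k ω y|) fun y _ => tail h.iso (nm y)).trans ?_
    rw [card_bx]
    norm_num
  have k2 : (2 : ℤ) ^ k ≤ 2 ^ 59 := p2_le (by omega)
  have good : ∀ ω, ω ∉ {ω | ∃ y ∈ bx v (2 ^ 62), 1 ≤ |X W a ξ k ω y|} →
      ∀ y, Near (4 * 2 ^ k + 1) v y → |X W a ξ k ω y| ≤ 1 := fun ω hω y hy =>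
    le_of_not_ge fun k1 => hω ⟨y, mem_bx.2 (near_mono hy (by push_cast; omega)), k1⟩
  have lo : 2 ^ k ≤ μ k := by
    by_contra k1
    have := (hM.2 v).1.trans (pmono (t := {ω | ∃ y ∈ bx v (2 ^ 62), 1 ≤ |X W a ξ k ω y|})
      fun ω hω => by_contra fun k3 => k1 (low (fun y hy => (abs_le.1 (good ω k3 y hy)).1) hω))
    linarith
  have cov : Set.univ ⊆ {ω | Tr (X W a ξ k ω) Set.univ v (v + Pi.single e (2 ^ k)) (300 * μ k)} ∪
      {ω | ∃ y ∈ bx v (2 ^ 62), 1 ≤ |X W a ξ k ω y|} := fun ω _ => by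
    refine or_iff_not_imp_right.2 fun k3 => ?_
    have := line e (fun y hy => (abs_le.1 (good ω k3 y hy)).2) (2 ^ k)
      (by have := p2 k; push_cast; omega)
    push_cast at this
    have k4 : (1 : ℝ) ≤ 2 ^ k := one_le_pow₀ one_le_two
    exact this.mono subset_rfl (by linarith)
  have := (pmono (P := P) cov).trans (measureReal_union_le _ _)
  rw [probReal_univ] at this
  exact le_of_add_le_add_right (le_trans (by linarith) this)

end Pool.Agent.GU
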