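import Pool.Agent.Lib.MP_438f30_pr.U.St2

/-! The lower tail of the crossing cost. -/

namespace Pool.Agent.GU

open MeasureTheory Real Finset Pool.Agent.Lib.MP_a0a493_pr Pool.Agent.GL

theorem tl : sTL := by
  intro Ω H _ _ _ P _ W a C0 ξ η h μ k hM hN hG v i
  have hη := h.eta
  have hk := p2 k
  have hi : (0 : ℝ) ≤ i := i.cast_nonneg
  have key := h.con (d := 2) hN hG (v := v) (w := v + ![5 * 2 ^ k, 0]) (ρ := 2 ^ k)
    (R := 4 * 2 ^ k) hk.le (by omega) (by rw [pow_add]; omega)
    (fun c => by
      have := c 0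
      simp only [Pi.add_apply, Matrix.cons_val_zero, sub_add_cancel_left, abs_neg] at this
      have := (abs_le.1 this).2
      omega)
    (x := μ k * exp (-1 - i / 20)) (mul_pos hM.1 (exp_pos _)) (1 + i / 20 - log 2)
  have e : μ k * exp (-1 - i / 20) * exp (1 + i / 20 - log 2) = μ k / 2 := by
    rw [mul_assoc, ← exp_add, show -1 - (i : ℝ) / 20 + (1 + i / 20 - log 2) = -log 2 by ring,
      exp_neg, exp_log two_pos, div_eq_mul_inv]
  rw [e] at key
  have h2 := mul_le_mul_of_nonneg_right (hM.2 v).2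
    (measureReal_nonneg (μ := P) (s := {ω | LL (X W a ξ k ω) k v (μ k * exp (-1 - i / 20))}))
  have h3 := h2.trans key
  have h4 : (64000 : ℝ) ≤ exp (η + η + η) := by
    have b : (101 : ℝ) ≤ exp η := by linarith [add_one_le_exp η]
    rw [exp_add, exp_add]
    have : (101 : ℝ) * 101 ≤ exp η * exp η := mul_le_mul b b (by norm_num) (exp_pos _).le
    have := mul_le_mul this b (by norm_num) (by positivity)
    linarith
  have h5 := mul_le_mul_of_nonneg_right h4
    (exp_pos (1.6 * η - 80 * η * (1 + i / 20 - log 2))).le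
  rw [← exp_add] at h5
  have h6 : exp (η + η + η + (1.6 * η - 80 * η * (1 + i / 20 - log 2))) ≤
      exp (-(3 * η * (1 + i))) := by
    refine exp_le_exp.2 ?_
    have := mul_le_mul_of_nonneg_left log_two_lt_d9.le (show 0 ≤ η by linarith)
    have := mul_nonneg (show 0 ≤ η by linarith) hi
    nlinarith
  have h7 := h5.trans h6
  linarith

end Pool.Agent.GU
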