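import Pool.Agent.Lib.MP_438f30_pr.U.St2

/-! The upper tail of the cost of a grid edge. -/

namespace Pool.Agent.GU

open MeasureTheory Real Finset Pool.Agent.Lib.MP_a0a493_pr Pool.Agent.GL

namespace Tu

theorem two_pow_le (n : ℕ) : (2 : ℝ) ^ n ≤ exp n := by
  have h : (2 : ℝ) ≤ exp 1 := by linarith [add_one_le_exp (1 : ℝ)]
  calc (2 : ℝ) ^ n ≤ exp 1 ^ n := pow_le_pow_left₀ (by norm_num) h n
    _ = exp n := by rw [← exp_nat_mul, mul_one]

theorem e_le : exp 1 ≤ (3 : ℝ) := by linarith [exp_one_lt_d9]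

theorem four_pow (i : ℕ) : (4 : ℝ) ^ (16 + i / 2) ≤ exp (32 + i) := by
  have a : (4 : ℝ) ^ (16 + i / 2) = 2 ^ (2 * (16 + i / 2)) := by rw [pow_mul]; norm_num
  have b : (2 : ℝ) ^ (2 * (16 + i / 2)) ≤ 2 ^ (32 + i) := pow_le_pow_right₀ one_le_two (by omega)
  have c := two_pow_le (32 + i)
  push_cast at c
  linarith

/-- the exit is too expensive -/
theorem exit (i : ℕ) : 3300 * exp (2 + (i : ℝ) / 10) < 2 ^ (16 + i / 2) := by
  obtain ⟨q, hq⟩ : ∃ q, q = i / 2 := ⟨_, rfl⟩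
  rw [← hq]
  have h1 : (i : ℝ) ≤ 2 * q + 1 := by
    have : i ≤ 2 * q + 1 := by omega
    exact_mod_cast this
  have h2 : exp (1 / 2 : ℝ) ≤ 2 := by
    have a : exp (1 / 2 : ℝ) * exp (1 / 2 : ℝ) = exp 1 := by rw [← exp_add]; norm_num
    nlinarith [e_le, exp_pos (1 / 2 : ℝ)]
  have h3 : exp ((q : ℝ) * (1 / 2)) ≤ 2 ^ q := by
    rw [exp_nat_mul]
    exact pow_le_pow_left₀ (exp_pos _).le h2 q
  have h4 : exp (2 + (i : ℝ) / 10) ≤ exp 1 * exp 1 * exp (1 / 2) * exp (q * (1 / 2)) := by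
    rw [← exp_add, ← exp_add, ← exp_add]
    have : (0 : ℝ) ≤ q := Nat.cast_nonneg q
    exact exp_le_exp.2 (by linarith)
  have h5 : exp 1 * exp 1 * exp (1 / 2 : ℝ) ≤ 3 * 3 * 2 :=
    mul_le_mul (mul_le_mul e_le e_le (exp_pos _).le (by norm_num)) h2 (exp_pos _).le (by norm_num)
  have h6 : exp 1 * exp 1 * exp (1 / 2) * exp ((q : ℝ) * (1 / 2)) ≤ 3 * 3 * 2 * 2 ^ q :=
    mul_le_mul h5 h3 (exp_pos _).le (by norm_num)
  have h7 : (0 : ℝ) < 2 ^ q := by positivity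
  rw [pow_add]
  norm_num at h6 h4 ⊢
  linarith

theorem sum_le {η : ℝ} (hη : 100 ≤ η) (i : ℕ) :
    2 * (2000 * 4 ^ (16 + i / 2) * exp (1.6 * η - 80 * η * (1 + (i : ℝ) / 20))) +
      25 * 4 ^ (16 + i / 2 + 1) * exp (-(3 * η * (1 + (i : ℝ)))) ≤ exp (-(2 * η * (1 + (i : ℝ)))) := by
  have a := four_pow i
  have i0 : (0 : ℝ) ≤ i := Nat.cast_nonneg i
  have b : (8000 : ℝ) ≤ exp 13 := by
    have := two_pow_le 13
    norm_num at this
    linarith
  have m : 100 * (i : ℝ) ≤ η * i := mul_le_mul_of_nonneg_right hη i0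
  have c : ∀ s : ℝ, 13 + (32 + i) + s ≤ -(2 * η * (1 + (i : ℝ))) →
      8000 * 4 ^ (16 + i / 2) * exp s ≤ exp (-(2 * η * (1 + (i : ℝ)))) := fun s hs => by
    refine le_trans ?_ (exp_le_exp.2 hs)
    rw [exp_add, exp_add]
    exact mul_le_mul_of_nonneg_right (mul_le_mul b a (by positivity) (exp_pos _).le) (exp_pos _).le
  have c1 := c (1.6 * η - 80 * η * (1 + (i : ℝ) / 20)) (by nlinarith)
  have c2 := c (-(3 * η * (1 + (i : ℝ)))) (by nlinarith)
  have p : 0 ≤ (4 : ℝ) ^ (16 + i / 2) * exp (-(3 * η * (1 + (i : ℝ)))) := by positivity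
  rw [pow_succ]
  nlinarith

/-- the deterministic step -/
theorem det {f : Z2 → ℝ} {m : ℝ} (hm : 0 < m) {k i : ℕ} {v w : Z2}
    (h : Le f v 0 (2 ^ (k + (16 + i / 2))) w (300 * m * exp (1 + (i : ℝ) / 20)))
    (hL : ∀ q, Near (2 ^ (k + (16 + i / 2 + 1))) v (up k q) →
      ¬ LL f k (up k q) (m * exp (-1 - (i : ℝ) / 20))) :
    Tr f (Q v (2 ^ (16 + k + i / 2) + 1)) v w (900 * m * exp ((i : ℝ) / 20)) := by
  obtain ⟨u, u', h0, h1, h2⟩ := h
  obtain rfl : v = u := funext fun j => sub_eq_zero.1 (abs_nonpos_iff.1 (h0 j))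
  rcases h1 with rfl | h1
  · rw [show 16 + k + i / 2 = k + (16 + i / 2) by ring]
    refine h2.mono subset_rfl ?_
    rw [exp_add]
    have := mul_le_mul_of_nonneg_right e_le (mul_pos hm (exp_pos ((i : ℝ) / 20))).le
    nlinarith
  · exfalso
    obtain ⟨S, -, b, c⟩ := h2
    obtain ⟨d, hd⟩ : ∃ d, d = 16 + i / 2 := ⟨_, rfl⟩
    have ex := exit i
    rw [← hd] at h1 hL ex
    have k0 := p2 k
    have d5 : (8 : ℤ) ≤ 2 ^ d := by
      have := p2_le (show 3 ≤ d by omega)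
      simpa using this
    have key := cr (f := f) (j := k) (l := 2 ^ (k + d)) (m := m * exp (-1 - (i : ℝ) / 20)) b
      (by rw [pow_add]; nlinarith) (fun n => h1 (near_mono n (by omega))) (by positivity)
      fun q hq => hL q (near_mono hq (by rw [← add_assoc, pow_succ, pow_add]; nlinarith))
    have e1 : ((2 ^ (k + d) : ℤ) : ℝ) / (11 * 2 ^ k) = 2 ^ d / 11 := by
      push_cast
      rw [pow_add]
      field_simp
    rw [e1] at key
    have e2 : exp (2 + (i : ℝ) / 10) * exp (-1 - (i : ℝ) / 20) = exp (1 + (i : ℝ) / 20) := by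
      rw [← exp_add]
      congr 1
      ring
    have p : 0 < m * exp (-1 - (i : ℝ) / 20) := by positivity
    have := mul_lt_mul_of_pos_right ex p
    rw [← e2] at c
    nlinarith

end Tu

theorem tu : sTU := by
  intro Ω H _ _ _ P _ W a C0 ξ η h μ k hμ hN hG hL hR v e i
  have k0 := p2 k
  have d1 : (1 : ℤ) ≤ 2 ^ (16 + i / 2) := p2 _
  have hw : ¬ Near (0 + 2 ^ k - 1) v (v + Pi.single e (2 ^ k)) := fun n => by
    have := n e
    simp only [Pi.add_apply, Pi.single_eq_same, sub_add_cancel_left, abs_neg, abs_of_pos k0] at this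
    omega
  have c := h.con (d := 16 + i / 2) hN hG (v := v) (w := v + Pi.single e (2 ^ k)) (ρ := 0)
    (R := 2 ^ (k + (16 + i / 2))) le_rfl (by rw [pow_add]; nlinarith) le_rfl hw
    (x := 300 * μ k) (by positivity) (1 + (i : ℝ) / 20)
  have r : 1 / 2 ≤ P.real {ω | Le (X W a ξ k ω) v 0 (2 ^ (k + (16 + i / 2)))
      (v + Pi.single e (2 ^ k)) (300 * μ k)} :=
    (hR v e).trans (pmono fun ω hω => Tr.le hω (near_refl le_rfl v) (p2 _).le (Or.inl rfl))
  have g := prob_grid P k (16 + i / 2 + 1) v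
    (fun q ω => LL (X W a ξ k ω) k (up k q) (μ k * exp (-1 - (i : ℝ) / 20))) fun q => hL (up k q) i
  refine le_trans ?_ (Tu.sum_le h.eta i)
  refine (pmono (t := {ω | ¬ Le (X W a ξ k ω) v 0 (2 ^ (k + (16 + i / 2)))
      (v + Pi.single e (2 ^ k)) (300 * μ k * exp (1 + (i : ℝ) / 20))} ∪
    {ω | ∃ q, Near (2 ^ (k + (16 + i / 2 + 1))) v (up k q) ∧
      LL (X W a ξ k ω) k (up k q) (μ k * exp (-1 - (i : ℝ) / 20))}) fun ω hω => ?_).trans
    ((measureReal_union_le _ _).trans (add_le_add ?_ g))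
  · by_contra n
    rw [Set.mem_union, not_or] at n
    exact hω (Tu.det hμ (not_not.1 n.1) fun q hq l => n.2 ⟨q, hq, l⟩)
  · have := mul_le_mul_of_nonneg_left r (measureReal_nonneg (μ := P)
      (s := {ω | ¬ Le (X W a ξ k ω) v 0 (2 ^ (k + (16 + i / 2)))
        (v + Pi.single e (2 ^ k)) (300 * μ k * exp (1 + (i : ℝ) / 20))}))
    linarith

end Pool.Agent.GU
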