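import Pool.Agent.Lib.MP_438f30_pr.U.Gm

/-! Straight segments are cheap. -/

namespace Pool.Agent.GU

open MeasureTheory ProbabilityTheory Real Finset Pool.Agent.Lib.MP_a0a493_pr Pool.Agent.GL
open scoped InnerProductSpace

theorem up_sq {s : ℝ} (hs : 0 ≤ s) : (√(s + 1))⁻¹ ≤ 2 * (√(s + 1) - √s) := by
  have u0 : 0 < √(s + 1) := sqrt_pos.2 (by linarith)
  have a := sq_sqrt hs
  have b := sq_sqrt (show 0 ≤ s + 1 by linarith)
  rw [inv_le_iff_one_le_mul₀ u0]
  nlinarith [sq_nonneg (√(s + 1) - √s)]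

theorem up_sum {m j : ℕ} (hj : j < m) : ∑ i ∈ range m, (√(|(i : ℝ) - j| + 1))⁻¹ ≤ 4 * √m := by
  let φ : ℕ → ℝ := fun i => 2 * (√((i : ℝ) - j) - √((j : ℝ) - i))
  have h : ∀ i ∈ range m, (√(|(i : ℝ) - j| + 1))⁻¹ ≤ φ (i + 1) - φ i := fun i _ => by
    simp only [φ]
    push_cast
    rcases le_or_gt j i with h | h
    · have h' : (j : ℝ) ≤ i := by exact_mod_cast h
      have := up_sq (sub_nonneg.2 h')
      rw [abs_of_nonneg (sub_nonneg.2 h'), sqrt_eq_zero_of_nonpos (x := (j : ℝ) - (i + 1))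
        (by linarith), sqrt_eq_zero_of_nonpos (x := (j : ℝ) - i) (by linarith),
        show (i : ℝ) + 1 - j = i - j + 1 by ring]
      linarith
    · have h' : (i : ℝ) + 1 ≤ j := by exact_mod_cast h
      have := up_sq (sub_nonneg.2 h')
      rw [show (j : ℝ) - (i + 1) + 1 = j - i by ring] at this
      rw [abs_of_nonpos (by linarith), sqrt_eq_zero_of_nonpos (x := (i : ℝ) + 1 - j)
        (by linarith), sqrt_eq_zero_of_nonpos (x := (i : ℝ) - j) (by linarith)]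
      have := inv_anti₀ (sqrt_pos.2 (show (0 : ℝ) < j - i by linarith))
        (sqrt_le_sqrt (show (j : ℝ) - i ≤ -(i - j) + 1 by linarith))
      linarith
  refine (sum_le_sum h).trans ?_
  rw [sum_range_sub]
  have h' : (j : ℝ) ≤ m := by exact_mod_cast hj.le
  have j0 : (0 : ℝ) ≤ j := j.cast_nonneg
  have a := sqrt_le_sqrt (show (m : ℝ) - j ≤ m by linarith)
  have b := sqrt_le_sqrt h'
  have c := sqrt_nonneg ((j : ℝ) - m)
  have d := sqrt_nonneg (-(j : ℝ))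
  simp only [φ, Nat.cast_zero, zero_sub, sub_zero]
  linarith

section
variable {H : Type} [NormedAddCommGroup H] [InnerProductSpace ℝ H] {e : ℕ → E 2 → H} {C : ℝ}

theorem up_inner (h : Bd e C) (k : ℕ) (x y : E 2) :
    ⟪Y e k x, Y e k y⟫_ℝ = ∑ b ∈ range k, ⟪e b x, e b y⟫_ℝ := by
  rw [Y, Y, sum_inner]
  refine sum_congr rfl fun b hb => ?_
  rw [inner_sum, sum_eq_single_of_mem b hb fun b' _ hn => h.orth _ _ hn.symm _ _]

theorem up_le (h : Bd e C) (b : ℕ) (x y : E 2) : ⟪e b x, e b y⟫_ℝ ≤ C ^ 2 := by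
  refine (real_inner_le_norm _ _).trans ?_
  rw [sq]
  exact mul_le_mul (h.nrm _ _) (h.nrm _ _) (norm_nonneg _) ((norm_nonneg _).trans (h.nrm b x))

theorem up_exp (h : Bd e C) (hC : 1 ≤ C) {a : ℝ} (ha : 0 ≤ a) (ha' : exp (a * C ^ 2) ≤ 2)
    (x y : E 2) (k : ℕ) :
    exp (a * ⟪Y e k x, Y e k y⟫_ℝ) ≤ max 1 (2 * C * 2 ^ k / (‖x - y‖ + 1)) := by
  rw [up_inner h]
  have r0 : 0 < ‖x - y‖ + 1 := by positivity
  induction k with
  | zero => simp
  | succ k ih =>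
    rw [sum_range_succ, mul_add, exp_add]
    have t : (1 : ℝ) ≤ 2 ^ k := one_le_pow₀ one_le_two
    rcases le_or_gt (C * 2 ^ k) ‖x - y‖ with c | c
    · rw [h.far k x y c, mul_zero, exp_zero, mul_one]
      refine ih.trans (max_le_max le_rfl ?_)
      gcongr
      · exact one_le_two
      · omega
    · have c1 : 1 ≤ 2 * C * 2 ^ k / (‖x - y‖ + 1) := by
        rw [one_le_div r0]
        nlinarith
      rw [max_eq_right c1] at ih
      refine le_trans ?_ (le_max_right _ _)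
      calc _ ≤ 2 * C * 2 ^ k / (‖x - y‖ + 1) * 2 :=
            mul_le_mul ih ((exp_le_exp.2 (mul_le_mul_of_nonneg_left (up_le h k x y) ha)).trans ha')
              (exp_pos _).le (by positivity)
        _ = _ := by ring

theorem up_theta (h : Bd e C) (hC : 1 ≤ C) {ξ : ℝ} {p : ℕ}
    (ha : exp (2 * (p * ξ ^ 2) * C ^ 2) ≤ 2) (k : ℕ) (q : Z2) (d : Fin 2) {m j : ℕ} (hj : j < m) :
    ∑ i ∈ range m, exp (p * max 0 ⟪ξ • Y e k (pt (q + Pi.single d (i : ℤ))),
      ξ • Y e k (pt (q + Pi.single d (j : ℤ)))⟫_ℝ) ≤ 8 * C * (m + √(m * 2 ^ k)) := by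
  have k1 : ∀ i ∈ range m, exp (p * max 0 ⟪ξ • Y e k (pt (q + Pi.single d (i : ℤ))),
      ξ • Y e k (pt (q + Pi.single d (j : ℤ)))⟫_ℝ) ≤
        1 + 2 * C * √(2 ^ k) * (√(|(i : ℝ) - j| + 1))⁻¹ := fun i _ => by
    have a := up_exp h hC (a := 2 * (p * ξ ^ 2)) (by positivity) ha
      (pt (q + Pi.single d (i : ℤ))) (pt (q + Pi.single d (j : ℤ))) k
    have b := abs_le_norm2 (pt (q + Pi.single d (i : ℤ)) - pt (q + Pi.single d (j : ℤ))) d
    simp only [PiLp.sub_apply, pt_apply, Pi.add_apply, Pi.single_eq_same, Int.cast_add,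
      Int.cast_natCast, add_sub_add_left_eq_sub] at b
    rw [real_inner_smul_left, real_inner_smul_right]
    generalize ⟪Y e k (pt (q + Pi.single d (i : ℤ))), Y e k (pt (q + Pi.single d (j : ℤ)))⟫_ℝ = u
      at a ⊢
    have r0 : 0 < |(i : ℝ) - j| + 1 := by positivity
    have x0 : 0 ≤ 2 * C * √(2 ^ k) * (√(|(i : ℝ) - j| + 1))⁻¹ := by positivity
    have x1 : 2 * C * 2 ^ k / (‖pt (q + Pi.single d (i : ℤ)) - pt (q + Pi.single d (j : ℤ))‖ + 1) ≤
        (2 * C * √(2 ^ k) * (√(|(i : ℝ) - j| + 1))⁻¹) ^ 2 := by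
      rw [mul_pow, mul_pow, inv_pow, sq_sqrt r0.le, sq_sqrt (by positivity), ← div_eq_mul_inv]
      gcongr
      nlinarith
    generalize 2 * C * √(2 ^ k) * (√(|(i : ℝ) - j| + 1))⁻¹ = X at x0 x1 ⊢
    rcases le_total 0 (ξ * (ξ * u)) with c | c
    · rw [max_eq_right c]
      refine (pow_le_pow_iff_left₀ (exp_pos _).le (by positivity) two_ne_zero).1 ?_
      rw [← exp_nat_mul, show ((2 : ℕ) : ℝ) * (p * (ξ * (ξ * u))) = 2 * (p * ξ ^ 2) * u by
        push_cast; ring]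
      exact a.trans (max_le (by nlinarith) (by nlinarith))
    · rw [max_eq_left c, mul_zero, exp_zero]
      linarith
  refine (sum_le_sum k1).trans ?_
  rw [sum_add_distrib, ← mul_sum, sum_const, card_range, nsmul_one, sqrt_mul m.cast_nonneg]
  have a := mul_le_mul_of_nonneg_left (up_sum hj) (show 0 ≤ 2 * C * √(2 ^ k) by positivity)
  have m0 : (0 : ℝ) ≤ m := m.cast_nonneg
  nlinarith

theorem up_mem (e : ℕ → E 2 → H) {k k' : ℕ} (hk : k' ≤ k) (x : E 2) : Y e k' x ∈ Sp e k :=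
  Submodule.sum_mem _ fun b hb =>
    Submodule.subset_span ⟨b, (mem_range.1 hb).trans_le hk, x, rfl⟩

end

theorem up_card {k : ℕ} (hk : 1 ≤ k) :
    (((k + 1) * ((4 * (2 * 2 ^ k) + 1) ^ 2 * (2 * (6 * 2 ^ k + 1))) : ℕ) : ℝ) ≤ exp (15 * k) := by
  have a : k + 1 ≤ 2 ^ k := Nat.lt_two_pow_self
  have b : 2 ^ 11 ≤ (2 ^ k) ^ 11 := Nat.pow_le_pow_left (by omega) _
  have c : (2 : ℝ) ≤ exp 1 := by linarith [add_one_le_exp (1 : ℝ)]
  calc _ ≤ (((2 ^ k) ^ 15 : ℕ) : ℝ) := by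
        refine Nat.cast_le.2 ?_
        generalize 2 ^ k = n at a b ⊢
        calc _ ≤ n * ((9 * n) ^ 2 * (2 * (7 * n))) := by gcongr <;> omega
          _ = 1134 * n ^ 4 := by ring
          _ ≤ n ^ 11 * n ^ 4 := Nat.mul_le_mul_right _ (by omega)
          _ = _ := by ring
    _ ≤ (exp 1 ^ k) ^ 15 := by
        push_cast
        gcongr
    _ = _ := by
        rw [← pow_mul, ← exp_nat_mul]
        push_cast
        ring_nf

section
variable {Ω : Type} {H : Type} [NormedAddCommGroup H] [InnerProductSpace ℝ H]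

/-- the event that a segment is expensive -/
def upBad (W : H →ₗ[ℝ] (Ω → ℝ)) (e : ℕ → E 2 → H) (C ξ : ℝ) (k : ℕ) (q : Z2) (d : Fin 2)
    (m : ℕ) : Set Ω :=
  {ω | exp (1 + 1) * (8 * C * (m + √(m * 2 ^ k))) ≤
    ∑ i ∈ range m, exp (W (ξ • Y e k (pt (q + Pi.single d (i : ℤ)))) ω)}

theorem upBad_meas (W : H →ₗ[ℝ] (Ω → ℝ)) (e : ℕ → E 2 → H) (C ξ : ℝ) {k k' : ℕ} (hk : k' ≤ k)
    (q : Z2) (d : Fin 2) (m : ℕ) : MeasurableSet[FK W (Sp e k)] (upBad W e C ξ k' q d m) := by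
  let _ := FK W (Sp e k)
  refine measurableSet_le measurable_const (Finset.measurable_sum _ fun i _ => ?_)
  exact measurable_exp.comp (meas_FK W (Submodule.smul_mem _ ξ (up_mem e hk _)))

theorem upBad_le [MeasurableSpace Ω] {P : Measure Ω} [IsProbabilityMeasure P]
    {W : H →ₗ[ℝ] (Ω → ℝ)} (hW : Iso P W) {e : ℕ → E 2 → H} {C ξ : ℝ} (h : Bd e C) (hC : 1 ≤ C)
    {p k : ℕ} (ha : exp (2 * (p * ξ ^ 2) * C ^ 2) ≤ 2) (hk : ξ ^ 2 * (k * C ^ 2) ≤ 2 * 1)
    (q : Z2) (d : Fin 2) {m : ℕ} (hm : 0 < m) :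
    P.real (upBad W e C ξ k q d m) ≤ exp (-(p : ℝ)) := by
  have := gm Ω P H W hW m p (fun i => ξ • Y e k (pt (q + Pi.single d (i : ℤ)))) 1
    (8 * C * (m + √(m * 2 ^ k))) (by positivity)
  beta_reduce at this
  refine this (fun i _ => ?_) fun j hj => up_theta h hC ha k q d hj
  clear this
  rw [norm_smul, mul_pow, norm_eq_abs, sq_abs, ← real_inner_self_eq_norm_sq, up_inner h]
  have := sum_le_card_nsmul _ _ _ fun b (_ : b ∈ range k) => up_le h b
    (pt (q + Pi.single d (i : ℤ))) (pt (q + Pi.single d (i : ℤ)))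
  rw [card_range, nsmul_eq_mul] at this
  exact (mul_le_mul_of_nonneg_left this (sq_nonneg ξ)).trans hk

end

theorem upT : sUp := by
  intro C hC
  have C2 : 0 < C ^ 2 := by positivity
  refine ⟨1 / (64 * C ^ 2), exp (1 + 1) * (8 * C), by positivity,
    by nlinarith [add_one_le_exp (1 + 1 : ℝ)], ?_⟩
  intro Ω _ P _ H _ _ W hW e h k ξ B z hk hξ hB hc
  have k1 : (1 : ℝ) ≤ k := by exact_mod_cast hk
  rw [le_div_iff₀ (by positivity)] at hc
  have x0 : 0 < ξ ^ 2 * C ^ 2 := by positivity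
  obtain ⟨p, p1, p2⟩ : ∃ p : ℕ, B + 15 * k ≤ p ∧ (p : ℝ) ≤ 16 * (k + B) :=
    ⟨⌈B + 15 * k⌉₊, Nat.le_ceil _, by
      linarith [Nat.ceil_lt_add_one (show 0 ≤ B + 15 * k by positivity)]⟩
  have ha : exp (2 * (p * ξ ^ 2) * C ^ 2) ≤ 2 := by
    rw [← le_log_iff_exp_le two_pos]
    nlinarith [log_two_gt_d9]
  obtain ⟨I, hI⟩ : ∃ I : Finset (ℕ × Z2 × Fin 2 × ℕ),
    I = range (k + 1) ×ˢ box 2 (2 * 2 ^ k) ×ˢ univ ×ˢ range (6 * 2 ^ k + 1) := ⟨_, rfl⟩
  have tk : ∀ t ∈ I, t.1 ≤ k := fun t ht =>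
    Nat.lt_succ_iff.1 (mem_range.1 (mem_product.1 (hI ▸ ht)).1)
  refine ⟨(⋃ t ∈ I, upBad W e C ξ t.1 (z + t.2.1) t.2.2.1 (t.2.2.2 + 1))ᶜ,
    (Finset.measurableSet_biUnion _ fun t ht => upBad_meas W e C ξ (tk t ht) _ _ _).compl, ?_, ?_⟩
  · rw [compl_compl]
    refine (measureReal_biUnion_finset_le _ _).trans ((sum_le_card_nsmul _ _ (exp (-(p : ℝ)))
      fun t ht => upBad_le hW h hC ha ?_ _ _ (Nat.succ_pos _)).trans ?_)
    · have : (t.1 : ℝ) ≤ k := Nat.cast_le.2 (tk t ht)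
      nlinarith [mul_le_mul_of_nonneg_left this x0.le, mul_nonneg x0.le hB]
    · simp only [hI, card_product, card_range, card_box, card_univ, Fintype.card_fin, nsmul_eq_mul]
      refine (mul_le_mul_of_nonneg_right (up_card hk) (exp_pos _).le).trans ?_
      rw [← exp_add, exp_le_exp]
      linarith
  · intro ω hω k' hk' q d m hm
    rcases m with _ | m
    · simp
    have a := hm 0 (by omega)
    have b := hm m (by omega) d
    have c := a d
    have t : (0 : ℤ) < 2 ^ k := by positivity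
    simp only [Pi.add_apply, Pi.single_eq_same, abs_le, Nat.cast_zero] at b c
    have i : (k', q - z, d, m) ∈ I := by
      simp only [hI, mem_product, mem_range, mem_univ, true_and, mem_box]
      refine ⟨by omega, fun j => ?_, ?_⟩
      · have := a j
        simp only [Nat.cast_zero, Pi.single_zero, add_zero] at this
        rw [Pi.sub_apply, abs_sub_comm]
        push_cast
        linarith
      · zify
        omega
    have := fun hb => hω (Set.mem_biUnion (mem_coe.2 i) hb)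
    simp only [upBad, Set.mem_ofPred_eq, imp_false, not_le, add_sub_cancel, map_smul,
      Pi.smul_apply, smul_eq_mul] at this
    rw [mul_assoc]
    exact this.le

end Pool.Agent.GU
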