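import Pool.Agent.Lib.MP_438f30_pr.U.Bl
import Pool.Agent.Lib.MP_438f30_pr.U.Ca
import Pool.Agent.Lib.MP_438f30_pr.U.Det
import Pool.Agent.Lib.MP_438f30_pr.U.Eb
import Pool.Agent.Lib.MP_438f30_pr.U.Eh
import Pool.Agent.Lib.MP_438f30_pr.U.Em
import Pool.Agent.Lib.MP_438f30_pr.U.En
import Pool.Agent.Lib.MP_438f30_pr.U.Gb
import Pool.Agent.Lib.MP_438f30_pr.U.Gr
import Pool.Agent.Lib.MP_438f30_pr.U.Lad
import Pool.Agent.Lib.MP_438f30_pr.U.Low
import Pool.Agent.Lib.MP_438f30_pr.U.Md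
import Pool.Agent.Lib.MP_438f30_pr.U.Ml
import Pool.Agent.Lib.MP_438f30_pr.U.Mod
import Pool.Agent.Lib.MP_438f30_pr.U.Mp
import Pool.Agent.Lib.MP_438f30_pr.U.Np
import Pool.Agent.Lib.MP_438f30_pr.U.Osc
import Pool.Agent.Lib.MP_438f30_pr.U.Root
import Pool.Agent.Lib.MP_438f30_pr.U.Rs
import Pool.Agent.Lib.MP_438f30_pr.U.Rs0
import Pool.Agent.Lib.MP_438f30_pr.U.Rt
import Pool.Agent.Lib.MP_438f30_pr.U.Sp
import Pool.Agent.Lib.MP_438f30_pr.U.Tl
import Pool.Agent.Lib.MP_438f30_pr.U.Top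
import Pool.Agent.Lib.MP_438f30_pr.U.Tu
import Pool.Agent.Lib.MP_438f30_pr.U.Up2
import Pool.Agent.Lib.MP_438f30_pr.U.Ws

/-! The upper bound for the length of geodesics. -/

namespace Pool.Agent.GU

theorem allTight : sTight := tight md sp np gr tl rs0 rs tu

theorem allU : sTop :=
  top (mod mp osc rt ml ws allTight (gb (bl rt) ca) (det (bm (bl rt)) lad) eh en em (eb low upT) root)
    ml

end Pool.Agent.GU
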