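import Pool.Agent.Lib.MP_438f30_pr.U.St
import Pool.Agent.Lib.MP_438f30_pr.BF.Main

/-! The white noise representation of the mollified field. -/

namespace Pool.Agent.GU

open MeasureTheory Real Finset Pool.Agent.Lib.MP_a0a493_pr Pool.Agent.GL
open scoped InnerProductSpace

theorem bf : sBF := by
  intro ρ h hr _
  obtain ⟨C, a, c, h1, h2, h3, h4, h5, h6, h7, -, -, h8⟩ := Pool.Agent.GL.BF.bf ρ h hr
  have hC := Nat.le_ceil C
  have z : pt (0 : Zd 2) = 0 := by ext i; simp [pt_apply]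
  simp only [dist_eq_norm] at h3 h5 h6 h7
  refine ⟨a, ⌈C⌉₊, ⟨Nat.one_le_ceil_iff.2 (by linarith), fun b b' hb x y => h2 b b' x y hb,
    fun b x y hx => h3 b x y (le_trans (by gcongr) hx), fun b x => (h4 b x).trans hC,
    fun b hb x y => (h5 b x y hb).trans (by gcongr), h6⟩, fun N => ⟨fun v => c N (pt v),
    fun v w => (h7 N _ _).trans (by gcongr), fun Ω _ P _ Φ hΦ n I => ?_⟩⟩
  rw [z]
  exact h8 Ω P Φ hΦ n N I fun j => j

end Pool.Agent.GU
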