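import Pool.Agent.Lib.MP_438f30_pr.U.Cx
import Pool.Agent.Lib.MP_438f30_pr.AKer
import Pool.Agent.Lib.MP_a0a493_pr.StA

/-! Concentration of the least cost of a crossing. -/

namespace Pool.Agent.GU

open MeasureTheory Real Finset Pool.Agent.Lib.MP_a0a493_pr Pool.Agent.GL
open scoped InnerProductSpace

/-- the good event at all scales at least `i` below `k` -/
def NI (f : Z2 → ℝ) (μ : ℕ → ℝ) (k i : ℕ) (D : Set Z2) : Prop :=
  ∀ j, j + i ≤ k → ∀ q, up j q ∈ D → Nn f μ k j (up j q)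

theorem NI.nc {f : Z2 → ℝ} {μ : ℕ → ℝ} {k i j : ℕ} {D : Set Z2} (h : NI f μ k i D) (hj : j + i ≤ k) :
    NC f μ k j D := fun j' hj' => h j' (by omega)

variable {Ω H : Type} [MeasurableSpace Ω] {P : Measure Ω} [IsProbabilityMeasure P]
  [NormedAddCommGroup H] [InnerProductSpace ℝ H] {W : H →ₗ[ℝ] (Ω → ℝ)} {a : ℕ → E 2 → H} {C0 : ℕ}
  {ξ η : ℝ} {μ : ℕ → ℝ}

theorem pmono {s t : Set Ω} (h : s ⊆ t) : P.real s ≤ P.real t :=
  measureReal_mono h (measure_ne_top _ _)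

theorem prob_NI {F : Ω → Z2 → ℝ} {k i : ℕ} (hη : 2 ≤ η)
    (h : ∀ j, j + i ≤ k → ∀ v, P.real {ω | ¬ Nn (F ω) μ k j v} ≤ exp (-(η * (1 + (k - j : ℕ)))))
    (v : Z2) (d : ℕ) {D : Set Z2} (hD : D ⊆ Q v (2 ^ (k + d))) :
    P.real {ω | ¬ NI (F ω) μ k i D} ≤ 60 * 4 ^ d * exp (-η - (η - 2) * i) := by
  have e : {ω | ¬ NI (F ω) μ k i D} ⊆ ⋃ j ∈ (range (k + 1)).filter (· + i ≤ k),
      {ω | ∃ q, Near (2 ^ (j + (d + (k - j)))) v (up j q) ∧ ¬ Nn (F ω) μ k j (up j q)} := by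
    intro ω hω
    simp only [NI, Set.mem_ofPred_eq, not_forall] at hω
    obtain ⟨j, hj, q, hq, hω⟩ := hω
    refine Set.mem_biUnion (x := j) (mem_filter.2 ⟨mem_range.2 (by omega), hj⟩) ⟨q, ?_, hω⟩
    rw [show j + (d + (k - j)) = k + d by omega]
    exact hD hq
  have r1 : 4 * exp (-2) ≤ 0.55 := by
    have h2 : exp (2 : ℝ) = exp 1 * exp 1 := by rw [← exp_add]; norm_num
    rw [exp_neg, ← div_eq_mul_inv, div_le_iff₀ (exp_pos _), h2]
    nlinarith [exp_one_gt_d9]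
  refine (pmono e).trans ((measureReal_biUnion_finset_le _ _).trans ?_)
  refine (sum_le_sum (g := fun j => 25 * 4 ^ d * exp (-η - (η - 2) * i) * 0.55 ^ (k - j))
    fun j hj => ?_).trans ?_
  · have hj' := (mem_filter.1 hj).2
    refine (prob_grid P j _ v _ fun q => h j hj' _).trans ?_
    have a1 : (i : ℝ) ≤ (k - j : ℕ) := Nat.cast_le.2 (by omega)
    have a2 : exp (-(η * (1 + (k - j : ℕ)))) ≤ exp (-η - (η - 2) * i) * exp (-2) ^ (k - j) := by
      rw [← exp_nat_mul, ← exp_add]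
      exact exp_le_exp.2 (by nlinarith)
    have a3 := pow_le_pow_left₀ (by positivity) r1 (k - j)
    rw [mul_pow] at a3
    rw [pow_add]
    calc _ ≤ 25 * (4 ^ d * 4 ^ (k - j)) * (exp (-η - (η - 2) * i) * exp (-2) ^ (k - j)) := by gcongr
      _ = 25 * 4 ^ d * exp (-η - (η - 2) * i) * (4 ^ (k - j) * exp (-2) ^ (k - j)) := by ring
      _ ≤ _ := by gcongr
  · rw [← mul_sum]
    have := GLA.geo_le (r := 0.55) (by norm_num) (by norm_num)
      ((range (k + 1)).filter (· + i ≤ k)) (g := fun j => k - j) fun x hx y hy e => by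
        have := (mem_filter.1 hx).2
        have := (mem_filter.1 hy).2
        simp only at e
        omega
    have p : 0 < 4 ^ d * exp (-η - (η - 2) * i) := by positivity
    norm_num at this
    nlinarith

theorem band_le (bf : BF a C0) (b : ℕ) {S : Finset Z2} {q : Z2 → ℝ} (q0 : ∀ v, 0 ≤ q v)
    (q1 : ∑ v ∈ S, q v = 1) {β : ℝ} (h : ∀ v ∈ S, ∑ w ∈ cut S v (C0 * 2 ^ b), q w ≤ β) :
    ‖∑ v ∈ S, q v • a b (pt v)‖ ^ 2 ≤ C0 ^ 2 * β := by
  rw [← real_inner_self_eq_norm_sq, sum_inner, ← one_mul (_ * β), ← q1, sum_mul]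
  refine sum_le_sum fun v hv => ?_
  rw [real_inner_smul_left, inner_sum]
  refine mul_le_mul_of_nonneg_left (le_trans ?_
    (mul_le_mul_of_nonneg_left (h v hv) (by positivity))) (q0 v)
  rw [mul_sum, ← sum_subset (cut_sub S v (C0 * 2 ^ b)) fun w hw hw' => ?_]
  · refine sum_le_sum fun w _ => ?_
    rw [real_inner_smul_right, mul_comm]
    refine mul_le_mul_of_nonneg_right ((real_inner_le_norm _ _).trans ?_) (q0 w)
    rw [sq]
    exact mul_le_mul (bf.nrm ..) (bf.nrm ..) (norm_nonneg _) (by positivity)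
  · obtain ⟨i, hi⟩ := not_forall.1 fun k => hw' (mem_cut.2 ⟨hw, k⟩)
    rw [real_inner_smul_right, bf.far b _ _ (le_trans ?_ (abs_le_norm2 _ i)), mul_zero]
    simp only [PiLp.sub_apply, pt_apply]
    exact_mod_cast (not_le.1 hi).le

theorem gibbs (bf : BF a C0) (hrt : sRT) {f : Z2 → ℝ} {k i d : ℕ} {v w u u' : Z2} {ρ R : ℤ}
    {S : Finset Z2} (hN : NI f μ k (i + 1) (Q v (2 ^ (k + (d + 2))))) (hG : ∀ b < k, GR μ b)
    (h1 : ρ + 2 ^ k ≤ R) (h2 : R ≤ 2 ^ (k + d)) (h3 : ¬ Near (ρ + 2 ^ k - 1) v w)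
    (hS : Cn ↑S u u') (hu : Near ρ v u) (hw : u' = w ∨ ¬ Near R v u')
    (hR : ∀ y ∈ S, Near (R + 1) v y) (hmin : ∀ y, Le f v ρ R w y → cs f S ≤ y) :
    ‖∑ y ∈ S, (exp (f y) / cs f S) • ξ • A a k (pt y)‖ ^ 2 ≤
      ξ ^ 2 * C0 ^ 3 * (4 * 10 ^ 7) * (i + 1) := by
  have c0 : 0 < cs f S := (exp_pos _).trans_le (le_cs hS.1)
  have C1 : (1 : ℝ) ≤ C0 := Nat.one_le_cast.2 bf.one
  have q1 : ∑ y ∈ S, exp (f y) / cs f S = 1 := by rw [← sum_div]; exact div_self c0.ne'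
  have tv : ¬ Near (2 ^ k - 1) u u' := fun k' => hw.elim
    (fun e => h3 (e ▸ near_tri hu k' (by omega))) fun e => e (near_tri hu k' (by omega))
  have e : ∑ y ∈ S, (exp (f y) / cs f S) • ξ • A a k (pt y) =
      ξ • ∑ b ∈ range (k + 1), ∑ y ∈ S, (exp (f y) / cs f S) • a b (pt y) := by
    rw [sum_comm, smul_sum]
    exact sum_congr rfl fun y _ => by rw [smul_comm, A, smul_sum]
  rw [e, norm_smul, mul_pow, Real.norm_eq_abs, sq_abs, orth_sum _ fun b b' hb => by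
    simp only [sum_inner, inner_sum, real_inner_smul_left, real_inner_smul_right,
      bf.orth b b' hb.ne, mul_zero, sum_const_zero], mul_assoc, mul_assoc]
  refine mul_le_mul_of_nonneg_left ?_ (sq_nonneg _)
  refine (sum_le_sum (g := fun b => (C0 : ℝ) ^ 2 * ((if k < b + (i + C0 + 3) then 1 else 0) +
    11880000 * C0 * (50 / 81) ^ (k - b))) fun b hb => band_le bf b (fun _ => by positivity) q1
      fun y hy => ?_).trans ?_
  · have p0 : (0 : ℝ) ≤ 11880000 * C0 * (50 / 81) ^ (k - b) := by positivity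
    rw [← sum_div, div_le_iff₀ c0]
    split_ifs with hb'
    · nlinarith [show ∑ x ∈ cut S y (C0 * 2 ^ b), exp (f x) ≤ cs f S from cs_mono (cut_sub ..)]
    · obtain ⟨n, rfl⟩ : ∃ n, k = b + n := ⟨k - b, by omega⟩
      have n1 : 3 * C0 + 5 ≤ 2 ^ n := by
        have a1 := Nat.lt_two_pow_self (n := C0)
        have a2 := Nat.pow_le_pow_right two_pos (show C0 + 3 ≤ n by omega)
        rw [pow_add] at a2
        omega
      have n2 : 3 * (C0 : ℤ) + 5 ≤ 2 ^ n := by exact_mod_cast n1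
      have g := hG b (by omega)
      have μ0 := (g b le_rfl).1
      have nc := hN.nc (j := b) (by omega)
      have b0 := p2 b
      have b1 : (2 : ℤ) ^ b * (3 * C0 + 5) ≤ 2 ^ (b + n) := by rw [pow_add]; nlinarith
      have b2 := p2_le (show b + n ≤ b + n + d by omega)
      have b3 : (2 : ℤ) ^ (b + n + (d + 2)) = 4 * 2 ^ (b + n + d) := by ring
      have r0 := near_nonneg hu
      have s1 := cross nc μ0 hS (l := 2 ^ n) (by omega) (by push_cast; rwa [← pow_add])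
        fun z hz => near_tri hu hz (by push_cast; rw [mul_add, ← pow_add]; nlinarith)
      have s2 := shortcut (p := y) (a := C0 * 2 ^ b) (by linarith [p2 (b + n)]) hS hu hw hmin
        (x := 100 * (900 * μ b * (10 / 9) ^ (b + n - b)) * ((2 * C0 : ℕ) + 2)) (by positivity)
        fun t t' ht ht' => conn0 hrt nc (by omega) g
          (near_tri ht.symm ht' (by push_cast; linarith)) fun z hz =>
            near_tri (near_tri (hR y hy) ht le_rfl) hz (by push_cast; nlinarith)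
      rw [Nat.add_sub_cancel_left] at *
      refine s2.trans (le_trans ?_ (mul_le_mul_of_nonneg_left s1 (by positivity)))
      have e2 : (50 / 81 : ℝ) ^ n = (10 / 9) ^ n * (10 / 9) ^ n / 2 ^ n := by
        rw [← mul_pow, ← div_pow]; norm_num
      have e3 : (0 + 11880000 * C0 * (50 / 81 : ℝ) ^ n) * (((2 ^ n : ℕ) : ℝ) * μ b /
          (33 * (10 / 9) ^ n)) = 360000 * C0 * (μ b * (10 / 9) ^ n) := by
        rw [e2]; push_cast; field_simp; ring
      have p1 : 0 < μ b * (10 / 9 : ℝ) ^ n := by positivity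
      rw [e3]
      push_cast
      nlinarith
  · rw [← mul_sum, sum_add_distrib, ← mul_sum, sum_boole]
    have a1 : (((range (k + 1)).filter fun b => k < b + (i + C0 + 3)).card : ℝ) ≤ i + C0 + 3 := by
      have : ((range (k + 1)).filter fun b => k < b + (i + C0 + 3)) ⊆
          Ico (k + 1 - (i + C0 + 3)) (k + 1) := fun b hb => by
        have := mem_range.1 (mem_filter.1 hb).1
        have := (mem_filter.1 hb).2
        exact mem_Ico.2 (by omega)
      have := card_le_card this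
      rw [Nat.card_Ico] at this
      exact_mod_cast this.trans (by omega)
    have a2 := GLA.geo_le (r := 50 / 81) (by norm_num) (by norm_num) (range (k + 1))
      (g := fun j => k - j) fun x hx y hy e => by
        have := mem_range.1 hx
        have := mem_range.1 hy
        simp only at e
        omega
    have i0 : (0 : ℝ) ≤ i := Nat.cast_nonneg i
    rw [pow_succ (C0 : ℝ) 2, mul_assoc ((C0 : ℝ) ^ 2)]
    refine mul_le_mul_of_nonneg_left ?_ (sq_nonneg (C0 : ℝ))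
    norm_num at a2
    nlinarith

/-- the standing assumptions -/
structure Su (P : Measure Ω) (W : H →ₗ[ℝ] (Ω → ℝ)) (a : ℕ → E 2 → H) (C0 : ℕ) (ξ η : ℝ) : Prop where
  iso : Iso P W
  bf : BF a C0
  xi : 0 < ξ
  eta : 100 ≤ η
  small : ξ ^ 2 * C0 ^ 3 * η ≤ 1 / 10 ^ 12
  mp : sMP
  osc : sOsc
  rt : sRT
  ml : ML

/-- the field of the bands up to `k` -/
noncomputable def X (W : H →ₗ[ℝ] (Ω → ℝ)) (a : ℕ → E 2 → H) (ξ : ℝ) (k : ℕ) (ω : Ω) (v : Z2) : ℝ :=
  W (ξ • A a k (pt v)) ω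

/-- the probability of a bad site -/
def NP (P : Measure Ω) (W : H →ₗ[ℝ] (Ω → ℝ)) (a : ℕ → E 2 → H) (ξ η : ℝ) (μ : ℕ → ℝ) (k j : ℕ) :
    Prop := ∀ v, P.real {ω | ¬ Nn (X W a ξ k ω) μ k j v} ≤ exp (-(η * (1 + (k - j : ℕ))))

open Classical in
/-- the finite family of crossings -/
noncomputable def Gam (v : Z2) (ρ R : ℤ) (w : Z2) : Finset (Finset Z2) :=
  (bx v (R + 1).toNat).powerset.filter fun S =>
    ∃ u u', Near ρ v u ∧ (u' = w ∨ ¬ Near R v u') ∧ Cn ↑S u u'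

theorem mem_Gam {v w : Z2} {ρ R : ℤ} (hR : 0 ≤ R) {S : Finset Z2} : S ∈ Gam v ρ R w ↔
    (∀ y ∈ S, Near (R + 1) v y) ∧ ∃ u u', Near ρ v u ∧ (u' = w ∨ ¬ Near R v u') ∧ Cn ↑S u u' := by
  classical
  rw [Gam, mem_filter, mem_powerset]
  refine and_congr_left fun _ => forall₂_congr fun y _ => ?_
  rw [mem_bx, Int.toNat_of_nonneg (by omega)]

theorem le_iff {f : Z2 → ℝ} {v w : Z2} {ρ R : ℤ} (hR : 0 ≤ R) {x : ℝ} :
    Le f v ρ R w x ↔ ∃ S ∈ Gam v ρ R w, cs f S ≤ x :=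
  ⟨fun ⟨u, u', h1, h2, S, h3, h4, h5⟩ => ⟨S, (mem_Gam hR).2 ⟨h3, u, u', h1, h2, h4⟩, h5⟩,
    fun ⟨S, hS, h5⟩ => let ⟨h3, u, u', h1, h2, h4⟩ := (mem_Gam hR).1 hS
      ⟨u, u', h1, h2, S, h3, h4, h5⟩⟩

theorem Su.con (h : Su P W a C0 ξ η) {k d : ℕ} (hN : ∀ j < k, NP P W a ξ η μ k j)
    (hG : ∀ b < k, GR μ b) {v w : Z2} {ρ R : ℤ} (h0 : 0 ≤ ρ) (h1 : ρ + 2 ^ k ≤ R)
    (h2 : R ≤ 2 ^ (k + d)) (h3 : ¬ Near (ρ + 2 ^ k - 1) v w) {x : ℝ} (hx : 0 < x) (t : ℝ) :
    P.real {ω | ¬ Le (X W a ξ k ω) v ρ R w (x * exp t)} * P.real {ω | Le (X W a ξ k ω) v ρ R w x} ≤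
      2000 * 4 ^ d * exp (1.6 * η - 80 * η * t) := by
  have hη := h.eta
  have R0 : 0 ≤ R := by have := p2 k; omega
  have d1 : (1 : ℝ) ≤ 4 ^ d := one_le_pow₀ (by norm_num)
  have key := h.mp Ω P H W h.iso (fun v => ξ • A a k (pt v)) (Gam v ρ R w) (1 / (16000 * η))
    (960 * 4 ^ d) (η - 2) (80 * η) x t
    (fun S hS => let ⟨_, u, _, _, _, k⟩ := (mem_Gam R0).1 hS; ⟨u, k.1⟩) (by positivity)
    (by positivity) (by positivity) hx (by field_simp; nlinarith) fun i => by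
      refine (pmono ?_).trans ((prob_NI (F := X W a ξ k) (i := i + 1) (by linarith)
        (fun j hj => hN j (by omega)) v (d + 2) subset_rfl).trans ?_)
      · rintro ω ⟨S, hS, hm, hω⟩ hI
        obtain ⟨k1, u, u', k2, k3, k4⟩ := (mem_Gam R0).1 hS
        have := gibbs (ξ := ξ) h.bf h.rt hI hG h1 h2 h3 k4 k2 k3 k1 fun y hy => by
          obtain ⟨S', k5, k6⟩ := (le_iff R0).1 hy
          exact (hm S' k5).trans k6
        refine absurd (hω.trans_le this) (not_lt.2 (mul_le_mul_of_nonneg_right ?_ (by positivity)))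
        rw [le_div_iff₀ (by positivity)]
        linarith [h.small]
      · rw [pow_add, show (60 : ℝ) * (4 ^ d * 4 ^ 2) = 960 * 4 ^ d by ring]
        refine mul_le_mul_of_nonneg_left (exp_le_exp.2 ?_) (by positivity)
        push_cast
        linarith
  simp only [le_iff R0, not_exists, not_and, not_le]
  refine key.trans ?_
  rw [show 4 * (80 * η) ^ 2 * (1 / (16000 * η)) = 1.6 * η by field_simp; ring]
  exact mul_le_mul_of_nonneg_right (by linarith) (exp_pos _).le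

end Pool.Agent.GU
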