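import Pool.Agent.Lib.MP_438f30_pr.U.Lt

/-! Cheap connections from cheap grid edges. -/

namespace Pool.Agent.GU

open Real Finset Pool.Agent.Lib.MP_a0a493_pr Pool.Agent.GL

/-- at `v`, the annulus of scale `j` is expensive and the grid edges are cheap -/
def Nn (f : Z2 → ℝ) (μ : ℕ → ℝ) (k j : ℕ) (v : Z2) : Prop :=
  ¬ LL f j v (μ j / (3 * (10 / 9) ^ (k - j))) ∧ ∀ e : Fin 2,
    Tr f (Q v (2 ^ (16 + j + (k - j) / 2) + 1)) v (v + Pi.single e (2 ^ j))
      (900 * μ j * (10 / 9) ^ (k - j))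

/-- the same at all grid points of `D` of the scales up to `j₀` -/
def NC (f : Z2 → ℝ) (μ : ℕ → ℝ) (k j₀ : ℕ) (D : Set Z2) : Prop :=
  ∀ j ≤ j₀, ∀ q, up j q ∈ D → Nn f μ k j (up j q)

/-- growth of the typical costs -/
def GR (μ : ℕ → ℝ) (b : ℕ) : Prop := ∀ j ≤ b, 0 < μ j ∧ μ j ≤ 11 * (5 / 9) ^ (b - j) * μ b

variable {f f' : Z2 → ℝ} {μ : ℕ → ℝ} {D : Set Z2} {k j : ℕ} {u u' : Z2}

theorem NC.mono {j' : ℕ} {D' : Set Z2} (h : NC f μ k j D) (hj : j' ≤ j) (hD : D' ⊆ D) :
    NC f μ k j' D' := fun i hi q hq => h i (hi.trans hj) q (hD hq)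

theorem Nn.edge {v : Z2} (h : Nn f μ k j v) (hj : j ≤ k) (e : Fin 2) :
    Tr f (Q v (2 ^ (k + 16) + 1)) v (v + Pi.single e (2 ^ j)) (900 * μ j * (10 / 9) ^ (k - j)) :=
  (h.2 e).mono (fun _ hy => near_mono hy (by
    have := p2_le (show 16 + j + (k - j) / 2 ≤ k + 16 by omega)
    omega)) le_rfl

theorem cn_succ (j : ℕ) (u : Z2) (i : Fin 2) :
    cn j u i = 2 * cn (j + 1) u i ∨ cn j u i = 2 * cn (j + 1) u i + 1 := by
  have : cn (j + 1) u i = cn j u i / 2 := by
    simp only [cn]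
    rw [pow_succ, Int.ediv_ediv_of_nonneg (p2 j).le]
  omega

theorem step_edge {q : Z2} {e : Fin 2} {r : ℤ} {x : ℝ} (hr : r = 0 ∨ r = 1)
    (h : Tr f D (up j q) (up j q + Pi.single e (2 ^ j)) x) :
    Tr f D (up j q) (up j (q + Pi.single e r)) x := by
  rcases hr with rfl | rfl
  · simpa using h.left
  · rwa [up_add, mul_one]

/-- a point is cheaply joined to the corner of its cell -/
theorem dm (h : NC f μ k j D) (hj : j ≤ k) (hG : GR μ j) (hD : Q u (2 ^ j) ⊆ D) :
    Tr f (Q u (2 ^ (k + 17))) u (up j (cn j u)) (44 * (900 * μ j * (10 / 9) ^ (k - j))) := by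
  have μ0 := (hG j le_rfl).1
  obtain ⟨K, hK⟩ : ∃ K, K = 11 * (900 * μ j * (10 / 9 : ℝ) ^ (k - j)) := ⟨_, rfl⟩
  have K0 : 0 < K := by rw [hK]; positivity
  have ed : ∀ i ≤ j, ∀ q, Near (2 ^ j) u (up i q) → ∀ e, Tr f (Q u (2 ^ (k + 17))) (up i q)
      (up i q + Pi.single e (2 ^ i)) (K * (50 / 81) ^ (j - i)) := fun i hi q hq e => by
    refine ((h i hi q (hD hq)).edge (by omega) e).mono (fun y hy => near_tri hq hy ?_) ?_
    · have := p2_le hj
      have := p2 k
      rw [pow_add, pow_add]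
      omega
    · have a := mul_le_mul_of_nonneg_right (hG i hi).2
        (show (0 : ℝ) ≤ 900 * (10 / 9) ^ (k - i) by positivity)
      have b : (50 / 81 : ℝ) ^ (j - i) = (5 / 9) ^ (j - i) * (10 / 9) ^ (j - i) := by
        rw [← mul_pow]; norm_num
      rw [show k - i = k - j + (j - i) by omega, pow_add] at a ⊢
      rw [hK, b]
      linarith
  have key : ∀ i ≤ j, Tr f (Q u (2 ^ (k + 17))) u (up i (cn i u)) (4 * (K * (50 / 81) ^ (j - i))) := by
    intro i hi
    induction i with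
    | zero =>
      have e : up 0 (cn 0 u) = u := by funext i; simp [up_apply, cn]
      have := (ed 0 hi (cn 0 u) (by rw [e]; exact near_refl (p2 j).le u) 0).left
      rw [e] at this ⊢
      exact this.mono subset_rfl (by linarith [this.nonneg])
    | succ i ih =>
      have s := cn_succ i u
      have s1 := cn_spec i u
      have s2 := cn_spec (i + 1) u
      have c := p2_le hi
      have c' := p2 i
      simp only [up_apply, pow_succ] at s1 s2 c
      have e1 : up (i + 1) (cn (i + 1) u) = up i (2 • cn (i + 1) u) := by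
        funext l; simp [up_apply, pow_succ, mul_assoc]
      have e2 : cn i u = 2 • cn (i + 1) u + Pi.single 0 (cn i u 0 - 2 * cn (i + 1) u 0) +
          Pi.single 1 (cn i u 1 - 2 * cn (i + 1) u 1) := by
        funext l; fin_cases l <;> simp
      have t1 := step_edge (r := cn i u 0 - 2 * cn (i + 1) u 0) (by have := s 0; omega)
        (ed i (by omega) (2 • cn (i + 1) u) (e1 ▸ near_mono (near_cn _ _) (p2_le hi)) 0)
      have t2 := step_edge (r := cn i u 1 - 2 * cn (i + 1) u 1) (by have := s 1; omega)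
        (ed i (by omega) (2 • cn (i + 1) u + Pi.single 0 (cn i u 0 - 2 * cn (i + 1) u 0))
          (fun l => by
            have a := s1 0
            have b := s2 1
            fin_cases l <;> simp [up_apply, abs_le] <;> constructor <;> nlinarith [a.1, a.2, b.1, b.2]) 1)
      rw [← e2] at t2
      rw [e1]
      refine ((ih (by omega)).trans (t1.trans t2).symm).mono subset_rfl ?_
      rw [show j - i = j - (i + 1) + 1 by omega, pow_succ]
      have : 0 < K * (50 / 81) ^ (j - (i + 1)) := by positivity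
      linarith
  have := key j le_rfl
  rw [Nat.sub_self, pow_zero, mul_one, hK] at this
  exact this.mono subset_rfl (by linarith)

/-- two points are joined round a hole -/
theorem conn (hrt : sRT) (h : NC f μ k j D) (hj : j ≤ k) (hG : GR μ j) (hu : Q u (2 ^ j) ⊆ D)
    (hu' : Q u' (2 ^ j) ⊆ D) {z : Z2} {ρ a R : ℤ} (hρ : -1 ≤ ρ) (hR : ρ + 1 ≤ R)
    (ha : Near a (cn j u) (cn j u')) (h1 : ¬ Near ρ z (cn j u)) (h2 : ¬ Near ρ z (cn j u'))
    (h3 : Near R z (cn j u)) (h4 : Near R z (cn j u'))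
    (hD : ∀ q, ¬ Near ρ z q → Near R z q → up j q ∈ D) {G : Z2 → ℝ}
    (hf : ∀ q v, Near R z q → Near (2 ^ (k + 18)) (up j q) v → f' v ≤ f v + G q) {x : ℝ}
    (hx : ∀ (q : Z2) (d : Fin 2) (m : ℕ), (m : ℤ) ≤ a + 2 * ρ + 3 →
      (∀ i < m, Near R z (q + Pi.single d (i : ℤ)) ∧
        Near (a + 2 * ρ + 2) (cn j u) (q + Pi.single d (i : ℤ))) →
      ∑ i ∈ range m, exp (G (q + Pi.single d (i : ℤ))) ≤ x) :
    Tr f' Set.univ u u' (100 * (900 * μ j * (10 / 9) ^ (k - j)) * x) := by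
  have μ0 := (hG j le_rfl).1
  obtain ⟨c, hc⟩ : ∃ c, c = 900 * μ j * (10 / 9 : ℝ) ^ (k - j) := ⟨_, rfl⟩
  have c0 : 0 < c := by rw [hc]; positivity
  have a0 := near_nonneg ha
  have b1 : (2 : ℤ) ^ j + 2 ^ (k + 17) ≤ 2 ^ (k + 18) ∧ (2 : ℤ) ^ (k + 16) + 1 ≤ 2 ^ (k + 18) := by
    have := p2_le hj
    have := p2 k
    simp only [pow_add]
    omega
  have en : ∀ w, Q w (2 ^ j) ⊆ D → Near R z (cn j w) → Near (a + 2 * ρ + 2) (cn j u) (cn j w) →
      Tr f' Set.univ w (up j (cn j w)) (44 * c * x) := fun w k1 k2 k3 => by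
    have e := hx (cn j w) 0 1 (by omega) fun i hi => by
      rw [show i = 0 by omega, Nat.cast_zero, Pi.single_zero, add_zero]; exact ⟨k2, k3⟩
    simp only [range_one, sum_singleton, Nat.cast_zero, Pi.single_zero, add_zero] at e
    have e1 := (dm h hj hG k1).cmp (f := f') (c := G (cn j w)) fun v hv => hf _ v k2
      (near_tri (near_cn j w).symm hv b1.1)
    rw [← hc] at e1
    exact e1.mono (Set.subset_univ _) (by linarith [mul_le_mul_of_nonneg_left e c0.le])
  obtain ⟨S, s1, s2, s3⟩ := hrt _ _ z ρ a R hρ hR ha h1 h2 h3 h4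
  have s4 := s3 (fun q => exp (G q)) x (fun _ => (exp_pos _).le) hx
  have mid := chain (f := f') (D := Set.univ) (j := j) (c := fun q => exp (G q) * c) s1
    fun q hq e => (((h j le_rfl q (hD q (s2 q hq).1 (s2 q hq).2.1)).edge hj e).cmp
      fun v hv => hf q v (s2 q hq).2.1 (near_mono hv b1.2)).mono (Set.subset_univ _) (by rw [hc])
  rw [← sum_mul] at mid
  refine (((en u hu h3 (near_refl (by omega) _)).trans mid).trans
    (en u' hu' h4 (near_mono ha (by omega))).symm).mono subset_rfl ?_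
  rw [← hc]
  linarith [mul_le_mul_of_nonneg_left s4 c0.le]

/-- the same without a hole and without a change of field -/
theorem conn0 (hrt : sRT) (h : NC f μ k j D) (hj : j ≤ k) (hG : GR μ j) {a : ℕ}
    (ha : Near (2 ^ j * a) u u') (hD : Q u (2 ^ j * (a + 2)) ⊆ D) :
    Tr f Set.univ u u' (100 * (900 * μ j * (10 / 9) ^ (k - j)) * (a + 2)) := by
  have c := p2 j
  have a0 : (0 : ℤ) ≤ 2 ^ j * a := by positivity
  refine conn hrt h hj hG (fun y hy => hD (near_mono hy (by nlinarith)))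
    (fun y hy => hD (near_tri ha hy (by nlinarith))) (z := cn j u) (ρ := -1) (R := a + 1) le_rfl
    (by omega) (cn_near ha) (fun k => by simpa using near_nonneg k)
    (fun k => by simpa using near_nonneg k) (near_refl (by omega) _) (cn_near ha)
    (fun q _ hq => hD (near_tri (near_cn j u) (up_near hq) (by nlinarith))) (G := fun _ => 0)
    (fun _ _ _ _ => by simp) fun q d m hm _ => ?_
  simp only [exp_zero, sum_const, card_range, nsmul_eq_mul, mul_one]
  exact_mod_cast (show (m : ℤ) ≤ a + 2 by omega)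

/-- long crossings are expensive -/
theorem cross (h : NC f μ k j D) (μ0 : 0 < μ j) {S : Finset Z2} (hS : Cn ↑S u u') {l : ℕ}
    (hl : 5 ≤ l) (hu : ¬ Near (2 ^ j * l - 1) u u') (hD : Q u (2 ^ j * (l + 1)) ⊆ D) :
    l * μ j / (33 * (10 / 9) ^ (k - j)) ≤ cs f S := by
  have c := p2 j
  have l5 : (5 : ℤ) ≤ l := by exact_mod_cast hl
  refine le_trans (le_of_eq ?_) (cr (j := j) (m := μ j / (3 * (10 / 9) ^ (k - j))) hS (by nlinarith)
    hu (by positivity) fun q hq => (h j le_rfl q (hD (near_mono hq (by nlinarith)))).1)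
  push_cast
  field_simp
  ring

end Pool.Agent.GU
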