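import Pool.Agent.Lib.MP_438f30_pr.U.St

/-! Moments of a sum of exponentials of Gaussian variables. -/

namespace Pool.Agent.GU

open MeasureTheory ProbabilityTheory Real Finset Pool.Agent.Lib.MP_a0a493_pr Pool.Agent.GL
open scoped InnerProductSpace

section
variable {Ω : Type} [MeasurableSpace Ω] {P : Measure Ω} [IsProbabilityMeasure P] {H : Type}
  [NormedAddCommGroup H] [InnerProductSpace ℝ H] {W : H →ₗ[ℝ] (Ω → ℝ)}

theorem gm_exp (hW : Iso P W) (h : H) :
    Integrable (fun ω => exp (W h ω)) P ∧ ∫ ω, exp (W h ω) ∂P = exp (‖h‖ ^ 2 / 2) := by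
  constructor
  · have := integrable_exp_mul_gaussianReal (μ := 0) (v := ‖h‖₊ ^ 2) 1
    rw [← hW.map_eq h] at this
    simpa [Function.comp_def] using
      (integrable_map_measure this.aestronglyMeasurable (hW.meas h).aemeasurable).1 this
  · simpa [mgf] using mgf_gaussianReal (hW.map_eq h) 1

theorem gm_jensen {m p q : ℕ} {g : ℕ → H} {Θ : ℝ} (hp : 0 < p) (hq : q ≤ p)
    (hΘ : ∀ i' < m, ∑ i ∈ range m, exp (p * max 0 ⟪g i, g i'⟫_ℝ) ≤ Θ) {f : ℕ → ℕ}
    (hf : ∀ a, f a < m) : ∑ i ∈ range m, exp ⟪g i, ∑ a ∈ range q, g (f a)⟫_ℝ ≤ Θ := by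
  have p0 : (0 : ℝ) < p := by exact_mod_cast hp
  have s1 : ∑ _a ∈ range p, (p : ℝ)⁻¹ = 1 := by
    rw [sum_const, card_range, nsmul_eq_mul, mul_inv_cancel₀ p0.ne']
  calc _ ≤ ∑ i ∈ range m, ∑ a ∈ range p, (p : ℝ)⁻¹ * exp (p * max 0 ⟪g i, g (f a)⟫_ℝ) := by
        refine sum_le_sum fun i _ => le_trans (exp_le_exp.2 ?_) (convexOn_exp.map_sum_le
          (p := fun a => p * max 0 ⟪g i, g (f a)⟫_ℝ) (fun _ _ => (inv_pos.2 p0).le) s1
          fun _ _ => Set.mem_univ _)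
        simp only [smul_eq_mul, inv_mul_cancel_left₀ p0.ne', inner_sum]
        exact (sum_le_sum fun a _ => le_max_right _ _).trans
          (sum_le_sum_of_subset_of_nonneg (range_mono hq) fun _ _ _ => le_max_left _ _)
    _ ≤ ∑ _a ∈ range p, (p : ℝ)⁻¹ * Θ := by
        rw [sum_comm]
        refine sum_le_sum fun a _ => ?_
        rw [← mul_sum]
        exact mul_le_mul_of_nonneg_left (hΘ _ (hf a)) (inv_pos.2 p0).le
    _ = Θ := by rw [← sum_mul, s1, one_mul]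

theorem gm_mom (hW : Iso P W) {m p : ℕ} {g : ℕ → H} {δ Θ : ℝ} (h0 : 0 < Θ)
    (hg : ∀ i < m, ‖g i‖ ^ 2 ≤ 2 * δ)
    (hΘ : ∀ i' < m, ∑ i ∈ range m, exp (p * max 0 ⟪g i, g i'⟫_ℝ) ≤ Θ) (n : ℕ) :
    ∀ (q : ℕ) (f : ℕ → ℕ), (∀ a, f a < m) → q + n ≤ p →
      Integrable (fun ω => exp (W (∑ a ∈ range q, g (f a)) ω) *
        (∑ i ∈ range m, exp (W (g i) ω)) ^ n) P ∧
      ∫ ω, exp (W (∑ a ∈ range q, g (f a)) ω) * (∑ i ∈ range m, exp (W (g i) ω)) ^ n ∂P ≤
        exp (‖∑ a ∈ range q, g (f a)‖ ^ 2 / 2) * (exp δ * Θ) ^ n := by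
  induction n with
  | zero =>
    intro q f _ _
    simp only [pow_zero, mul_one]
    exact ⟨(gm_exp hW _).1, (gm_exp hW _).2.le⟩
  | succ n ih =>
    intro q f hf hq
    have j := gm_jensen (q := q) (by omega) (by omega) hΘ hf
    generalize hh : ∑ a ∈ range q, g (f a) = h at j ⊢
    have k : ∀ i ∈ range m, Integrable (fun ω => exp (W (h + g i) ω) *
        (∑ i ∈ range m, exp (W (g i) ω)) ^ n) P ∧
        ∫ ω, exp (W (h + g i) ω) * (∑ i ∈ range m, exp (W (g i) ω)) ^ n ∂P ≤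
          exp (‖h + g i‖ ^ 2 / 2) * (exp δ * Θ) ^ n := fun i hi => by
      have := ih (q + 1) (fun a => if a = q then i else f a)
        (fun a => by split_ifs; exacts [mem_range.1 hi, hf a]) (by omega)
      rwa [sum_range_succ, if_pos rfl, sum_congr rfl fun a ha =>
        congrArg g (if_neg (mem_range.1 ha).ne), hh] at this
    have e : (fun ω => exp (W h ω) * (∑ i ∈ range m, exp (W (g i) ω)) ^ (n + 1)) =
        fun ω => ∑ i ∈ range m, exp (W (h + g i) ω) * (∑ i ∈ range m, exp (W (g i) ω)) ^ n := by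
      funext ω
      simp only [map_add, Pi.add_apply, exp_add]
      rw [← sum_mul, ← mul_sum]
      ring
    rw [e]
    refine ⟨integrable_finset_sum _ fun i hi => (k i hi).1, ?_⟩
    rw [integral_finset_sum _ fun i hi => (k i hi).1]
    calc _ ≤ ∑ i ∈ range m, exp ⟪g i, h⟫_ℝ * (exp (‖h‖ ^ 2 / 2) * exp δ * (exp δ * Θ) ^ n) := by
          refine sum_le_sum fun i hi => (k i hi).2.trans ?_
          rw [← mul_assoc, ← exp_add, ← exp_add, norm_add_sq_real, real_inner_comm]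
          have := hg i (mem_range.1 hi)
          gcongr
          linarith
      _ ≤ Θ * (exp (‖h‖ ^ 2 / 2) * exp δ * (exp δ * Θ) ^ n) := by
          rw [← sum_mul]
          gcongr
      _ = _ := by ring

end

theorem gm : sGM := by
  intro Ω _ P _ H _ _ W hW m p g δ Θ h0 hg hΘ
  rcases Nat.eq_zero_or_pos m with rfl | hm
  · have : ¬ exp (1 + δ) * Θ ≤ 0 := not_le.2 (by positivity)
    simp [this, (exp_pos _).le]
  obtain ⟨i1, i2⟩ := gm_mom hW h0 hg hΘ p 0 (fun _ => 0) (fun _ => hm) (by omega)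
  simp only [range_zero, sum_empty, map_zero, Pi.zero_apply, exp_zero, one_mul, norm_zero] at i1 i2
  have m1 := mul_meas_ge_le_integral_of_nonneg (Filter.Eventually.of_forall fun ω => by
    show (0 : ℝ) ≤ _
    positivity) i1 ((exp (1 + δ) * Θ) ^ p)
  have m2 : P.real {ω | exp (1 + δ) * Θ ≤ ∑ i ∈ range m, exp (W (g i) ω)} ≤
      P.real {ω | (exp (1 + δ) * Θ) ^ p ≤ (∑ i ∈ range m, exp (W (g i) ω)) ^ p} :=
    measureReal_mono fun ω (h : exp (1 + δ) * Θ ≤ _) =>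
      pow_le_pow_left₀ (mul_pos (exp_pos _) h0).le h p
  have m3 : 0 < (exp (1 + δ) * Θ) ^ p := by positivity
  refine m2.trans (le_of_mul_le_mul_left (m1.trans (i2.trans (le_of_eq ?_))) m3)
  rw [exp_add, mul_assoc, mul_pow (exp 1), ← exp_nat_mul, exp_neg]
  simp
  field_simp

end Pool.Agent.GU
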