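import Pool.Agent.Lib.MP_438f30_pr.U.St
import Pool.Agent.Lib.MP_438f30_pr.AInd

/-! Covariances of averages of finite range bands over segments. -/

namespace Pool.Agent.GU.Low

open Real Finset Pool.Agent.Lib.MP_a0a493_pr
open Pool.Agent.GLA (sp dens sp_sub V)
open scoped InnerProductSpace

variable {H : Type} [NormedAddCommGroup H] [InnerProductSpace ℝ H] {e : ℕ → E 2 → H} {C : ℝ}

/-- the covariance bound for differences of averages -/
def Gm (Ev : E 2 → H) (G : ℝ) : Prop :=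
  ∀ (m m' : ℕ), 0 < m → 0 < m' → ∀ (A B A' B' C D C' D' : E 2) (a b l : ℝ), 0 < a → 0 < b → 0 < l →
    ‖A' - A‖ ≤ a ^ 2 → ‖B' - B‖ ≤ a ^ 2 → ‖C' - C‖ ≤ b ^ 2 → ‖D' - D‖ ≤ b ^ 2 → l ≤ ‖B - A‖ →
    l ≤ ‖B' - A'‖ → ‖B - A‖ ≤ m → ‖B' - A'‖ ≤ m →
    ⟪V Ev m A' B' - V Ev m A B, V Ev m' C' D' - V Ev m' C D⟫_ℝ ≤ G * (a * b / l)

theorem avg_le {m m' : ℕ} (hm : 0 < m) (hm' : 0 < m') (f g : ℕ → H) {X : ℝ}
    (h : ∀ j ∈ range m', ∑ i ∈ range m, ⟪f i, g j⟫_ℝ ≤ m * X) :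
    ⟪(m : ℝ)⁻¹ • ∑ i ∈ range m, f i, (m' : ℝ)⁻¹ • ∑ j ∈ range m', g j⟫_ℝ ≤ X := by
  have m0 : (0 : ℝ) < m := Nat.cast_pos.2 hm
  have m0' : (0 : ℝ) < m' := Nat.cast_pos.2 hm'
  have a := sum_le_sum h
  rw [sum_const, card_range, nsmul_eq_mul] at a
  rw [real_inner_smul_left, real_inner_smul_right, inner_sum, inv_mul_le_iff₀ m0,
    inv_mul_le_iff₀ m0']
  simpa only [sum_inner] using a

theorem inner_sum_orth {k : ℕ} (f g : ℕ → H) (h : ∀ b b', b ≠ b' → ⟪f b, g b'⟫_ℝ = 0) :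
    ⟪∑ b ∈ range k, f b, ∑ b ∈ range k, g b⟫_ℝ = ∑ b ∈ range k, ⟪f b, g b⟫_ℝ := by
  rw [sum_inner]
  refine sum_congr rfl fun b hb => ?_
  rw [inner_sum]
  exact sum_eq_single b (fun b' _ hb' => h _ _ hb'.symm) fun c => (c hb).elim

theorem near_exp {R : ℝ} (hR : 0 < R) {x y : E 2} (h : ‖x - y‖ < C * R) :
    1 ≤ exp C * exp (-‖R⁻¹ • y - R⁻¹ • x‖) := by
  rw [← exp_add, ← smul_sub, norm_smul, Real.norm_of_nonneg (by positivity), norm_sub_rev]
  refine one_le_exp ?_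
  have : R⁻¹ * ‖x - y‖ ≤ C := by rw [inv_mul_le_iff₀ hR]; linarith
  linarith

theorem one_pt (h : Bd e C) (b : ℕ) (x y : E 2) :
    ⟪e b x, e b y⟫_ℝ ≤ C ^ 2 * exp C * exp (-‖((2 : ℝ) ^ b)⁻¹ • y - ((2 : ℝ) ^ b)⁻¹ • x‖) := by
  rcases le_or_gt (C * 2 ^ b) ‖x - y‖ with c | c
  · rw [h.far b x y c]; positivity
  · have a := near_exp (by positivity) c
    have d := (real_inner_le_norm (e b x) (e b y)).trans
      (mul_le_mul (h.nrm b x) (h.nrm b y) (norm_nonneg _) ((norm_nonneg _).trans (h.nrm b x)))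
    nlinarith [mul_le_mul_of_nonneg_left a (sq_nonneg C)]

theorem dif_le (h : Bd e C) (b : ℕ) {p q : E 2} {w : ℝ} (hw : ‖q - p‖ ≤ w) :
    ‖e b q - e b p‖ ≤ 2 * C * min 1 (w / 2 ^ b) := by
  have C0 : 0 ≤ C := (norm_nonneg _).trans (h.nrm b p)
  rw [mul_min_of_nonneg _ _ (by positivity)]
  refine le_min ((norm_sub_le _ _).trans (by linarith [h.nrm b q, h.nrm b p])) ?_
  refine (h.lip b q p).trans ?_
  have w0 := (norm_nonneg _).trans hw
  rw [← mul_div_assoc]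
  exact div_le_div_of_nonneg_right (by nlinarith) (by positivity)

theorem four_pt (h : Bd e C) (b : ℕ) {p q p' q' : E 2} {w w' : ℝ} (hw : ‖q - p‖ ≤ w)
    (hw' : ‖q' - p'‖ ≤ w') : ⟪e b q - e b p, e b q' - e b p'⟫_ℝ ≤
      4 * C ^ 2 * exp C * (min 1 (w / 2 ^ b) * min 1 (w' / 2 ^ b)) *
      (exp (-‖((2 : ℝ) ^ b)⁻¹ • p' - ((2 : ℝ) ^ b)⁻¹ • p‖) +
        exp (-‖((2 : ℝ) ^ b)⁻¹ • q' - ((2 : ℝ) ^ b)⁻¹ • p‖) +
        exp (-‖((2 : ℝ) ^ b)⁻¹ • p' - ((2 : ℝ) ^ b)⁻¹ • q‖) +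
        exp (-‖((2 : ℝ) ^ b)⁻¹ • q' - ((2 : ℝ) ^ b)⁻¹ • q‖)) := by
  have C0 : 0 ≤ C := (norm_nonneg _).trans (h.nrm b p)
  have w0 := (norm_nonneg _).trans hw
  have w0' := (norm_nonneg _).trans hw'
  have R0 : (0 : ℝ) < 2 ^ b := by positivity
  have d := (real_inner_le_norm _ _).trans (mul_le_mul (dif_le h b hw) (dif_le h b hw')
    (norm_nonneg _) (by positivity))
  have M0 : 0 ≤ 4 * C ^ 2 * (min 1 (w / 2 ^ b) * min 1 (w' / 2 ^ b)) := by positivity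
  have n1 := mul_pos (exp_pos C) (exp_pos (-‖((2 : ℝ) ^ b)⁻¹ • p' - ((2 : ℝ) ^ b)⁻¹ • p‖))
  have n2 := mul_pos (exp_pos C) (exp_pos (-‖((2 : ℝ) ^ b)⁻¹ • q' - ((2 : ℝ) ^ b)⁻¹ • p‖))
  have n3 := mul_pos (exp_pos C) (exp_pos (-‖((2 : ℝ) ^ b)⁻¹ • p' - ((2 : ℝ) ^ b)⁻¹ • q‖))
  have n4 := mul_pos (exp_pos C) (exp_pos (-‖((2 : ℝ) ^ b)⁻¹ • q' - ((2 : ℝ) ^ b)⁻¹ • q‖))
  have key : ∀ S : ℝ, 1 ≤ exp C * S → ⟪e b q - e b p, e b q' - e b p'⟫_ℝ ≤
      4 * C ^ 2 * exp C * (min 1 (w / 2 ^ b) * min 1 (w' / 2 ^ b)) * S := fun S hS => by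
    nlinarith [mul_le_mul_of_nonneg_left hS M0]
  rcases le_or_gt (C * 2 ^ b) ‖p - p'‖ with c1 | c1
  swap
  · exact key _ (by linarith [near_exp R0 c1])
  rcases le_or_gt (C * 2 ^ b) ‖p - q'‖ with c2 | c2
  swap
  · exact key _ (by linarith [near_exp R0 c2])
  rcases le_or_gt (C * 2 ^ b) ‖q - p'‖ with c3 | c3
  swap
  · exact key _ (by linarith [near_exp R0 c3])
  rcases le_or_gt (C * 2 ^ b) ‖q - q'‖ with c4 | c4
  swap
  · exact key _ (by linarith [near_exp R0 c4])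
  rw [inner_sub_left, inner_sub_right, inner_sub_right, h.far _ _ _ c1, h.far _ _ _ c2,
    h.far _ _ _ c3, h.far _ _ _ c4]
  simp only [sub_self]
  positivity

theorem sum_min {a b : ℝ} (ha : 0 < a) (hb : 0 < b) (k : ℕ) :
    ∑ j ∈ range k, min 1 (a ^ 2 / 2 ^ j) * min 1 (b ^ 2 / 2 ^ j) * 2 ^ j ≤ 6 * (a * b) := by
  have P0 : 0 < a * b := by positivity
  have key : ∑ j ∈ range k, min 1 (a ^ 2 / 2 ^ j) * min 1 (b ^ 2 / 2 ^ j) * 2 ^ j ≤
      6 * (a * b) * (2 ^ k / (a * b + 2 ^ k)) := by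
    induction k with
    | zero => rw [sum_range_zero]; positivity
    | succ k ih =>
      rw [sum_range_succ, pow_succ (2 : ℝ) k]
      obtain ⟨R, hR⟩ : ∃ R : ℝ, R = 2 ^ k := ⟨_, rfl⟩
      have R0 : 0 < R := by rw [hR]; positivity
      rw [← hR] at ih ⊢
      have e : 6 * (a * b) * (R * 2 / (a * b + R * 2)) = 6 * (a * b) * (R / (a * b + R)) +
          6 * (a * b) ^ 2 * R / ((a * b + R) * (a * b + R * 2)) := by field_simp; ring
      have f : min 1 (a ^ 2 / R) * min 1 (b ^ 2 / R) * R ≤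
          6 * (a * b) ^ 2 * R / ((a * b + R) * (a * b + R * 2)) := by
        rcases le_total R (a * b) with c | c
        · have := mul_le_mul (min_le_left 1 (a ^ 2 / R)) (min_le_left 1 (b ^ 2 / R))
            (by positivity) zero_le_one
          refine (mul_le_mul_of_nonneg_right this R0.le).trans ?_
          rw [le_div_iff₀ (by positivity)]
          nlinarith [mul_le_mul_of_nonneg_left (show (a * b + R) * (a * b + R * 2) ≤ 6 * (a * b) ^ 2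
            by nlinarith) R0.le]
        · have := mul_le_mul (min_le_right 1 (a ^ 2 / R)) (min_le_right 1 (b ^ 2 / R))
            (by positivity) (by positivity)
          refine (mul_le_mul_of_nonneg_right this R0.le).trans ?_
          have e2 : a ^ 2 / R * (b ^ 2 / R) * R = (a * b) ^ 2 / R := by field_simp
          rw [e2, div_le_div_iff₀ R0 (by positivity)]
          nlinarith [mul_le_mul_of_nonneg_left (show (a * b + R) * (a * b + R * 2) ≤ 6 * R ^ 2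
            by nlinarith) (sq_nonneg (a * b))]
      linarith
  refine key.trans (mul_le_of_le_one_right (by positivity) ?_)
  rw [div_le_one (by positivity)]
  linarith

theorem dens2 {m : ℕ} (hm : 0 < m) {A B : E 2} (z : E 2) (b : ℕ) {l : ℝ} (hl : 0 < l)
    (h1 : l ≤ ‖B - A‖) (h2 : ‖B - A‖ ≤ m) :
    ∑ i ∈ range m, exp (-‖((2 : ℝ) ^ b)⁻¹ • z - ((2 : ℝ) ^ b)⁻¹ • sp m A B i‖) ≤
      6 * m / l * 2 ^ b := by
  refine (dens hm z (by positivity) hl h1 ?_).trans (le_of_eq (by field_simp))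
  exact (mul_le_of_le_one_left (norm_nonneg _) (inv_le_one_of_one_le₀ (one_le_pow₀ one_le_two))).trans h2

theorem gm_Y (h : Bd e C) (k : ℕ) : Gm (Y e k) (576 * C ^ 2 * exp C) := by
  intro m m' hm hm' A B A' B' D F D' F' a b l ha hb hl h1 h2 h3 h4 l1 l2 u1 u2
  simp only [V, ← smul_sub, ← sum_sub_distrib]
  refine avg_le hm hm' _ _ fun j hj => ?_
  have e1 : ∀ i ∈ range m, ⟪Y e k (sp m A' B' i) - Y e k (sp m A B i),
      Y e k (sp m' D' F' j) - Y e k (sp m' D F j)⟫_ℝ = ∑ c ∈ range k,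
      ⟪e c (sp m A' B' i) - e c (sp m A B i), e c (sp m' D' F' j) - e c (sp m' D F j)⟫_ℝ := by
    intro i _
    simp only [Y, ← sum_sub_distrib]
    refine inner_sum_orth _ _ fun c c' hc => ?_
    simp only [inner_sub_left, inner_sub_right, h.orth _ _ hc, sub_self]
  rw [sum_congr rfl e1, sum_comm]
  have e2 : ∀ c ∈ range k, ∑ i ∈ range m,
      ⟪e c (sp m A' B' i) - e c (sp m A B i), e c (sp m' D' F' j) - e c (sp m' D F j)⟫_ℝ ≤
      96 * C ^ 2 * exp C * m / l * (min 1 (a ^ 2 / 2 ^ c) * min 1 (b ^ 2 / 2 ^ c) * 2 ^ c) := by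
    intro c _
    refine (sum_le_sum fun i hi => four_pt h c (sp_sub hi h1 h2) (sp_sub hj h3 h4)).trans ?_
    rw [← mul_sum]
    simp only [sum_add_distrib]
    have d1 := fun z => dens2 hm z c hl l1 u1
    have d2 := fun z => dens2 hm z c hl l2 u2
    refine (mul_le_mul_of_nonneg_left (add_le_add (add_le_add (add_le_add (d1 _) (d1 _)) (d2 _))
      (d2 _)) (by positivity)).trans (le_of_eq (by ring))
  refine (sum_le_sum e2).trans ?_
  rw [← mul_sum]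
  exact (mul_le_mul_of_nonneg_left (sum_min ha hb k) (by positivity)).trans (le_of_eq (by ring))

theorem sum_two (k : ℕ) : ∑ c ∈ range k, (2 : ℝ) ^ c ≤ 2 ^ k := by
  induction k with
  | zero => simp
  | succ k ih => rw [sum_range_succ, pow_succ]; linarith

theorem V_sq (h : Bd e C) (k : ℕ) {m : ℕ} (hm : 0 < m) {A B : E 2} {l : ℝ} (hl : 0 < l)
    (l1 : l ≤ ‖B - A‖) (u1 : ‖B - A‖ ≤ m) :
    ‖V (Y e k) m A B‖ ^ 2 ≤ 6 * C ^ 2 * exp C / l * 2 ^ k := by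
  rw [← real_inner_self_eq_norm_sq, V]
  refine avg_le hm hm _ _ fun j _ => ?_
  have e1 : ∀ i ∈ range m, ⟪Y e k (sp m A B i), Y e k (sp m A B j)⟫_ℝ = ∑ c ∈ range k,
      ⟪e c (sp m A B i), e c (sp m A B j)⟫_ℝ := fun i _ =>
    inner_sum_orth _ _ fun c c' hc => h.orth _ _ hc _ _
  rw [sum_congr rfl e1, sum_comm]
  have e2 : ∀ c ∈ range k, ∑ i ∈ range m, ⟪e c (sp m A B i), e c (sp m A B j)⟫_ℝ ≤
      6 * C ^ 2 * exp C * m / l * 2 ^ c := by
    intro c _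
    refine (sum_le_sum fun i _ => one_pt h c _ _).trans ?_
    rw [← mul_sum]
    exact (mul_le_mul_of_nonneg_left (dens2 hm _ c hl l1 u1) (by positivity)).trans
      (le_of_eq (by ring))
  refine (sum_le_sum e2).trans ?_
  rw [← mul_sum]
  exact (mul_le_mul_of_nonneg_left (sum_two k) (by positivity)).trans (le_of_eq (by ring))

theorem V_sq' (h : Bd e C) (k : ℕ) {m : ℕ} (hm : 0 < m) (A B : E 2) :
    ‖V (Y e k) m A B‖ ^ 2 ≤ C ^ 2 * k := by
  rw [← real_inner_self_eq_norm_sq, V]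
  refine avg_le hm hm _ _ fun j _ => ?_
  have e1 : ∀ i ∈ range m, ⟪Y e k (sp m A B i), Y e k (sp m A B j)⟫_ℝ ≤ C ^ 2 * k := fun i _ => by
    rw [Y, Y, inner_sum_orth _ _ fun c c' hc => h.orth _ _ hc _ _]
    have := sum_le_sum (s := range k) fun c _ => (real_inner_le_norm (e c (sp m A B i))
      (e c (sp m A B j))).trans (mul_le_mul (h.nrm c _) (h.nrm c _) (norm_nonneg _)
        ((norm_nonneg _).trans (h.nrm c A)))
    rw [sum_const, card_range, nsmul_eq_mul] at this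
    linarith
  simpa using sum_le_sum e1

theorem Y_lip (h : Bd e C) (k : ℕ) (x y : E 2) : ‖Y e k x - Y e k y‖ ≤ 2 * C * ‖x - y‖ := by
  have C0 : 0 ≤ C := (norm_nonneg _).trans (h.nrm 0 x)
  rw [Y, Y, ← sum_sub_distrib]
  refine (norm_sum_le _ _).trans ((sum_le_sum fun c _ => h.lip c x y).trans ?_)
  simp only [div_eq_mul_inv, ← inv_pow, ← mul_sum]
  have := sum_geometric_two_le k
  simp only [one_div] at this
  nlinarith [mul_le_mul_of_nonneg_left this (mul_nonneg C0 (norm_nonneg (x - y)))]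

theorem Y_V (h : Bd e C) (k : ℕ) {m : ℕ} (hm : 0 < m) {x A B : E 2} {r : ℝ} (h1 : ‖A - x‖ ≤ r)
    (h2 : ‖B - x‖ ≤ r) : ‖Y e k x - V (Y e k) m A B‖ ≤ 2 * C * r := by
  have m0 : (0 : ℝ) < m := Nat.cast_pos.2 hm
  have C0 : 0 ≤ C := (norm_nonneg _).trans (h.nrm 0 x)
  have e1 : Y e k x - V (Y e k) m A B =
      (m : ℝ)⁻¹ • ∑ i ∈ range m, (Y e k x - Y e k (sp m A B i)) := by
    rw [sum_sub_distrib, sum_const, card_range, smul_sub, V,
      ← Nat.cast_smul_eq_nsmul ℝ, smul_smul, inv_mul_cancel₀ m0.ne', one_smul]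
  have f : ∀ i ∈ range m, ‖Y e k x - Y e k (sp m A B i)‖ ≤ 2 * C * r := fun i hi =>
    (Y_lip h k _ _).trans (mul_le_mul_of_nonneg_left (by
      rw [norm_sub_rev]
      simpa [sp] using sp_sub hi (A := x) (B := x) h1 h2) (by positivity))
  have g := (norm_sum_le _ _).trans (sum_le_sum f)
  rw [sum_const, card_range, nsmul_eq_mul] at g
  rw [e1, norm_smul, Real.norm_of_nonneg (by positivity), inv_mul_le_iff₀ m0]
  exact g

end Pool.Agent.GU.Low
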