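import Pool.Agent.Lib.MP_438f30_pr.U.LowA

/-! The time dyadic tree: variance of a branch, one step, and the induction. -/

namespace Pool.Agent.GU.Low

open Real Finset Pool.Agent.Lib.MP_a0a493_pr
open Pool.Agent.GLA (V V_two St Sg hc hh Ls cons_mem pt_le round_ex norm_near par_mid hc_pos Adm)
open scoped InnerProductSpace

variable {H : Type} [NormedAddCommGroup H] [InnerProductSpace ℝ H] {Ev : E 2 → H} {G : ℝ}

/-- the two children of a segment -/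
noncomputable def kid (μ : ℝ) (σ : Sg) (z : Fin 4 → Zd 2) : Bool → Sg
  | false => (σ.1 + μ • pt (z 0), midpoint ℝ σ.1 σ.2 + μ • pt (z 1))
  | true => (midpoint ℝ σ.1 σ.2 + μ • pt (z 2), σ.2 + μ • pt (z 3))

/-- the last segment of a branch -/
noncomputable def seg (μ : ℝ) (h : ℕ) (σ : Sg) : List St → Sg
  | [] => σ
  | c :: L => kid (μ * 2 ^ (h - (L.length + 1))) (seg μ h σ L) c.1 c.2

/-- the increment of the averages at a node -/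
noncomputable def nu (Ev : E 2 → H) (μ : ℝ) (m : ℕ) (σ : Sg) (z : Fin 4 → Zd 2) : H :=
  (1 / 2 : ℝ) • (V Ev m (kid μ σ z false).1 (kid μ σ z false).2 +
    V Ev m (kid μ σ z true).1 (kid μ σ z true).2) - V Ev (2 * m) σ.1 σ.2

/-- the sum of the increments along a branch -/
noncomputable def SS (Ev : E 2 → H) (μ : ℝ) (M h : ℕ) (σ : Sg) : List St → H
  | [] => 0
  | c :: L => SS Ev μ M h σ L +
      nu Ev (μ * 2 ^ (h - (L.length + 1))) (M * 2 ^ (h - (L.length + 1))) (seg μ h σ L) c.1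

/-- the vector of a branch ending at a point -/
noncomputable def uu (Ev : E 2 → H) (μ : ℝ) (M h : ℕ) (σ : Sg) (L : List St) (y : E 2) : H :=
  V Ev (M * 2 ^ h) σ.1 σ.2 + SS Ev μ M h σ L +
    (Ev y - V Ev (M * 2 ^ (h - L.length)) (seg μ h σ L).1 (seg μ h σ L).2)

theorem uu_mem {K : Submodule ℝ H} (hK : ∀ y, Ev y ∈ K) (μ : ℝ) (M h : ℕ) (σ : Sg) (L : List St)
    (y : E 2) : uu Ev μ M h σ L y ∈ K := by
  have a : ∀ m A B, V Ev m A B ∈ K := fun m A B => K.smul_mem _ (K.sum_mem fun _ _ => hK _)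
  have b : ∀ L, SS Ev μ M h σ L ∈ K := fun L => by
    induction L with
    | nil => exact K.zero_mem
    | cons c L ih => exact K.add_mem ih (K.sub_mem (K.smul_mem _ (K.add_mem (a ..) (a ..))) (a ..))
  exact K.add_mem (K.add_mem (a ..) (b L)) (K.sub_mem (hK y) (a ..))

/-- the invariant of the sum along a branch -/
def Inv (Ev : E 2 → H) (G : ℝ) (S : H) (l T : ℝ) : Prop :=
  ∃ X, 0 ≤ X ∧ (∀ ν b, Adm Ev ν b → ⟪S, ν⟫_ℝ ≤ G * (b * X)) ∧ ‖S‖ ^ 2 + G * (l * X ^ 2) ≤ 6 * G * T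

theorem inv_step (h : Gm Ev G) (G0 : 0 ≤ G) {m : ℕ} (hm : 0 < m) {σ : Sg} (z : Fin 4 → Zd 2)
    {μ l r T : ℝ} (m0 : 0 < μ) (l0 : 0 < l) (hr : μ = r * l) (h1 : 2 * l ≤ ‖σ.2 - σ.1‖)
    (h2 : ‖σ.2 - σ.1‖ ≤ 2 * m) (hc1 : ∀ b, l ≤ ‖(kid μ σ z b).2 - (kid μ σ z b).1‖)
    (hc2 : ∀ b, ‖(kid μ σ z b).2 - (kid μ σ z b).1‖ ≤ m)
    {S : H} (hS : Inv Ev G S l T) : Inv Ev G (S + nu Ev μ m σ z) (l / 2) (T + r * hc z) := by
  obtain ⟨X, X0, hX, hS⟩ := hS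
  have c0 := hc_pos z
  obtain ⟨a, ha⟩ : ∃ a, a = √(μ * hc z) := ⟨_, rfl⟩
  have a0 : 0 < a := by rw [ha]; positivity
  have a2 : a ^ 2 = μ * hc z := by rw [ha, sq_sqrt (by positivity)]
  have dz : ∀ (p : E 2) i, ‖p + μ • pt (z i) - p‖ ≤ a ^ 2 := fun p i => by
    rw [add_sub_cancel_left, norm_smul, Real.norm_of_nonneg m0.le, a2]
    exact mul_le_mul_of_nonneg_left (pt_le z i) m0.le
  have e1 : ‖midpoint ℝ σ.1 σ.2 - σ.1‖ = ‖σ.2 - σ.1‖ / 2 := by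
    rw [← dist_eq_norm, dist_midpoint_left, dist_eq_norm, norm_sub_rev]; norm_num; ring
  have e2 : ‖σ.2 - midpoint ℝ σ.1 σ.2‖ = ‖σ.2 - σ.1‖ / 2 := by
    rw [← dist_eq_norm, dist_right_midpoint, dist_eq_norm, norm_sub_rev]; norm_num; ring
  obtain ⟨ν1, k1⟩ : ∃ ν1, ν1 = V Ev m (kid μ σ z false).1 (kid μ σ z false).2 -
    V Ev m σ.1 (midpoint ℝ σ.1 σ.2) := ⟨_, rfl⟩
  obtain ⟨ν2, k2⟩ : ∃ ν2, ν2 = V Ev m (kid μ σ z true).1 (kid μ σ z true).2 -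
    V Ev m (midpoint ℝ σ.1 σ.2) σ.2 := ⟨_, rfl⟩
  have e : nu Ev μ m σ z = (1 / 2 : ℝ) • (ν1 + ν2) := by
    rw [nu, V_two hm, k1, k2]; module
  have A1 : Adm Ev ν1 a := ⟨a0, m, hm, _, _, _, _, dz _ 0, dz _ 1, k1⟩
  have A2 : Adm Ev ν2 a := ⟨a0, m, hm, _, _, _, _, dz _ 2, dz _ 3, k2⟩
  have g : ∀ ν b, Adm Ev ν b → ⟪nu Ev μ m σ z, ν⟫_ℝ ≤ G * (a * b / l) := by
    rintro ν b ⟨b0, m', hm', C, D, C', D', j1, j2, rfl⟩
    have g1 := h m m' hm hm' _ _ _ _ _ _ _ _ a b l a0 b0 l0 (dz _ 0) (dz _ 1) j1 j2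
      (by rw [e1]; linarith) (hc1 false) (by rw [e1]; linarith) (hc2 false)
    have g2 := h m m' hm hm' _ _ _ _ _ _ _ _ a b l a0 b0 l0 (dz _ 2) (dz _ 3) j1 j2
      (by rw [e2]; linarith) (hc1 true) (by rw [e2]; linarith) (hc2 true)
    rw [e, real_inner_smul_left, inner_add_left, k1, k2]
    simp only [kid]
    linarith
  have half : ∀ (u : H) (c : ℝ), ⟪u, ν1⟫_ℝ ≤ c → ⟪u, ν2⟫_ℝ ≤ c → ⟪u, nu Ev μ m σ z⟫_ℝ ≤ c := by
    intro u c j1 j2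
    rw [e, real_inner_smul_right, inner_add_right]
    linarith
  have n1 := half _ _ (hX _ _ A1) (hX _ _ A2)
  have n2 := half _ _ (g _ _ A1) (g _ _ A2)
  rw [real_inner_self_eq_norm_sq] at n2
  obtain ⟨ρ, hρ⟩ : ∃ ρ, ρ = a / l := ⟨_, rfl⟩
  have ρ0 : 0 < ρ := by rw [hρ]; positivity
  have ea : a = ρ * l := by rw [hρ]; field_simp
  refine ⟨X + ρ, by positivity, fun ν b hb => ?_, ?_⟩
  · have k : a * b / l = b * ρ := by rw [ea]; field_simp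
    have := g ν b hb
    rw [k] at this
    rw [inner_add_left]
    linarith [hX ν b hb]
  · have k : a * a / l = l * ρ ^ 2 := by rw [ea]; field_simp
    have k3 : r * hc z = l * ρ ^ 2 := by
      have : l * ρ ^ 2 * l = r * hc z * l := by rw [ea, hr] at a2; linarith
      exact (mul_right_cancel₀ l0.ne' this).symm
    have k4 : 2 * (ρ * l * X) + l * ρ ^ 2 + l / 2 * (X + ρ) ^ 2 ≤ l * X ^ 2 + 6 * (l * ρ ^ 2) := by
      nlinarith [mul_nonneg l0.le (sq_nonneg (X - 3 * ρ))]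
    rw [k] at n2
    rw [ea] at n1
    rw [norm_add_sq_real, k3]
    nlinarith [mul_le_mul_of_nonneg_left k4 G0]

theorem geo {μ ρ : ℝ} (m0 : 0 < μ) {Z : ℤ} (hZ : 2 * ρ + 3 ≤ Z) {σ : Sg} {xa xb xc : E 2}
    (ha : ‖xa - σ.1‖ ≤ 2 * μ) (hb : ‖xb - σ.2‖ ≤ 2 * μ) (ρ0 : 0 ≤ ρ)
    (c1 : dist xc (midpoint ℝ xa xb) ≤ 2 * ρ * μ) :
    ∃ z : Fin 4 → Zd 2, (∀ i j, |z i j| ≤ Z) ∧ hc z ≤ 41 + 4 * ρ ^ 2 ∧
      ‖xa - (kid μ σ z false).1‖ ≤ μ ∧ ‖xc - (kid μ σ z false).2‖ ≤ μ ∧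
      ‖xc - (kid μ σ z true).1‖ ≤ μ ∧ ‖xb - (kid μ σ z true).2‖ ≤ μ := by
  have mm : dist (midpoint ℝ xa xb) (midpoint ℝ σ.1 σ.2) ≤ 2 * μ := by
    have := dist_midpoint_midpoint_le xa xb σ.1 σ.2
    rw [dist_eq_norm xa, dist_eq_norm xb] at this
    linarith
  have y0 : ∀ y : E 2, ‖y‖ ≤ 2 * μ → ‖y‖ / μ + 1 / 2 ≤ 2.5 := fun y hy => by
    have : ‖y‖ / μ ≤ 2 := by rwa [div_le_iff₀ m0]
    linarith
  have y1 : ‖xc - midpoint ℝ σ.1 σ.2‖ / μ + 1 / 2 ≤ 2 * ρ + 2.5 := by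
    have : ‖xc - midpoint ℝ σ.1 σ.2‖ / μ ≤ 2 * ρ + 2 := by
      rw [div_le_iff₀ m0, ← dist_eq_norm]
      linarith [dist_triangle xc (midpoint ℝ xa xb) (midpoint ℝ σ.1 σ.2)]
    linarith
  obtain ⟨z0, r0, s0⟩ := round_ex m0 (xa - σ.1)
  obtain ⟨z1, r1, s1⟩ := round_ex m0 (xc - midpoint ℝ σ.1 σ.2)
  obtain ⟨z3, r3, s3⟩ := round_ex m0 (xb - σ.2)
  replace s0 := fun j => (s0 j).trans (y0 _ ha)
  replace s1 := fun j => (s1 j).trans y1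
  replace s3 := fun j => (s3 j).trans (y0 _ hb)
  rw [sub_sub] at r0 r1 r3
  refine ⟨![z0, z1, z1, z3], fun i j => ?_, ?_, ?_⟩
  · have k : ∀ y : ℤ, |(y : ℝ)| ≤ 2 * ρ + 2.5 → |y| ≤ Z := fun y hy => by
      exact_mod_cast hy.trans (show 2 * ρ + 2.5 ≤ (Z : ℝ) by linarith)
    fin_cases i
    exacts [k _ ((s0 j).trans (by linarith)), k _ (s1 j), k _ (s1 j), k _ ((s3 j).trans (by linarith))]
  · simp only [hc, Fin.sum_univ_four, Fin.sum_univ_two, Matrix.cons_val]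
    nlinarith [s0 0, s0 1, s1 0, s1 1, s3 0, s3 1, sq_nonneg (ρ - 1)]
  · simp only [kid, Matrix.cons_val]
    exact ⟨r0, r1, r1, r3⟩

theorem main_ind (hG : Gm Ev G) (G0 : 0 ≤ G) {C₁ C' μ : ℝ} (c1 : 1 ≤ C₁) (c2 : 1 ≤ C') (m0 : 0 < μ)
    (m1 : μ * (8 * C') ≤ 1) {Z : ℤ} (hZ : 2 * (C₁ / μ) + 3 ≤ Z) {M h : ℕ} (hM : 2 * C₁ ≤ M) {σ : Sg}
    {x : ℕ → E 2} (up : ∀ i j : ℕ, i + j ≤ 2 ^ h → ‖x (i + j) - x i‖ ≤ C₁ * j)
    (lo : ∀ i j : ℕ, i + j ≤ 2 ^ h → (j : ℝ) ≤ C' * (‖x (i + j) - x i‖ + 1))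
    (w : H →ₗ[ℝ] ℝ) {Bd lam : ℝ} (l0 : 0 ≤ lam)
    (hB : ∀ (L : List St) (i : ℕ) (Eh : ℝ), i ≤ 2 ^ h → L ∈ Ls Z L.length → L.length ≤ h →
      ‖SS Ev μ M h σ L‖ ^ 2 ≤ 6 * G * (4 * C' * μ * hh L) →
      ‖(seg μ h σ L).1 - x i‖ ≤ 8 * C₁ * C' → ‖(seg μ h σ L).2 - x i‖ ≤ 8 * C₁ * C' →
      hh L ≤ 41 * L.length + Eh / μ ^ 2 → -Bd ≤ w (uu Ev μ M h σ L (x i)) + lam * Eh)
    (n : ℕ) : ∀ (a : ℕ) (L : List St) (Eh : ℝ), L.length + n = h → a + 2 ^ n ≤ 2 ^ h →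
      L ∈ Ls Z L.length → ‖x a - (seg μ h σ L).1‖ ≤ μ * 2 ^ n →
      ‖x (a + 2 ^ n) - (seg μ h σ L).2‖ ≤ μ * 2 ^ n →
      Inv Ev G (SS Ev μ M h σ L) (2 ^ n / (8 * C')) (4 * C' * μ * hh L) →
      hh L ≤ 41 * L.length + Eh / μ ^ 2 →
      0 ≤ 2 ^ n * (Bd + w (V Ev (M * 2 ^ h) σ.1 σ.2 + SS Ev μ M h σ L) -
        w (V Ev (M * 2 ^ n) (seg μ h σ L).1 (seg μ h σ L).2) +
        lam * (Eh + C₁ ^ 2 - (‖x (a + 2 ^ n) - x a‖ / 2 ^ n) ^ 2)) +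
        ∑ i ∈ range (2 ^ n), w (Ev (x (a + i))) := by
  have m2 : μ ≤ 1 / 8 := by nlinarith
  have leaf : ∀ (n a : ℕ) (L : List St) (Eh : ℝ), (2 : ℝ) ^ n ≤ 4 * C' → L.length + n = h →
      a + 2 ^ n ≤ 2 ^ h → L ∈ Ls Z L.length → ‖x a - (seg μ h σ L).1‖ ≤ μ * 2 ^ n →
      ‖x (a + 2 ^ n) - (seg μ h σ L).2‖ ≤ μ * 2 ^ n →
      Inv Ev G (SS Ev μ M h σ L) (2 ^ n / (8 * C')) (4 * C' * μ * hh L) →
      hh L ≤ 41 * L.length + Eh / μ ^ 2 →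
      0 ≤ 2 ^ n * (Bd + w (V Ev (M * 2 ^ h) σ.1 σ.2 + SS Ev μ M h σ L) -
        w (V Ev (M * 2 ^ n) (seg μ h σ L).1 (seg μ h σ L).2) +
        lam * (Eh + C₁ ^ 2 - (‖x (a + 2 ^ n) - x a‖ / 2 ^ n) ^ 2)) +
        ∑ i ∈ range (2 ^ n), w (Ev (x (a + i))) := by
    intro n a L Eh hn hL ha hZ' e1 e2 ⟨X, _, _, hI⟩ hE
    have R0 : (0 : ℝ) < 2 ^ n := by positivity
    have s1 : (‖x (a + 2 ^ n) - x a‖ / 2 ^ n) ^ 2 ≤ C₁ ^ 2 :=
      pow_le_pow_left₀ (by positivity) (by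
        rw [div_le_iff₀ R0]; exact_mod_cast up a _ ha) 2
    have s2 : ∀ i ∈ range (2 ^ n), -(Bd + w (V Ev (M * 2 ^ h) σ.1 σ.2 + SS Ev μ M h σ L) -
        w (V Ev (M * 2 ^ n) (seg μ h σ L).1 (seg μ h σ L).2) + lam * Eh) ≤ w (Ev (x (a + i))) := by
      intro i hi
      have hi' := mem_range.1 hi
      have i1 : (i : ℝ) ≤ 2 ^ n := by exact_mod_cast hi'.le
      have i2 : ((2 ^ n - i : ℕ) : ℝ) ≤ 2 ^ n := by exact_mod_cast Nat.sub_le _ _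
      have u1 := up a i (by omega)
      have u2 := up (a + i) (2 ^ n - i) (by omega)
      rw [show a + i + (2 ^ n - i) = a + 2 ^ n by omega] at u2
      have t1 := norm_sub_le_norm_sub_add_norm_sub (seg μ h σ L).1 (x a) (x (a + i))
      have t2 := norm_sub_le_norm_sub_add_norm_sub (seg μ h σ L).2 (x (a + 2 ^ n)) (x (a + i))
      rw [norm_sub_rev] at e1 e2 u1
      have q1 := mul_le_mul_of_nonneg_left i1 (zero_le_one.trans c1)
      have q2 := mul_le_mul_of_nonneg_left i2 (zero_le_one.trans c1)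
      have q3 := mul_le_mul_of_nonneg_left hn (zero_le_one.trans c1)
      have q4 := mul_le_mul_of_nonneg_right (show μ ≤ C₁ by linarith) R0.le
      have := hB L (a + i) Eh (by omega) hZ' (by omega) (le_trans (le_add_of_nonneg_right
        (by positivity)) hI) (by linarith) (by linarith) hE
      rw [uu, show h - L.length = n by omega, map_add, map_sub] at this
      linarith
    have s3 := sum_le_sum s2
    rw [sum_const, card_range, nsmul_eq_mul] at s3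
    push_cast at s3
    nlinarith [mul_nonneg R0.le (mul_nonneg l0 (sub_nonneg.2 s1))]
  induction n with
  | zero => exact fun a L Eh => leaf 0 a L Eh (by linarith [pow_zero (2 : ℝ)])
  | succ n ih =>
    intro a L Eh hL ha hZ' e1 e2 hI hE
    rcases le_total ((2 : ℝ) ^ (n + 1)) (4 * C') with hn | hn
    · exact leaf _ a L Eh hn hL ha hZ' e1 e2 hI hE
    obtain ⟨R, hR⟩ : ∃ R : ℝ, R = 2 ^ n := ⟨_, rfl⟩
    have R0 : 0 < R := by rw [hR]; positivity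
    have eN : 2 ^ (n + 1) = 2 ^ n + 2 ^ n := by ring
    have ed : h - (L.length + 1) = n := by omega
    have ha' : a + 2 ^ n ≤ 2 ^ h :=
      (Nat.add_le_add_left (Nat.pow_le_pow_right two_pos n.le_succ) a).trans ha
    have u1 := up a (2 ^ n) ha'
    have u2 := up (a + 2 ^ n) (2 ^ n) (by omega)
    have u3 := up a _ ha
    have v1 := lo a (2 ^ n) ha'
    have v2 := lo (a + 2 ^ n) (2 ^ n) (by omega)
    have v3 := lo a _ ha
    have eb : a + 2 ^ n + 2 ^ n = a + 2 ^ (n + 1) := by omega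
    rw [eb] at u2 v2
    push_cast at u1 u2 u3 v1 v2 v3
    simp only [pow_succ' (2 : ℝ) n, ← hR] at e1 e2 hI hn u1 u2 u3 v1 v2 v3 ⊢
    obtain ⟨l, hl⟩ : ∃ l, l = 2 * R / (8 * C') := ⟨_, rfl⟩
    have el : R = 4 * C' * l := by rw [hl]; field_simp; ring
    have l1 : 0 < l := by rw [hl]; positivity
    have low : ∀ d : ℝ, R ≤ C' * (d + 1) → 2 * l ≤ d := fun d hd => by
      by_contra c
      nlinarith [mul_lt_mul_of_pos_left (not_le.1 c) (zero_lt_one.trans_le c2)]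
    have low2 : 4 * l ≤ ‖x (a + 2 ^ (n + 1)) - x a‖ := by
      by_contra c
      nlinarith [mul_lt_mul_of_pos_left (not_le.1 c) (zero_lt_one.trans_le c2)]
    have ml : 2 * (μ * R) ≤ l := by
      rw [el]; nlinarith [mul_le_mul_of_nonneg_right m1 l1.le]
    have mR : μ * R ≤ C₁ * R / 8 := by nlinarith [mul_le_mul_of_nonneg_right c1 R0.le]
    have MR := mul_le_mul_of_nonneg_right hM R0.le
    have pm := par_mid (x a) (x (a + 2 ^ (n + 1))) (x (a + 2 ^ n))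
    obtain ⟨ρ, hρ⟩ : ∃ ρ, ρ = dist (x (a + 2 ^ n)) (midpoint ℝ (x a) (x (a + 2 ^ (n + 1)))) /
      (2 * (μ * R)) := ⟨_, rfl⟩
    have ρ0 : 0 ≤ ρ := by rw [hρ]; positivity
    have eρ : dist (x (a + 2 ^ n)) (midpoint ℝ (x a) (x (a + 2 ^ (n + 1)))) = 2 * ρ * (μ * R) := by
      rw [hρ]; field_simp
    rw [eρ, dist_comm (x a) (x (a + 2 ^ n)), dist_comm _ (x (a + 2 ^ (n + 1))),
      dist_comm _ (x (a + 2 ^ (n + 1))), dist_eq_norm, dist_eq_norm, dist_eq_norm] at pm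
    have ρ1 : ρ ≤ C₁ / μ := by
      rw [le_div_iff₀ m0]
      refine le_of_mul_le_mul_right (abs_le_of_sq_le_sq' ?_ (by positivity)).2 R0
      nlinarith [pow_le_pow_left₀ (norm_nonneg _) u1 2, pow_le_pow_left₀ (norm_nonneg _) u2 2,
        sq_nonneg ‖x (a + 2 ^ (n + 1)) - x a‖, sq_nonneg (ρ * μ * R)]
    obtain ⟨z, z1, z2, r0, r1, r2, r3⟩ := geo (μ := μ * R) (ρ := ρ) (by positivity) (Z := Z)
      (by linarith) (σ := seg μ h σ L) (e1.trans_eq (by ring)) (e2.trans_eq (by ring)) ρ0 eρ.le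
    obtain ⟨n1, n2⟩ := norm_near e1 e2
    obtain ⟨n3, n4⟩ := norm_near r0 r1
    obtain ⟨n5, n6⟩ := norm_near r2 r3
    rw [dist_comm, dist_eq_norm] at n1 n2 n3 n4 n5 n6
    have cm : ((M * 2 ^ n : ℕ) : ℝ) = M * R := by rw [hR]; push_cast; ring
    have M0 : 0 < M := Nat.cast_pos.1 (show (0 : ℝ) < M by linarith)
    have st := inv_step hG G0 (m := M * 2 ^ n) (by positivity) (σ := seg μ h σ L) z (μ := μ * R)
      (r := 4 * C' * μ) (by positivity) l1 (by rw [el]; ring) (by linarith) (by rw [cm]; linarith)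
      (fun b => by cases b <;> linarith [low _ v1, low _ v2])
      (fun b => by cases b <;> rw [cm] <;> linarith) (hl ▸ hI)
    rw [← mul_add, show l / 2 = R / (8 * C') by rw [hl]; ring] at st
    have hE' : hh L + hc z ≤ 41 * (L.length + 1 : ℕ) + (Eh + 4 * (ρ * μ) ^ 2) / μ ^ 2 := by
      have : 4 * (ρ * μ) ^ 2 / μ ^ 2 = 4 * ρ ^ 2 := by field_simp
      push_cast
      rw [add_div, this]
      linarith
    have k1 := ih a ((z, false) :: L) (Eh + 4 * (ρ * μ) ^ 2) (by simp only [List.length_cons]; omega)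
      ha' (cons_mem z1 _ hZ') (by simpa only [seg, ed, ← hR] using r0)
      (by simpa only [seg, ed, ← hR] using r1) (by simpa only [SS, hh, ed, ← hR] using st) hE'
    have k2 := ih (a + 2 ^ n) ((z, true) :: L) (Eh + 4 * (ρ * μ) ^ 2)
      (by simp only [List.length_cons]; omega) (by omega) (cons_mem z1 _ hZ')
      (by simpa only [seg, ed, ← hR] using r2) (by simpa only [seg, ed, ← hR, eb] using r3)
      (by simpa only [SS, hh, ed, ← hR] using st) hE'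
    simp only [SS, seg, ed, ← hR, eb, nu, map_add, map_sub, map_smul, smul_eq_mul] at k1 k2
    have sp : ∑ i ∈ range (2 ^ (n + 1)), w (Ev (x (a + i))) = ∑ i ∈ range (2 ^ n), w (Ev (x (a + i))) +
        ∑ i ∈ range (2 ^ n), w (Ev (x (a + 2 ^ n + i))) := by
      rw [eN, sum_range_add]; simp only [add_assoc]
    have pq : (‖x (a + 2 ^ n) - x a‖ / R) ^ 2 + (‖x (a + 2 ^ (n + 1)) - x (a + 2 ^ n)‖ / R) ^ 2 =
        2 * (‖x (a + 2 ^ (n + 1)) - x a‖ / (2 * R)) ^ 2 + 8 * (ρ * μ) ^ 2 := by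
      field_simp
      linarith
    rw [sp, map_add, show M * 2 ^ (n + 1) = 2 * (M * 2 ^ n) by ring]
    have pq' := congrArg (fun t => R * lam * t) pq
    linarith

end Pool.Agent.GU.Low
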