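import Pool.Agent.Lib.MP_438f30_pr.U.St2

/-! Existence of medians. -/

namespace Pool.Agent.GU

open MeasureTheory Real Finset Filter Topology Pool.Agent.Lib.MP_a0a493_pr Pool.Agent.GL
open scoped InnerProductSpace

namespace MdP

variable {Ω : Type} [MeasurableSpace Ω] {P : Measure Ω} [IsProbabilityMeasure P]

theorem ex_half {V : ℕ → Set Ω} (hm : Monotone V) (hu : ∀ ω, ∃ p, ω ∈ V p) :
    ∃ p, 1 / 2 ≤ P.real (V p) := by
  have e : ⋃ p, V p = Set.univ := Set.eq_univ_of_forall fun ω => Set.mem_iUnion.2 (hu ω)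
  have t := tendsto_measure_iUnion_atTop (μ := P) hm
  rw [e, measure_univ] at t
  have t2 := (ENNReal.tendsto_toReal ENNReal.one_ne_top).comp t
  rw [ENNReal.toReal_one] at t2
  exact (t2.eventually (eventually_ge_nhds (by norm_num : (1 / 2 : ℝ) < 1))).exists

theorem med {U : ℝ → Set Ω} (hm : Monotone U) (hU : ∀ x, MeasurableSet (U x))
    (h0 : ∀ ω, ∃ x, 0 < x ∧ ω ∉ U x) (h1 : ∀ ω, ∃ x, ω ∈ U x) :
    ∃ m, 0 < m ∧ 1 / 2 ≤ P.real (U m) ∧ P.real (U (m / 2)) ≤ 1 / 2 := by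
  classical
  obtain ⟨p₀, hp⟩ := ex_half (P := P) (V := fun p => (U ((1 / 2) ^ p))ᶜ)
    (fun p q h => Set.compl_subset_compl.2 (hm (pow_le_pow_of_le_one (by norm_num) (by norm_num) h)))
    fun ω => by
      obtain ⟨x, x0, hx⟩ := h0 ω
      obtain ⟨p, hp⟩ := exists_pow_lt_of_lt_one x0 (by norm_num : (1 / 2 : ℝ) < 1)
      exact ⟨p, fun k => hx (hm hp.le k)⟩
  rw [probReal_compl_eq_one_sub (hU _)] at hp
  obtain ⟨ε, he⟩ : ∃ ε : ℝ, ε = (1 / 2) ^ p₀ := ⟨_, rfl⟩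
  have e0 : 0 < ε := by rw [he]; positivity
  rw [← he] at hp
  have ex := ex_half (P := P) (V := fun p => U (ε * 2 ^ (p + 1)))
    (fun p q h => hm (mul_le_mul_of_nonneg_left
      (pow_le_pow_right₀ one_le_two (Nat.succ_le_succ h)) e0.le))
    fun ω => by
      obtain ⟨x, hx⟩ := h1 ω
      obtain ⟨p, hp⟩ := pow_unbounded_of_one_lt (x / ε) (one_lt_two (α := ℝ))
      refine ⟨p, hm ?_ hx⟩
      rw [div_lt_iff₀ e0] at hp
      have : (0 : ℝ) < ε * 2 ^ p := by positivity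
      rw [pow_succ]
      linarith
  refine ⟨ε * 2 ^ (Nat.find ex + 1), by positivity, Nat.find_spec ex, ?_⟩
  rw [pow_succ, ← mul_assoc, mul_div_cancel_right₀ _ two_ne_zero]
  rcases e : Nat.find ex with _ | q
  · rw [pow_zero, mul_one]
    linarith
  · exact (not_le.1 (Nat.find_min ex (m := q) (by omega))).le

theorem gram {H : Type} [NormedAddCommGroup H] [InnerProductSpace ℝ H] {a : ℕ → E 2 → H} {C0 : ℕ}
    (bf : BF a C0) (k : ℕ) (x y : E 2) :
    ⟪A a k x, A a k y⟫_ℝ = ∑ b ∈ range (k + 1), ⟪a b x, a b y⟫_ℝ := by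
  rw [A, A, sum_inner]
  refine sum_congr rfl fun b hb => ?_
  rw [inner_sum]
  exact sum_eq_single_of_mem b hb fun b' _ h => bf.orth b b' h.symm x y

end MdP

theorem md : sMd := by
  intro Ω H _ _ _ P _ W a C0 ξ η h
  have key : ∀ k : ℕ, ∃ m : ℝ, 0 < m ∧ ∀ v, 1 / 2 ≤ P.real {ω | LL (X W a ξ k ω) k v m} ∧
      1 / 2 ≤ P.real {ω | ¬ LL (X W a ξ k ω) k v (m / 2)} := fun k => by
    have c := p2 k
    have ms : ∀ v x, MeasurableSet {ω | LL (X W a ξ k ω) k v x} := fun v x =>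
      h.ml.le _ (X W a ξ k) v _ _ _ x fun y _ => h.iso.meas _
    have inv := (h.ml.ll h.iso (fun v => ξ • A a k (pt v)) fun v w v' w' e => by
      simp only [real_inner_smul_left, real_inner_smul_right, MdP.gram h.bf]
      rw [sum_congr rfl fun b _ => h.bf.rot b _ _ _ _ e]).1 k
    obtain ⟨m, m0, m1, m2⟩ := MdP.med (P := P) (U := fun x => {ω | LL (X W a ξ k ω) k 0 x})
      (fun x y hxy ω hω => Le.mono hω hxy) (ms 0)
      (fun ω => by
        obtain ⟨x, x0, hx⟩ : ∃ x : ℝ, 0 < x ∧ ∀ S ∈ Gam 0 (2 ^ k) (4 * 2 ^ k) (0 + ![5 * 2 ^ k, 0]),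
            x < cs (X W a ξ k ω) S := by
          have e : ∀ᶠ x in 𝓝[>] (0 : ℝ), ∀ S ∈ Gam 0 (2 ^ k) (4 * 2 ^ k) (0 + ![5 * 2 ^ k, 0]),
              x < cs (X W a ξ k ω) S := (eventually_all_finset _).2 fun S hS => by
            obtain ⟨-, u, u', -, -, hu⟩ := (mem_Gam (by omega)).1 hS
            exact nhdsWithin_le_nhds (eventually_lt_nhds ((exp_pos _).trans_le (le_cs hu.1)))
          exact (eventually_mem_nhdsWithin.and e).exists
        refine ⟨x, x0, fun hω => ?_⟩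
        obtain ⟨S, hS, hc⟩ := (le_iff (by omega)).1 hω
        exact absurd (hx S hS) (not_lt.2 hc))
      fun ω => by
        have n : Near (5 * 2 ^ k) (0 : Z2) (0 + ![5 * 2 ^ k, 0]) := fun i => by
          fin_cases i <;> simp
        obtain ⟨S, s1, -⟩ := h.rt 0 (0 + ![5 * 2 ^ k, 0]) 0 (-1) (5 * 2 ^ k) (5 * 2 ^ k) le_rfl
          (by omega) n (fun k => by simpa using near_nonneg k)
          (fun k => by simpa using near_nonneg k) (near_refl (by omega) _) n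
        exact ⟨_, s1.le (near_refl c.le _) (by omega) (Or.inl rfl)⟩
    refine ⟨m, m0, fun v => ⟨m1.trans (inv v m).ge, ?_⟩⟩
    have e := probReal_compl_eq_one_sub (μ := P) (ms v (m / 2))
    have e2 : P.real {ω | LL (X W a ξ k ω) k v (m / 2)} ≤ 1 / 2 := (inv v (m / 2)).le.trans m2
    exact le_of_le_of_eq (by linarith) e.symm
  choose μ hμ using key
  exact ⟨μ, hμ⟩

end Pool.Agent.GU
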