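import Pool.Agent.Lib.MP_438f30_pr.Base
import Pool.Agent.Lib.MP_a0a493_pr.SLaw

/-! Upper bound for the length of geodesics: definitions and statements of the tools. -/

namespace Pool.Agent.GU

open MeasureTheory ProbabilityTheory Real Finset Pool.Agent.Lib.MP_a0a493_pr Pool.Agent.GL
open scoped InnerProductSpace

abbrev Z2 : Type := Zd 2

/-- nearest neighbours -/
def Adj (x y : Z2) : Prop := ∑ j, |y j - x j| = 1

/-- `p` and `q` are joined inside `S` -/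
def Cn (S : Set Z2) (p q : Z2) : Prop :=
  p ∈ S ∧ Relation.ReflTransGen (fun x y => y ∈ S ∧ Adj x y) p q

theorem Adj.symm {x y : Z2} (h : Adj x y) : Adj y x := by
  unfold Adj at *
  simpa only [abs_sub_comm] using h

theorem Adj.near {x y : Z2} (h : Adj x y) : Near 1 x y := fun i => by
  have := single_le_sum (f := fun j => |y j - x j|) (fun j _ => abs_nonneg _) (mem_univ i)
  rw [abs_sub_comm]
  exact this.trans h.le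

theorem adj_single (x : Z2) (e : Fin 2) : Adj x (x + Pi.single e 1) := by
  fin_cases e <;> simp [Adj]

theorem Adj.cases {x y : Z2} (h : Adj x y) :
    ∃ e : Fin 2, y = x + Pi.single e 1 ∨ x = y + Pi.single e 1 := by
  simp only [Adj, Fin.sum_univ_two] at h
  have k : ∀ (u v : Z2) (e : Fin 2), (u 0 = v 0 + (if 0 = e then 1 else 0) ∧
      u 1 = v 1 + (if 1 = e then 1 else 0)) → u = v + Pi.single e 1 := fun u v e k => by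
    funext i
    fin_cases i
    · simpa [Pi.single_apply] using k.1
    · simpa [Pi.single_apply] using k.2
  rcases abs_cases (y 0 - x 0) with a | a <;> rcases abs_cases (y 1 - x 1) with b | b <;>
    by_cases c : y 0 = x 0
  all_goals first
    | exact ⟨0, Or.inl (k _ _ _ (by simp; omega))⟩
    | exact ⟨0, Or.inr (k _ _ _ (by simp; omega))⟩
    | exact ⟨1, Or.inl (k _ _ _ (by simp; omega))⟩
    | exact ⟨1, Or.inr (k _ _ _ (by simp; omega))⟩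

theorem Cn.refl {S : Set Z2} {p : Z2} (h : p ∈ S) : Cn S p p := ⟨h, .refl⟩

theorem Cn.tail {S : Set Z2} {p x y : Z2} (h : Cn S p x) (hy : y ∈ S) (hn : Adj x y) :
    Cn S p y := ⟨h.1, h.2.tail ⟨hy, hn⟩⟩

theorem Cn.induct {S : Set Z2} {p : Z2} {R : Z2 → Prop} (h0 : R p)
    (h1 : ∀ x y, Cn S p x → R x → y ∈ S → Adj x y → R y) {q : Z2} (h : Cn S p q) : R q := by
  obtain ⟨hp, h⟩ := h
  induction h with
  | refl => exact h0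
  | tail a b ih => exact h1 _ _ ⟨hp, a⟩ ih b.1 b.2

theorem Cn.mem {S : Set Z2} {p q : Z2} (h : Cn S p q) : q ∈ S :=
  h.induct (R := fun x => x ∈ S) h.1 fun _ _ _ _ hy _ => hy

theorem Cn.trans {S : Set Z2} {p q r : Z2} (h : Cn S p q) (h' : Cn S q r) : Cn S p r :=
  ⟨h.1, h.2.trans h'.2⟩

theorem Cn.symm {S : Set Z2} {p q : Z2} (h : Cn S p q) : Cn S q p :=
  h.induct (R := fun x => Cn S x p) (.refl h.1) fun _ _ hx ih hy hn =>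
    ((Cn.refl hy).tail hx.mem hn.symm).trans ih

theorem Cn.mono {S T : Set Z2} {p q : Z2} (h : Cn S p q) (hT : S ⊆ T) : Cn T p q :=
  h.induct (R := fun x => Cn T p x) (.refl (hT h.1)) fun _ _ _ ih hy hn => ih.tail (hT hy) hn

/-- the square of radius `R` about `v` -/
def Q (v : Z2) (R : ℤ) : Set Z2 := {x | Near R v x}

/-- the cost of a set of sites -/
noncomputable def cs (f : Z2 → ℝ) (S : Finset Z2) : ℝ := ∑ v ∈ S, exp (f v)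

/-- `p` and `q` are joined inside `D` at cost at most `x` -/
def Tr (f : Z2 → ℝ) (D : Set Z2) (p q : Z2) (x : ℝ) : Prop :=
  ∃ S : Finset Z2, ↑S ⊆ D ∧ Cn ↑S p q ∧ cs f S ≤ x

/-- the square of radius `ρ` is joined to `w` or to the outside of the square of radius `D` -/
def Le (f : Z2 → ℝ) (v : Z2) (ρ D : ℤ) (w : Z2) (x : ℝ) : Prop :=
  ∃ u u', Near ρ v u ∧ (u' = w ∨ ¬ Near D v u') ∧ Tr f (Q v (D + 1)) u u' x

/-- the crossing of an annulus of scale `j` -/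
def LL (f : Z2 → ℝ) (j : ℕ) (v : Z2) (x : ℝ) : Prop :=
  Le f v (2 ^ j) (4 * 2 ^ j) (v + ![5 * 2 ^ j, 0]) x

/-- a walk of least cost among all walks -/
def Geo (n : ℕ) (f : Z2 → ℝ) (T : ℕ) (x : ℕ → Z2) : Prop :=
  IsWalk n T x ∧ ∀ T' x', IsWalk n T' x' → cost f T x ≤ cost f T' x'

/-- a geodesic exists and every geodesic has at most `b` steps -/
def Sh (n : ℕ) (b : ℝ) (f : Z2 → ℝ) : Prop :=
  (∃ T x, Geo n f T x) ∧ ∀ T x, Geo n f T x → (T : ℝ) ≤ b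

section
variable {H : Type} [NormedAddCommGroup H] [InnerProductSpace ℝ H]

/-- bands of finite range -/
structure BF (a : ℕ → E 2 → H) (C0 : ℕ) : Prop where
  one : 1 ≤ C0
  orth : ∀ b b', b ≠ b' → ∀ x y, ⟪a b x, a b' y⟫_ℝ = 0
  far : ∀ b x y, C0 * 2 ^ b ≤ ‖x - y‖ → ⟪a b x, a b y⟫_ℝ = 0
  nrm : ∀ b x, ‖a b x‖ ≤ C0
  lip : ∀ b, 1 ≤ b → ∀ x y, ‖a b x - a b y‖ ≤ C0 * ‖x - y‖ / 2 ^ b
  rot : ∀ b x y x' y', ‖x - y‖ = ‖x' - y'‖ → ⟪a b x, a b y⟫_ℝ = ⟪a b x', a b y'⟫_ℝ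

/-- the bands up to `k` -/
noncomputable def A (a : ℕ → E 2 → H) (k : ℕ) (x : E 2) : H := ∑ b ∈ range (k + 1), a b x

/-- rescaled bands -/
structure Bd (e : ℕ → E 2 → H) (C : ℝ) : Prop where
  orth : ∀ b b', b ≠ b' → ∀ x y, ⟪e b x, e b' y⟫_ℝ = 0
  far : ∀ b x y, C * 2 ^ b ≤ ‖x - y‖ → ⟪e b x, e b y⟫_ℝ = 0
  nrm : ∀ b x, ‖e b x‖ ≤ C
  lip : ∀ b x y, ‖e b x - e b y‖ ≤ C * ‖x - y‖ / 2 ^ b

/-- the rescaled bands below `k` -/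
noncomputable def Y (e : ℕ → E 2 → H) (k : ℕ) (x : E 2) : H := ∑ b ∈ range k, e b x

/-- their span -/
def Sp (e : ℕ → E 2 → H) (k : ℕ) : Set H := ↑(Submodule.span ℝ {h | ∃ b < k, ∃ x, h = e b x})

/-- the events that depend on the values of `W` on `K` -/
@[reducible] def FK {Ω : Type} (W : H →ₗ[ℝ] (Ω → ℝ)) (K : Set H) : MeasurableSpace Ω :=
  MeasurableSpace.comap (fun ω (h : K) => W h ω) MeasurableSpace.pi

theorem meas_FK {Ω : Type} (W : H →ₗ[ℝ] (Ω → ℝ)) {K : Set H} {h : H} (hh : h ∈ K) :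
    Measurable[FK W K] (W h) :=
  (measurable_pi_apply (⟨h, hh⟩ : K)).comp (comap_measurable fun ω (h : K) => W h ω)

theorem FK_le {Ω : Type} [m : MeasurableSpace Ω] {P : Measure Ω} {W : H →ₗ[ℝ] (Ω → ℝ)}
    (hW : Iso P W) (K : Set H) : FK W K ≤ m :=
  (measurable_pi_lambda _ fun h : K => hW.meas h).comap_le

end

/-- the white noise representation of the mollified field -/
def sBF : Prop :=
  ∀ ρ : E 2 → ℝ, Test ρ → (∀ x y, ‖x‖ = ‖y‖ → ρ x = ρ y) → ∫ x, ρ x = 1 →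
    ∃ (a : ℕ → E 2 → HH 2) (C0 : ℕ), BF a C0 ∧ ∀ N : ℕ, ∃ c : Z2 → HH 2,
      (∀ v w, ‖c v - c w‖ ≤ C0 * ‖pt v - pt w‖ / 2 ^ N) ∧
      ∀ (Ω : Type) [MeasurableSpace Ω] (P : Measure Ω) [IsProbabilityMeasure P]
        (Φ : (E 2 → ℝ) → Ω → ℝ), IsLGF P Φ → ∀ (n : ℕ) (I : Finset Z2),
          GF P (fun (j : I) ω => phi Φ ρ n ω j - phi Φ ρ n ω 0)
            fun j => A a N (pt (j : Z2)) - A a N (pt 0) + c j

/-- concentration of the least cost -/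
def sMP : Prop :=
  ∀ (Ω : Type) [MeasurableSpace Ω] (P : Measure Ω) [IsProbabilityMeasure P] (H : Type)
    [NormedAddCommGroup H] [InnerProductSpace ℝ H] (W : H →ₗ[ℝ] (Ω → ℝ)), Iso P W →
    ∀ (g : Z2 → H) (Γ : Finset (Finset Z2)) (σ B η M x t : ℝ), (∀ S ∈ Γ, S.Nonempty) →
      0 ≤ σ → 0 ≤ B → 0 ≤ M → 0 < x → 2 * M ^ 2 * σ + 1 ≤ η →
      (∀ i : ℕ, P.real {ω | ∃ S ∈ Γ,
        (∀ S' ∈ Γ, cs (fun v => W (g v) ω) S ≤ cs (fun v => W (g v) ω) S') ∧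
        σ * (i + 1) < ‖∑ v ∈ S, (exp (W (g v) ω) / cs (fun v => W (g v) ω) S) • g v‖ ^ 2} ≤
          B * exp (-(η * i))) →
      P.real {ω | ∀ S ∈ Γ, x * exp t < cs (fun v => W (g v) ω) S} *
        P.real {ω | ∃ S ∈ Γ, cs (fun v => W (g v) ω) S ≤ x} ≤
          (1 + 2 * B) * exp (4 * M ^ 2 * σ - M * t)

/-- chaining -/
def sOsc : Prop :=
  ∀ (Ω : Type) [MeasurableSpace Ω] (P : Measure Ω) [IsProbabilityMeasure P] (H : Type)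
    [NormedAddCommGroup H] [InnerProductSpace ℝ H] (W : H →ₗ[ℝ] (Ω → ℝ)), Iso P W →
    ∀ (g : Z2 → H) (L s : ℝ) (t : ℕ) (z : Z2), 0 ≤ L → 0 ≤ s →
      (∀ v w, ‖g v - g w‖ ≤ L * ‖pt v - pt w‖) →
      P.real {ω | ∃ v, Near (2 ^ t) z v ∧ 40 * (L * 2 ^ t) * (1 + s) < |W (g v) ω - W (g z) ω|} ≤
        exp (-s ^ 2)

/-- moments of a sum of exponentials -/
def sGM : Prop :=
  ∀ (Ω : Type) [MeasurableSpace Ω] (P : Measure Ω) [IsProbabilityMeasure P] (H : Type)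
    [NormedAddCommGroup H] [InnerProductSpace ℝ H] (W : H →ₗ[ℝ] (Ω → ℝ)), Iso P W →
    ∀ (m p : ℕ) (g : ℕ → H) (δ Θ : ℝ), 0 < Θ → (∀ i < m, ‖g i‖ ^ 2 ≤ 2 * δ) →
      (∀ i' < m, ∑ i ∈ range m, exp (p * max 0 ⟪g i, g i'⟫_ℝ) ≤ Θ) →
      P.real {ω | exp (1 + δ) * Θ ≤ ∑ i ∈ range m, exp (W (g i) ω)} ≤ exp (-(p : ℝ))

/-- counting bad scales -/
def sCnt : Prop :=
  ∀ (Ω : Type) [MeasurableSpace Ω] (P : Measure Ω) [IsProbabilityMeasure P] (H : Type)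
    [NormedAddCommGroup H] [InnerProductSpace ℝ H] (W : H →ₗ[ℝ] (Ω → ℝ)), Iso P W →
    ∀ (K F : ℕ → Set H) (G : ℕ → ℕ → Set Ω) (M x : ℝ) (J : ℕ), 1 ≤ M → 0 ≤ x →
      (∀ j, K j ⊆ F j) → Monotone F →
      (∀ j j', j' + 2 ≤ j → ∀ h ∈ K j, ∀ h' ∈ F j', ⟪h, h'⟫_ℝ = 0) →
      (∀ j m, MeasurableSet[FK W (K j)] (G j m)) →
      (∀ j < J, ∀ m : ℕ, P.real (G j m)ᶜ ≤ exp (-(M * (m + 1)))) →
      P.real {ω | ¬ ∃ τ : ℕ → ℕ, (∀ j < J, ω ∈ G j (τ j)) ∧ ∑ j ∈ range J, (τ j : ℝ) ≤ 2 * x} ≤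
        2 * 2 ^ J * exp (-((M - 1) * x))

/-- almost straight chains see the average of the field -/
def sLow : Prop :=
  ∀ C C₁ C' : ℝ, 1 ≤ C → 1 ≤ C₁ → 1 ≤ C' → ∃ c : ℝ, 0 < c ∧
    ∀ (Ω : Type) [MeasurableSpace Ω] (P : Measure Ω) [IsProbabilityMeasure P] (H : Type)
      [NormedAddCommGroup H] [InnerProductSpace ℝ H] (W : H →ₗ[ℝ] (Ω → ℝ)), Iso P W →
      ∀ (e : ℕ → E 2 → H), Bd e C → ∀ (k : ℕ) (ξ B : ℝ) (z : Z2), 1 ≤ k → 0 < ξ → 0 ≤ B →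
        ξ ^ 2 * √k * (k + B) ≤ c → ∃ G : Set Ω, MeasurableSet[FK W (Sp e k)] G ∧
          P.real Gᶜ ≤ exp (-B) ∧ ∀ ω ∈ G, ∀ (h : ℕ) (p : ℕ → Z2),
            (∀ i ≤ 2 ^ h, Near (3 * 2 ^ k) z (p i)) →
            (∀ i < 2 ^ h, ‖pt (p (i + 1)) - pt (p i)‖ ≤ C₁) →
            (∀ i i' : ℕ, i ≤ i' → i' ≤ 2 ^ h → (i' : ℝ) - i ≤ C' * (‖pt (p i') - pt (p i)‖ + 1)) →
            -(2 : ℝ) ^ h ≤ ∑ i ∈ range (2 ^ h), ξ * W (Y e (min k h) (pt (p i))) ω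

/-- straight segments are cheap -/
def sUp : Prop :=
  ∀ C : ℝ, 1 ≤ C → ∃ c Cg : ℝ, 0 < c ∧ 1 ≤ Cg ∧
    ∀ (Ω : Type) [MeasurableSpace Ω] (P : Measure Ω) [IsProbabilityMeasure P] (H : Type)
      [NormedAddCommGroup H] [InnerProductSpace ℝ H] (W : H →ₗ[ℝ] (Ω → ℝ)), Iso P W →
      ∀ (e : ℕ → E 2 → H), Bd e C → ∀ (k : ℕ) (ξ B : ℝ) (z : Z2), 1 ≤ k → 0 < ξ → 0 ≤ B →
        ξ ^ 2 * (k + B) ≤ c → ∃ G : Set Ω, MeasurableSet[FK W (Sp e k)] G ∧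
          P.real Gᶜ ≤ exp (-B) ∧ ∀ ω ∈ G, ∀ k' ≤ k, ∀ (q : Z2) (d : Fin 2) (m : ℕ),
            (∀ i < m, Near (3 * 2 ^ k) z (q + Pi.single d (i : ℤ))) →
            ∑ i ∈ range m, exp (ξ * W (Y e k' (pt (q + Pi.single d (i : ℤ)))) ω) ≤
              Cg * (m + √(m * 2 ^ k'))

/-- a route round a hole, covered by six segments -/
def sRT : Prop :=
  ∀ (p p' z : Z2) (ρ D R : ℤ), -1 ≤ ρ → ρ + 1 ≤ R → Near D p p' → ¬ Near ρ z p → ¬ Near ρ z p' →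
    Near R z p → Near R z p' → ∃ S : Finset Z2, Cn ↑S p p' ∧
      (∀ q ∈ S, ¬ Near ρ z q ∧ Near R z q ∧ Near (D + 2 * ρ + 2) p q) ∧
      ∀ (F : Z2 → ℝ) (x : ℝ), (∀ q, 0 ≤ F q) →
        (∀ (q : Z2) (d : Fin 2) (m : ℕ), (m : ℤ) ≤ D + 2 * ρ + 3 →
          (∀ i < m, Near R z (q + Pi.single d (i : ℤ)) ∧
            Near (D + 2 * ρ + 2) p (q + Pi.single d (i : ℤ))) →
          ∑ i ∈ range m, F (q + Pi.single d (i : ℤ)) ≤ x) → ∑ q ∈ S, F q ≤ 6 * x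

/-- walks and sets -/
structure WS : Prop where
  cn : ∀ (T : ℕ) (x : ℕ → Z2), (∀ i < T, Adj (x i) (x (i + 1))) → ∀ a b s s', b ≤ T + 1 →
    s ∈ Ico a b → s' ∈ Ico a b → Cn ↑((Ico a b).image x) (x s) (x s')
  geo : ∀ (n T : ℕ) (f : Z2 → ℝ) (x : ℕ → Z2), Geo n f T x → ∀ a b y, a ≤ b → b ≤ T →
    Tr f Set.univ (x a) (x b) y → ∑ s ∈ Icc a b, exp (f (x s)) ≤ y
  root : ∀ (n : ℕ) (f : Z2 → ℝ) (R : ℤ) (y : ℝ), 2 ^ n ≤ R → Tr f Set.univ 0 ![2 ^ n, 0] y →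
    (∀ u, ¬ Near R 0 u → ¬ Tr f (Q 0 (R + 1)) 0 u y) →
    (∃ T x, Geo n f T x) ∧ ∀ T x, Geo n f T x → ∀ s ≤ T, Near R 0 (x s)

/-- measurability and equality in law -/
structure ML : Prop where
  tr : ∀ {Ω : Type} (m : MeasurableSpace Ω) (F : Ω → Z2 → ℝ) (D : Set Z2) (p q : Z2) (x : ℝ),
    (∀ v ∈ D, Measurable[m] fun ω => F ω v) → MeasurableSet[m] {ω | Tr (F ω) D p q x}
  le : ∀ {Ω : Type} (m : MeasurableSpace Ω) (F : Ω → Z2 → ℝ) (v w : Z2) (ρ D : ℤ) (x : ℝ),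
    (∀ y ∈ Q v (D + 1), Measurable[m] fun ω => F ω y) → MeasurableSet[m] {ω | Le (F ω) v ρ D w x}
  sh : ∀ (n : ℕ) (b : ℝ), MeasurableSet {f : Z2 → ℝ | Sh n b f}
  add : ∀ (n : ℕ) (b c : ℝ) (f : Z2 → ℝ), Sh n b f → Sh n b fun v => f v + c
  law : ∀ {Ω Ω' : Type} [MeasurableSpace Ω] [MeasurableSpace Ω'] {P : Measure Ω} {P' : Measure Ω'}
    [IsProbabilityMeasure P] [IsProbabilityMeasure P'] {H : Type} [NormedAddCommGroup H]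
    [InnerProductSpace ℝ H] (X : Z2 → Ω → ℝ) (X' : Z2 → Ω' → ℝ) (g g' : Z2 → H),
    (∀ I : Finset Z2, GF P (fun j : I => X j) fun j => g j) →
    (∀ I : Finset Z2, GF P' (fun j : I => X' j) fun j => g' j) →
    (∀ v w, ⟪g v, g w⟫_ℝ = ⟪g' v, g' w⟫_ℝ) → ∀ B : Set (Z2 → ℝ), MeasurableSet B →
      P {ω | (fun v => X v ω) ∈ B} = P' {ω | (fun v => X' v ω) ∈ B}
  ll : ∀ {Ω : Type} [MeasurableSpace Ω] {P : Measure Ω} [IsProbabilityMeasure P] {H : Type}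
    [NormedAddCommGroup H] [InnerProductSpace ℝ H] {W : H →ₗ[ℝ] (Ω → ℝ)}, Iso P W →
    ∀ g : Z2 → H, (∀ v w v' w', ‖pt v - pt w‖ = ‖pt v' - pt w'‖ → ⟪g v, g w⟫_ℝ = ⟪g v', g w'⟫_ℝ) →
      (∀ (j : ℕ) (v : Z2) (x : ℝ), P.real {ω | LL (fun y => W (g y) ω) j v x} =
        P.real {ω | LL (fun y => W (g y) ω) j 0 x}) ∧
      ∀ (p q v : Z2) (x : ℝ), ∃ a b : ℤ, 0 ≤ a ∧ |b| ≤ a ∧ Near a p q ∧ ¬ Near (a - 1) p q ∧
        (∀ c : ℤ, (∀ i, c ∣ q i - p i) → c ∣ a) ∧ ∀ (s : ℤ) (d d' : Fin 2), s = 1 ∨ s = -1 → d ≠ d' →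
          P.real {ω | Tr (fun y => W (g y) ω) Set.univ p q x} =
            P.real {ω | Tr (fun y => W (g y) ω) Set.univ v
              (v + Pi.single d a + Pi.single d' (s * b)) x}

end Pool.Agent.GU
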