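import Pool.Agent.Lib.MP_438f30_pr.U.Co

/-! Upper bound for the length of geodesics: statements of the main blocks. -/

namespace Pool.Agent.GU

open MeasureTheory Real Finset Filter Topology Pool.Agent.Lib.MP_a0a493_pr Pool.Agent.GL
open scoped InnerProductSpace

section
variable {Ω H : Type} [MeasurableSpace Ω] [NormedAddCommGroup H] [InnerProductSpace ℝ H]
  (P : Measure Ω) (W : H →ₗ[ℝ] (Ω → ℝ)) (a : ℕ → E 2 → H) (ξ η : ℝ) (μ : ℕ → ℝ)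

/-- `μ k` is a median up to a factor two -/
def Md (k : ℕ) : Prop :=
  0 < μ k ∧ ∀ v, 1 / 2 ≤ P.real {ω | LL (X W a ξ k ω) k v (μ k)} ∧
    1 / 2 ≤ P.real {ω | ¬ LL (X W a ξ k ω) k v (μ k / 2)}

/-- lower tail -/
def TL (k : ℕ) : Prop :=
  ∀ v (i : ℕ), P.real {ω | LL (X W a ξ k ω) k v (μ k * exp (-1 - i / 20))} ≤
    exp (-(3 * η * (1 + i)))

/-- upper tail -/
def TU (k : ℕ) : Prop :=
  ∀ v (e : Fin 2) (i : ℕ), P.real {ω | ¬ Tr (X W a ξ k ω) (Q v (2 ^ (16 + k + i / 2) + 1)) v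
    (v + Pi.single e (2 ^ k)) (900 * μ k * exp (i / 20))} ≤ exp (-(2 * η * (1 + i)))

/-- a grid edge is cheap with probability one half -/
def RS (k : ℕ) : Prop :=
  ∀ v (e : Fin 2), 1 / 2 ≤
    P.real {ω | Tr (X W a ξ k ω) Set.univ v (v + Pi.single e (2 ^ k)) (300 * μ k)}

/-- oscillation of a few bands -/
def SP : Prop :=
  ∀ (j n d : ℕ) (v : Z2) (r : ℝ), 1 / 20 ≤ r → n ≤ 100 * r →
    P.real {ω | ∃ y, Near (2 ^ (j + d)) v y ∧ r < |X W a ξ (j + n) ω y - X W a ξ j ω y|} ≤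
      300 * 4 ^ d * exp (-(10 ^ 5 * η * r))

end

/-- a statement that holds under the standing assumptions -/
def All (p : ∀ (Ω H : Type) [MeasurableSpace Ω] [NormedAddCommGroup H] [InnerProductSpace ℝ H],
    Measure Ω → (H →ₗ[ℝ] (Ω → ℝ)) → (ℕ → E 2 → H) → ℕ → ℝ → ℝ → Prop) : Prop :=
  ∀ (Ω H : Type) [MeasurableSpace Ω] [NormedAddCommGroup H] [InnerProductSpace ℝ H]
    (P : Measure Ω) [IsProbabilityMeasure P] (W : H →ₗ[ℝ] (Ω → ℝ)) (a : ℕ → E 2 → H) (C0 : ℕ)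
    (ξ η : ℝ), Su P W a C0 ξ η → p Ω H P W a C0 ξ η

def sMd : Prop := All fun _ _ _ _ _ P W a _ ξ _ => ∃ μ : ℕ → ℝ, ∀ k, Md P W a ξ μ k

def sSP : Prop := All fun _ _ _ _ _ P W a _ ξ η => SP P W a ξ η

def sNP : Prop := All fun _ _ _ _ _ P W a _ ξ η => SP P W a ξ η → ∀ (μ : ℕ → ℝ) (j k : ℕ),
  0 < μ j → TL P W a ξ η μ j → TU P W a ξ η μ j → j ≤ k → NP P W a ξ η μ k j

def sGR : Prop := All fun _ _ _ _ _ P W a _ ξ η => ∀ (μ : ℕ → ℝ) (b : ℕ),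
  (∀ k, Md P W a ξ μ k) → (∀ j < b, NP P W a ξ η μ b j) → GR μ b

def sTL : Prop := All fun _ _ _ _ _ P W a _ ξ η => ∀ (μ : ℕ → ℝ) (k : ℕ),
  Md P W a ξ μ k → (∀ j < k, NP P W a ξ η μ k j) → (∀ b < k, GR μ b) → TL P W a ξ η μ k

def sRS0 : Prop := All fun _ _ _ _ _ P W a _ ξ _ => ∀ (μ : ℕ → ℝ) (k : ℕ),
  Md P W a ξ μ k → k < 60 → RS P W a ξ μ k

def sRS : Prop := All fun _ _ _ _ _ P W a _ ξ η => SP P W a ξ η → ∀ (μ : ℕ → ℝ) (k : ℕ),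
  (∀ k, Md P W a ξ μ k) → (∀ j < k + 30, NP P W a ξ η μ (k + 30) j) → (∀ b ≤ k + 30, GR μ b) →
    TL P W a ξ η μ (k + 30) → RS P W a ξ μ (k + 60)

def sTU : Prop := All fun _ _ _ _ _ P W a _ ξ η => ∀ (μ : ℕ → ℝ) (k : ℕ),
  0 < μ k → (∀ j < k, NP P W a ξ η μ k j) → (∀ b < k, GR μ b) → TL P W a ξ η μ k →
    RS P W a ξ μ k → TU P W a ξ η μ k

/-- every part of the walk is a cheapest connection -/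
def GS (f : Z2 → ℝ) (T : ℕ) (x : ℕ → Z2) : Prop :=
  (∀ i < T, Adj (x i) (x (i + 1))) ∧ ∀ a b y, a ≤ b → b ≤ T → Tr f Set.univ (x a) (x b) y →
    ∑ s ∈ Icc a b, exp (f (x s)) ≤ y

/-- the diameter of a part of the walk -/
def Dm (x : ℕ → Z2) (a b : ℕ) (R : ℤ) : Prop := ∀ s ∈ Ico a b, ∀ s' ∈ Ico a b, Near R (x s) (x s')

/-- a part of the walk splits into at most `M` parts of diameter at most `R` -/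
def Cv (x : ℕ → Z2) (a b : ℕ) (R : ℤ) (M : ℝ) : Prop :=
  ∀ F : ℕ → ℝ, (∀ a' b', a ≤ a' → b' ≤ b → Dm x a' b' R → ∑ s ∈ Ico a' b', F s ≤ 1) →
    ∑ s ∈ Ico a b, F s ≤ M

/-- the square of scale `b + k` off the hole of scale `b` -/
def Ann (z : Z2) (b k : ℕ) : Set Z2 := Q z (4 * 2 ^ (b + k)) \ Q z (2 ^ (b + 17))

/-- the chain costs no more than straight segments near it -/
def Cp (g : Z2 → ℝ) (z : Z2) (k n m : ℕ) (p : ℕ → Z2) (C : ℝ) : Prop :=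
  (∀ l < m, Near (2 ^ k + 1) z (p l)) ∧ (∀ l, l + 1 < m → Near (2 ^ (n + 21)) (p l) (p (l + 1))) ∧
    ∀ i i', i < i' → i' < m → ∀ (D : ℤ) (y : ℝ), Near D (p i) (p i') →
      (∀ (q : Z2) (d : Fin 2) (r : ℕ), (r : ℤ) ≤ D + 2 ^ (n + 20) →
        (∀ s < r, Near (3 * 2 ^ k) z (q + Pi.single d (s : ℤ)) ∧
          Near (D + 2 ^ (n + 20)) (p i) (q + Pi.single d (s : ℤ))) →
        ∑ s ∈ range r, exp (g (q + Pi.single d (s : ℤ))) ≤ y) →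
      ∑ l ∈ Ioo i i', exp (g (p l)) ≤ C * y

/-- greedy pieces of a geodesic -/
def sBL : Prop :=
  ∀ (f F : Z2 → ℝ) (μ : ℕ → ℝ) (j n k T a b : ℕ) (x : ℕ → Z2) (z : Z2) (o : ℝ), GS f T x →
    b ≤ T + 1 → 20 ≤ k → GR μ j → NC F μ (j + n) j (Ann z (j + n) k) →
    (∀ s ∈ Ico a b, Near (2 ^ (j + n + k)) z (x s)) →
    (∀ q v, Near (4 * 2 ^ (j + n + k)) z (up j q) → Near (2 ^ (j + n + 18)) (up j q) v →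
      |f v - F v - (f (up j q) - F (up j q))| ≤ o) →
    ∃ (m : ℕ) (p : ℕ → Z2), Cv x a b (2 ^ (j + n + 20)) (m + 1) ∧
      Cp (fun q => f (up j q) - F (up j q)) (cn j z) (n + k) n m p (10 ^ 6 * exp (2 * o))

/-- chains that are almost straight see a field of average at least `-1` -/
def Lo (y : ℕ → Z2 → ℝ) (C' : ℝ) (z : Z2) (k : ℕ) : Prop :=
  ∀ (h : ℕ) (p : ℕ → Z2), (∀ i ≤ 2 ^ h, Near (3 * 2 ^ k) z (p i)) →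
    (∀ i < 2 ^ h, ‖pt (p (i + 1)) - pt (p i)‖ ≤ 2 ^ 22) →
    (∀ i i' : ℕ, i ≤ i' → i' ≤ 2 ^ h → (i' : ℝ) - i ≤ C' * (‖pt (p i') - pt (p i)‖ + 1)) →
    -(2 : ℝ) ^ h ≤ ∑ i ∈ range (2 ^ h), y (min k h) (p i)

/-- straight segments are cheap -/
def Hi (y : ℕ → Z2 → ℝ) (Cg : ℝ) (z : Z2) (k : ℕ) : Prop :=
  ∀ k' ≤ k, ∀ (q : Z2) (d : Fin 2) (m : ℕ),
    (∀ i < m, Near (3 * 2 ^ k) z (q + Pi.single d (i : ℤ))) →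
    ∑ i ∈ range m, exp (y k' (q + Pi.single d (i : ℤ))) ≤ Cg * (m + √(m * 2 ^ k'))

/-- the chord-arc bootstrap -/
def sCA : Prop :=
  ∀ Cg : ℝ, 1 ≤ Cg → ∃ C' : ℝ, 1 ≤ C' ∧ ∀ (g : Z2 → ℝ) (y : ℕ → Z2 → ℝ) (z : Z2) (k m : ℕ)
    (p : ℕ → Z2), (∀ (h : ℕ) q q', Near (3 * 2 ^ k) z q → Near (3 * 2 ^ k) z q' →
      Near (2 ^ (h + 23)) q q' → |g q' - y (min k h) q' - (g q - y (min k h) q)| ≤ 7) →
    Lo y C' z k → Hi y Cg z k → Cp g z k 0 m p (10 ^ 6 * exp 14) → (m : ℝ) ≤ 10 * C' * 2 ^ k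

/-- the bands of a block are regular -/
structure BG (F : ℕ → Z2 → ℝ) (Cg C' : ℝ) (z : Z2) (b k : ℕ) : Prop where
  osc : ∀ k' ≤ k, ∀ q v, Near (4 * 2 ^ (b + k)) z (up b q) → Near (2 ^ (b + k' + 23)) (up b q) v →
    |F (b + k) v - F (b + k') v - (F (b + k) (up b q) - F (b + k') (up b q))| ≤ 1
  lo : Lo (fun k' q => F (b + k') (up b q) - F b (up b q)) C' (cn b z) k
  hi : Hi (fun k' q => F (b + k') (up b q) - F b (up b q)) Cg (cn b z) k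

/-- a good block -/
def GB (Cg C' : ℝ) : Prop :=
  ∀ (f : Z2 → ℝ) (F : ℕ → Z2 → ℝ) (μ : ℕ → ℝ) (c k T a b : ℕ) (x : ℕ → Z2) (z : Z2), GS f T x →
    b ≤ T + 1 → 20 ≤ k → GR μ c → NI (F c) μ c 0 (Ann z c k) → BG F Cg C' z c k →
    (∀ v, Near (2 ^ (c + k + 3)) z v → |f v - F (c + k) v - (f z - F (c + k) z)| ≤ 3) →
    (∀ s ∈ Ico a b, Near (2 ^ (c + k)) z (x s)) → Cv x a b (2 ^ (c + 20)) (11 * C' * 2 ^ k)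

def sGB : Prop := ∀ Cg : ℝ, 1 ≤ Cg → ∃ C' : ℝ, 1 ≤ C' ∧ GB Cg C'

/-- any block -/
def sBM : Prop :=
  ∀ (f F : Z2 → ℝ) (μ : ℕ → ℝ) (c k m T a b : ℕ) (x : ℕ → Z2) (z : Z2) (o : ℝ), GS f T x →
    b ≤ T + 1 → 20 ≤ k → 0 ≤ o → (∀ j, GR μ j) → NI F μ c m (Ann z c k) →
    (∀ v, Near (2 ^ (c + k + 3)) z v → |f v - F v - (f z - F z)| ≤ o) →
    (∀ s ∈ Ico a b, Near (2 ^ (c + k)) z (x s)) →
    Cv x a b (2 ^ (c + 20)) (10 ^ 7 * exp (6 * o) * 4 ^ (k + m))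

/-- the ladder of blocks -/
def sLad : Prop :=
  ∀ (x : ℕ → Z2) (R : ℕ → ℤ) (T I J : ℕ) (M₀ κ L B : ℝ) (ex : ℕ → ℕ → ℝ) (bd : ℕ → ℕ → ℕ → ℝ),
    0 < M₀ → 0 ≤ κ → 0 ≤ L → (∀ j s, 0 ≤ ex j s) → (∀ i j s, 0 ≤ bd i j s) →
    (∀ a b, b ≤ T + 1 → Dm x a b (R 0) → ((b - a : ℕ) : ℝ) ≤ M₀) →
    (∀ j < J * 2 ^ I, ∀ a b, b ≤ T + 1 → Dm x a b (R (j + 1)) → ∀ s ∈ Ico a b,
      Cv x a b (R j) (exp (κ + L + ex j s))) →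
    (∀ i ∈ Icc 1 I, ∀ j < J * 2 ^ (I - i), ∀ a b, b ≤ T + 1 → Dm x a b (R ((j + 1) * 2 ^ i)) →
      ∀ s ∈ Ico a b, bd i j s < 1 → Cv x a b (R (j * 2 ^ i)) (exp (κ * 2 ^ i + L))) →
    Dm x 0 (T + 1) (R (J * 2 ^ I)) →
    (∀ s ≤ T, ∑ j ∈ range (J * 2 ^ I), ex j s +
      L * ∑ i ∈ Icc 1 I, ∑ j ∈ range (J * 2 ^ (I - i)), bd i j s ≤ B) →
    (T : ℝ) + 1 ≤ M₀ * exp (J * (κ * 2 ^ I + L) + B)

/-- few scales have bad sites -/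
def EN (F : ℕ → Z2 → ℝ) (μ : ℕ → ℝ) (κ J : ℕ) (x : ℝ) (z : Z2) : Prop :=
  ∃ τ : ℕ → ℕ, (∀ j < J, NI (F (j * κ)) μ (j * κ) (τ j) (Ann z (j * κ) (κ + 20))) ∧
    ∑ j ∈ range J, (τ j : ℝ) ≤ x

/-- few blocks oscillate -/
def EM (F : ℕ → Z2 → ℝ) (κ J : ℕ) (x : ℝ) (z : Z2) : Prop :=
  ∃ τ : ℕ → ℕ, (∀ j < J, ∀ v, Near (2 ^ (j * κ + (κ + 20) + 3)) z v →
    |F (j * κ + (κ + 20)) v - F (j * κ) v - (F (j * κ + (κ + 20)) z - F (j * κ) z)| ≤ 1 + τ j) ∧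
    ∑ j ∈ range J, (τ j : ℝ) ≤ x

/-- few blocks are irregular -/
def EB (F : ℕ → Z2 → ℝ) (Cg C' : ℝ) (κ J : ℕ) (x : ℝ) (z : Z2) : Prop :=
  ∃ τ : ℕ → ℕ, (∀ j < J, τ j = 0 → BG F Cg C' z (j * κ) (κ + 20)) ∧ ∑ j ∈ range J, (τ j : ℝ) ≤ x

/-- the coarse field oscillates at few scales -/
def EH (f : Z2 → ℝ) (F : ℕ → Z2 → ℝ) (t₀ : ℕ) (o x : ℝ) (z : Z2) : Prop :=
  ∃ τ : ℕ → ℝ, (∀ t, 0 ≤ τ t) ∧ ∑ t ∈ range (t₀ + 1), τ t ≤ x ∧ ∀ t ≤ t₀, ∀ v,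
    Near (2 ^ (t + 3)) z v → |f v - F t v - (f z - F t z)| ≤ o + τ t

/-- the length of a geodesic in a good environment -/
def sDet : Prop :=
  ∀ (f : Z2 → ℝ) (F : ℕ → Z2 → ℝ) (μ xb : ℕ → ℝ) (Cg C' L x₀ : ℝ) (κ I J T : ℕ) (x : ℕ → Z2),
    GB Cg C' → 1 ≤ κ → 11 * C' * 2 ^ 20 ≤ exp L → (κ : ℝ) + 70 ≤ L → 1 ≤ C' → (∀ j, GR μ j) →
    GS f T x → Dm x 0 (T + 1) (2 ^ (J * 2 ^ I * κ + 20)) →
    (∀ s ≤ T, EH f F (J * 2 ^ I * κ + 20) 2 x₀ (x s) ∧ EM F κ (J * 2 ^ I) x₀ (x s) ∧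
      (∀ i ≤ I, EN F μ (2 ^ i * κ) (J * 2 ^ (I - i)) x₀ (x s)) ∧
      ∀ i ∈ Icc 1 I, EB F Cg C' (2 ^ i * κ) (J * 2 ^ (I - i)) (xb i) (x s)) →
    (T : ℝ) + 1 ≤ 9 * 4 ^ 20 * exp (J * (κ * log 2 * 2 ^ I + L) +
      (14 * x₀ + L * (∑ i ∈ Icc 1 I, xb i + 2 * I * x₀)))

def sEH : Prop := All fun _ _ _ _ _ P W a _ ξ η => ∀ (N t₀ : ℕ) (x : ℝ) (z : Z2), t₀ ≤ N → 0 ≤ x →
  P.real {ω | ¬ EH (X W a ξ N ω) (fun k => X W a ξ k ω) t₀ 1 (2 * x) z} ≤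
    2 * 2 ^ (N + 1) * exp (-((η - 1) * x))

def sEN : Prop := All fun _ _ _ _ _ P W a C0 ξ η => ∀ (μ : ℕ → ℝ) (κ J : ℕ) (x : ℝ) (z : Z2),
  (∀ k, ∀ j ≤ k, NP P W a ξ η μ k j) → C0 + 24 ≤ κ → 3 * ((κ : ℝ) + 25) ≤ η → 0 ≤ x →
  P.real {ω | ¬ EN (fun k => X W a ξ k ω) μ κ J (2 * x) z} ≤ 2 * 2 ^ J * exp (-((η / 2 - 1) * x))

def sEM : Prop := All fun _ _ _ _ _ P W a C0 ξ η => ∀ (κ J : ℕ) (x : ℝ) (z : Z2),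
  20 ≤ κ → ξ ^ 2 * C0 ^ 2 * 4 ^ κ * η ≤ 1 / 10 ^ 20 → 0 ≤ x →
  P.real {ω | ¬ EM (fun k => X W a ξ k ω) κ J (2 * x) z} ≤ 2 * 2 ^ J * exp (-((η - 1) * x))

def sEB : Prop :=
  ∀ C : ℕ, ∃ Cg : ℝ, 1 ≤ Cg ∧ ∀ C' : ℝ, 1 ≤ C' → ∃ c : ℝ, 0 < c ∧
    All fun _ _ _ _ _ P W a C0 ξ _ => C0 = C → ∀ (κ J : ℕ) (B x : ℝ) (z : Z2), 20 ≤ κ → 1 ≤ B →
      0 ≤ x → ξ ^ 2 * √(κ + 20) * (κ + 20 + B) ≤ c →
      P.real {ω | ¬ EB (fun k => X W a ξ k ω) Cg C' κ J (2 * x) z} ≤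
        2 * 2 ^ J * exp (-((B - 1) * x))

/-- geodesics exist and stay in a box -/
def sRoot : Prop := All fun _ H _ _ _ P W a C0 ξ η => ∀ (μ : ℕ → ℝ) (n n' N : ℕ) (c : Z2 → H),
  0 < μ n → NP P W a ξ η μ (n + n') n → 60 ≤ n' → n + n' ≤ N →
  (∀ v w, ‖c v - c w‖ ≤ C0 * ‖pt v - pt w‖ / 2 ^ N) →
  P.real {ω | ¬ ((∃ T x, Geo n (fun v => W (ξ • (A a N (pt v) + c v)) ω) T x) ∧
    ∀ T x, Geo n (fun v => W (ξ • (A a N (pt v) + c v)) ω) T x → ∀ s ≤ T,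
      Near (2 ^ (n + n')) 0 (x s))} ≤ 2 * exp (-(n' : ℝ))

/-- the theorem for the white noise model -/
def sMod : Prop :=
  ∀ C0 : ℕ, ∃ C ξ₀ : ℝ, 0 < C ∧ 0 < ξ₀ ∧
    ∀ (Ω H : Type) [MeasurableSpace Ω] [NormedAddCommGroup H] [InnerProductSpace ℝ H]
      (P : Measure Ω) [IsProbabilityMeasure P] (W : H →ₗ[ℝ] (Ω → ℝ)) (a : ℕ → E 2 → H),
      Iso P W → BF a C0 → ∀ ξ : ℝ, 0 < ξ → ξ ≤ ξ₀ → ∀ c : ℕ → Z2 → H,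
        (∀ n v w, ‖c n v - c n w‖ ≤ C0 * ‖pt v - pt w‖ / 2 ^ (3 * n)) →
        Tendsto (fun n : ℕ => P.real {ω | ¬ Sh n (2 ^ ((1 + C * ξ ^ (4 / 3 : ℝ)) * n))
          fun v => W (ξ • (A a (3 * n) (pt v) + c n v)) ω}) atTop (𝓝 0)

/-- the theorem for the mollified free field -/
def sTop : Prop :=
  ∀ ρ : E 2 → ℝ, Test ρ → (∀ x y, ‖x‖ = ‖y‖ → ρ x = ρ y) → ∫ x, ρ x = 1 →
    ∃ C ξ₀ : ℝ, 0 < C ∧ 0 < ξ₀ ∧ ∀ (Ω : Type) [MeasurableSpace Ω] (P : Measure Ω)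
      [IsProbabilityMeasure P] (Φ : (E 2 → ℝ) → Ω → ℝ), IsLGF P Φ → ∀ ξ : ℝ, 0 < ξ → ξ ≤ ξ₀ →
        Tendsto (fun n : ℕ => P {ω | ¬ Sh n (2 ^ ((1 + C * ξ ^ (4 / 3 : ℝ)) * n))
          fun v => ξ * phi Φ ρ n ω v}) atTop (𝓝 0)

end Pool.Agent.GU
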