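import Pool.Agent.Lib.MP_438f30_pr.U.St2

/-! Tightness at all scales, and the union over the box. -/

namespace Pool.Agent.GU

open MeasureTheory Real Finset Filter Topology Pool.Agent.Lib.MP_a0a493_pr Pool.Agent.GL

def sTight : Prop := All fun _ _ _ _ _ P W a _ ξ η =>
  ∃ μ : ℕ → ℝ, (∀ b, GR μ b) ∧ ∀ k, ∀ j ≤ k, NP P W a ξ η μ k j

theorem tight (h1 : sMd) (h2 : sSP) (h3 : sNP) (h4 : sGR) (h5 : sTL) (h6 : sRS0) (h7 : sRS)
    (h8 : sTU) : sTight := by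
  intro Ω H _ _ _ P _ W a C0 ξ η h
  obtain ⟨μ, md⟩ := h1 Ω H P W a C0 ξ η h
  have sp := h2 Ω H P W a C0 ξ η h
  have key : ∀ k, TL P W a ξ η μ k ∧ TU P W a ξ η μ k := fun k => by
    induction k using Nat.strong_induction_on with
    | _ k ih =>
      have np : ∀ b, ∀ j < k, j ≤ b → NP P W a ξ η μ b j := fun b j hj hb =>
        h3 Ω H P W a C0 ξ η h sp μ j b (md j).1 (ih j hj).1 (ih j hj).2 hb
      have gr : ∀ b ≤ k, GR μ b := fun b hb =>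
        h4 Ω H P W a C0 ξ η h μ b md fun j hj => np b j (by omega) hj.le
      have tl := h5 Ω H P W a C0 ξ η h μ k (md k) (fun j hj => np k j hj hj.le)
        fun b hb => gr b hb.le
      refine ⟨tl, h8 Ω H P W a C0 ξ η h μ k (md k).1 (fun j hj => np k j hj hj.le)
        (fun b hb => gr b hb.le) tl ?_⟩
      rcases lt_or_ge k 60 with hk | hk
      · exact h6 Ω H P W a C0 ξ η h μ k (md k) hk
      · obtain ⟨k, rfl⟩ := Nat.exists_eq_add_of_le' hk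
        exact h7 Ω H P W a C0 ξ η h sp μ k md (fun j hj => np _ j (by omega) hj.le)
          (fun b hb => gr b (by omega)) (ih _ (by omega)).1
  have np : ∀ k, ∀ j ≤ k, NP P W a ξ η μ k j := fun k j hj =>
    h3 Ω H P W a C0 ξ η h sp μ j k (md j).1 (key j).1 (key j).2 hj
  exact ⟨μ, fun b => h4 Ω H P W a C0 ξ η h μ b md fun j hj => np b j hj.le, np⟩

theorem sum_sqrt (I : ℕ) : ∑ i ∈ Icc 1 I, √((2 : ℝ) ^ i) ≤ 4 * √(2 ^ I) := by
  induction I with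
  | zero => simp
  | succ I ih =>
    rw [sum_Icc_succ_top (by omega), pow_succ, sqrt_mul (by positivity)]
    have a : (4 / 3 : ℝ) ≤ √2 := le_sqrt_of_sq_le (by norm_num)
    nlinarith [sqrt_nonneg ((2 : ℝ) ^ I)]

theorem prob_or {Ω : Type} [MeasurableSpace Ω] (P : Measure Ω) [IsProbabilityMeasure P]
    {p q : Ω → Prop} {x y : ℝ} (h : P.real {ω | ¬ p ω} ≤ x) (h' : P.real {ω | ¬ q ω} ≤ y) :
    P.real {ω | ¬ (p ω ∧ q ω)} ≤ x + y :=
  (pmono fun _ k => not_and_or.1 k).trans ((measureReal_union_le _ _).trans (add_le_add h h'))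

theorem prob_all {Ω ι : Type} [MeasurableSpace Ω] (P : Measure Ω) [IsProbabilityMeasure P]
    (I : Finset ι) {p : ι → Ω → Prop} {x : ℝ} (h : ∀ i ∈ I, P.real {ω | ¬ p i ω} ≤ x) :
    P.real {ω | ¬ ∀ i ∈ I, p i ω} ≤ I.card * x :=
  (pmono fun _ k => by simpa using k).trans (prob_fin P I _ h)

/-- the choice of the parameters -/
theorem par {c c₁ L δ x : ℝ} {κ I n : ℕ} (hc : 0 < c) (hc₁ : 0 < c₁) (hL : 0 ≤ L) (hκ : 20 ≤ κ)
    (d1 : δ ≤ 1) (x0 : 0 < x) (x1 : x ≤ 1) (x2 : x ≤ c₁ / 100) (x3 : x ≤ c / 4) (d0 : 0 < δ)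
    (hI : 2 * κ * 2 ^ I ≤ δ ^ 2 / x ^ 4) :
    (∀ i ≤ I, √((2 ^ i * κ : ℕ) + 20) ≤ δ / x ^ 2 ∧
      2 ≤ c / (2 * x ^ 6 * √((2 ^ i * κ : ℕ) + 20))) ∧
    14 * (2 * (7 * n / (c₁ / x ^ 6 / 2 - 1))) + L * (∑ i ∈ Icc 1 I,
      2 * (7 * n / (c / (2 * x ^ 6 * √((2 ^ i * κ : ℕ) + 20)) - 1)) +
        2 * I * (2 * (7 * n / (c₁ / x ^ 6 / 2 - 1)))) ≤
      (784 / c₁ + L * (224 / c + 448 / c₁)) * (x ^ 4 * n) := by
  have k0 : (20 : ℝ) ≤ κ := by exact_mod_cast hκ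
  have n0 : (0 : ℝ) ≤ n := Nat.cast_nonneg n
  have a0 : ∀ i : ℕ, √((2 ^ i * κ : ℕ) + 20) ≤ √(2 * κ) * √(2 ^ i) := fun i => by
    rw [← sqrt_mul (by positivity)]
    refine sqrt_le_sqrt ?_
    push_cast
    nlinarith [one_le_pow₀ (n := i) (one_le_two (α := ℝ))]
  have a1 : √(2 * κ) * √(2 ^ I) ≤ δ / x ^ 2 := by
    rw [← sqrt_mul (by positivity)]
    exact sqrt_le_iff.2 ⟨by positivity, by rw [div_pow, ← pow_mul]; exact hI⟩
  have a2 : δ / x ^ 2 ≤ 1 / x ^ 2 := by gcongr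
  have a3 : ∀ i : ℕ, 1 ≤ √((2 ^ i * κ : ℕ) + 20 : ℝ) := fun i =>
    one_le_sqrt.2 (by linarith [Nat.cast_nonneg (α := ℝ) (2 ^ i * κ)])
  have b : ∀ i ≤ I, √((2 ^ i * κ : ℕ) + 20) ≤ δ / x ^ 2 ∧
      2 ≤ c / (2 * x ^ 6 * √((2 ^ i * κ : ℕ) + 20)) := fun i hi => by
    have b1 := (a0 i).trans ((mul_le_mul_of_nonneg_left (sqrt_le_sqrt
      (pow_le_pow_right₀ one_le_two hi)) (sqrt_nonneg _)).trans a1)
    refine ⟨b1, ?_⟩
    rw [le_div_iff₀ (by have := a3 i; positivity)]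
    have b2 := mul_le_mul_of_nonneg_left (b1.trans a2) (show 0 ≤ x ^ 6 by positivity)
    rw [show x ^ 6 * (1 / x ^ 2) = x ^ 4 by field_simp] at b2
    linarith [pow_le_of_le_one x0.le x1 (show 4 ≠ 0 by norm_num)]
  refine ⟨b, ?_⟩
  have q : ∀ B : ℝ, 2 ≤ B → 2 * (7 * n / (B - 1)) ≤ 28 * n / B := fun B hB => by
    rw [← mul_div_assoc, div_le_div_iff₀ (by linarith) (by linarith)]
    nlinarith
  have x6 := pow_le_of_le_one x0.le x1 (show 6 ≠ 0 by norm_num)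
  have s0 := q (c₁ / x ^ 6 / 2) (by rw [div_div, le_div_iff₀ (by positivity)]; linarith)
  rw [show 28 * n / (c₁ / x ^ 6 / 2) = 56 / c₁ * (x ^ 4 * n) * x ^ 2 by field_simp; ring] at s0
  have s1 : ∑ i ∈ Icc 1 I, √((2 ^ i * κ : ℕ) + 20 : ℝ) ≤ 4 / x ^ 2 := by
    refine (sum_le_sum fun i _ => a0 i).trans ?_
    rw [← mul_sum]
    have := mul_le_mul_of_nonneg_left (sum_sqrt I) (sqrt_nonneg (2 * (κ : ℝ)))
    rw [div_eq_mul_one_div]
    linarith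
  have s2 : (I : ℝ) * x ^ 2 ≤ 4 := by
    have := card_nsmul_le_sum (Icc 1 I) _ _ fun i _ => a3 i
    rw [Nat.card_Icc, nsmul_eq_mul, mul_one, Nat.add_sub_cancel] at this
    exact (le_div_iff₀ (by positivity)).1 (this.trans s1)
  have s3 : ∑ i ∈ Icc 1 I, 2 * (7 * n / (c / (2 * x ^ 6 * √((2 ^ i * κ : ℕ) + 20)) - 1)) ≤
      224 / c * (x ^ 4 * n) := by
    refine (sum_le_sum (g := fun i => 56 * n * x ^ 6 / c * √((2 ^ i * κ : ℕ) + 20)) fun i hi =>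
      (q _ (b i (mem_Icc.1 hi).2).2).trans (le_of_eq ?_)).trans ?_
    · have := a3 i
      field_simp
      ring
    · rw [← mul_sum]
      refine (mul_le_mul_of_nonneg_left s1 (by positivity)).trans (le_of_eq ?_)
      field_simp
      ring
  obtain ⟨y, hy⟩ : ∃ y, y = 56 / c₁ * (x ^ 4 * n) := ⟨_, rfl⟩
  have y0 : 0 ≤ y := by rw [hy]; positivity
  rw [← hy] at s0
  have s4 := mul_le_mul_of_nonneg_left s0 (show (0 : ℝ) ≤ 2 * I by positivity)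
  have s5 := mul_le_mul_of_nonneg_left s2 y0
  have s6 := mul_le_mul_of_nonneg_left (pow_le_one₀ x0.le x1 (n := 2)) y0
  have e : (784 / c₁ + L * (224 / c + 448 / c₁)) * (x ^ 4 * n) =
      14 * y + L * (224 / c * (x ^ 4 * n) + 8 * y) := by rw [hy]; ring
  rw [e]
  exact add_le_add (by linarith) (mul_le_mul_of_nonneg_left (by linarith) hL)

end Pool.Agent.GU
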