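import Pool.Agent.Lib.MP_438f30_pr.U.St2
import Pool.Agent.Lib.MP_438f30_pr.U.Bf

/-! Upper bound for the length of geodesics: from the white noise model to the free field. -/

namespace Pool.Agent.GU

open MeasureTheory Real Finset Filter Topology Pool.Agent.Lib.MP_a0a493_pr Pool.Agent.GL
open scoped InnerProductSpace

theorem sh_iff (ml : ML) (n : ℕ) (b c : ℝ) {f g : Z2 → ℝ} (h : ∀ v, g v = f v + c) :
    Sh n b f ↔ Sh n b g := by
  refine ⟨fun k => ?_, fun k => ?_⟩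
  · rw [show g = fun v => f v + c from funext h]
    exact ml.add n b c f k
  · rw [show f = fun v => g v + -c from funext fun v => by rw [h]; ring]
    exact ml.add n b (-c) g k

theorem top (hm : sMod) (ml : ML) : sTop := by
  intro ρ h hr h1
  obtain ⟨a, C0, hB, hc⟩ := bf ρ h hr h1
  choose c hc1 hc2 using hc
  obtain ⟨C, ξ₀, hC, hξ₀, hM⟩ := hm C0
  obtain ⟨Ω', _, P', _, W, hW⟩ := exists_iso (HH 2)
  refine ⟨C, ξ₀, hC, hξ₀, fun Ω _ P _ Φ hΦ ξ hξ hξ' => ?_⟩
  have t := hM Ω' (HH 2) P' W a hW hB ξ hξ hξ' (fun n => c (3 * n)) fun n => hc1 (3 * n)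
  rw [← ENNReal.tendsto_toReal_iff (fun n => measure_ne_top _ _) ENNReal.zero_ne_top,
    ENNReal.toReal_zero]
  refine t.congr fun n => ?_
  set b : ℝ := 2 ^ ((1 + C * ξ ^ (4 / 3 : ℝ)) * n)
  have hm : MeasurableSet {f : Z2 → ℝ | ¬ Sh n b fun v => ξ * f v} :=
    ((measurable_pi_lambda (fun (f : Z2 → ℝ) v => ξ * f v) fun v => by fun_prop)
      (ml.sh n b)).compl
  have e := ml.law (P := P) (P' := P') (fun v ω => phi Φ ρ n ω v - phi Φ ρ n ω 0)
    (fun v => W (A a (3 * n) (pt v) - A a (3 * n) (pt 0) + c (3 * n) v))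
    (fun v => A a (3 * n) (pt v) - A a (3 * n) (pt 0) + c (3 * n) v)
    (fun v => A a (3 * n) (pt v) - A a (3 * n) (pt 0) + c (3 * n) v)
    (fun I => hc2 (3 * n) Ω P Φ hΦ n I) (fun I => hW.gf _) (fun _ _ => rfl) _ hm
  simp only [Set.mem_ofPred_eq] at e
  rw [measureReal_def]
  congr 1
  refine Eq.trans ?_ (e.symm.trans ?_)
  · refine congrArg _ (Set.ext fun ω => not_congr (sh_iff ml n b
      (-(ξ * W (A a (3 * n) (pt 0)) ω)) fun v => ?_))
    simp only [map_smul, map_add, map_sub, Pi.smul_apply, Pi.add_apply, Pi.sub_apply, smul_eq_mul]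
    ring
  · refine congrArg _ (Set.ext fun ω => not_congr (sh_iff ml n b (ξ * phi Φ ρ n ω 0) fun v => ?_))
    ring

end Pool.Agent.GU
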